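import Mathlib
import Pool.Agent.H499R2.CO.D

/-! Sampling principle, part Q: passage to the natural numbers, to `log n`, and discrepancies. -/

set_option autoImplicit false

namespace Pool.Agent.R344.SP

open Finset
open Pool.Agent.H499R2.CO (Tz)

theorem Tz_cast {T : ℕ → ℕ} (hT : ∀ n, T n = if n % 2 = 0 then n / 2 else (3 * n + 1) / 2) (n : ℕ) :
    Tz 1 (n : ℤ) = (T n : ℕ) := by
  rw [hT]
  unfold Tz
  by_cases h : n % 2 = 0
  · rw [if_pos (by omega), if_pos h]; push_cast; rfl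
  · rw [if_neg (by omega), if_neg h]; push_cast; rfl

theorem iter_cast {T : ℕ → ℕ} (hT : ∀ n, T n = if n % 2 = 0 then n / 2 else (3 * n + 1) / 2) :
    ∀ (k n : ℕ), (Tz 1)^[k] (n : ℤ) = (T^[k] n : ℕ)
  | 0, n => rfl
  | k + 1, n => by
    rw [Function.iterate_succ_apply, Tz_cast hT, iter_cast hT k, Function.iterate_succ_apply]

/-- the negative integers: `Tz (-1)` on the positive integers is the map `-T(-n)` -/
theorem Tz_cast_neg {T : ℕ → ℕ} (hT : ∀ n, T n = if n % 2 = 0 then n / 2 else (3 * n - 1) / 2) (n : ℕ) :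
    Tz (-1) (n : ℤ) = (T n : ℕ) := by
  rw [hT]
  unfold Tz
  by_cases h : n % 2 = 0
  · rw [if_pos (by omega), if_pos h]; push_cast; rfl
  · rw [if_neg (by omega), if_neg h]
    have : ((3 * n - 1 : ℕ) : ℤ) = 3 * (n : ℤ) - 1 := by omega
    rw [Int.natCast_div, this]
    rfl

theorem kappa_bridge {κ : ℝ} (hκ : κ < 2 / Real.log (4 / 3)) : ∃ κ' : ℝ, 0 < κ' ∧ κ ≤ κ' ∧
    κ' * (Real.log 2 - Real.log 3 / 2) < 1 := by
  have h4 : Real.log (4 / 3) = 2 * (Real.log 2 - Real.log 3 / 2) := by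
    rw [Real.log_div (by norm_num) (by norm_num), show (4 : ℝ) = 2 ^ 2 by norm_num, Real.log_pow]
    push_cast; ring
  have h0 : 0 < Real.log (4 / 3) := Real.log_pos (by norm_num)
  have h1 : Real.log (4 / 3) < 1 := by
    have h2 : Real.log (4 / 3 : ℝ) < 4 / 3 - 1 := Real.log_lt_sub_one_of_pos (by norm_num) (by norm_num)
    linarith
  rw [lt_div_iff₀ h0] at hκ
  refine ⟨max κ 1, by positivity, le_max_left _ _, ?_⟩
  rcases max_cases κ 1 with ⟨h, _⟩ | ⟨h, _⟩ <;> rw [h]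
  · nlinarith
  · nlinarith

/-- passage from `ε log N` to `ε log n` -/
theorem finish' {α : Type*} {κ κ' : ℝ} (hκ : κ ≤ κ') (D : α → ℕ → ℕ → ℝ → Prop)
    (hD : ∀ a n t c c', c' ≤ c → D a n t c → D a n t c') {ε : ℝ} (hε : 0 < ε)
    (h : ∃ N₀ : ℕ, ∀ N ≥ N₀, ∀ a : α, ∀ S : Finset ℕ,
      (∀ n ∈ S, 1 ≤ n ∧ n ≤ N ∧ ∃ t : ℕ, (t : ℝ) ≤ κ' * Real.log n ∧ D a n t (ε / 2 * Real.log N)) →
        (S.card : ℝ) ≤ ε / 2 * N) :
    ∃ N₀ : ℕ, ∀ N ≥ N₀, ∀ a : α,
      (Set.ncard {n : ℕ | 1 ≤ n ∧ n ≤ N ∧ ∃ t : ℕ, (t : ℝ) ≤ κ * Real.log n ∧ D a n t (ε * Real.log n)} : ℝ)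
        ≤ ε * N := by
  classical
  obtain ⟨N₀, hN₀⟩ := h
  obtain ⟨M, hM⟩ := exists_nat_ge (16 / ε ^ 2)
  refine ⟨max N₀ (max M 1), fun N hN a => ?_⟩
  have hN1 : 1 ≤ N := le_trans (le_trans (le_max_right _ _) (le_max_right _ _)) hN
  have hNM : M ≤ N := le_trans (le_trans (le_max_left _ _) (le_max_right _ _)) hN
  have hN0 : N₀ ≤ N := le_trans (le_max_left _ _) hN
  set B : Set ℕ := {n : ℕ | 1 ≤ n ∧ n ≤ N ∧ ∃ t : ℕ, (t : ℝ) ≤ κ * Real.log n ∧ D a n t (ε * Real.log n)}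
    with hB
  set S : Finset ℕ := (Finset.Icc 1 N).filter (fun n => n ∈ B) with hS
  have hBS : B = (S : Set ℕ) := by
    ext n
    rw [hS, Finset.coe_filter]
    simp only [Finset.mem_Icc, Set.mem_ofPred_eq]
    constructor
    · intro h; exact ⟨⟨h.1, h.2.1⟩, h⟩
    · intro h; exact h.2
  rw [hBS, Set.ncard_coe_finset]
  have hsplit : S ⊆ S.filter (fun n => N < n * n) ∪ Finset.Icc 1 (Nat.sqrt N) := by
    intro n hn
    rw [Finset.mem_union, Finset.mem_filter]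
    by_cases hnn : N < n * n
    · exact Or.inl ⟨hn, hnn⟩
    · right
      rw [Finset.mem_Icc]
      rw [hS, Finset.mem_filter, Finset.mem_Icc] at hn
      exact ⟨hn.1.1, Nat.le_sqrt.2 (by omega)⟩
  have h1 : ((S.filter (fun n => N < n * n)).card : ℝ) ≤ ε / 2 * N := by
    apply hN₀ N hN0 a
    intro n hn
    rw [Finset.mem_filter] at hn
    obtain ⟨hnS, hnn⟩ := hn
    rw [hS, Finset.mem_filter] at hnS
    obtain ⟨_, h2, h3, t, ht, hbig⟩ := hnS
    have hn0 : (0 : ℝ) < n := by exact_mod_cast (by omega : 0 < n)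
    have hlog : Real.log N ≤ 2 * Real.log n := by
      have : Real.log N ≤ Real.log ((n : ℝ) * n) := by
        apply Real.log_le_log (by exact_mod_cast hN1)
        exact_mod_cast hnn.le
      rw [Real.log_mul hn0.ne' hn0.ne'] at this
      linarith
    have hlogn : 0 ≤ Real.log n := Real.log_nonneg (by exact_mod_cast h2)
    refine ⟨h2, h3, t, ht.trans (mul_le_mul_of_nonneg_right hκ hlogn), ?_⟩
    refine hD _ _ _ _ _ ?_ hbig
    nlinarith
  have h2 : ((Finset.Icc 1 (Nat.sqrt N)).card : ℝ) ≤ ε / 2 * N := by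
    rw [Nat.card_Icc, Nat.add_sub_cancel]
    have hs : (Nat.sqrt N : ℝ) ≤ Real.sqrt N := Real.nat_sqrt_le_real_sqrt
    refine hs.trans ?_
    rw [Real.sqrt_le_left (by positivity)]
    have h3 : 16 / ε ^ 2 ≤ N := hM.trans (by exact_mod_cast hNM)
    rw [div_le_iff₀ (by positivity)] at h3
    have h4 : (0 : ℝ) < N := by exact_mod_cast hN1
    nlinarith
  calc (S.card : ℝ) ≤ ((S.filter (fun n => N < n * n) ∪ Finset.Icc 1 (Nat.sqrt N)).card : ℝ) := by
        exact_mod_cast Finset.card_le_card hsplit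
    _ ≤ ((S.filter (fun n => N < n * n)).card : ℝ) + ((Finset.Icc 1 (Nat.sqrt N)).card : ℝ) := by
        exact_mod_cast Finset.card_union_le _ _
    _ ≤ ε * N := by linarith

theorem finish {α : Type*} {κ κ' : ℝ} (hκ : κ ≤ κ') (D : α → ℕ → ℕ → ℝ) {ε : ℝ} (hε : 0 < ε)
    (h : ∃ N₀ : ℕ, ∀ N ≥ N₀, ∀ a : α, ∀ S : Finset ℕ,
      (∀ n ∈ S, 1 ≤ n ∧ n ≤ N ∧ ∃ t : ℕ, (t : ℝ) ≤ κ' * Real.log n ∧ ε / 2 * Real.log N < D a n t) →
        (S.card : ℝ) ≤ ε / 2 * N) :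
    ∃ N₀ : ℕ, ∀ N ≥ N₀, ∀ a : α,
      (Set.ncard {n : ℕ | 1 ≤ n ∧ n ≤ N ∧ ∃ t : ℕ, (t : ℝ) ≤ κ * Real.log n ∧ ε * Real.log n < D a n t} : ℝ)
        ≤ ε * N :=
  finish' hκ (fun a n t c => c < D a n t) (fun _ _ _ _ _ h1 h2 => lt_of_le_of_lt h1 h2) hε h

/-- the number of the `k ∈ K` with `u ≤ x k < v` -/
noncomputable def cnt (x : ℕ → ℝ) (K : Finset ℕ) (u v : ℝ) : ℝ :=
  ∑ k ∈ K, if u ≤ x k ∧ x k < v then 1 else 0

theorem cnt_mono (x : ℕ → ℝ) (K : Finset ℕ) {u v u' v' : ℝ} (hu : u' ≤ u) (hv : v ≤ v') :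
    cnt x K u v ≤ cnt x K u' v' := by
  apply sum_le_sum
  intro k _
  split_ifs with h1 h2 h2
  · exact le_rfl
  · exact absurd ⟨hu.trans h1.1, h1.2.trans_le hv⟩ h2
  · exact zero_le_one
  · exact le_rfl

theorem cnt_grid (x : ℕ → ℝ) (K : Finset ℕ) {M : ℕ} (hM : 1 ≤ M) {δ : ℝ} (hδ : 0 ≤ δ)
    (h : ∀ i j : ℕ, i ≤ j → j ≤ M → |cnt x K ((i : ℝ) / M) ((j : ℝ) / M) - ((j : ℝ) / M - (i : ℝ) / M) * K.card| ≤ δ)
    {u v : ℝ} (hu : 0 ≤ u) (huv : u ≤ v) (hv : v ≤ 1) :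
    |cnt x K u v - (v - u) * K.card| ≤ δ + 2 * K.card / M := by
  set t : ℝ := (K.card : ℝ) with ht
  have hM0 : (0 : ℝ) < M := by exact_mod_cast hM
  have ht0 : 0 ≤ t := by rw [ht]; positivity
  rw [abs_le]
  constructor
  · -- inner interval
    set i := ⌈u * M⌉₊ with hi
    set j := ⌊v * M⌋₊ with hj
    have hi1 : u * M ≤ i := Nat.le_ceil _
    have hi2 : (i : ℝ) < u * M + 1 := Nat.ceil_lt_add_one (by positivity)
    have hj1 : (j : ℝ) ≤ v * M := Nat.floor_le (mul_nonneg (hu.trans huv) hM0.le)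
    have hj2 : v * M < j + 1 := Nat.lt_floor_add_one _
    have hjM : j ≤ M := by
      have : (j : ℝ) ≤ M := hj1.trans (by nlinarith)
      exact_mod_cast this
    rcases le_or_gt i j with hij | hij
    · have h1 := h i j hij hjM
      rw [abs_le] at h1
      have h2 : cnt x K ((i : ℝ) / M) ((j : ℝ) / M) ≤ cnt x K u v :=
        cnt_mono x K (by rw [le_div_iff₀ hM0]; exact hi1) (by rw [div_le_iff₀ hM0]; exact hj1)
      have h3 : (v - u) - 2 / M ≤ (j : ℝ) / M - (i : ℝ) / M := by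
        rw [← sub_div, ← sub_nonneg]
        have : ((j : ℝ) - i) / M - (v - u - 2 / M) = (((j : ℝ) - i) - (v - u) * M + 2) / M := by
          field_simp
          ring
        rw [this]
        apply div_nonneg _ hM0.le
        linarith
      have h4 : ((v - u) - 2 / M) * t ≤ ((j : ℝ) / M - (i : ℝ) / M) * t :=
        mul_le_mul_of_nonneg_right h3 ht0
      have h5 : ((v - u) - 2 / M) * t = (v - u) * t - 2 * t / M := by ring
      linarith [h1.1]
    · have h1 : (j : ℝ) + 1 ≤ i := by exact_mod_cast hij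
      have h2 : 0 ≤ cnt x K u v := by
        apply sum_nonneg; intro k _; split_ifs <;> norm_num
      have h3 : (v - u) ≤ 2 / (M : ℝ) := by
        rw [le_div_iff₀ hM0]; linarith
      have h4 : (v - u) * t ≤ 2 / M * t := mul_le_mul_of_nonneg_right h3 ht0
      have h5 : 2 / (M : ℝ) * t = 2 * t / (M : ℝ) := by ring
      linarith
  · set i := ⌊u * M⌋₊ with hi
    set j := ⌈v * M⌉₊ with hj
    have hi1 : (i : ℝ) ≤ u * M := Nat.floor_le (by positivity)
    have hi2 : u * M < i + 1 := Nat.lt_floor_add_one _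
    have hj1 : v * M ≤ j := Nat.le_ceil _
    have hj2 : (j : ℝ) < v * M + 1 := Nat.ceil_lt_add_one (mul_nonneg (hu.trans huv) hM0.le)
    have hjM : j ≤ M := by
      rw [hj]
      apply Nat.ceil_le.2
      nlinarith
    have hij : i ≤ j := by
      have : (i : ℝ) ≤ j := hi1.trans (le_trans (by nlinarith) hj1)
      exact_mod_cast this
    have h1 := h i j hij hjM
    rw [abs_le] at h1
    have h2 : cnt x K u v ≤ cnt x K ((i : ℝ) / M) ((j : ℝ) / M) :=
      cnt_mono x K (by rw [div_le_iff₀ hM0]; exact hi1) (by rw [le_div_iff₀ hM0]; exact hj1)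
    have h3 : (j : ℝ) / M - (i : ℝ) / M ≤ (v - u) + 2 / M := by
      rw [← sub_div, div_le_iff₀ hM0]
      have : (v - u + 2 / M) * M = (v - u) * M + 2 := by field_simp
      rw [this]
      linarith
    have h4 : ((j : ℝ) / M - (i : ℝ) / M) * t ≤ ((v - u) + 2 / M) * t :=
      mul_le_mul_of_nonneg_right h3 ht0
    have h5 : ((v - u) + 2 / M) * t = (v - u) * t + 2 * t / M := by ring
    linarith [h1.2]

end Pool.Agent.R344.SP
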