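import Pool.Agent.H499R2.NDStep2
import Pool.Agent.H499R2.CO.E

/-! Sampling principle, part A: words of trajectories of the accelerated `3x+d` map. -/

set_option autoImplicit false

namespace Pool.Agent.R344.SP

open Pool.Agent.H320R2.PD Finset
open Pool.Agent.H499R2.CO (Tz)

theorem Wo_cons (e : ℕ) (w : List ℕ) : Wo (e :: w) = 2 ^ w.sum + 3 * Wo w := rfl

/-- one more halving after the last letter (last letter first) -/
def inc : List ℕ → List ℕ
  | [] => []
  | a :: u => (a + 1) :: u

/-- the word of the first `t` steps of an odd integer (last letter first) -/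
def wd (d M : ℤ) : ℕ → List ℕ
  | 0 => []
  | t + 1 => if (Tz d)^[t] M % 2 = 0 then inc (wd d M t) else 1 :: wd d M t

theorem inc_length (w : List ℕ) : (inc w).length = w.length := by
  cases w <;> rfl

theorem inc_Wo (w : List ℕ) : Wo (inc w) = Wo w := by
  cases w <;> rfl

theorem inc_sum {w : List ℕ} (h : w ≠ []) : (inc w).sum = w.sum + 1 := by
  cases w with
  | nil => exact absurd rfl h
  | cons a u => simp only [inc, List.sum_cons]; ring

theorem inc_pos {w : List ℕ} (h : ∀ a ∈ w, 1 ≤ a) : ∀ a ∈ inc w, 1 ≤ a := by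
  cases w with
  | nil => exact h
  | cons b u =>
    intro a ha
    simp only [inc, List.mem_cons] at ha
    rcases ha with rfl | ha
    · omega
    · exact h a (List.mem_cons_of_mem _ ha)

theorem wd_pos (d M : ℤ) : ∀ (t : ℕ), ∀ a ∈ wd d M t, 1 ≤ a
  | 0 => by simp [wd]
  | t + 1 => by
    have ih := wd_pos d M t
    rw [wd]
    split_ifs
    · exact inc_pos ih
    · intro a ha
      rw [List.mem_cons] at ha
      rcases ha with rfl | ha
      · exact le_rfl
      · exact ih a ha

theorem wd_ne_nil {d M : ℤ} (hM : M % 2 = 1) : ∀ (t : ℕ), 1 ≤ t → wd d M t ≠ []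
  | 0, h => absurd h (by omega)
  | t + 1, _ => by
    rw [wd]
    rcases Nat.eq_zero_or_pos t with rfl | ht
    · simp [hM]
    · have ih := wd_ne_nil (d := d) hM t ht
      split_ifs
      · cases h : wd d M t with
        | nil => exact absurd h ih
        | cons a u => simp [inc]
      · simp

theorem wd_sum {d M : ℤ} (hM : M % 2 = 1) : ∀ (t : ℕ), (wd d M t).sum = t
  | 0 => by simp [wd]
  | t + 1 => by
    have ih := wd_sum (d := d) hM t
    rw [wd]
    split_ifs with h
    · rcases Nat.eq_zero_or_pos t with rfl | ht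
      · simp [hM] at h
      · rw [inc_sum (wd_ne_nil hM t ht), ih]
    · rw [List.sum_cons, ih]; ring

theorem wd_id {d M : ℤ} (hd : d % 2 = 1) : ∀ (t : ℕ), M % 2 = 1 →
    3 ^ (wd d M t).length * M + d * (Wo (wd d M t) : ℤ) = 2 ^ t * (Tz d)^[t] M
  | 0, _ => by simp [wd, Wo]
  | t + 1, hM => by
    have ih := wd_id (d := d) hd t hM
    rw [Function.iterate_succ_apply']
    set x := (Tz d)^[t] M with hx
    rw [wd]
    split_ifs with h
    · rw [inc_length, inc_Wo, ih]
      have h1 : 2 * Tz d x = x := by unfold Tz; rw [if_pos h]; omega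
      rw [pow_succ]
      calc (2 : ℤ) ^ t * x = 2 ^ t * (2 * Tz d x) := by rw [h1]
        _ = _ := by ring
    · have h1 : 2 * Tz d x = 3 * x + d := by unfold Tz; rw [if_neg h]; omega
      rw [List.length_cons]
      have h2 : (Wo (1 :: wd d M t) : ℤ) = 2 ^ t + 3 * Wo (wd d M t) := by
        rw [Wo_cons, wd_sum hM]; push_cast; ring
      rw [h2, pow_succ 2 t]
      calc (3 : ℤ) ^ ((wd d M t).length + 1) * M + d * (2 ^ t + 3 * Wo (wd d M t))
          = 3 * (3 ^ (wd d M t).length * M + d * (Wo (wd d M t) : ℤ)) + d * 2 ^ t := by ring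
        _ = 3 * (2 ^ t * x) + d * 2 ^ t := by rw [ih]
        _ = 2 ^ t * (3 * x + d) := by ring
        _ = _ := by rw [← h1]; ring

theorem two_three_cop (t j : ℕ) : IsCoprime ((2 : ℤ) ^ t) ((3 : ℤ) ^ j) := by
  apply IsCoprime.pow
  exact ⟨-1, 1, by norm_num⟩

theorem wd_unique {d M : ℤ} (hd : d % 2 = 1) (hM : M % 2 = 1) : ∀ (t : ℕ) (w : List ℕ),
    (∀ a ∈ w, 1 ≤ a) → w.sum = t → (2 : ℤ) ^ t ∣ 3 ^ w.length * M + d * Wo w → wd d M t = w := by
  intro t
  induction t with
  | zero =>
    intro w hw hs _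
    rcases w with _ | ⟨a, u⟩
    · rfl
    · exfalso
      have := hw a (by simp)
      simp only [List.sum_cons] at hs
      omega
  | succ t ih =>
    intro w hw hs hdvd
    rcases w with _ | ⟨a, u⟩
    · simp at hs
    have ha : 1 ≤ a := hw a (by simp)
    have hu : ∀ b ∈ u, 1 ≤ b := fun b hb => hw b (List.mem_cons_of_mem _ hb)
    rw [List.sum_cons] at hs
    rcases Nat.lt_or_ge 1 a with h1 | h1
    · -- the word is `inc ((a-1) :: u)`
      obtain ⟨b, rfl⟩ : ∃ b, a = b + 1 := ⟨a - 1, by omega⟩
      have hb : 1 ≤ b := by omega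
      have e1 : wd d M t = b :: u := by
        apply ih
        · intro c hc
          rw [List.mem_cons] at hc
          rcases hc with rfl | hc
          · exact hb
          · exact hu c hc
        · rw [List.sum_cons]; omega
        · have h2 : (3 : ℤ) ^ ((b + 1) :: u).length * M + d * Wo ((b + 1) :: u)
              = 3 ^ (b :: u).length * M + d * Wo (b :: u) := rfl
          rw [h2] at hdvd
          exact (pow_dvd_pow 2 (Nat.le_succ t)).trans hdvd
      have e2 := wd_id (d := d) hd t hM
      rw [e1] at e2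
      have h2 : (3 : ℤ) ^ ((b + 1) :: u).length * M + d * Wo ((b + 1) :: u)
              = 3 ^ (b :: u).length * M + d * Wo (b :: u) := rfl
      rw [h2, e2, pow_succ] at hdvd
      have h3 : (2 : ℤ) ∣ (Tz d)^[t] M := (mul_dvd_mul_iff_left (by positivity)).1 hdvd
      rw [wd, if_pos (by omega), e1]
      rfl
    · obtain rfl : a = 1 := by omega
      have hsu : u.sum = t := by omega
      have hW : (Wo (1 :: u) : ℤ) = 2 ^ t + 3 * Wo u := by
        rw [Wo_cons, hsu]; push_cast; ring
      have h2 : (3 : ℤ) ^ (1 :: u).length * M + d * Wo (1 :: u)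
          = 3 * (3 ^ u.length * M + d * Wo u) + d * 2 ^ t := by
        rw [hW, List.length_cons]; ring
      rw [h2] at hdvd
      have h3 : (2 : ℤ) ^ t ∣ 3 * (3 ^ u.length * M + d * Wo u) := by
        have h4 := (pow_dvd_pow 2 (Nat.le_succ t)).trans hdvd
        have h5 : (2 : ℤ) ^ t ∣ d * 2 ^ t := Dvd.intro_left _ rfl
        exact (dvd_add_left h5).1 h4
      have hcop : IsCoprime ((2 : ℤ) ^ t) 3 := by
        have := two_three_cop t 1
        simpa using this
      have e1 : wd d M t = u := ih u hu hsu (hcop.dvd_of_dvd_mul_left h3)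
      have e2 := wd_id (d := d) hd t hM
      rw [e1] at e2
      rw [e2] at hdvd
      have h6 : (2 : ℤ) ∣ 3 * (Tz d)^[t] M + d := by
        have : 3 * ((2 : ℤ) ^ t * (Tz d)^[t] M) + d * 2 ^ t = 2 ^ t * (3 * (Tz d)^[t] M + d) := by ring
        rw [this, pow_succ] at hdvd
        exact (mul_dvd_mul_iff_left (by positivity)).1 hdvd
      rw [wd, if_neg (by omega), e1]

/-- number of odd terms among the first `t` -/
def od (d : ℤ) (t : ℕ) (n : ℤ) : ℕ := ∑ k ∈ range t, (((Tz d)^[k] n) % 2).toNat

theorem od_succ (d : ℤ) (t : ℕ) (n : ℤ) : od d (t + 1) n = od d t n + (((Tz d)^[t] n) % 2).toNat := by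
  unfold od; rw [sum_range_succ]

theorem od_succ' (d : ℤ) (t : ℕ) (n : ℤ) : od d (t + 1) n = od d t (Tz d n) + (n % 2).toNat := by
  unfold od; rw [sum_range_succ']; simp only [Function.iterate_succ_apply, Function.iterate_zero, id]

theorem od_le (d : ℤ) (t : ℕ) (n : ℤ) : od d t n ≤ t := by
  unfold od
  calc ∑ k ∈ range t, (((Tz d)^[k] n) % 2).toNat ≤ ∑ _k ∈ range t, 1 := by
        apply sum_le_sum; intro k _; omega
    _ = t := by simp

theorem wd_length {d M : ℤ} : ∀ (t : ℕ), (wd d M t).length = od d t M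
  | 0 => by simp [wd, od]
  | t + 1 => by
    have ih := wd_length (d := d) (M := M) t
    rw [wd, od_succ]
    split_ifs with h
    · rw [inc_length, ih, h]; simp
    · rw [List.length_cons, ih]
      have : (Tz d)^[t] M % 2 = 1 := by omega
      rw [this]; simp

theorem letter_le {w : List ℕ} {c t : ℕ} (h : w.sum = t) (hc : t ≤ c) : ∀ a ∈ w, a ≤ c := by
  intro a ha
  have := List.single_le_sum (l := w) (by intro x _; omega) a ha
  omega

theorem wd_mem {d M : ℤ} (hM : M % 2 = 1) {c t : ℕ} (hc : t ≤ c) :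
    wd d M t ∈ FWT c (od d t M) t := by
  unfold FWT
  rw [mem_filter, mem_FW]
  exact ⟨⟨wd_length t, fun e he => ⟨wd_pos d M t e he, letter_le (wd_sum hM t) hc e he⟩⟩, wd_sum hM t⟩

theorem FWT_props {c j t : ℕ} {w : List ℕ} (hw : w ∈ FWT c j t) :
    w.length = j ∧ (∀ e ∈ w, 1 ≤ e) ∧ w.sum = t := by
  unfold FWT at hw
  rw [mem_filter, mem_FW] at hw
  exact ⟨hw.1.1, fun e he => (hw.1.2 e he).1, hw.2⟩

/-- the partition of a set of odd integers by the words of the first `t` steps -/
theorem partition {d : ℤ} (hd : d % 2 = 1) {c t : ℕ} (hc : t ≤ c) (S : Finset ℤ)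
    (hS : ∀ M ∈ S, M % 2 = 1) (j₀ : ℕ) (Ψ : ℤ → ℝ) :
    ∑ M ∈ S.filter (fun M => j₀ ≤ od d t M), Ψ ((Tz d)^[t] M)
      = ∑ j ∈ Ico j₀ (t + 1), ∑ w ∈ FWT c j t,
          ∑ M ∈ S.filter (fun M => (2 : ℤ) ^ t ∣ 3 ^ j * M + d * Wo w),
            Ψ ((3 ^ j * M + d * Wo w) / 2 ^ t) := by
  rw [← sum_fiberwise_of_maps_to (s := S.filter (fun M => j₀ ≤ od d t M)) (t := Ico j₀ (t + 1))
    (g := fun M => od d t M)]
  · apply sum_congr rfl
    intro j hj
    rw [mem_Ico] at hj
    rw [← sum_fiberwise_of_maps_to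
      (s := (S.filter (fun M => j₀ ≤ od d t M)).filter (fun M => od d t M = j))
      (t := FWT c j t) (g := fun M => wd d M t)]
    · apply sum_congr rfl
      intro w hw
      obtain ⟨h1, h2, h3⟩ := FWT_props hw
      have hset : (((S.filter (fun M => j₀ ≤ od d t M)).filter (fun M => od d t M = j)).filter
            (fun M => wd d M t = w))
          = S.filter (fun M => (2 : ℤ) ^ t ∣ 3 ^ j * M + d * Wo w) := by
        ext M
        simp only [mem_filter]
        constructor
        · rintro ⟨⟨⟨h4, _⟩, _⟩, h5⟩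
          refine ⟨h4, ?_⟩
          have := wd_id (d := d) hd t (hS M h4)
          rw [h5, h1] at this
          rw [this]
          exact dvd_mul_right _ _
        · rintro ⟨h4, h5⟩
          have h6 : wd d M t = w := wd_unique hd (hS M h4) t w h2 h3 (by rw [h1]; exact h5)
          have h7 : od d t M = j := by rw [← wd_length, h6, h1]
          exact ⟨⟨⟨h4, by omega⟩, h7⟩, h6⟩
      rw [hset]
      apply sum_congr rfl
      intro M hM
      rw [mem_filter] at hM
      have h6 : wd d M t = w := wd_unique hd (hS M hM.1) t w h2 h3 (by rw [h1]; exact hM.2)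
      have := wd_id (d := d) hd t (hS M hM.1)
      rw [h6, h1] at this
      rw [this, Int.mul_ediv_cancel_left _ (by positivity)]
    · intro M hM
      rw [mem_filter, mem_filter] at hM
      have := wd_mem (d := d) (hS M hM.1.1) hc
      rw [hM.2] at this
      exact this
  · intro M hM
    rw [mem_filter] at hM
    rw [mem_Ico]
    have := od_le d t M
    exact ⟨hM.2, by omega⟩

/-- there are at most `2^t` words of size `t` -/
theorem words_card {c t : ℕ} (ht : 1 ≤ t) : ∑ j ∈ range (t + 1), (FWT c j t).card ≤ 2 ^ t := by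
  classical
  rw [← card_biUnion]
  · calc ((range (t + 1)).biUnion fun j => FWT c j t).card
        ≤ ((Ico (0 : ℤ) (2 ^ t)).image (fun M => wd 1 M t)).card := by
          apply card_le_card
          intro w hw
          rw [mem_biUnion] at hw
          obtain ⟨j, _, hw⟩ := hw
          obtain ⟨h1, h2, h3⟩ := FWT_props hw
          obtain ⟨p, q, hpq⟩ := two_three_cop t j
          -- M = - q * Wo w mod 2^t
          set M : ℤ := (-(q * Wo w)) % 2 ^ t with hM
          have h2t : (0 : ℤ) < 2 ^ t := by positivity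
          have hdvd : (2 : ℤ) ^ t ∣ 3 ^ j * M + 1 * Wo w := by
            have e1 : M = -(q * Wo w) - 2 ^ t * (-(q * Wo w) / 2 ^ t) := by
              rw [hM]; rw [Int.emod_def]
            have e2 : (3 : ℤ) ^ j * M + 1 * Wo w
                = 2 ^ t * (p * Wo w - 3 ^ j * (-(q * Wo w) / 2 ^ t)) := by
              rw [e1]
              have : (Wo w : ℤ) = (p * 2 ^ t + q * 3 ^ j) * Wo w := by rw [hpq]; ring
              linear_combination this
            rw [e2]; exact dvd_mul_right _ _
          have hne : w ≠ [] := by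
            rintro rfl
            simp at h3; omega
          have hMo : M % 2 = 1 := by
            have hW := Wo_odd h2 hne
            have h4 : (2 : ℤ) ∣ 3 ^ j * M + 1 * Wo w := (dvd_pow_self 2 (by omega)).trans hdvd
            have h5 : (3 : ℤ) ^ j % 2 = 1 := Pool.Agent.H499R2.CO.odd3 j
            rcases Int.emod_two_eq_zero_or_one M with h6 | h6
            · exfalso
              have h7 : ((3 : ℤ) ^ j * M) % 2 = 0 := Pool.Agent.H499R2.CO.even_mul h6
              have h8 : (Wo w : ℤ) % 2 = 1 := by exact_mod_cast hW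
              omega
            · exact h6
          rw [mem_image]
          refine ⟨M, ?_, ?_⟩
          · rw [mem_Ico]
            exact ⟨Int.emod_nonneg _ h2t.ne', Int.emod_lt_of_pos _ h2t⟩
          · exact wd_unique (by norm_num) hMo t w h2 h3 (by rw [h1]; exact hdvd)
      _ ≤ (Ico (0 : ℤ) (2 ^ t)).card := card_image_le
      _ = 2 ^ t := by
          have : (2 : ℤ) ^ t = ((2 ^ t : ℕ) : ℤ) := by push_cast; rfl
          rw [Int.card_Ico, this, sub_zero, Int.toNat_natCast]
  · intro i _ j _ hij
    rw [Function.onFun, Finset.disjoint_left]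
    intro w hw hw'
    apply hij
    rw [← (FWT_props hw).1, (FWT_props hw').1]

end Pool.Agent.R344.SP
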