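import Pool.Agent.R344.SP.A

/-! Sampling principle, part B: one word, shifts of windows, mixing for a fixed size. -/

set_option autoImplicit false

namespace Pool.Agent.R344.SP

open Pool.Agent.H320R2.PD Finset
open Pool.Agent.H499R2.CO (Tz)
open Pool.Agent.H499R2.ND (mem_win ap mem_ap ap_card_le crt dev sum_periodic_le cnt_congr)

/-- integers of `[a,b)` with `u x ≡ v` mod `3^m` -/
noncomputable def cl (a b : ℝ) (m : ℕ) (u v : ℤ) : Finset ℤ :=
  (Ico ⌈a⌉ ⌈b⌉).filter fun x => (3 : ℤ) ^ m ∣ u * x - v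

theorem mem_cl {a b : ℝ} {m : ℕ} {u v x : ℤ} :
    x ∈ cl a b m u v ↔ (a ≤ x ∧ (x : ℝ) < b) ∧ (3 : ℤ) ^ m ∣ u * x - v := by
  unfold cl; rw [mem_filter, mem_win]

theorem cl_ap (m : ℕ) {u : ℤ} (hu : IsCoprime u 3) (v : ℤ) :
    ∃ c : ℤ, (∀ x : ℤ, (3 : ℤ) ^ m ∣ u * x - v ↔ (3 : ℤ) ^ m ∣ x - c) ∧
      ∀ a b : ℝ, cl a b m u v = ap a b (3 ^ m) c := by
  obtain ⟨c, hc⟩ := crt 0 m (g := 1) odd_one hu 0 v
  have h : ∀ x : ℤ, (3 : ℤ) ^ m ∣ u * x - v ↔ (3 : ℤ) ^ m ∣ x - c := by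
    intro x
    have := hc x
    simp only [pow_zero, one_mul, isUnit_one, IsUnit.dvd, true_and] at this
    exact this
  refine ⟨c, h, fun a b => ?_⟩
  ext x
  rw [mem_cl, mem_ap, h x]

theorem cl_card_le {a b : ℝ} (hab : a ≤ b) (m : ℕ) {u : ℤ} (hu : IsCoprime u 3) (v : ℤ) :
    ((cl a b m u v).card : ℝ) ≤ (b - a) / 3 ^ m + 1 := by
  obtain ⟨c, _, hc⟩ := cl_ap m hu v
  rw [hc]
  have := ap_card_le hab (q := 3 ^ m) (by positivity) c
  push_cast at this
  exact this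

/-- sums over two close windows -/
theorem shift_sum {Ψ : ℤ → ℝ} (hΨ : ∀ x, |Ψ x| ≤ 1) {a b a' b' K : ℝ} (hab : |a - a'| ≤ K)
    (hbb : |b - b'| ≤ K) (m : ℕ) {u : ℤ} (hu : IsCoprime u 3) (v : ℤ) :
    |∑ x ∈ cl a b m u v, Ψ x - ∑ x ∈ cl a' b' m u v, Ψ x| ≤ 2 * (K / 3 ^ m + 1) := by
  classical
  set F := cl a b m u v with hF
  set G := cl a' b' m u v with hG
  set P := cl (min a a') (max a a') m u v with hP
  set Q := cl (min b b') (max b b') m u v with hQ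
  have h1 : ∑ x ∈ F, Ψ x - ∑ x ∈ G, Ψ x = ∑ x ∈ F \ G, Ψ x - ∑ x ∈ G \ F, Ψ x := by
    have e1 := sum_inter_add_sum_sdiff F G Ψ
    have e2 := sum_inter_add_sum_sdiff G F Ψ
    rw [inter_comm] at e2
    linarith
  have hsub : F \ G ∪ G \ F ⊆ P ∪ Q := by
    intro x hx
    rw [mem_union, mem_sdiff, mem_sdiff, hF, hG, mem_cl, mem_cl] at hx
    rw [mem_union, hP, hQ, mem_cl, mem_cl]
    rcases hx with ⟨⟨⟨h2, h3⟩, h4⟩, h5⟩ | ⟨⟨⟨h2, h3⟩, h4⟩, h5⟩
    · have h6 : ¬ (a' ≤ x ∧ (x : ℝ) < b') := fun h => h5 ⟨h, h4⟩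
      by_cases h7 : a' ≤ x
      · have h8 : b' ≤ x := by
          by_contra h9
          exact h6 ⟨h7, not_le.1 h9⟩
        exact Or.inr ⟨⟨(min_le_right _ _).trans h8, lt_of_lt_of_le h3 (le_max_left _ _)⟩, h4⟩
      · exact Or.inl ⟨⟨(min_le_left _ _).trans h2, lt_of_lt_of_le (not_le.1 h7) (le_max_right _ _)⟩, h4⟩
    · have h6 : ¬ (a ≤ x ∧ (x : ℝ) < b) := fun h => h5 ⟨h, h4⟩
      by_cases h7 : a ≤ x
      · have h8 : b ≤ x := by
          by_contra h9
          exact h6 ⟨h7, not_le.1 h9⟩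
        exact Or.inr ⟨⟨(min_le_left _ _).trans h8, lt_of_lt_of_le h3 (le_max_right _ _)⟩, h4⟩
      · exact Or.inl ⟨⟨(min_le_right _ _).trans h2, lt_of_lt_of_le (not_le.1 h7) (le_max_left _ _)⟩, h4⟩
  have hdisj : Disjoint (F \ G) (G \ F) := by
    rw [Finset.disjoint_left]
    intro x hx hx'
    rw [mem_sdiff] at hx hx'
    exact hx'.2 hx.1
  have hcard : ((F \ G).card : ℝ) + (G \ F).card ≤ P.card + Q.card := by
    have : (F \ G).card + (G \ F).card ≤ P.card + Q.card := by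
      rw [← card_union_of_disjoint hdisj]
      exact (card_le_card hsub).trans (card_union_le _ _)
    exact_mod_cast this
  have hPc : (P.card : ℝ) ≤ K / 3 ^ m + 1 := by
    refine (cl_card_le (min_le_max) m hu v).trans ?_
    rw [max_sub_min_eq_abs]
    rw [abs_sub_comm]
    gcongr
  have hQc : (Q.card : ℝ) ≤ K / 3 ^ m + 1 := by
    refine (cl_card_le (min_le_max) m hu v).trans ?_
    rw [max_sub_min_eq_abs]
    rw [abs_sub_comm]
    gcongr
  have hb : ∀ S : Finset ℤ, |∑ x ∈ S, Ψ x| ≤ S.card := by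
    intro S
    refine (abs_sum_le_sum_abs _ _).trans ?_
    calc ∑ x ∈ S, |Ψ x| ≤ ∑ _x ∈ S, (1 : ℝ) := sum_le_sum fun x _ => hΨ x
      _ = S.card := by simp
  rw [h1]
  calc |∑ x ∈ F \ G, Ψ x - ∑ x ∈ G \ F, Ψ x| ≤ |∑ x ∈ F \ G, Ψ x| + |∑ x ∈ G \ F, Ψ x| :=
        abs_sub _ _
    _ ≤ (F \ G).card + (G \ F).card := add_le_add (hb _) (hb _)
    _ ≤ P.card + Q.card := hcard
    _ ≤ _ := by linarith

/-- odd integers in `[A,2A)` -/
noncomputable def Od (A : ℝ) : Finset ℤ := (Ico ⌈A⌉ ⌈2 * A⌉).filter fun x => x % 2 = 1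

theorem mem_Od {A : ℝ} {x : ℤ} : x ∈ Od A ↔ (A ≤ x ∧ (x : ℝ) < 2 * A) ∧ x % 2 = 1 := by
  unfold Od; rw [mem_filter, mem_win]

theorem cop23 (t : ℕ) : IsCoprime ((2 : ℤ) ^ t) 3 := by
  have := two_three_cop t 1
  simpa using this

/-- one word -/
theorem one_word {d : ℤ} (hd : d % 2 = 1) {A : ℝ} (c j t : ℕ) (ht : 1 ≤ t) {Ψ : ℤ → ℝ}
    (hΨ : ∀ x, |Ψ x| ≤ 1) {w : List ℕ} (hw : w ∈ FWT c j t) :
    |∑ M ∈ (Od A).filter (fun M => (2 : ℤ) ^ t ∣ 3 ^ j * M + d * Wo w), Ψ ((3 ^ j * M + d * Wo w) / 2 ^ t)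
      - ∑ x ∈ cl (A * 3 ^ j / 2 ^ t) (2 * (A * 3 ^ j / 2 ^ t)) j (2 ^ t) (d * Wo w), Ψ x|
      ≤ 2 * (|(d : ℝ)| + 1) := by
  obtain ⟨h1, h2, h3⟩ := FWT_props hw
  have hne : w ≠ [] := by rintro rfl; simp at h3; omega
  have h2t : (0 : ℝ) < 2 ^ t := by positivity
  have h2z : (0 : ℤ) < 2 ^ t := by positivity
  have h3j : (0 : ℝ) < 3 ^ j := by positivity
  set L := A * 3 ^ j / 2 ^ t with hL
  set s : ℝ := d * Wo w / 2 ^ t with hs
  have heq : ∑ M ∈ (Od A).filter (fun M => (2 : ℤ) ^ t ∣ 3 ^ j * M + d * Wo w),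
        Ψ ((3 ^ j * M + d * Wo w) / 2 ^ t)
      = ∑ x ∈ cl (L + s) (2 * L + s) j (2 ^ t) (d * Wo w), Ψ x := by
    apply sum_nbij' (fun M => (3 ^ j * M + d * Wo w) / 2 ^ t) (fun x => (2 ^ t * x - d * Wo w) / 3 ^ j)
    · intro M hM
      rw [mem_filter, mem_Od] at hM
      obtain ⟨⟨⟨hM1, hM2⟩, hM3⟩, y, hy⟩ := hM
      rw [mem_cl, hy, Int.mul_ediv_cancel_left _ h2z.ne']
      have hyR : (3 : ℝ) ^ j * M + d * Wo w = 2 ^ t * y := by exact_mod_cast hy
      have hyy : (y : ℝ) = (3 ^ j * M + d * Wo w) / 2 ^ t := by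
        rw [eq_div_iff h2t.ne']; linarith
      refine ⟨⟨?_, ?_⟩, ⟨M, by linarith⟩⟩
      · rw [hyy, hL, hs, ← add_div]
        apply div_le_div_of_nonneg_right _ h2t.le
        have := mul_le_mul_of_nonneg_right hM1 h3j.le
        linarith
      · rw [hyy, hL, hs, ← mul_div_assoc, ← add_div]
        apply div_lt_div_of_pos_right _ h2t
        have := mul_lt_mul_of_pos_right hM2 h3j
        linarith
    · intro x hx
      rw [mem_cl] at hx
      obtain ⟨⟨hx1, hx2⟩, M, hM⟩ := hx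
      rw [hM, Int.mul_ediv_cancel_left _ (by positivity : (3 : ℤ) ^ j ≠ 0), mem_filter, mem_Od]
      have hMR : (2 : ℝ) ^ t * x - d * Wo w = 3 ^ j * M := by exact_mod_cast hM
      have hdv : (2 : ℤ) ^ t ∣ 3 ^ j * M + d * Wo w := ⟨x, by linarith⟩
      refine ⟨⟨⟨?_, ?_⟩, ?_⟩, hdv⟩
      · have h4 : (A * 3 ^ j + d * Wo w) / 2 ^ t ≤ x := by
          have : (A * 3 ^ j + d * Wo w) / 2 ^ t = L + s := by rw [hL, hs, ← add_div]
          rw [this]; exact hx1
        rw [div_le_iff₀ h2t] at h4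
        have h5 : A * 3 ^ j ≤ (M : ℝ) * 3 ^ j := by linarith
        exact le_of_mul_le_mul_right h5 h3j
      · have h4 : (x : ℝ) < (2 * (A * 3 ^ j) + d * Wo w) / 2 ^ t := by
          have : (2 * (A * 3 ^ j) + d * Wo w) / 2 ^ t = 2 * L + s := by
            rw [hL, hs, ← mul_div_assoc, ← add_div]
          rw [this]; exact hx2
        rw [lt_div_iff₀ h2t] at h4
        have h5 : (M : ℝ) * 3 ^ j < (2 * A) * 3 ^ j := by linarith
        exact lt_of_mul_lt_mul_right h5 h3j.le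
      · have hW := Wo_odd h2 hne
        have h4 : (2 : ℤ) ∣ 3 ^ j * M + d * Wo w := (dvd_pow_self 2 (by omega)).trans hdv
        have h8 : (Wo w : ℤ) % 2 = 1 := by exact_mod_cast hW
        have h9 : (d * Wo w) % 2 = 1 := Pool.Agent.H499R2.CO.odd_mul hd h8
        rcases Int.emod_two_eq_zero_or_one M with h6 | h6
        · exfalso
          have h7 : ((3 : ℤ) ^ j * M) % 2 = 0 := Pool.Agent.H499R2.CO.even_mul h6
          omega
        · exact h6
    · intro M hM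
      rw [mem_filter] at hM
      obtain ⟨_, y, hy⟩ := hM
      rw [hy, Int.mul_ediv_cancel_left _ h2z.ne', ← hy]
      rw [show (3 : ℤ) ^ j * M + d * Wo w - d * Wo w = 3 ^ j * M by ring]
      exact Int.mul_ediv_cancel_left _ (by positivity)
    · intro x hx
      rw [mem_cl] at hx
      obtain ⟨_, M, hM⟩ := hx
      rw [hM, Int.mul_ediv_cancel_left _ (by positivity : (3 : ℤ) ^ j ≠ 0), ← hM]
      rw [show (2 : ℤ) ^ t * x - d * Wo w + d * Wo w = 2 ^ t * x by ring]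
      exact Int.mul_ediv_cancel_left _ h2z.ne'
    · intro M _
      rfl
  rw [heq]
  have hsabs : |s| ≤ |(d : ℝ)| * 3 ^ j := by
    rw [hs, abs_div, abs_mul, abs_of_pos h2t, div_le_iff₀ h2t, mul_assoc]
    apply mul_le_mul_of_nonneg_left _ (abs_nonneg _)
    rw [abs_of_nonneg (by positivity)]
    have h4 := Pool.Agent.H499R2.ND.Wo_le h2
    rw [h1, h3] at h4
    have h5 : (3 / 2 : ℝ) ^ j ≤ 3 ^ j := pow_le_pow_left₀ (by norm_num) (by norm_num) j
    nlinarith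
  have h6 := shift_sum hΨ (a := L + s) (a' := L) (b := 2 * L + s) (b' := 2 * L) (K := |(d : ℝ)| * 3 ^ j)
    (by rw [add_sub_cancel_left]; exact hsabs) (by rw [add_sub_cancel_left]; exact hsabs) j (cop23 t)
    (d * Wo w)
  refine h6.trans (le_of_eq ?_)
  rw [mul_div_assoc, div_self h3j.ne', mul_one]

/-- mixing for a fixed size and length -/
theorem mixF {d : ℤ} (hd3 : IsCoprime d 3) {Ψ : ℤ → ℝ} (hΨ : ∀ x, |Ψ x| ≤ 1) {L : ℝ} (hL : 0 ≤ L)
    (c j m t : ℕ) (hm : m ≤ j) :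
    |∑ w ∈ FWT c j t, ∑ x ∈ cl L (2 * L) j (2 ^ t) (d * Wo w), Ψ x
      - (∑ w ∈ FWT c j t, ∑ x ∈ cl L (2 * L) m (2 ^ t) (d * Wo w), Ψ x) / 3 ^ (j - m)|
      ≤ 2 ^ t * (L / 3 ^ j + 1) * dev (FWT c j t) wwt (fun w => (Wo w : ℤ)) j m := by
  classical
  obtain ⟨p, q, hpq⟩ : IsCoprime d ((3 : ℤ) ^ j) := hd3.pow_right
  set W : Finset ℤ := Ico ⌈L⌉ ⌈2 * L⌉ with hWdef
  set e : ℤ → ℤ := fun x => p * (2 ^ t * x) with he
  have hwt : ∀ w ∈ FWT c j t, wwt w = (1 / 2 : ℝ) ^ t := by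
    intro w hw
    unfold wwt
    rw [(FWT_props hw).2.2]
  have hpcop : IsCoprime ((3 : ℤ) ^ j) p := ⟨q, d, by linarith⟩
  have hgen : ∀ n : ℕ, n ≤ j →
      ∑ w ∈ FWT c j t, ∑ x ∈ cl L (2 * L) n (2 ^ t) (d * Wo w), Ψ x
        = ∑ x ∈ W, Ψ x * (2 ^ t * cnt (FWT c j t) wwt (fun w => (Wo w : ℤ)) n (e x)) := by
    intro n hn
    have hdm : (3 : ℤ) ^ n ∣ 3 ^ j := pow_dvd_pow 3 hn
    have hiff : ∀ (x : ℤ) (w : List ℕ), ((3 : ℤ) ^ n ∣ 2 ^ t * x - d * (Wo w : ℤ) ↔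
        (3 : ℤ) ^ n ∣ (Wo w : ℤ) - e x) := by
      intro x w
      have hdcop' : IsCoprime ((3 : ℤ) ^ n) d := hd3.symm.pow_left
      have key : (3 : ℤ) ^ n ∣ (2 ^ t * x - d * (Wo w : ℤ)) + d * ((Wo w : ℤ) - e x) := by
        have : (2 ^ t * x - d * (Wo w : ℤ)) + d * ((Wo w : ℤ) - e x) = 3 ^ j * (q * (2 ^ t * x)) := by
          rw [he]
          have h1 : d * p = 1 - q * 3 ^ j := by linarith
          calc (2 ^ t * x - d * (Wo w : ℤ)) + d * ((Wo w : ℤ) - p * (2 ^ t * x))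
              = 2 ^ t * x - (d * p) * (2 ^ t * x) := by ring
            _ = _ := by rw [h1]; ring
        rw [this]
        exact hdm.mul_right _
      constructor
      · intro h
        apply hdcop'.dvd_of_dvd_mul_left
        have := dvd_sub key h
        rwa [add_sub_cancel_left] at this
      · intro h
        have := dvd_sub key (h.mul_left d)
        rwa [add_sub_cancel_right] at this
    calc ∑ w ∈ FWT c j t, ∑ x ∈ cl L (2 * L) n (2 ^ t) (d * Wo w), Ψ x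
        = ∑ w ∈ FWT c j t, ∑ x ∈ W, (if (3 : ℤ) ^ n ∣ 2 ^ t * x - d * (Wo w : ℤ) then Ψ x else 0) := by
          apply sum_congr rfl
          intro w _
          rw [← sum_filter]
          rfl
      _ = ∑ x ∈ W, ∑ w ∈ FWT c j t, (if (3 : ℤ) ^ n ∣ 2 ^ t * x - d * (Wo w : ℤ) then Ψ x else 0) :=
          sum_comm
      _ = _ := by
          apply sum_congr rfl
          intro x _
          unfold cnt
          rw [mul_sum, mul_sum]
          apply sum_congr rfl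
          intro w hw
          rw [hwt w hw]
          by_cases h : (3 : ℤ) ^ n ∣ 2 ^ t * x - d * (Wo w : ℤ)
          · rw [if_pos h, if_pos ((hiff x w).1 h), ← mul_pow]; norm_num
          · rw [if_neg h, if_neg (fun h' => h ((hiff x w).2 h')), mul_zero, mul_zero]
  rw [hgen j le_rfl, hgen m hm]
  have h3n : (0 : ℝ) < 3 ^ (j - m) := by positivity
  have hT : (0 : ℝ) < 2 ^ t := by positivity
  have hdiff : ∑ x ∈ W, |cnt (FWT c j t) wwt (fun w => (Wo w : ℤ)) j (e x)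
        - cnt (FWT c j t) wwt (fun w => (Wo w : ℤ)) m (e x) / 3 ^ (j - m)|
      ≤ (L / 3 ^ j + 1) * dev (FWT c j t) wwt (fun w => (Wo w : ℤ)) j m := by
    unfold dev
    apply sum_periodic_le (g := fun r => |cnt (FWT c j t) wwt (fun w => (Wo w : ℤ)) j r
        - cnt (FWT c j t) wwt (fun w => (Wo w : ℤ)) m r / 3 ^ (j - m)|)
    · intro r
      rcases Nat.eq_zero_or_pos j with rfl | hj
      · have h1 : ((W.filter (fun x => (3 : ℤ) ^ 0 ∣ e x - r)).card : ℝ) ≤ (cl L (2 * L) 0 1 0).card := by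
          have : W.filter (fun x => (3 : ℤ) ^ 0 ∣ e x - r) ⊆ cl L (2 * L) 0 1 0 := by
            intro x hx
            rw [mem_filter, hWdef] at hx
            unfold cl
            rw [mem_filter]
            exact ⟨hx.1, by simp⟩
          exact_mod_cast card_le_card this
        have h2 := cl_card_le (by linarith : L ≤ 2 * L) 0 isCoprime_one_left (0 : ℤ)
        rw [show 2 * L - L = L by ring] at h2
        exact h1.trans h2
      · have hpc : IsCoprime (p * 2 ^ t) 3 := by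
          apply IsCoprime.mul_left
          · exact hpcop.symm.of_isCoprime_of_dvd_right (dvd_pow_self 3 (by omega))
          · exact cop23 t
        have h1 := cl_card_le (by linarith : L ≤ 2 * L) j hpc r
        rw [show 2 * L - L = L by ring] at h1
        have h2 : W.filter (fun x => (3 : ℤ) ^ j ∣ e x - r) ⊆ cl L (2 * L) j (p * 2 ^ t) r := by
          intro x hx
          rw [mem_filter, hWdef] at hx
          unfold cl
          rw [mem_filter]
          refine ⟨hx.1, ?_⟩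
          have := hx.2
          rw [he] at this
          rw [show p * 2 ^ t * x - r = p * (2 ^ t * x) - r by ring]
          exact this
        have h4 : ((W.filter (fun x => (3 : ℤ) ^ j ∣ e x - r)).card : ℝ)
            ≤ (cl L (2 * L) j (p * 2 ^ t) r).card := by
          exact_mod_cast card_le_card h2
        exact h4.trans h1
    · intro r; exact abs_nonneg _
    · intro r r' hcc
      have h1 := cnt_congr (s := FWT c j t) (wt := wwt) (fun w => (Wo w : ℤ)) j hcc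
      have h2 := cnt_congr (s := FWT c j t) (wt := wwt) (fun w => (Wo w : ℤ)) m
        ((pow_dvd_pow 3 hm).trans hcc)
      rw [h1, h2]
  rw [sum_div, ← sum_sub_distrib]
  refine (abs_sum_le_sum_abs _ _).trans ?_
  calc ∑ x ∈ W, |Ψ x * (2 ^ t * cnt (FWT c j t) wwt (fun w => (Wo w : ℤ)) j (e x))
        - Ψ x * (2 ^ t * cnt (FWT c j t) wwt (fun w => (Wo w : ℤ)) m (e x)) / 3 ^ (j - m)|
      ≤ ∑ x ∈ W, 2 ^ t * |cnt (FWT c j t) wwt (fun w => (Wo w : ℤ)) j (e x)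
        - cnt (FWT c j t) wwt (fun w => (Wo w : ℤ)) m (e x) / 3 ^ (j - m)| := by
        apply sum_le_sum
        intro x _
        have e1 : Ψ x * (2 ^ t * cnt (FWT c j t) wwt (fun w => (Wo w : ℤ)) j (e x))
            - Ψ x * (2 ^ t * cnt (FWT c j t) wwt (fun w => (Wo w : ℤ)) m (e x)) / 3 ^ (j - m)
            = Ψ x * (2 ^ t * (cnt (FWT c j t) wwt (fun w => (Wo w : ℤ)) j (e x)
              - cnt (FWT c j t) wwt (fun w => (Wo w : ℤ)) m (e x) / 3 ^ (j - m))) := by ring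
        rw [e1, abs_mul, abs_mul, abs_of_pos hT]
        calc |Ψ x| * (2 ^ t * |cnt (FWT c j t) wwt (fun w => (Wo w : ℤ)) j (e x)
              - cnt (FWT c j t) wwt (fun w => (Wo w : ℤ)) m (e x) / 3 ^ (j - m)|)
            ≤ 1 * (2 ^ t * |cnt (FWT c j t) wwt (fun w => (Wo w : ℤ)) j (e x)
              - cnt (FWT c j t) wwt (fun w => (Wo w : ℤ)) m (e x) / 3 ^ (j - m)|) :=
              mul_le_mul_of_nonneg_right (hΨ x) (by positivity)
          _ = _ := one_mul _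
    _ = 2 ^ t * ∑ x ∈ W, |cnt (FWT c j t) wwt (fun w => (Wo w : ℤ)) j (e x)
        - cnt (FWT c j t) wwt (fun w => (Wo w : ℤ)) m (e x) / 3 ^ (j - m)| := by rw [mul_sum]
    _ ≤ 2 ^ t * ((L / 3 ^ j + 1) * dev (FWT c j t) wwt (fun w => (Wo w : ℤ)) j m) :=
        mul_le_mul_of_nonneg_left hdiff hT.le
    _ = _ := by ring

end Pool.Agent.R344.SP
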