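import Pool.Agent.R344.SP.B

/-! Sampling principle, part C: the law of the `t`-th iterate on one window. -/

set_option autoImplicit false

namespace Pool.Agent.R344.SP

open Pool.Agent.H320R2.PD Finset
open Pool.Agent.H499R2.CO (Tz)
open Pool.Agent.H499R2.ND (mem_win ap mem_ap ap_card_le crt dev dev_le gam_all)

/-- the total defect at time `t` -/
noncomputable def Df (c m t : ℕ) : ℝ :=
  ∑ j ∈ Ico m (t + 1), dev (FWT c j t) wwt (fun w => (Wo w : ℤ)) j m
    + ∑ j ∈ range m, ∑ w ∈ FWT c j t, wwt w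

theorem dev_nonneg {ι : Type*} (s : Finset ι) (wt : ι → ℝ) (v : ι → ℤ) (n m : ℕ) :
    0 ≤ dev s wt v n m := by
  unfold dev
  exact sum_nonneg fun _ _ => abs_nonneg _

theorem wwt_pos (w : List ℕ) : 0 < wwt w := by unfold wwt; positivity

theorem Df_nonneg (c m t : ℕ) : 0 ≤ Df c m t := by
  unfold Df
  apply add_nonneg
  · exact sum_nonneg fun _ _ => dev_nonneg _ _ _ _ _
  · exact sum_nonneg fun _ _ => sum_nonneg fun w _ => (wwt_pos w).le

/-- the defect, averaged over the number of initial halvings -/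
noncomputable def Dg (c m : ℕ) : ℕ → ℝ
  | 0 => 1
  | t + 1 => Df c m (t + 1) + Dg c m t / 2

theorem Dg_nonneg (c m : ℕ) : ∀ t, 0 ≤ Dg c m t
  | 0 => by simp [Dg]
  | t + 1 => by
    have := Dg_nonneg c m t
    have := Df_nonneg c m (t + 1)
    unfold Dg; positivity

theorem abs_sum_le_card {Ψ : ℤ → ℝ} (hΨ : ∀ x, |Ψ x| ≤ 1) (S : Finset ℤ) : |∑ x ∈ S, Ψ x| ≤ S.card := by
  refine (abs_sum_le_sum_abs _ _).trans ?_
  calc ∑ x ∈ S, |Ψ x| ≤ ∑ _x ∈ S, (1 : ℝ) := sum_le_sum fun x _ => hΨ x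
    _ = S.card := by simp

theorem cl_one (m : ℕ) {u : ℤ} (hu : IsCoprime u 3) (v : ℤ) :
    ∃ c : ℤ, ∀ a b : ℝ, cl a b m u v = cl a b m 1 c := by
  obtain ⟨c, hc, _⟩ := cl_ap m hu v
  refine ⟨c, fun a b => ?_⟩
  ext x
  rw [mem_cl, mem_cl, hc x, one_mul]

theorem odd_main {d : ℤ} (hd : d % 2 = 1) (hd3 : IsCoprime d 3) {A : ℝ} (hA : 0 ≤ A) {c t : ℕ}
    (m j₀ : ℕ) (ht : 1 ≤ t) (hc : t ≤ c) {Ψ : ℤ → ℝ} (hΨ : ∀ x, |Ψ x| ≤ 1) {δ : ℝ} (hδ : 0 ≤ δ)
    (h : ∀ j, j₀ ≤ j → ∀ b : ℤ, |∑ x ∈ cl (A * 3 ^ j / 2 ^ t) (2 * (A * 3 ^ j / 2 ^ t)) m 1 b, Ψ x|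
      ≤ δ * (A * 3 ^ j / 2 ^ t) / 3 ^ m) :
    |∑ M ∈ (Od A).filter (fun M => j₀ ≤ od d t M), Ψ ((Tz d)^[t] M)|
      ≤ δ * A + (A + 2 ^ t) * Df c m t + (2 * |(d : ℝ)| + 3) * 2 ^ t := by
  have h2t : (0 : ℝ) < 2 ^ t := by positivity
  rw [partition hd hc (Od A) (fun M hM => (mem_Od.1 hM).2) j₀ Ψ]
  set N : ℕ → ℝ := fun j => ((FWT c j t).card : ℝ) with hN
  have hNn : ∀ j, 0 ≤ N j := fun j => by rw [hN]; positivity
  set dv : ℕ → ℝ := fun j => dev (FWT c j t) wwt (fun w => (Wo w : ℤ)) j m with hdv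
  have hdvn : ∀ j, 0 ≤ dv j := fun j => dev_nonneg _ _ _ _ _
  have hww : ∀ j, ∑ w ∈ FWT c j t, wwt w = N j / 2 ^ t := by
    intro j
    have : ∀ w ∈ FWT c j t, wwt w = 1 / 2 ^ t := by
      intro w hw
      unfold wwt
      rw [(FWT_props hw).2.2, one_div, inv_pow, one_div]
    rw [sum_congr rfl this, sum_const, nsmul_eq_mul]
    ring
  -- one length
  have hone : ∀ j ∈ Ico j₀ (t + 1),
      |∑ w ∈ FWT c j t, ∑ M ∈ (Od A).filter (fun M => (2 : ℤ) ^ t ∣ 3 ^ j * M + d * Wo w),
            Ψ ((3 ^ j * M + d * Wo w) / 2 ^ t)|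
      ≤ δ * A * (N j / 2 ^ t) + (if m ≤ j then (A + 2 ^ t) * dv j else A * (N j / 2 ^ t))
        + (2 * |(d : ℝ)| + 3) * N j := by
    intro j hj
    rw [mem_Ico] at hj
    set L := A * 3 ^ j / 2 ^ t with hL
    have hLn : 0 ≤ L := by rw [hL]; positivity
    have h3j : (0 : ℝ) < 3 ^ j := by positivity
    have hLj : L / 3 ^ j = A / 2 ^ t := by rw [hL]; field_simp
    have hword : |∑ w ∈ FWT c j t, ∑ M ∈ (Od A).filter (fun M => (2 : ℤ) ^ t ∣ 3 ^ j * M + d * Wo w),
            Ψ ((3 ^ j * M + d * Wo w) / 2 ^ t)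
          - ∑ w ∈ FWT c j t, ∑ x ∈ cl L (2 * L) j (2 ^ t) (d * Wo w), Ψ x|
        ≤ 2 * (|(d : ℝ)| + 1) * N j := by
      rw [← sum_sub_distrib]
      refine (abs_sum_le_sum_abs _ _).trans ?_
      calc ∑ w ∈ FWT c j t, |∑ M ∈ (Od A).filter (fun M => (2 : ℤ) ^ t ∣ 3 ^ j * M + d * Wo w),
            Ψ ((3 ^ j * M + d * Wo w) / 2 ^ t)
          - ∑ x ∈ cl L (2 * L) j (2 ^ t) (d * Wo w), Ψ x|
          ≤ ∑ _w ∈ FWT c j t, 2 * (|(d : ℝ)| + 1) :=
            sum_le_sum fun w hw => one_word hd c j t ht hΨ hw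
        _ = _ := by rw [sum_const, nsmul_eq_mul, hN]; ring
    split_ifs with hmj
    · have hmix := mixF hd3 hΨ hLn c j m t hmj
      have hcoef : 2 ^ t * (L / 3 ^ j + 1) = A + 2 ^ t := by
        rw [hLj]; field_simp
      rw [hcoef] at hmix
      have hmain : |(∑ w ∈ FWT c j t, ∑ x ∈ cl L (2 * L) m (2 ^ t) (d * Wo w), Ψ x) / 3 ^ (j - m)|
          ≤ δ * A * (N j / 2 ^ t) := by
        rw [abs_div, abs_of_pos (by positivity : (0 : ℝ) < 3 ^ (j - m)), div_le_iff₀ (by positivity)]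
        refine (abs_sum_le_sum_abs _ _).trans ?_
        calc ∑ w ∈ FWT c j t, |∑ x ∈ cl L (2 * L) m (2 ^ t) (d * Wo w), Ψ x|
            ≤ ∑ _w ∈ FWT c j t, δ * L / 3 ^ m := by
              apply sum_le_sum
              intro w _
              obtain ⟨b, hb⟩ := cl_one m (cop23 t) (d * Wo w)
              rw [hb]
              exact h j hj.1 b
          _ = N j * (δ * L / 3 ^ m) := by rw [sum_const, nsmul_eq_mul]
          _ = δ * A * (N j / 2 ^ t) * 3 ^ (j - m) := by
              have h3 : (3 : ℝ) ^ j = 3 ^ (j - m) * 3 ^ m := by rw [← pow_add]; congr 1; omega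
              rw [hL, h3]
              field_simp
      have h5 : |∑ w ∈ FWT c j t, ∑ M ∈ (Od A).filter (fun M => (2 : ℤ) ^ t ∣ 3 ^ j * M + d * Wo w),
            Ψ ((3 ^ j * M + d * Wo w) / 2 ^ t)|
          ≤ 2 * (|(d : ℝ)| + 1) * N j + ((A + 2 ^ t) * dv j + δ * A * (N j / 2 ^ t)) := by
        have a1 := abs_le.1 hword
        have a2 := abs_le.1 hmix
        have a3 := abs_le.1 hmain
        rw [abs_le]
        constructor <;> linarith [a1.1, a1.2, a2.1, a2.2, a3.1, a3.2]
      have h6 : 0 ≤ N j := hNn j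
      nlinarith [h5]
    · have hmain : |∑ w ∈ FWT c j t, ∑ x ∈ cl L (2 * L) j (2 ^ t) (d * Wo w), Ψ x|
          ≤ A * (N j / 2 ^ t) + N j := by
        refine (abs_sum_le_sum_abs _ _).trans ?_
        calc ∑ w ∈ FWT c j t, |∑ x ∈ cl L (2 * L) j (2 ^ t) (d * Wo w), Ψ x|
            ≤ ∑ _w ∈ FWT c j t, (A / 2 ^ t + 1) := by
              apply sum_le_sum
              intro w _
              refine (abs_sum_le_card hΨ _).trans ?_
              have := cl_card_le (by linarith : L ≤ 2 * L) j (cop23 t) (d * Wo w)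
              rw [show 2 * L - L = L by ring, hLj] at this
              exact this
          _ = _ := by rw [sum_const, nsmul_eq_mul, hN]; ring
      have h5 : |∑ w ∈ FWT c j t, ∑ M ∈ (Od A).filter (fun M => (2 : ℤ) ^ t ∣ 3 ^ j * M + d * Wo w),
            Ψ ((3 ^ j * M + d * Wo w) / 2 ^ t)|
          ≤ 2 * (|(d : ℝ)| + 1) * N j + (A * (N j / 2 ^ t) + N j) := by
        have a1 := abs_le.1 hword
        have a3 := abs_le.1 hmain
        rw [abs_le]
        constructor <;> linarith [a1.1, a1.2, a3.1, a3.2]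
      have h6 : 0 ≤ δ * A * (N j / 2 ^ t) := by
        have := hNn j
        positivity
      linarith
  refine (abs_sum_le_sum_abs _ _).trans ((sum_le_sum hone).trans ?_)
  rw [sum_add_distrib, sum_add_distrib, ← mul_sum, ← mul_sum]
  have hwc : ∑ j ∈ range (t + 1), N j ≤ 2 ^ t := by
    have := words_card (c := c) ht
    have h' : ((∑ j ∈ range (t + 1), (FWT c j t).card : ℕ) : ℝ) ≤ ((2 ^ t : ℕ) : ℝ) := by
      exact_mod_cast this
    push_cast at h'
    exact h'
  have hsubr : Ico j₀ (t + 1) ⊆ range (t + 1) := by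
    intro j hj
    rw [mem_Ico] at hj
    rw [mem_range]; exact hj.2
  have hNs : ∑ j ∈ Ico j₀ (t + 1), N j ≤ 2 ^ t :=
    (sum_le_sum_of_subset_of_nonneg hsubr fun j _ _ => hNn j).trans hwc
  have h1 : δ * A * ∑ j ∈ Ico j₀ (t + 1), N j / 2 ^ t ≤ δ * A := by
    rw [← sum_div]
    have : (∑ j ∈ Ico j₀ (t + 1), N j) / 2 ^ t ≤ 1 := by
      rw [div_le_one h2t]; exact hNs
    have h0 : 0 ≤ δ * A := by positivity
    nlinarith
  have h2 : (2 * |(d : ℝ)| + 3) * ∑ j ∈ Ico j₀ (t + 1), N j ≤ (2 * |(d : ℝ)| + 3) * 2 ^ t :=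
    mul_le_mul_of_nonneg_left hNs (by positivity)
  have h3 : ∑ j ∈ Ico j₀ (t + 1), (if m ≤ j then (A + 2 ^ t) * dv j else A * (N j / 2 ^ t))
      ≤ (A + 2 ^ t) * Df c m t := by
    calc ∑ j ∈ Ico j₀ (t + 1), (if m ≤ j then (A + 2 ^ t) * dv j else A * (N j / 2 ^ t))
        ≤ ∑ j ∈ range (t + 1), (if m ≤ j then (A + 2 ^ t) * dv j else A * (N j / 2 ^ t)) := by
          apply sum_le_sum_of_subset_of_nonneg hsubr
          intro j _ _
          have := hdvn j
          have := hNn j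
          split_ifs <;> positivity
      _ = ∑ j ∈ (range (t + 1)).filter (fun j => m ≤ j), (A + 2 ^ t) * dv j
          + ∑ j ∈ (range (t + 1)).filter (fun j => ¬ m ≤ j), A * (N j / 2 ^ t) := by
          rw [sum_ite]
      _ ≤ ∑ j ∈ Ico m (t + 1), (A + 2 ^ t) * dv j + ∑ j ∈ range m, (A + 2 ^ t) * (N j / 2 ^ t) := by
          apply add_le_add
          · apply sum_le_sum_of_subset_of_nonneg
            · intro j hj
              rw [mem_filter, mem_range] at hj
              rw [mem_Ico]; omega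
            · intro j _ _
              have := hdvn j
              positivity
          · calc ∑ j ∈ (range (t + 1)).filter (fun j => ¬ m ≤ j), A * (N j / 2 ^ t)
                ≤ ∑ j ∈ (range (t + 1)).filter (fun j => ¬ m ≤ j), (A + 2 ^ t) * (N j / 2 ^ t) := by
                  apply sum_le_sum
                  intro j _
                  have := hNn j
                  apply mul_le_mul_of_nonneg_right _ (by positivity)
                  linarith
              _ ≤ _ := by
                  apply sum_le_sum_of_subset_of_nonneg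
                  · intro j hj
                    rw [mem_filter, mem_range] at hj
                    rw [mem_range]; omega
                  · intro j _ _
                    have := hNn j
                    positivity
      _ = _ := by
          unfold Df
          rw [← mul_sum, ← mul_sum, ← mul_add]
          congr 2
          apply sum_congr rfl
          intro j _
          exact (hww j).symm
  linarith

/-- the integers of `[A,2A)` -/
noncomputable def Wn (A : ℝ) : Finset ℤ := Ico ⌈A⌉ ⌈2 * A⌉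

theorem mem_Wn {A : ℝ} {x : ℤ} : x ∈ Wn A ↔ A ≤ x ∧ (x : ℝ) < 2 * A := by
  unfold Wn; rw [mem_win]

theorem Wn_card {A : ℝ} (hA : 0 ≤ A) : ((Wn A).card : ℝ) ≤ A + 1 := by
  have h1 : Wn A = cl A (2 * A) 0 1 0 := by
    ext x
    rw [mem_Wn, mem_cl]; simp
  rw [h1]
  have := cl_card_le (by linarith : A ≤ 2 * A) 0 isCoprime_one_left (0 : ℤ)
  rw [show 2 * A - A = A by ring] at this
  simpa using this

/-- THE LAW OF THE `t`-TH ITERATE -/
theorem all_main {d : ℤ} (hd : d % 2 = 1) (hd3 : IsCoprime d 3) {c : ℕ}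
    (m j₀ : ℕ) {Ψ : ℤ → ℝ} (hΨ : ∀ x, |Ψ x| ≤ 1) {δ : ℝ} (hδ : 0 ≤ δ) :
    ∀ (t : ℕ), t ≤ c → ∀ {A : ℝ}, 0 ≤ A →
    (∀ j, j₀ ≤ j → ∀ b : ℤ, |∑ x ∈ cl (A * 3 ^ j / 2 ^ t) (2 * (A * 3 ^ j / 2 ^ t)) m 1 b, Ψ x|
      ≤ δ * (A * 3 ^ j / 2 ^ t) / 3 ^ m) →
    |∑ n ∈ (Wn A).filter (fun n => j₀ ≤ od d t n), Ψ ((Tz d)^[t] n)|
      ≤ 2 * δ * A + (A + 2 ^ t) * Dg c m t + (2 * |(d : ℝ)| + 3) * 2 ^ (t + 1) := by
  intro t
  induction t with
  | zero =>
    intro _ A hA _
    have h1 : |∑ n ∈ (Wn A).filter (fun n => j₀ ≤ od d 0 n), Ψ ((Tz d)^[0] n)| ≤ A + 1 := by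
      simp only [Function.iterate_zero, id]
      refine (abs_sum_le_card hΨ _).trans ?_
      refine le_trans ?_ (Wn_card hA)
      exact_mod_cast card_le_card (filter_subset _ _)
    have h2 : 0 ≤ 2 * δ * A := by positivity
    have h3 : 0 ≤ (2 * |(d : ℝ)| + 3) * 2 ^ (0 + 1) := by positivity
    have h4 : (A + 2 ^ 0) * Dg c m 0 = A + 1 := by simp [Dg]
    rw [h4]
    linarith
  | succ t ih =>
    intro hc A hA h
    have hodd := odd_main hd hd3 hA m j₀ (by omega : 1 ≤ t + 1) hc hΨ hδ h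
    have hA2 : (A / 2) * 2 = A := by ring
    have hwin : ∀ j : ℕ, A / 2 * 3 ^ j / 2 ^ t = A * 3 ^ j / 2 ^ (t + 1) := by
      intro j; rw [pow_succ]; field_simp
    have heven := ih (by omega) (A := A / 2) (by positivity) (by
      intro j hj b
      rw [hwin]; exact h j hj b)
    have hsplit : ∑ n ∈ (Wn A).filter (fun n => j₀ ≤ od d (t + 1) n), Ψ ((Tz d)^[t + 1] n)
        = ∑ M ∈ (Od A).filter (fun M => j₀ ≤ od d (t + 1) M), Ψ ((Tz d)^[t + 1] M)
          + ∑ n ∈ (Wn (A / 2)).filter (fun n => j₀ ≤ od d t n), Ψ ((Tz d)^[t] n) := by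
      rw [← sum_filter_add_sum_filter_not ((Wn A).filter (fun n => j₀ ≤ od d (t + 1) n))
        (fun n => n % 2 = 1)]
      congr 1
      · apply sum_congr _ (fun _ _ => rfl)
        ext n
        simp only [mem_filter, mem_Od, mem_Wn]
        tauto
      · apply sum_nbij' (fun n => n / 2) (fun n => 2 * n)
        · intro n hn
          rw [mem_filter, mem_filter, mem_Wn] at hn
          obtain ⟨⟨⟨h1, h2⟩, h3⟩, h4⟩ := hn
          obtain ⟨y, rfl⟩ : ∃ y, n = 2 * y := ⟨n / 2, by omega⟩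
          have e1 : Tz d (2 * y) = y := by unfold Tz; rw [if_pos (by omega)]; omega
          rw [Int.mul_ediv_cancel_left _ (by norm_num), mem_filter, mem_Wn]
          rw [od_succ', e1] at h3
          have e2 : ((2 * y) % 2).toNat = 0 := by
            have : (2 * y) % 2 = 0 := by omega
            rw [this]; rfl
          rw [e2, add_zero] at h3
          push_cast at h1 h2
          exact ⟨⟨by linarith, by linarith⟩, h3⟩
        · intro y hy
          rw [mem_filter, mem_Wn] at hy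
          obtain ⟨⟨h1, h2⟩, h3⟩ := hy
          have e1 : Tz d (2 * y) = y := by unfold Tz; rw [if_pos (by omega)]; omega
          rw [mem_filter, mem_filter, mem_Wn, od_succ', e1]
          push_cast
          exact ⟨⟨⟨by linarith, by linarith⟩, by omega⟩, by omega⟩
        · intro n hn
          rw [mem_filter] at hn
          have := hn.2
          omega
        · intro y _
          exact Int.mul_ediv_cancel_left _ (by norm_num)
        · intro n hn
          rw [mem_filter] at hn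
          have h1 := hn.2
          have e1 : Tz d n = n / 2 := by unfold Tz; rw [if_pos (by omega)]
          rw [Function.iterate_succ_apply, e1]
    rw [hsplit]
    have hDg : Dg c m (t + 1) = Df c m (t + 1) + Dg c m t / 2 := rfl
    calc |∑ M ∈ (Od A).filter (fun M => j₀ ≤ od d (t + 1) M), Ψ ((Tz d)^[t + 1] M)
          + ∑ n ∈ (Wn (A / 2)).filter (fun n => j₀ ≤ od d t n), Ψ ((Tz d)^[t] n)|
        ≤ (δ * A + (A + 2 ^ (t + 1)) * Df c m (t + 1) + (2 * |(d : ℝ)| + 3) * 2 ^ (t + 1))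
          + (2 * δ * (A / 2) + (A / 2 + 2 ^ t) * Dg c m t + (2 * |(d : ℝ)| + 3) * 2 ^ (t + 1)) :=
          (abs_add_le _ _).trans (add_le_add hodd heven)
      _ = _ := by
          rw [hDg, pow_succ 2 (t + 1), pow_succ 2 t]
          ring

/-! ### the defects are small on average -/

theorem dev_sum : ∃ C : ℝ, 0 < C ∧ ∀ c j m : ℕ, 1 ≤ m → m ≤ j → 3 * j ≤ c →
    ∑ T ∈ range (j * c + 1), dev (FWT c j T) wwt (fun w => (Wo w : ℤ)) j m ≤ C / m := by
  obtain ⟨C, hC, hg⟩ := gam_all 4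
  refine ⟨Real.sqrt (2 * C) * 2, by positivity, fun c j m hm hmj hc => ?_⟩
  have hnn : ∀ T, ∀ w ∈ FWT c j T, 0 ≤ wwt w := fun T w _ => (wwt_pos w).le
  have hmass : ∑ T ∈ range (j * c + 1), ∑ w ∈ FWT c j T, wwt w ≤ 1 := by
    unfold FWT
    rw [sum_fiberwise_of_maps_to (g := fun w : List ℕ => w.sum)]
    · exact sum_wwt_le c j
    · intro w hw
      have := (sum_le_of_mem hw).2
      simp only [mem_range]
      omega
  have hj1 : 1 ≤ j := hm.trans hmj
  have hgJ : ∀ J ∈ Ico m j, gam c j J ≤ C * (1 / (J : ℝ)) ^ 4 := by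
    intro J hJ
    rw [mem_Ico] at hJ
    have := hg j 0 J c J hj1 (by omega) hc le_rfl (by omega)
    simpa using this
  calc ∑ T ∈ range (j * c + 1), dev (FWT c j T) wwt (fun w => (Wo w : ℤ)) j m
      ≤ ∑ T ∈ range (j * c + 1), ∑ J ∈ Ico m j, Real.sqrt (2 * ∑ i ∈ FWT c j T, wwt i)
          * Real.sqrt (Gam (FWT c j T) wwt (fun w => (Wo w : ℤ)) J) :=
        sum_le_sum fun T _ => dev_le _ (hnn T) m j hmj
    _ = ∑ J ∈ Ico m j, ∑ T ∈ range (j * c + 1), Real.sqrt (2 * ∑ i ∈ FWT c j T, wwt i)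
          * Real.sqrt (Gam (FWT c j T) wwt (fun w => (Wo w : ℤ)) J) := sum_comm
    _ ≤ ∑ J ∈ Ico m j, Real.sqrt 2 * Real.sqrt (gam c j J) := by
        apply sum_le_sum
        intro J _
        refine (Real.sum_sqrt_mul_sqrt_le (range (j * c + 1))
          (f := fun T => 2 * ∑ i ∈ FWT c j T, wwt i)
          (g := fun T => Gam (FWT c j T) wwt (fun w => (Wo w : ℤ)) J) ?_ ?_).trans ?_
        · intro T
          have := sum_nonneg (hnn T)
          positivity
        · intro T; exact Gam_nonneg _ J (hnn T)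
        · apply mul_le_mul_of_nonneg_right _ (Real.sqrt_nonneg _)
          apply Real.sqrt_le_sqrt
          rw [← mul_sum]
          linarith
    _ ≤ ∑ J ∈ Ico m j, Real.sqrt (2 * C) * (1 / (J : ℝ)) ^ 2 := by
        apply sum_le_sum
        intro J hJ
        have h1 := hgJ J hJ
        rw [← Real.sqrt_mul (by norm_num)]
        calc Real.sqrt (2 * gam c j J) ≤ Real.sqrt (2 * C * ((1 / (J : ℝ)) ^ 2) ^ 2) := by
              apply Real.sqrt_le_sqrt
              rw [← pow_mul]; linarith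
          _ = Real.sqrt (2 * C) * (1 / (J : ℝ)) ^ 2 := by
              rw [Real.sqrt_mul (by positivity), Real.sqrt_sq (by positivity)]
    _ = Real.sqrt (2 * C) * ∑ J ∈ Ico m j, (1 / (J : ℝ)) ^ 2 := by rw [mul_sum]
    _ ≤ Real.sqrt (2 * C) * (2 / m) := by
        apply mul_le_mul_of_nonneg_left _ (Real.sqrt_nonneg _)
        -- telescoping: `1/J^2 ≤ 2/J - 2/(J+1)`
        have hm0 : (0 : ℝ) < m := by exact_mod_cast hm
        have htel : ∀ n : ℕ, m ≤ n →
            ∑ J ∈ Ico m n, (1 / (J : ℝ)) ^ 2 ≤ 2 / (m : ℝ) - 2 / (n : ℝ) := by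
          intro n hn
          induction n, hn using Nat.le_induction with
          | base => simp
          | succ n hn ih =>
            rw [sum_Ico_succ_top hn]
            have hn0 : (0 : ℝ) < n := by
              have : 0 < n := by omega
              exact_mod_cast this
            have h1 : (1 : ℝ) ≤ n := by exact_mod_cast (hm.trans hn)
            have h2 : (1 / (n : ℝ)) ^ 2 ≤ 2 / n - 2 / ((n + 1 : ℕ) : ℝ) := by
              push_cast
              rw [div_sub_div _ _ (by positivity) (by positivity), div_pow, one_pow,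
                div_le_div_iff₀ (by positivity) (by positivity)]
              nlinarith
            linarith
        have := htel j hmj
        have hj0 : (0 : ℝ) ≤ 2 / (j : ℝ) := by positivity
        linarith
    _ = _ := by ring

theorem Df_sum : ∃ C : ℝ, 0 < C ∧ ∀ c m K : ℕ, 1 ≤ m → 3 * K ≤ c →
    ∑ t ∈ range (K + 1), Df c m t ≤ C * K / m + m := by
  obtain ⟨C, hC, hdev⟩ := dev_sum
  refine ⟨C, hC, fun c m K hm hc => ?_⟩
  unfold Df
  rw [sum_add_distrib]
  have hm0 : (0 : ℝ) < m := by exact_mod_cast hm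
  have h1 : ∑ t ∈ range (K + 1), ∑ j ∈ Ico m (t + 1), dev (FWT c j t) wwt (fun w => (Wo w : ℤ)) j m
      ≤ C * K / m := by
    calc ∑ t ∈ range (K + 1), ∑ j ∈ Ico m (t + 1), dev (FWT c j t) wwt (fun w => (Wo w : ℤ)) j m
        ≤ ∑ t ∈ range (K + 1), ∑ j ∈ Ico m (K + 1), dev (FWT c j t) wwt (fun w => (Wo w : ℤ)) j m := by
          apply sum_le_sum
          intro t ht
          rw [mem_range] at ht
          apply sum_le_sum_of_subset_of_nonneg
          · intro j hj
            rw [mem_Ico] at hj ⊢; omega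
          · intro j _ _; exact dev_nonneg _ _ _ _ _
      _ = ∑ j ∈ Ico m (K + 1), ∑ t ∈ range (K + 1), dev (FWT c j t) wwt (fun w => (Wo w : ℤ)) j m :=
          sum_comm
      _ ≤ ∑ _j ∈ Ico m (K + 1), C / m := by
          apply sum_le_sum
          intro j hj
          rw [mem_Ico] at hj
          refine le_trans ?_ (hdev c j m hm hj.1 (by omega))
          apply sum_le_sum_of_subset_of_nonneg
          · intro t ht
            rw [mem_range] at ht ⊢
            have : 1 * c ≤ j * c := Nat.mul_le_mul_right c (by omega)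
            omega
          · intro t _ _; exact dev_nonneg _ _ _ _ _
      _ = ((K + 1 - m : ℕ) : ℝ) * (C / m) := by rw [sum_const, Nat.card_Ico, nsmul_eq_mul]
      _ ≤ K * (C / m) := by
          apply mul_le_mul_of_nonneg_right _ (by positivity)
          have : K + 1 - m ≤ K := by omega
          exact_mod_cast this
      _ = _ := by ring
  have h2 : ∑ t ∈ range (K + 1), ∑ j ∈ range m, ∑ w ∈ FWT c j t, wwt w ≤ m := by
    rw [sum_comm]
    calc ∑ j ∈ range m, ∑ t ∈ range (K + 1), ∑ w ∈ FWT c j t, wwt w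
        ≤ ∑ _j ∈ range m, (1 : ℝ) := by
          apply sum_le_sum
          intro j _
          refine le_trans ?_ (sum_wwt_le c j)
          calc ∑ t ∈ range (K + 1), ∑ w ∈ FWT c j t, wwt w
              = ∑ t ∈ range (K + 1), ∑ w ∈ FW c j, (if w.sum = t then wwt w else 0) := by
                apply sum_congr rfl
                intro t _
                unfold FWT
                rw [sum_filter]
            _ = ∑ w ∈ FW c j, ∑ t ∈ range (K + 1), (if w.sum = t then wwt w else 0) := sum_comm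
            _ ≤ _ := by
                apply sum_le_sum
                intro w _
                rw [sum_ite_eq]
                split_ifs
                · exact le_rfl
                · exact (wwt_pos w).le
      _ = m := by simp
  linarith

/-- THE DEFECTS ARE SMALL ON AVERAGE -/
theorem Dg_sum : ∃ C : ℝ, 0 < C ∧ ∀ c m K : ℕ, 1 ≤ m → 3 * K ≤ c →
    ∑ t ∈ range (K + 1), Dg c m t ≤ C * K / m + 2 * m + 2 := by
  obtain ⟨C, hC, hDf⟩ := Df_sum
  refine ⟨2 * C, by positivity, fun c m K hm hc => ?_⟩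
  have h1 := hDf c m K hm hc
  have key : ∀ K : ℕ, ∑ t ∈ range (K + 1), Dg c m t ≤ 2 * (1 + ∑ t ∈ range (K + 1), Df c m t) := by
    intro K
    have h2 : ∑ t ∈ range (K + 1), Dg c m t = 1 + ∑ t ∈ range K, (Df c m (t + 1) + Dg c m t / 2) := by
      rw [sum_range_succ']
      simp only [Dg]
      ring
    have h3 : ∑ t ∈ range K, Dg c m t ≤ ∑ t ∈ range (K + 1), Dg c m t := by
      rw [sum_range_succ]; linarith [Dg_nonneg c m K]
    have h4 : ∑ t ∈ range K, Df c m (t + 1) ≤ ∑ t ∈ range (K + 1), Df c m t := by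
      rw [sum_range_succ' (fun t => Df c m t)]; linarith [Df_nonneg c m 0]
    rw [sum_add_distrib, ← sum_div] at h2
    linarith
  have h5 := key K
  have : 2 * (1 + (C * K / m + m)) = 2 * C * K / m + 2 * m + 2 := by ring
  linarith

end Pool.Agent.R344.SP
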