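import Pool.Agent.R344.SP.C

/-! Sampling principle, part D: large deviations of the number of odd terms; independence of the cap;
good times; restarts. -/

set_option autoImplicit false

namespace Pool.Agent.R344.SP

open Pool.Agent.H320R2.PD Finset
open Pool.Agent.H499R2.CO (Tz)
open Pool.Agent.H499R2.ND (mem_win ap mem_ap ap_card_le)

/-! ### the number of odd terms -/

theorem od_periodic {d : ℤ} (hd : d % 2 = 1) : ∀ (t : ℕ) (x m : ℤ), od d t (x + m * 2 ^ t) = od d t x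
  | 0, x, m => by simp [od]
  | t + 1, x, m => by
    obtain ⟨m', hm'⟩ := Pool.Agent.H499R2.CO.Tz_add hd t x m
    rw [od_succ', od_succ', hm', od_periodic hd t]
    have h2 : m * (2 : ℤ) ^ (t + 1) = 2 * (m * 2 ^ t) := by rw [pow_succ]; ring
    have hpar : (x + m * 2 ^ (t + 1)) % 2 = x % 2 := by omega
    rw [hpar]

/-- the generating function of the number of odd terms -/
theorem od_gen {d : ℤ} (hd : d % 2 = 1) (x : ℝ) : ∀ (t : ℕ),
    ∑ r ∈ range (2 ^ t), x ^ od d t (r : ℤ) = (1 + x) ^ t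
  | 0 => by simp [od]
  | t + 1 => by
    have ih := od_gen hd x t
    rw [pow_succ 2 t, mul_comm (2 ^ t) 2, Pool.Agent.H499R2.CO.sum_two]
    have h1 : ∑ u ∈ range (2 ^ t), x ^ od d (t + 1) ((2 * u : ℕ) : ℤ) = (1 + x) ^ t := by
      rw [← ih]
      apply sum_congr rfl
      intro u _
      rw [od_succ']
      have e1 : Tz d ((2 * u : ℕ) : ℤ) = u := by unfold Tz; rw [if_pos (by push_cast; omega)]; push_cast; omega
      have e2 : (((2 * u : ℕ) : ℤ) % 2).toNat = 0 := by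
        have : ((2 * u : ℕ) : ℤ) % 2 = 0 := by push_cast; omega
        rw [this]; rfl
      rw [e1, e2, add_zero]
    have h2 : ∑ u ∈ range (2 ^ t), x ^ od d (t + 1) ((2 * u + 1 : ℕ) : ℤ) = x * (1 + x) ^ t := by
      rw [← ih]
      have hP : ∀ y m : ℤ, (fun y : ℤ => x ^ od d t y) (y + m * 2 ^ t) = (fun y : ℤ => x ^ od d t y) y := by
        intro y m
        simp only [od_periodic hd]
      have h3 := Pool.Agent.H499R2.CO.sum_affine t (fun y : ℤ => x ^ od d t y)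
        hP (a := 3) (by norm_num) ((3 + d) / 2)
      rw [mul_sum]
      have h4 : ∑ i ∈ range (2 ^ t), x * x ^ od d t (i : ℤ)
          = x * ∑ u ∈ range (2 ^ t), x ^ od d t (3 * (u : ℤ) + (3 + d) / 2) := by
        rw [← mul_sum]
        congr 1
        exact h3.symm
      rw [h4, mul_sum]
      apply sum_congr rfl
      intro u _
      rw [od_succ']
      have e1 : Tz d ((2 * u + 1 : ℕ) : ℤ) = 3 * (u : ℤ) + (3 + d) / 2 := by
        unfold Tz; rw [if_neg (by push_cast; omega)]; push_cast; omega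
      have e2 : (((2 * u + 1 : ℕ) : ℤ) % 2).toNat = 1 := by
        have : ((2 * u + 1 : ℕ) : ℤ) % 2 = 1 := by push_cast; omega
        rw [this]; rfl
      rw [e1, e2, pow_succ]
      ring
    rw [h1, h2, pow_succ]
    ring

/-- a sum of a nonnegative function with period `2^t` over a window -/
theorem sum_window_le {g : ℤ → ℝ} (hg : ∀ x, 0 ≤ g x) (t : ℕ) (hper : ∀ x m : ℤ, g (x + m * 2 ^ t) = g x)
    {A : ℝ} (hA : 0 ≤ A) :
    ∑ n ∈ Wn A, g n ≤ (A / 2 ^ t + 1) * ∑ r ∈ range (2 ^ t), g (r : ℤ) := by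
  have h2z : (0 : ℤ) < 2 ^ t := by positivity
  have hmap : ∀ n ∈ Wn A, (n % 2 ^ t).toNat ∈ range (2 ^ t) := by
    intro n _
    have h1 := Int.emod_nonneg n h2z.ne'
    have h2 := Int.emod_lt_of_pos n h2z
    rw [mem_range]
    have h3 : (((n % 2 ^ t).toNat : ℕ) : ℤ) < ((2 ^ t : ℕ) : ℤ) := by
      rw [Int.toNat_of_nonneg h1]; push_cast; exact h2
    exact_mod_cast h3
  rw [← sum_fiberwise_of_maps_to hmap, mul_sum]
  apply sum_le_sum
  intro r hr
  have h1 : ∀ n ∈ (Wn A).filter (fun n => (n % 2 ^ t).toNat = r), g n = g (r : ℤ) := by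
    intro n hn
    rw [mem_filter] at hn
    have h4 := Int.emod_nonneg n h2z.ne'
    have h5 : (r : ℤ) = n % 2 ^ t := by rw [← hn.2, Int.toNat_of_nonneg h4]
    have h6 : n = r + (n / 2 ^ t) * 2 ^ t := by
      rw [h5]; linarith [Int.emod_add_mul_ediv n (2 ^ t), mul_comm (2 ^ t) (n / 2 ^ t)]
    rw [h6]
    rw [hper]
  rw [sum_congr rfl h1, sum_const, nsmul_eq_mul]
  apply mul_le_mul_of_nonneg_right _ (hg _)
  have h2 : (Wn A).filter (fun n => (n % 2 ^ t).toNat = r) ⊆ ap A (2 * A) (2 ^ t) r := by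
    intro n hn
    rw [mem_filter, mem_Wn] at hn
    rw [mem_ap]
    refine ⟨hn.1, ?_⟩
    have h4 := Int.emod_nonneg n h2z.ne'
    have h5 : (r : ℤ) = n % 2 ^ t := by rw [← hn.2, Int.toNat_of_nonneg h4]
    rw [h5]
    exact Int.dvd_self_sub_emod
  have h3 := ap_card_le (by linarith : A ≤ 2 * A) h2z (r : ℤ)
  rw [show 2 * A - A = A by ring] at h3
  push_cast at h3
  refine le_trans ?_ h3
  exact_mod_cast card_le_card h2

open scoped Classical in
/-- few integers have few odd terms -/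
theorem od_small {d : ℤ} (hd : d % 2 = 1) {c₀ : ℝ} (hc : c₀ < 1 / 2) : ∃ ρ : ℝ, 0 < ρ ∧ ρ < 1 ∧
    ∀ (t : ℕ) (A : ℝ), 0 ≤ A →
      (((Wn A).filter (fun n => (od d t n : ℝ) < c₀ * t)).card : ℝ) ≤ (A + 2 ^ t) * ρ ^ t := by
  obtain ⟨x, hx0, hx1, hxc⟩ : ∃ x : ℝ, 0 < x ∧ x < 1 ∧ 2 * c₀ < x := by
    refine ⟨max (1 / 2) (1 / 2 + c₀), by positivity, ?_, ?_⟩
    · rw [max_lt_iff]; constructor <;> linarith
    · rcases le_or_gt c₀ (1 / 4) with h | h
      · rcases lt_or_ge c₀ (1 / 4) with h' | h'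
        · exact lt_of_lt_of_le (by linarith) (le_max_left _ _)
        · exact lt_of_lt_of_le (by linarith) (le_max_right _ _)
      · exact lt_of_lt_of_le (by linarith) (le_max_right _ _)
  -- ρ = (1+x)/2 * x^(-c₀)
  set ρ : ℝ := (1 + x) / 2 * x ^ (-c₀) with hρ
  have hρ0 : 0 < ρ := by rw [hρ]; positivity
  have hlog : Real.log ρ < 0 := by
    rw [hρ, Real.log_mul (by positivity) (by positivity), Real.log_rpow hx0]
    have h1 : Real.log ((1 + x) / 2) ≤ (1 + x) / 2 - 1 := Real.log_le_sub_one_of_pos (by positivity)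
    rcases le_or_gt 0 c₀ with h0 | h0
    · have h2 : Real.log (x⁻¹) ≤ x⁻¹ - 1 := Real.log_le_sub_one_of_pos (by positivity)
      rw [Real.log_inv] at h2
      have h3 : -c₀ * Real.log x ≤ c₀ * (x⁻¹ - 1) := by nlinarith
      have h4 : c₀ * (x⁻¹ - 1) < (1 - x) / 2 := by
        have : c₀ * (x⁻¹ - 1) = (c₀ / x) * (1 - x) := by field_simp
        rw [this]
        have h5 : c₀ / x < 1 / 2 := by rw [div_lt_iff₀ hx0]; linarith
        nlinarith
      linarith
    · have h2 : Real.log x < 0 := Real.log_neg hx0 hx1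
      have h3 : -c₀ * Real.log x < 0 := by nlinarith
      linarith
  refine ⟨ρ, hρ0, ?_, fun t A hA => ?_⟩
  · by_contra h
    have := Real.log_nonneg (not_lt.1 h)
    linarith
  have hgen := od_gen hd x t
  have hsum := sum_window_le (g := fun n => x ^ od d t n) (fun n => by positivity) t
    (fun n m => by simp only [od_periodic hd]) hA
  rw [hgen] at hsum
  have hxt : 0 < x ^ (c₀ * t) := Real.rpow_pos_of_pos hx0 _
  have hmk : (((Wn A).filter (fun n => (od d t n : ℝ) < c₀ * t)).card : ℝ) * x ^ (c₀ * t)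
      ≤ ∑ n ∈ Wn A, x ^ od d t n := by
    calc (((Wn A).filter (fun n => (od d t n : ℝ) < c₀ * t)).card : ℝ) * x ^ (c₀ * t)
        = ∑ n ∈ (Wn A).filter (fun n => (od d t n : ℝ) < c₀ * t), x ^ (c₀ * t) := by
          rw [sum_const, nsmul_eq_mul]
      _ ≤ ∑ n ∈ (Wn A).filter (fun n => (od d t n : ℝ) < c₀ * t), x ^ od d t n := by
          apply sum_le_sum
          intro n hn
          rw [mem_filter] at hn
          rw [← Real.rpow_natCast x (od d t n)]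
          exact Real.rpow_le_rpow_of_exponent_ge hx0 hx1.le hn.2.le
      _ ≤ _ := sum_le_sum_of_subset_of_nonneg (filter_subset _ _) fun n _ _ => by positivity
  have h1 : (((Wn A).filter (fun n => (od d t n : ℝ) < c₀ * t)).card : ℝ)
      ≤ (A / 2 ^ t + 1) * (1 + x) ^ t / x ^ (c₀ * t) := by
    rw [le_div_iff₀ hxt]; exact hmk.trans hsum
  refine h1.trans (le_of_eq ?_)
  have h2 : ρ ^ t = (1 + x) ^ t / 2 ^ t / x ^ (c₀ * t) := by
    rw [hρ, mul_pow, div_pow, ← Real.rpow_natCast (x ^ (-c₀)) t, ← Real.rpow_mul hx0.le,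
      show -c₀ * (t : ℝ) = -(c₀ * t) by ring, Real.rpow_neg hx0.le, ← div_eq_mul_inv]
  rw [h2]
  field_simp

/-! ### the cap plays no role -/

theorem FWT_cap {c c' j t : ℕ} (hc : t ≤ c) (hc' : t ≤ c') : FWT c j t = FWT c' j t := by
  ext w
  unfold FWT
  rw [mem_filter, mem_filter, mem_FW, mem_FW]
  constructor
  · rintro ⟨⟨h1, h2⟩, h3⟩
    exact ⟨⟨h1, fun e he => ⟨(h2 e he).1, letter_le h3 hc' e he⟩⟩, h3⟩
  · rintro ⟨⟨h1, h2⟩, h3⟩
    exact ⟨⟨h1, fun e he => ⟨(h2 e he).1, letter_le h3 hc e he⟩⟩, h3⟩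

theorem Df_cap {c c' m t : ℕ} (hc : t ≤ c) (hc' : t ≤ c') : Df c m t = Df c' m t := by
  unfold Df
  congr 1
  · apply sum_congr rfl
    intro j _
    rw [FWT_cap hc hc']
  · apply sum_congr rfl
    intro j _
    rw [FWT_cap hc hc']

theorem Dg_cap {c c' m : ℕ} : ∀ {t : ℕ}, t ≤ c → t ≤ c' → Dg c m t = Dg c' m t
  | 0, _, _ => rfl
  | t + 1, hc, hc' => by
    have h := Dg_cap (c := c) (c' := c') (m := m) (t := t) (by omega) (by omega)
    rw [Dg, Dg, Df_cap hc hc', h]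

/-- the defect -/
noncomputable def Dh (m t : ℕ) : ℝ := Dg t m t

theorem Dh_nonneg (m t : ℕ) : 0 ≤ Dh m t := Dg_nonneg _ _ _

theorem Dh_sum : ∃ C : ℝ, 0 < C ∧ ∀ m K : ℕ, 1 ≤ m →
    ∑ t ∈ range (K + 1), Dh m t ≤ C * K / m + 2 * m + 2 := by
  obtain ⟨C, hC, h⟩ := Dg_sum
  refine ⟨C, hC, fun m K hm => ?_⟩
  refine le_trans (le_of_eq ?_) (h (3 * K) m K hm le_rfl)
  apply sum_congr rfl
  intro t ht
  rw [mem_range] at ht
  exact Dg_cap le_rfl (by omega)

/-- the law of the `t`-th iterate, without cap -/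
theorem law {d : ℤ} (hd : d % 2 = 1) (hd3 : IsCoprime d 3)
    (m j₀ : ℕ) {Ψ : ℤ → ℝ} (hΨ : ∀ x, |Ψ x| ≤ 1) {δ : ℝ} (hδ : 0 ≤ δ) (t : ℕ) {A : ℝ} (hA : 0 ≤ A)
    (h : ∀ j, j₀ ≤ j → ∀ b : ℤ, |∑ x ∈ cl (A * 3 ^ j / 2 ^ t) (2 * (A * 3 ^ j / 2 ^ t)) m 1 b, Ψ x|
      ≤ δ * (A * 3 ^ j / 2 ^ t) / 3 ^ m) :
    |∑ n ∈ (Wn A).filter (fun n => j₀ ≤ od d t n), Ψ ((Tz d)^[t] n)|
      ≤ 2 * δ * A + (A + 2 ^ t) * Dh m t + (2 * |(d : ℝ)| + 3) * 2 ^ (t + 1) :=
  all_main hd hd3 m j₀ hΨ hδ t le_rfl hA h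

end Pool.Agent.R344.SP
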