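import Mathlib

/-! Sums of digits along arithmetic progressions. -/

set_option autoImplicit false

namespace Pool.Agent.R344.SP

open Finset

/-- the sum of the digits of `n` in base `b` -/
def sd (b n : ℕ) : ℕ := (Nat.digits b n).sum

theorem sd_step {b : ℕ} (hb : 2 ≤ b) (v d : ℕ) (hd : d < b) : sd b (b * v + d) = sd b v + d := by
  unfold sd
  rcases Nat.eq_zero_or_pos v with hv | hv
  · subst hv
    rcases Nat.eq_zero_or_pos d with h | h
    · subst h; simp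
    · rw [mul_zero, zero_add, Nat.digits_of_lt b d h.ne' hd]; simp
  · rw [add_comm, Nat.digits_add b (by omega) d v hd (Or.inr hv.ne')]
    rw [List.sum_cons, add_comm]

/-- `exp (2 π i x)` -/
noncomputable def ee (x : ℝ) : ℂ := Complex.exp ((2 * Real.pi * x : ℝ) * Complex.I)

theorem ee_norm (x : ℝ) : ‖ee x‖ = 1 := Complex.norm_exp_ofReal_mul_I _

theorem ee_add (x y : ℝ) : ee (x + y) = ee x * ee y := by
  unfold ee
  rw [← Complex.exp_add]
  congr 1
  push_cast; ring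

theorem ee_int (z : ℤ) : ee z = 1 := by
  unfold ee
  rw [Complex.exp_eq_one_iff]
  exact ⟨z, by push_cast; ring⟩

theorem ee_one_iff (x : ℝ) : ee x = 1 ↔ ∃ z : ℤ, x = z := by
  constructor
  · intro h
    unfold ee at h
    rw [Complex.exp_eq_one_iff] at h
    obtain ⟨n, hn⟩ := h
    refine ⟨n, ?_⟩
    have h1 : ((2 * Real.pi * x : ℝ) : ℂ) = ((n * (2 * Real.pi) : ℝ) : ℂ) := by
      have h2 : ((2 * Real.pi * x : ℝ) : ℂ) * Complex.I = ((n * (2 * Real.pi) : ℝ) : ℂ) * Complex.I := by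
        rw [hn]; push_cast; ring
      exact mul_right_cancel₀ Complex.I_ne_zero h2
    have h3 : 2 * Real.pi * x = n * (2 * Real.pi) := by exact_mod_cast h1
    have hpi := Real.pi_pos
    have h4 : (2 * Real.pi) * x = (2 * Real.pi) * n := by linarith
    exact mul_left_cancel₀ (by positivity) h4
  · rintro ⟨z, rfl⟩; exact ee_int z

theorem ee_nat_mul (n : ℕ) (x : ℝ) : ee (n * x) = ee x ^ n := by
  induction n with
  | zero => simp [ee]
  | succ n ih => rw [pow_succ, ← ih, ← ee_add]; congr 1; push_cast; ring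

/-- the digit sum -/
noncomputable def Ph (b : ℕ) (x : ℝ) : ℂ := ∑ d ∈ range b, ee (d * x)

/-- the exponential sum over an initial segment -/
noncomputable def Pd (b : ℕ) (θ : ℝ) (y : ℕ) (β : ℝ) : ℂ := ∑ n ∈ range y, ee (θ * sd b n + β * n)

theorem Pd_mul {b : ℕ} (hb : 2 ≤ b) (θ β : ℝ) : ∀ y : ℕ,
    Pd b θ (b * y) β = Ph b (θ + β) * Pd b θ y (b * β)
  | 0 => by simp [Pd]
  | y + 1 => by
    have h1 : Pd b θ (b * (y + 1)) β = Pd b θ (b * y) β
        + ∑ d ∈ range b, ee (θ * sd b (b * y + d) + β * ((b * y + d : ℕ) : ℝ)) := by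
      unfold Pd
      rw [mul_add, mul_one, sum_range_add]
    have h2 : ∑ d ∈ range b, ee (θ * sd b (b * y + d) + β * ((b * y + d : ℕ) : ℝ))
        = Ph b (θ + β) * ee (θ * sd b y + b * β * y) := by
      unfold Ph
      rw [sum_mul]
      apply sum_congr rfl
      intro d hd
      rw [mem_range] at hd
      rw [sd_step hb y d hd, ← ee_add]
      congr 1
      push_cast; ring
    rw [h1, h2, Pd_mul hb θ β y, ← mul_add]
    congr 1
    unfold Pd
    rw [sum_range_succ]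

theorem Pd_near {b : ℕ} (hb : 2 ≤ b) (θ β : ℝ) (y : ℕ) : ‖Pd b θ y β - Pd b θ (b * (y / b)) β‖ ≤ b := by
  have h1 : Pd b θ y β = Pd b θ (b * (y / b)) β
      + ∑ d ∈ range (y % b), ee (θ * sd b (b * (y / b) + d) + β * ((b * (y / b) + d : ℕ) : ℝ)) := by
    conv_lhs => rw [← Nat.div_add_mod y b]
    unfold Pd
    rw [sum_range_add]
  rw [h1, add_sub_cancel_left]
  refine (norm_sum_le _ _).trans ?_
  simp only [ee_norm, sum_const, card_range, nsmul_eq_mul, mul_one]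
  exact_mod_cast (Nat.mod_lt y (by omega)).le

/-- the sum over an interval -/
noncomputable def Gd (b : ℕ) (θ : ℝ) (x y : ℕ) (β : ℝ) : ℂ := Pd b θ y β - Pd b θ x β

theorem Gd_step {b : ℕ} (hb : 2 ≤ b) (θ β : ℝ) (x y : ℕ) :
    ‖Gd b θ x y β‖ ≤ ‖Ph b (θ + β)‖ * ‖Gd b θ (x / b) (y / b) (b * β)‖ + 2 * b := by
  have h1 := Pd_near hb θ β x
  have h2 := Pd_near hb θ β y
  rw [Pd_mul hb] at h1 h2
  have h3 : Gd b θ x y β = Ph b (θ + β) * Gd b θ (x / b) (y / b) (b * β)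
      + (Pd b θ y β - Ph b (θ + β) * Pd b θ (y / b) (b * β))
      - (Pd b θ x β - Ph b (θ + β) * Pd b θ (x / b) (b * β)) := by
    unfold Gd; ring
  rw [h3]
  refine (norm_sub_le _ _).trans ?_
  have h4 := norm_add_le (Ph b (θ + β) * Gd b θ (x / b) (y / b) (b * β))
    (Pd b θ y β - Ph b (θ + β) * Pd b θ (y / b) (b * β))
  rw [norm_mul] at h4
  linarith

theorem Ph_le {b : ℕ} (hb : 2 ≤ b) (x : ℝ) : ‖Ph b x‖ ≤ b - (2 - ‖1 + ee x‖) := by
  obtain ⟨c, rfl⟩ : ∃ c, b = c + 2 := ⟨b - 2, by omega⟩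
  unfold Ph
  rw [add_comm c 2, sum_range_add]
  refine (norm_add_le _ _).trans ?_
  have h1 : ∑ d ∈ range 2, ee ((d : ℕ) * x) = 1 + ee x := by
    rw [sum_range_succ, sum_range_one]
    congr 1
    · rw [Nat.cast_zero, zero_mul]; exact_mod_cast ee_int 0
    · rw [Nat.cast_one, one_mul]
  have h2 : ‖∑ d ∈ range c, ee (((2 + d : ℕ) : ℝ) * x)‖ ≤ c := by
    refine (norm_sum_le _ _).trans ?_
    simp only [ee_norm, sum_const, card_range, nsmul_eq_mul, mul_one]
    exact le_rfl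
  rw [h1]
  push_cast at h2 ⊢
  linarith

theorem ee_continuous : Continuous ee := by
  unfold ee; fun_prop

/-- two consecutive factors -/
theorem two_factors {b : ℕ} (hb : 2 ≤ b) {θ : ℝ} (hθ : ∀ z : ℤ, ((b : ℝ) - 1) * θ ≠ z) :
    ∃ ρ : ℝ, 0 ≤ ρ ∧ ρ < 1 ∧ ∀ β : ℝ, ‖Ph b (θ + β)‖ * ‖Ph b (θ + b * β)‖ ≤ ρ * b ^ 2 := by
  have hbR : (2 : ℝ) ≤ b := by exact_mod_cast hb
  set c : ℝ → ℝ := fun x => 2 - ‖1 + ee x‖ with hc
  have hc0 : ∀ x, 0 ≤ c x := by
    intro x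
    have := norm_add_le (1 : ℂ) (ee x)
    rw [ee_norm, norm_one] at this
    rw [hc]; dsimp only
    linarith
  have hc2 : ∀ x, c x ≤ 2 := fun x => by
    rw [hc]; dsimp only
    linarith [norm_nonneg (1 + ee x)]
  have hcz : ∀ x, c x = 0 → ∃ z : ℤ, x = z := by
    intro x hx
    rw [← ee_one_iff]
    have h1 : ‖1 + ee x‖ = 2 := by rw [hc] at hx; dsimp only at hx; linarith
    have h2 : ‖1 + ee x‖ ^ 2 = 2 + 2 * (ee x).re := by
      rw [← Complex.normSq_eq_norm_sq, Complex.normSq_apply]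
      have h3 : (ee x).re * (ee x).re + (ee x).im * (ee x).im = 1 := by
        rw [← Complex.normSq_apply, Complex.normSq_eq_norm_sq, ee_norm]; norm_num
      simp only [Complex.add_re, Complex.one_re, Complex.add_im, Complex.one_im]
      nlinarith
    rw [h1] at h2
    have h3 : (ee x).re = 1 := by linarith
    have h4 : (ee x).im = 0 := by
      have h5 : (ee x).re * (ee x).re + (ee x).im * (ee x).im = 1 := by
        rw [← Complex.normSq_apply, Complex.normSq_eq_norm_sq, ee_norm]; norm_num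
      rw [h3] at h5
      have : (ee x).im * (ee x).im = 0 := by linarith
      exact mul_self_eq_zero.1 this
    exact Complex.ext (by simpa using h3) (by simpa using h4)
  set K : ℝ → ℝ := fun β => c (θ + β) + c (θ + b * β) with hK
  have hKc : Continuous K := by
    rw [hK, hc]
    have := ee_continuous
    fun_prop
  have hKpos : ∀ β, 0 < K β := by
    intro β
    have h1 := hc0 (θ + β)
    have h2 := hc0 (θ + b * β)
    rcases (add_nonneg h1 h2).lt_or_eq with h | h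
    · exact h
    · exfalso
      have h3 : c (θ + β) = 0 := by linarith
      have h4 : c (θ + b * β) = 0 := by linarith
      obtain ⟨z₁, hz₁⟩ := hcz _ h3
      obtain ⟨z₂, hz₂⟩ := hcz _ h4
      apply hθ (b * z₁ - z₂)
      push_cast
      rw [← hz₁, ← hz₂]; ring
  have hper : ∀ (x : ℝ) (z : ℤ), c (x + z) = c x := by
    intro x z
    rw [hc]; dsimp only
    rw [ee_add, ee_int, mul_one]
  obtain ⟨β₀, hβ₀, hmin⟩ := isCompact_Icc.exists_isMinOn (s := Set.Icc (0 : ℝ) 1)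
    ⟨0, by norm_num, by norm_num⟩ hKc.continuousOn
  have hmin' : ∀ β, K β₀ ≤ K β := by
    intro β
    have h1 : K β = K (Int.fract β) := by
      rw [hK]; dsimp only
      have e1 : θ + β = θ + Int.fract β + (⌊β⌋ : ℤ) := by rw [Int.fract]; ring
      have e2 : θ + b * β = θ + b * Int.fract β + ((b * ⌊β⌋ : ℤ) : ℝ) := by
        rw [Int.fract]; push_cast; ring
      rw [e1, e2, hper, hper]
    rw [h1]
    exact hmin ⟨Int.fract_nonneg β, (Int.fract_lt_one β).le⟩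
  set κ₀ := K β₀ with hκ₀
  have hκpos : 0 < κ₀ := hKpos β₀
  refine ⟨max (1 - κ₀ / (2 * b)) 0, le_max_right _ _, max_lt (by
    have : 0 < κ₀ / (2 * b) := by positivity
    linarith) one_pos, fun β => ?_⟩
  have h1 := Ph_le hb (θ + β)
  have h2 := Ph_le hb (θ + b * β)
  have h3 := hmin' β
  have a1 : ‖Ph b (θ + β)‖ ≤ b - c (θ + β) := h1
  have a2 : ‖Ph b (θ + b * β)‖ ≤ b - c (θ + b * β) := h2
  have b1 := hc0 (θ + β)
  have b2 := hc0 (θ + b * β)
  have b3 := hc2 (θ + β)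
  have b4 := hc2 (θ + b * β)
  have h3' : κ₀ ≤ c (θ + β) + c (θ + b * β) := h3
  generalize c (θ + β) = u at *
  generalize c (θ + b * β) = v at *
  have h4 : ‖Ph b (θ + β)‖ * ‖Ph b (θ + b * β)‖ ≤ (b - u) * (b - v) :=
    mul_le_mul a1 a2 (norm_nonneg _) (by linarith)
  have h5 : ((b : ℝ) - u) * (b - v) ≤ b ^ 2 - b / 2 * κ₀ := by
    have h6 : u * v ≤ u + v := by nlinarith
    have h7 : (b : ℝ) / 2 * κ₀ ≤ b / 2 * (u + v) := mul_le_mul_of_nonneg_left h3' (by positivity)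
    have h8 : u + v ≤ b / 2 * (u + v) := by nlinarith
    nlinarith
  have h6 : (b : ℝ) ^ 2 - b / 2 * κ₀ = (1 - κ₀ / (2 * b)) * b ^ 2 := by
    field_simp
  have h7 : (1 - κ₀ / (2 * b)) * (b : ℝ) ^ 2 ≤ max (1 - κ₀ / (2 * b)) 0 * b ^ 2 :=
    mul_le_mul_of_nonneg_right (le_max_left _ _) (by positivity)
  linarith

theorem Gd_bound {b : ℕ} (hb : 2 ≤ b) {θ : ℝ} (hθ : ∀ z : ℤ, ((b : ℝ) - 1) * θ ≠ z) :
    ∃ ρ : ℝ, 0 ≤ ρ ∧ ρ < 1 ∧ ∀ j : ℕ, ∃ C : ℝ, 0 ≤ C ∧ ∀ (x y : ℕ) (β : ℝ), x ≤ y →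
      ‖Gd b θ x y β‖ ≤ ρ ^ j * ((y : ℝ) - x) + C := by
  obtain ⟨ρ, hρ0, hρ1, hρ⟩ := two_factors hb hθ
  have hbR : (2 : ℝ) ≤ b := by exact_mod_cast hb
  refine ⟨ρ, hρ0, hρ1, fun j => ?_⟩
  induction j with
  | zero =>
    refine ⟨0, le_rfl, fun x y β hxy => ?_⟩
    obtain ⟨r, rfl⟩ := Nat.exists_eq_add_of_le hxy
    unfold Gd Pd
    rw [sum_range_add, add_sub_cancel_left]
    refine (norm_sum_le _ _).trans ?_
    simp only [ee_norm, sum_const, card_range, nsmul_eq_mul, mul_one]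
    push_cast
    linarith
  | succ j ih =>
    obtain ⟨C, hC, h⟩ := ih
    refine ⟨ρ ^ (j + 1) * b ^ 2 + ρ * b ^ 2 * C + 2 * b ^ 2 + 2 * b, by positivity, fun x y β hxy => ?_⟩
    have h1 := Gd_step hb θ β x y
    have h2 := Gd_step hb θ (b * β) (x / b) (y / b)
    have hxy' : x / b / b ≤ y / b / b := Nat.div_le_div_right (Nat.div_le_div_right hxy)
    have h3 := h (x / b / b) (y / b / b) (b * (b * β)) hxy'
    have h4 := hρ β
    have h5 : (((y / b / b : ℕ) : ℝ) - ((x / b / b : ℕ) : ℝ)) ≤ ((y : ℝ) - x) / b ^ 2 + 1 := by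
      rw [Nat.div_div_eq_div_mul, Nat.div_div_eq_div_mul]
      have hbb : (0 : ℝ) < ((b * b : ℕ) : ℝ) := by positivity
      have a1 : ((y / (b * b) : ℕ) : ℝ) ≤ (y : ℝ) / ((b * b : ℕ) : ℝ) := Nat.cast_div_le
      have a2 : (x : ℝ) / ((b * b : ℕ) : ℝ) < ((x / (b * b) : ℕ) : ℝ) + 1 := by
        rw [div_lt_iff₀ hbb]
        have := Nat.lt_div_mul_add (a := x) (b := b * b) (by positivity)
        have h6 : (x : ℝ) < ((x / (b * b) * (b * b) + b * b : ℕ) : ℝ) := by exact_mod_cast this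
        push_cast at h6 ⊢
        linarith
      have a3 : (((b * b : ℕ) : ℝ)) = (b : ℝ) ^ 2 := by push_cast; ring
      rw [a3] at a1 a2
      rw [sub_div]
      linarith
    have hPb : ‖Ph b (θ + β)‖ ≤ b := by
      have := Ph_le hb (θ + β)
      have h7 := norm_add_le (1 : ℂ) (ee (θ + β))
      rw [ee_norm, norm_one] at h7
      linarith
    have hρj : 0 ≤ ρ ^ j := pow_nonneg hρ0 j
    have hyx : (0 : ℝ) ≤ (y : ℝ) - x := by
      have : (x : ℝ) ≤ y := by exact_mod_cast hxy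
      linarith
    have h6 : ‖Gd b θ (x / b / b) (y / b / b) (b * (b * β))‖ ≤ ρ ^ j * (((y : ℝ) - x) / b ^ 2 + 1) + C := by
      have := mul_le_mul_of_nonneg_left h5 hρj
      linarith
    have h7 : ‖Ph b (θ + β)‖ * ‖Gd b θ (x / b) (y / b) (b * β)‖
        ≤ (‖Ph b (θ + β)‖ * ‖Ph b (θ + b * β)‖) * ‖Gd b θ (x / b / b) (y / b / b) (b * (b * β))‖
          + b * (2 * b) := by
      calc ‖Ph b (θ + β)‖ * ‖Gd b θ (x / b) (y / b) (b * β)‖
          ≤ ‖Ph b (θ + β)‖ * (‖Ph b (θ + b * β)‖ * ‖Gd b θ (x / b / b) (y / b / b) (b * (b * β))‖ + 2 * b) :=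
            mul_le_mul_of_nonneg_left h2 (norm_nonneg _)
        _ = (‖Ph b (θ + β)‖ * ‖Ph b (θ + b * β)‖) * ‖Gd b θ (x / b / b) (y / b / b) (b * (b * β))‖
            + ‖Ph b (θ + β)‖ * (2 * b) := by ring
        _ ≤ _ := by
            have : ‖Ph b (θ + β)‖ * (2 * b) ≤ b * (2 * b) := mul_le_mul_of_nonneg_right hPb (by positivity)
            linarith
    have h8 : (‖Ph b (θ + β)‖ * ‖Ph b (θ + b * β)‖) * ‖Gd b θ (x / b / b) (y / b / b) (b * (b * β))‖
        ≤ (ρ * b ^ 2) * (ρ ^ j * (((y : ℝ) - x) / b ^ 2 + 1) + C) :=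
      mul_le_mul h4 h6 (norm_nonneg _) (by positivity)
    have h9 : (ρ * (b : ℝ) ^ 2) * (ρ ^ j * (((y : ℝ) - x) / b ^ 2 + 1) + C)
        = ρ ^ (j + 1) * ((y : ℝ) - x) + ρ ^ (j + 1) * b ^ 2 + ρ * b ^ 2 * C := by
      have hb0 : (b : ℝ) ≠ 0 := by positivity
      field_simp
      ring
    rw [h9] at h8
    linarith

/-- detection of a residue class -/
theorem detect {q : ℕ} (hq : 1 ≤ q) (z : ℤ) :
    ∑ j ∈ range q, ee (j * (z / q : ℝ)) = if (q : ℤ) ∣ z then (q : ℂ) else 0 := by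
  have hq0 : (q : ℝ) ≠ 0 := by
    have : (0 : ℝ) < q := by exact_mod_cast hq
    exact this.ne'
  split_ifs with h
  · obtain ⟨c, rfl⟩ := h
    have : ∀ j ∈ range q, ee (j * (((q * c : ℤ) : ℝ) / q)) = 1 := by
      intro j _
      rw [ee_one_iff]
      exact ⟨j * c, by push_cast; field_simp⟩
    rw [sum_congr rfl this]; simp
  · have h1 : ∀ j ∈ range q, ee (j * ((z : ℝ) / q)) = ee ((z : ℝ) / q) ^ j := fun j _ => ee_nat_mul j _
    rw [sum_congr rfl h1]
    have h2 : ee ((z : ℝ) / q) ≠ 1 := by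
      intro h3
      rw [ee_one_iff] at h3
      obtain ⟨c, hc⟩ := h3
      apply h
      refine ⟨c, ?_⟩
      rw [div_eq_iff hq0] at hc
      have : (z : ℝ) = ((q * c : ℤ) : ℝ) := by push_cast; linarith
      exact_mod_cast this
    rw [geom_sum_eq h2]
    have h3 : ee ((z : ℝ) / q) ^ q = 1 := by
      rw [← ee_nat_mul]
      have : (q : ℝ) * ((z : ℝ) / q) = z := by field_simp
      rw [this]; exact ee_int z
    rw [h3, sub_self, zero_div]

theorem ap_sum {b : ℕ} {θ : ℝ} {q : ℕ} (hq : 1 ≤ q) (x H : ℕ) {B : ℝ}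
    (hB : ∀ β : ℝ, ‖Gd b θ x (x + q * H) β‖ ≤ B) : ‖∑ i ∈ range H, ee (θ * sd b (x + q * i))‖ ≤ B := by
  have hq0 : (0 : ℝ) < q := by exact_mod_cast hq
  have hqC : (q : ℂ) ≠ 0 := by exact_mod_cast (by omega : q ≠ 0)
  have h1 : ∑ i ∈ range H, ee (θ * sd b (x + q * i))
      = ∑ n ∈ range (q * H), if (q : ℤ) ∣ (n : ℤ) then ee (θ * sd b (x + n)) else 0 := by
    rw [← sum_filter]
    apply sum_nbij (fun i => q * i)
    · intro i hi
      rw [mem_range] at hi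
      rw [mem_filter, mem_range]
      exact ⟨Nat.mul_lt_mul_of_pos_left hi (by omega), ⟨i, by push_cast; ring⟩⟩
    · intro i _ j _ hij
      exact Nat.eq_of_mul_eq_mul_left (by omega) hij
    · intro n hn
      rw [mem_coe, mem_filter, mem_range] at hn
      obtain ⟨hn1, hn2⟩ := hn
      have hn3 : q ∣ n := by exact_mod_cast hn2
      obtain ⟨i, rfl⟩ := hn3
      exact ⟨i, by rw [mem_coe, mem_range]; exact Nat.lt_of_mul_lt_mul_left hn1, rfl⟩
    · intro i _; rfl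
  have h2 : ∀ n ∈ range (q * H), (if (q : ℤ) ∣ (n : ℤ) then ee (θ * sd b (x + n)) else 0)
      = (1 / (q : ℂ)) * ∑ j ∈ range q, ee (j * ((n : ℤ) / q : ℝ)) * ee (θ * sd b (x + n)) := by
    intro n _
    rw [← sum_mul, detect hq n]
    split_ifs
    · field_simp
    · simp
  have h3 : ∑ n ∈ range (q * H), (if (q : ℤ) ∣ (n : ℤ) then ee (θ * sd b (x + n)) else 0)
      = (1 / (q : ℂ)) * ∑ j ∈ range q, ee (-(j * (x / q : ℝ))) * Gd b θ x (x + q * H) (j / q) := by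
    rw [sum_congr rfl h2, ← mul_sum, sum_comm]
    congr 1
    apply sum_congr rfl
    intro j _
    unfold Gd Pd
    rw [sum_range_add, add_sub_cancel_left, mul_sum]
    apply sum_congr rfl
    intro n _
    rw [← ee_add, ← ee_add]
    congr 1
    push_cast
    ring
  rw [h1, h3, norm_mul]
  have h4 : ‖∑ j ∈ range q, ee (-(j * (x / q : ℝ))) * Gd b θ x (x + q * H) (j / q)‖ ≤ q * B := by
    refine (norm_sum_le _ _).trans ?_
    calc ∑ j ∈ range q, ‖ee (-(j * (x / q : ℝ))) * Gd b θ x (x + q * H) (j / q)‖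
        ≤ ∑ _j ∈ range q, B := by
          apply sum_le_sum
          intro j _
          rw [norm_mul, ee_norm, one_mul]
          exact hB _
      _ = q * B := by rw [sum_const, card_range, nsmul_eq_mul]
  have h5 : ‖(1 / (q : ℂ))‖ = 1 / q := by simp
  rw [h5]
  calc 1 / (q : ℝ) * _ ≤ 1 / (q : ℝ) * (q * B) := mul_le_mul_of_nonneg_left h4 (by positivity)
    _ = B := by field_simp

/-- THE SUM OF DIGITS ON PROGRESSIONS, uniformly in the starting point -/
theorem digits_ap {b : ℕ} (hb : 2 ≤ b) {θ : ℝ} (hθ : ∀ z : ℤ, ((b : ℝ) - 1) * θ ≠ z) {q : ℕ}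
    (hq : 1 ≤ q) {η : ℝ} (hη : 0 < η) : ∃ H : ℕ, 1 ≤ H ∧ ∀ x : ℕ,
      ‖∑ i ∈ range H, ee (θ * sd b (x + q * i))‖ ≤ η * H := by
  obtain ⟨ρ, hρ0, hρ1, hG⟩ := Gd_bound hb hθ
  have hq0 : (0 : ℝ) < q := by exact_mod_cast hq
  obtain ⟨j, hj⟩ := exists_pow_lt_of_lt_one (show (0 : ℝ) < η / (2 * q) by positivity) hρ1
  obtain ⟨C, hC, hCb⟩ := hG j
  obtain ⟨H, hH⟩ := exists_nat_ge (2 * C / η + 1)
  have hH1 : 1 ≤ H := by
    have : (1 : ℝ) ≤ H := by
      have : 0 ≤ 2 * C / η := by positivity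
      linarith
    exact_mod_cast this
  refine ⟨H, hH1, fun x => ap_sum hq x H fun β => ?_⟩
  have h1 := hCb x (x + q * H) β (Nat.le_add_right _ _)
  refine h1.trans ?_
  push_cast
  have h2 : ρ ^ j * ((x : ℝ) + q * H - x) ≤ η / 2 * H := by
    have h3 : ρ ^ j * ((x : ℝ) + q * H - x) = ρ ^ j * (q * H) := by ring
    rw [h3]
    calc ρ ^ j * ((q : ℝ) * H) ≤ η / (2 * q) * (q * H) := mul_le_mul_of_nonneg_right hj.le (by positivity)
      _ = η / 2 * H := by field_simp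
  have h4 : C ≤ η / 2 * H := by
    have h5 : 2 * C / η ≤ H := by linarith
    rw [div_le_iff₀ hη] at h5
    linarith
  linarith

end Pool.Agent.R344.SP
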