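import Pool.Agent.R344.SP.D

/-! Sampling principle, part E: good times and many stages. -/

set_option autoImplicit false

namespace Pool.Agent.R344.SP

open Finset
open Pool.Agent.H499R2.CO (Tz)

open scoped Classical in
/-- number of elements of `B` in `[A,2A)` -/
noncomputable def ct (B : Set ℤ) (A : ℝ) : ℝ := (((Wn A).filter (fun n => n ∈ B)).card : ℝ)

theorem ct_nonneg (B : Set ℤ) (A : ℝ) : 0 ≤ ct B A := by unfold ct; positivity

theorem ct_mono {B B' : Set ℤ} (h : B ⊆ B') (A : ℝ) : ct B A ≤ ct B' A := by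
  classical
  unfold ct
  have : (Wn A).filter (fun n => n ∈ B) ⊆ (Wn A).filter (fun n => n ∈ B') := by
    intro n hn
    rw [mem_filter] at hn ⊢
    exact ⟨hn.1, h hn.2⟩
  exact_mod_cast card_le_card this

theorem ct_cover {D B B' : Set ℤ} (hD : ∀ n ∈ D, n ∈ B ∨ n ∈ B') (A : ℝ) :
    ct D A ≤ ct B A + ct B' A := by
  classical
  unfold ct
  rw [← Nat.cast_add]
  refine Nat.cast_le.2 (le_trans (card_le_card ?_) (card_union_le _ _))
  intro n hn
  rw [mem_filter] at hn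
  rw [mem_union, mem_filter, mem_filter]
  rcases hD n hn.2 with h | h
  · exact Or.inl ⟨hn.1, h⟩
  · exact Or.inr ⟨hn.1, h⟩

theorem ct_union (B B' : Set ℤ) (A : ℝ) : ct (B ∪ B') A ≤ ct B A + ct B' A :=
  ct_cover (fun _ h => h) A

theorem ct_eq_sum (B : Set ℤ) (A : ℝ) [DecidablePred (fun n => n ∈ B)] :
    ct B A = ∑ n ∈ Wn A, (if n ∈ B then (1 : ℝ) else 0) := by
  unfold ct
  rw [sum_ite, sum_const_zero, add_zero, sum_const, nsmul_eq_mul, mul_one]
  norm_cast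
  congr

/-- the set of bad times has small upper density -/
def Rare (θ : ℝ) (U : Set ℕ) : Prop :=
  ∃ K₁ : ℕ, ∀ K ≥ K₁, ∃ S : Finset ℕ, (∀ t ∈ U, t ≤ K → t ∈ S) ∧ (S.card : ℝ) ≤ θ * K

theorem Rare.union {θ θ' : ℝ} {U U' : Set ℕ} (h : Rare θ U) (h' : Rare θ' U') :
    Rare (θ + θ') (U ∪ U') := by
  classical
  obtain ⟨K₁, h⟩ := h
  obtain ⟨K₁', h'⟩ := h'
  refine ⟨max K₁ K₁', fun K hK => ?_⟩
  obtain ⟨S, hS, hc⟩ := h K (le_trans (le_max_left _ _) hK)
  obtain ⟨S', hS', hc'⟩ := h' K (le_trans (le_max_right _ _) hK)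
  refine ⟨S ∪ S', ?_, ?_⟩
  · intro t ht htK
    rw [mem_union]
    rcases ht with ht | ht
    · exact Or.inl (hS t ht htK)
    · exact Or.inr (hS' t ht htK)
  · have : ((S ∪ S').card : ℝ) ≤ S.card + S'.card := by exact_mod_cast card_union_le _ _
    linarith

theorem rare_empty {θ : ℝ} (hθ : 0 ≤ θ) : Rare θ ∅ :=
  ⟨0, fun K _ => ⟨∅, by simp, by simp; positivity⟩⟩

/-- the defect is small at most times -/
theorem rare_Dh {η θ : ℝ} (hη : 0 < η) (hθ : 0 < θ) : ∃ m : ℕ, 1 ≤ m ∧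
    Rare θ {t | η < Dh m t} := by
  classical
  obtain ⟨C, hC, hs⟩ := Dh_sum
  obtain ⟨m, hm⟩ := exists_nat_ge (2 * C / (η * θ) + 1)
  have hm1 : 1 ≤ m := by
    have : (1 : ℝ) ≤ m := by
      have : 0 ≤ 2 * C / (η * θ) := by positivity
      linarith
    exact_mod_cast this
  have hm0 : (0 : ℝ) < m := by exact_mod_cast hm1
  obtain ⟨K₁, hK₁⟩ := exists_nat_ge (2 * (2 * m + 2) / (η * θ))
  refine ⟨m, hm1, K₁, fun K hK => ⟨(range (K + 1)).filter (fun t => η < Dh m t), ?_, ?_⟩⟩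
  · intro t ht htK
    rw [mem_filter, mem_range]
    exact ⟨by omega, ht⟩
  · have h1 : η * (((range (K + 1)).filter (fun t => η < Dh m t)).card : ℝ) ≤ C * K / m + 2 * m + 2 := by
      calc η * (((range (K + 1)).filter (fun t => η < Dh m t)).card : ℝ)
          = ∑ _t ∈ (range (K + 1)).filter (fun t => η < Dh m t), η := by
            rw [sum_const, nsmul_eq_mul]; ring
        _ ≤ ∑ t ∈ (range (K + 1)).filter (fun t => η < Dh m t), Dh m t := by
            apply sum_le_sum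
            intro t ht
            exact (mem_filter.1 ht).2.le
        _ ≤ ∑ t ∈ range (K + 1), Dh m t :=
            sum_le_sum_of_subset_of_nonneg (filter_subset _ _) fun t _ _ => Dh_nonneg m t
        _ ≤ _ := hs m K hm1
    have hKR : (K₁ : ℝ) ≤ K := by exact_mod_cast hK
    have h2 : 2 * (2 * m + 2) ≤ K * (η * θ) := by
      have h3 := hK₁.trans hKR
      rw [div_le_iff₀ (by positivity)] at h3
      exact h3
    have h4 : C / m ≤ η * θ / 2 := by
      rw [div_le_iff₀ hm0]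
      have h5 : 2 * C / (η * θ) ≤ m := by linarith
      rw [div_le_iff₀ (by positivity)] at h5
      nlinarith
    have h6 : C * K / m ≤ η * θ / 2 * K := by
      rw [show C * (K : ℝ) / m = C / m * K by ring]
      exact mul_le_mul_of_nonneg_right h4 (by positivity)
    have h7 : η * (((range (K + 1)).filter (fun t => η < Dh m t)).card : ℝ) ≤ η * (θ * K) := by
      nlinarith
    exact le_of_mul_le_mul_left h7 hη

theorem exists_good {θ : ℝ} {U : Set ℕ} (h : Rare θ U) : ∃ K₁ : ℕ, ∀ a K : ℕ, K₁ ≤ K → 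
    (a : ℝ) + θ * K < K → ∃ t, a < t ∧ t ≤ K ∧ t ∉ U := by
  obtain ⟨K₁, h⟩ := h
  refine ⟨K₁, fun a K hK ha => ?_⟩
  obtain ⟨S, hS, hc⟩ := h K hK
  by_contra hcon
  push Not at hcon
  have hsub : Finset.Ioc a K ⊆ S := by
    intro t ht
    rw [mem_Ioc] at ht
    exact hS t (hcon t ht.1 ht.2) ht.2
  have h1 : ((Finset.Ioc a K).card : ℝ) ≤ S.card := by exact_mod_cast card_le_card hsub
  rw [Nat.card_Ioc] at h1
  have h2 : (K : ℝ) - a ≤ ((K - a : ℕ) : ℝ) := by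
    have : K ≤ (K - a) + a := by omega
    have : (K : ℝ) ≤ ((K - a : ℕ) : ℝ) + a := by exact_mod_cast this
    linarith
  linarith

/-- one restart -/
theorem restart {d : ℤ} (hd : d % 2 = 1) (hd3 : IsCoprime d 3) {c₀ : ℝ} (hc₀ : c₀ < 1 / 2) (m : ℕ) :
    ∃ ρ : ℝ, 0 < ρ ∧ ρ < 1 ∧ ∀ (t : ℕ) (A η Y : ℝ), 2 ^ t ≤ A → 0 ≤ η →
      (∀ j : ℕ, c₀ * t ≤ j → Y ≤ A * 3 ^ j / 2 ^ t) → ∀ B : Set ℤ,
      (∀ L, Y ≤ L → ct B L ≤ η * L) →
      ct {n | (Tz d)^[t] n ∈ B} A ≤ (2 * 3 ^ m * η + 2 * Dh m t + 2 * ρ ^ t) * A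
        + (2 * |(d : ℝ)| + 3) * 2 ^ (t + 1) := by
  classical
  obtain ⟨ρ, hρ0, hρ1, hρ⟩ := od_small hd hc₀
  refine ⟨ρ, hρ0, hρ1, fun t A η Y hA hη hY B hB => ?_⟩
  have hA0 : 0 ≤ A := le_trans (by positivity) hA
  set j₀ : ℕ := ⌈c₀ * t⌉₊ with hj₀
  set Ψ : ℤ → ℝ := fun x => if x ∈ B then 1 else 0 with hΨdef
  have hΨ : ∀ x, |Ψ x| ≤ 1 := by
    intro x
    rw [hΨdef]; dsimp only
    split_ifs <;> simp
  have hΨn : ∀ x, 0 ≤ Ψ x := by
    intro x
    rw [hΨdef]; dsimp only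
    split_ifs <;> simp
  have hlaw := law hd hd3 m j₀ hΨ (δ := 3 ^ m * η) (by positivity) t hA0 (by
    intro j hj b
    have hj1 : c₀ * t ≤ j := (Nat.le_ceil _).trans (by exact_mod_cast hj)
    have hL := hY j hj1
    set L := A * 3 ^ j / 2 ^ t with hLdef
    rw [abs_of_nonneg (sum_nonneg fun x _ => hΨn x)]
    have h1 : ∑ x ∈ cl L (2 * L) m 1 b, Ψ x ≤ ct B L := by
      rw [ct_eq_sum]
      apply sum_le_sum_of_subset_of_nonneg
      · intro x hx
        rw [mem_cl] at hx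
        rw [mem_Wn]; exact hx.1
      · intro x _ _; exact hΨn x
    refine h1.trans ((hB L hL).trans (le_of_eq ?_))
    field_simp)
  have h1 : ct {n | (Tz d)^[t] n ∈ B} A
      ≤ (((Wn A).filter (fun n => (od d t n : ℝ) < c₀ * t)).card : ℝ)
        + ∑ n ∈ (Wn A).filter (fun n => j₀ ≤ od d t n), Ψ ((Tz d)^[t] n) := by
    have h2 : ∑ n ∈ (Wn A).filter (fun n => j₀ ≤ od d t n), Ψ ((Tz d)^[t] n)
        = ((((Wn A).filter (fun n => j₀ ≤ od d t n)).filter (fun n => (Tz d)^[t] n ∈ B)).card : ℝ) := by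
      rw [card_filter]; push_cast; rfl
    rw [h2]
    unfold ct
    have hsub : (Wn A).filter (fun n => n ∈ {n | (Tz d)^[t] n ∈ B})
        ⊆ (Wn A).filter (fun n => (od d t n : ℝ) < c₀ * t)
          ∪ ((Wn A).filter (fun n => j₀ ≤ od d t n)).filter (fun n => (Tz d)^[t] n ∈ B) := by
      intro n hn
      rw [mem_filter] at hn
      rw [mem_union, mem_filter, mem_filter, mem_filter]
      rcases lt_or_ge (od d t n : ℝ) (c₀ * t) with h3 | h3
      · exact Or.inl ⟨hn.1, h3⟩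
      · exact Or.inr ⟨⟨hn.1, Nat.ceil_le.2 h3⟩, hn.2⟩
    exact_mod_cast (card_le_card hsub).trans (card_union_le _ _)
  have h2 := hρ t A hA0
  have h3 := le_abs_self (∑ n ∈ (Wn A).filter (fun n => j₀ ≤ od d t n), Ψ ((Tz d)^[t] n))
  have hρt : 0 < ρ ^ t := by positivity
  have hD := Dh_nonneg m t
  have h4 : (A + 2 ^ t) * ρ ^ t ≤ 2 * ρ ^ t * A := by nlinarith
  have h5 : (A + 2 ^ t) * Dh m t ≤ 2 * Dh m t * A := by nlinarith
  linarith

/-- MANY STAGES -/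
theorem stages {d : ℤ} (hd : d % 2 = 1) (hd3 : IsCoprime d 3) {β : ℝ}
    (hβ : Real.log 2 - Real.log 3 / 2 < β) : ∀ (r : ℕ) {ε θ : ℝ}, 0 < ε → 0 < θ →
    ∃ ε₁ : ℝ, 0 < ε₁ ∧ ∃ U : Set ℕ, Rare θ U ∧ ∃ T₀ : ℕ, ∀ T : ℕ, T ∉ U → T₀ ≤ T →
      ∀ Y : ℝ, 4 ^ T ≤ Y → ∀ B : ℕ → Set ℤ, (∀ i, ∀ L, Y ≤ L → ct (B i) L ≤ ε₁ * L) →
      ∀ A : ℝ, Y * Real.exp (r * β * T) ≤ A → ct {n | ∃ i ≤ r, (Tz d)^[i * T] n ∈ B i} A ≤ ε * A := by
  intro r
  induction r with
  | zero =>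
    intro ε θ hε hθ
    refine ⟨ε, hε, ∅, rare_empty hθ.le, 0, fun T _ _ Y _ B hB A hA => ?_⟩
    have h1 : {n : ℤ | ∃ i ≤ 0, (Tz d)^[i * T] n ∈ B i} ⊆ B 0 := by
      rintro n ⟨i, hi, hn⟩
      obtain rfl : i = 0 := by omega
      simpa using hn
    refine (ct_mono h1 A).trans (hB 0 A ?_)
    simpa using hA
  | succ r ih =>
    intro ε θ hε hθ
    have hl3 : 0 < Real.log 3 := Real.log_pos (by norm_num)
    have hl2 : 0 < Real.log 2 := Real.log_pos (by norm_num)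
    have hβ0 : 0 ≤ β := by
      have : Real.log 3 ≤ 2 * Real.log 2 := by
        have h := Real.log_le_log (by norm_num) (by norm_num : (3 : ℝ) ≤ 2 ^ 2)
        rw [Real.log_pow] at h
        push_cast at h
        exact h
      linarith
    set c₀ : ℝ := (Real.log 2 - β) / Real.log 3 with hc₀
    have hc₀lt : c₀ < 1 / 2 := by
      rw [hc₀, div_lt_iff₀ hl3]; linarith
    obtain ⟨m, hm, hrare⟩ := rare_Dh (η := ε / 16) (θ := θ / 2) (by positivity) (by positivity)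
    set ε' : ℝ := ε / (16 * 3 ^ m) with hε'
    obtain ⟨ε₁, hε₁, U, hU, T₀, hT₀⟩ := ih (ε := ε') (θ := θ / 2) (by positivity) (by positivity)
    obtain ⟨ρ, hρ0, hρ1, hres⟩ := restart hd hd3 hc₀lt m
    obtain ⟨T₁, hT₁⟩ : ∃ T₁ : ℕ, ∀ T ≥ T₁, ρ ^ T ≤ ε / 16 := by
      have h := tendsto_pow_atTop_nhds_zero_of_lt_one hρ0.le hρ1
      have h1 := h.eventually (gt_mem_nhds (show (0 : ℝ) < ε / 16 by positivity))
      obtain ⟨T₁, hT₁⟩ := Filter.eventually_atTop.1 h1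
      exact ⟨T₁, fun T hT => (hT₁ T hT).le⟩
    obtain ⟨T₂, hT₂⟩ : ∃ T₂ : ℕ, ∀ T ≥ T₂, (2 * |(d : ℝ)| + 3) * 2 ≤ ε / 16 * 2 ^ T := by
      have h := tendsto_pow_atTop_atTop_of_one_lt (show (1 : ℝ) < 2 by norm_num)
      have h1 := h.eventually_ge_atTop ((2 * |(d : ℝ)| + 3) * 2 / (ε / 16))
      obtain ⟨T₂, hT₂⟩ := Filter.eventually_atTop.1 h1
      refine ⟨T₂, fun T hT => ?_⟩
      have := hT₂ T hT
      rw [div_le_iff₀ (by positivity)] at this
      linarith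
    refine ⟨min ε₁ (ε / 4), by positivity, {t | ε / 16 < Dh m t} ∪ U, ?_, max T₀ (max T₁ T₂), ?_⟩
    · have := hrare.union hU
      rwa [show θ / 2 + θ / 2 = θ by ring] at this
    intro T hT hTT Y hY B hB A hA
    have hT0 : T₀ ≤ T := le_trans (le_max_left _ _) hTT
    have hT1 : T₁ ≤ T := le_trans (le_trans (le_max_left _ _) (le_max_right _ _)) hTT
    have hT2 : T₂ ≤ T := le_trans (le_trans (le_max_right _ _) (le_max_right _ _)) hTT
    have hTU : T ∉ U := fun h => hT (Or.inr h)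
    have hTD : Dh m T ≤ ε / 16 := by
      by_contra h
      exact hT (Or.inl (not_le.1 h))
    have hY0 : 0 < Y := lt_of_lt_of_le (by positivity) hY
    have hexp1 : (1 : ℝ) ≤ Real.exp ((r + 1 : ℕ) * β * T) := Real.one_le_exp (by positivity)
    have hYA : Y ≤ A := le_trans (le_mul_of_one_le_right hY0.le hexp1) hA
    have hA0 : 0 < A := lt_of_lt_of_le hY0 hYA
    have h24 : (2 : ℝ) ^ T ≤ 4 ^ T := pow_le_pow_left₀ (by norm_num) (by norm_num) T
    have hstage := hT₀ T hTU hT0 Y hY (fun i => B (i + 1)) (fun i L hL => (hB (i + 1) L hL).trans (by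
      apply mul_le_mul_of_nonneg_right (min_le_left _ _)
      exact hY0.le.trans hL))
    set B' : Set ℤ := {n | ∃ i ≤ r, (Tz d)^[i * T] n ∈ B (i + 1)} with hB'
    have hr := hres T A ε' (Y * Real.exp (r * β * T)) ((h24.trans hY).trans hYA) (by positivity) (by
      intro j hj
      have hexp : (3 : ℝ) ^ j / 2 ^ T = Real.exp (j * Real.log 3 - T * Real.log 2) := by
        rw [Real.exp_sub, Real.exp_nat_mul, Real.exp_nat_mul, Real.exp_log (by norm_num),
          Real.exp_log (by norm_num)]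
      have h1 : -(β * T) ≤ j * Real.log 3 - T * Real.log 2 := by
        have h2 : c₀ * T * Real.log 3 ≤ j * Real.log 3 := mul_le_mul_of_nonneg_right hj hl3.le
        have h3 : c₀ * T * Real.log 3 = (Real.log 2 - β) * T := by
          rw [hc₀]; field_simp
        rw [h3] at h2
        linarith
      have h4 : Real.exp (-(β * T)) ≤ 3 ^ j / 2 ^ T := by
        rw [hexp]; exact Real.exp_le_exp.2 h1
      calc Y * Real.exp (r * β * T) = Y * Real.exp ((r + 1 : ℕ) * β * T) * Real.exp (-(β * T)) := by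
            rw [mul_assoc Y, ← Real.exp_add]; congr 2; push_cast; ring
        _ ≤ A * (3 ^ j / 2 ^ T) := mul_le_mul hA h4 (Real.exp_pos _).le hA0.le
        _ = _ := by ring) B' (fun L hL => hstage L hL)
    have hcov : {n : ℤ | ∃ i ≤ r + 1, (Tz d)^[i * T] n ∈ B i} ⊆ B 0 ∪ {n | (Tz d)^[T] n ∈ B'} := by
      rintro n ⟨i, hi, hn⟩
      rcases Nat.eq_zero_or_pos i with rfl | hi0
      · left; simpa using hn
      · right
        refine ⟨i - 1, by omega, ?_⟩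
        rw [← Function.iterate_add_apply]
        have : (i - 1) * T + T = i * T := by
          obtain ⟨k, rfl⟩ : ∃ k, i = k + 1 := ⟨i - 1, by omega⟩
          rw [Nat.add_sub_cancel]; ring
        rw [this, show i - 1 + 1 = i by omega]; exact hn
    have h1 := (ct_mono hcov A).trans (ct_union _ _ A)
    have h2 : ct (B 0) A ≤ ε / 4 * A := (hB 0 A hYA).trans
      (mul_le_mul_of_nonneg_right (min_le_right _ _) hA0.le)
    have h3 : 2 * 3 ^ m * ε' = ε / 8 := by rw [hε']; field_simp; norm_num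
    have h4 := hT₁ T hT1
    have h5 := hT₂ T hT2
    have h6 : (2 * |(d : ℝ)| + 3) * 2 ^ (T + 1) ≤ ε / 16 * A := by
      calc (2 * |(d : ℝ)| + 3) * 2 ^ (T + 1) = ((2 * |(d : ℝ)| + 3) * 2) * 2 ^ T := by
            rw [pow_succ]; ring
        _ ≤ (ε / 16 * 2 ^ T) * 2 ^ T := mul_le_mul_of_nonneg_right h5 (by positivity)
        _ = ε / 16 * 4 ^ T := by
            rw [mul_assoc, ← mul_pow]; norm_num
        _ ≤ ε / 16 * A := mul_le_mul_of_nonneg_left (hY.trans hYA) (by positivity)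
    rw [h3] at hr
    have h7 : (ε / 8 + 2 * Dh m T + 2 * ρ ^ T) * A ≤ (ε / 8 + 2 * (ε / 16) + 2 * (ε / 16)) * A := by
      apply mul_le_mul_of_nonneg_right _ hA0.le
      linarith
    have h8 : 0 < ε * A := by positivity
    calc ct {n | ∃ i ≤ r + 1, (Tz d)^[i * T] n ∈ B i} A
        ≤ ε / 4 * A + ((ε / 8 + 2 * (ε / 16) + 2 * (ε / 16)) * A + ε / 16 * A) := by linarith
      _ ≤ ε * A := by nlinarith

end Pool.Agent.R344.SP
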