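import Pool.Agent.R344.SP.E

/-! Sampling principle, part F: the second moment over one stage. -/

set_option autoImplicit false

namespace Pool.Agent.R344.SP

open Finset
open Pool.Agent.H499R2.CO (Tz)

/-- `φ` is almost orthogonal, on long windows and in the classes mod `3^m`, to the bounded functions
which agree at integers that coalesce within `k₀` steps -/
def Orth (d : ℤ) (φ : ℤ → ℝ) (ε : ℝ) (m k₀ : ℕ) (X₀ : ℝ) : Prop :=
  ∀ f : ℤ → ℝ, (∀ x, |f x| ≤ 1) → (∀ x y, (Tz d)^[k₀] x = (Tz d)^[k₀] y → f x = f y) →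
    ∀ X, X₀ ≤ X → ∀ b : ℤ, |∑ x ∈ cl X (2 * X) m 1 b, φ x * f x| ≤ ε * X / 3 ^ m

/-- the sum over one stage, starting at the time `s` -/
def Zs (d : ℤ) (φ : ℕ → ℤ → ℝ) (s K : ℕ) (n : ℤ) : ℝ := ∑ t ∈ range K, φ (s + t) ((Tz d)^[t] n)

theorem pair_bound {d : ℤ} (hd : d % 2 = 1) (hd3 : IsCoprime d 3) {φ φ' : ℤ → ℝ}
    (hφ : ∀ x, |φ x| ≤ 1) (hφ' : ∀ x, |φ' x| ≤ 1)
    {ε : ℝ} (hε : 0 ≤ ε) {m k₀ : ℕ} {X₀ : ℝ} (h : Orth d φ ε m k₀ X₀) {K : ℕ} {A : ℝ}
    (hA : 4 ^ K ≤ A) (hX : X₀ * 2 ^ K ≤ A) {t r : ℕ} (ht : t < K) (hr : k₀ ≤ r) :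
    |∑ n ∈ Wn A, φ ((Tz d)^[t] n) * φ' ((Tz d)^[t + r] n)|
      ≤ 2 * ε * A + 2 * A * Dh m t + (2 * |(d : ℝ)| + 3) * 2 ^ (t + 1) := by
  have hA0 : 0 ≤ A := le_trans (by positivity) hA
  set Ψ : ℤ → ℝ := fun x => φ x * φ' ((Tz d)^[r] x) with hΨdef
  have hΨ : ∀ x, |Ψ x| ≤ 1 := by
    intro x
    rw [hΨdef]; dsimp only
    rw [abs_mul]
    calc |φ x| * |φ' ((Tz d)^[r] x)| ≤ 1 * 1 := mul_le_mul (hφ _) (hφ' _) (abs_nonneg _) (by norm_num)
      _ = 1 := one_mul 1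
  have h2tK : (2 : ℝ) ^ t ≤ 2 ^ K := pow_le_pow_right₀ (by norm_num) ht.le
  have hlaw := law hd hd3 m 0 hΨ hε t hA0 (by
    intro j _ b
    apply h (fun x => φ' ((Tz d)^[r] x)) (fun x => hφ' _)
    · intro x y hxy
      obtain ⟨s, rfl⟩ := Nat.exists_eq_add_of_le hr
      rw [show k₀ + s = s + k₀ by ring, Function.iterate_add_apply, Function.iterate_add_apply, hxy]
    · rw [le_div_iff₀ (by positivity)]
      have h3 : (1 : ℝ) ≤ 3 ^ j := one_le_pow₀ (by norm_num)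
      rcases le_or_gt X₀ 0 with hX0 | hX0
      · have h4 : X₀ * 2 ^ t ≤ 0 := mul_nonpos_of_nonpos_of_nonneg hX0 (by positivity)
        have h5 : 0 ≤ A * 3 ^ j := by positivity
        linarith
      · calc X₀ * 2 ^ t ≤ X₀ * 2 ^ K := mul_le_mul_of_nonneg_left h2tK hX0.le
          _ ≤ A := hX
          _ ≤ A * 3 ^ j := le_mul_of_one_le_right hA0 h3)
  have hset : (Wn A).filter (fun n => 0 ≤ od d t n) = Wn A := by
    apply filter_true_of_mem; intro n _; exact Nat.zero_le _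
  rw [hset] at hlaw
  have heq : ∑ n ∈ Wn A, Ψ ((Tz d)^[t] n) = ∑ n ∈ Wn A, φ ((Tz d)^[t] n) * φ' ((Tz d)^[t + r] n) := by
    apply sum_congr rfl
    intro n _
    rw [hΨdef]; dsimp only
    rw [← Function.iterate_add_apply, add_comm r t]
  rw [heq] at hlaw
  have h2A : (2 : ℝ) ^ t ≤ A := by
    calc (2 : ℝ) ^ t ≤ 2 ^ K := h2tK
      _ ≤ 4 ^ K := pow_le_pow_left₀ (by norm_num) (by norm_num) K
      _ ≤ A := hA
  have hD := Dh_nonneg m t
  have h5 : (A + 2 ^ t) * Dh m t ≤ 2 * A * Dh m t := by nlinarith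
  linarith

/-- the second moment over one stage -/
theorem second {d : ℤ} (hd : d % 2 = 1) (hd3 : IsCoprime d 3) : ∃ C : ℝ, 0 < C ∧
    ∀ (m : ℕ), 1 ≤ m → ∀ {φ : ℕ → ℤ → ℝ}, (∀ s x, |φ s x| ≤ 1) → ∀ {ε : ℝ}, 0 ≤ ε →
    ∀ {k₀ : ℕ} {X₀ : ℝ}, (∀ s, Orth d (φ s) ε m k₀ X₀) → ∀ (s : ℕ) {K : ℕ}, 1 ≤ K → ∀ {A : ℝ},
    4 ^ K ≤ A → X₀ * 2 ^ K ≤ A →
    ∑ n ∈ Wn A, Zs d φ s K n ^ 2
      ≤ A * (4 * ε * K ^ 2 + C * K ^ 2 / m + (4 * k₀ + 8 * m + 8 + 4 * (2 * |(d : ℝ)| + 3)) * K) := by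
  obtain ⟨C, hC, hDs⟩ := Dh_sum
  refine ⟨4 * C, by positivity, ?_⟩
  intro m hm φ hφ ε hε k₀ X₀ h s K hK A hA hX
  have hA0 : 0 ≤ A := le_trans (by positivity) hA
  have hA1 : 1 ≤ A := le_trans (one_le_pow₀ (by norm_num)) hA
  set S : ℕ → ℕ → ℝ := fun t t' => ∑ n ∈ Wn A, φ (s + t) ((Tz d)^[t] n) * φ (s + t') ((Tz d)^[t'] n)
    with hS
  have hSsym : ∀ t t', S t t' = S t' t := by
    intro t t'; rw [hS]; dsimp only; apply sum_congr rfl; intro n _; ring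
  have hStriv : ∀ t t', |S t t'| ≤ 2 * A := by
    intro t t'
    have h1 : |S t t'| ≤ (Wn A).card := by
      rw [hS]; dsimp only
      refine (abs_sum_le_sum_abs _ _).trans ?_
      calc ∑ n ∈ Wn A, |φ (s + t) ((Tz d)^[t] n) * φ (s + t') ((Tz d)^[t'] n)|
          ≤ ∑ _n ∈ Wn A, (1 : ℝ) := by
            apply sum_le_sum
            intro n _
            rw [abs_mul]
            calc |φ (s + t) ((Tz d)^[t] n)| * |φ (s + t') ((Tz d)^[t'] n)| ≤ 1 * 1 :=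
                  mul_le_mul (hφ _ _) (hφ _ _) (abs_nonneg _) (by norm_num)
              _ = 1 := one_mul 1
        _ = _ := by simp
    have h2 := Wn_card hA0
    linarith
  set E : ℕ → ℝ := fun t => 2 * ε * A + 2 * A * Dh m t + (2 * |(d : ℝ)| + 3) * 2 ^ (t + 1) with hE
  have hEn : ∀ t, 0 ≤ E t := by
    intro t
    have := Dh_nonneg m t
    rw [hE]; dsimp only; positivity
  have hfar : ∀ t t', t < K → t + k₀ ≤ t' → |S t t'| ≤ E t := by
    intro t t' ht htt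
    obtain ⟨r, rfl⟩ : ∃ r, t' = t + r := ⟨t' - t, by omega⟩
    exact pair_bound hd hd3 (hφ _) (hφ _) hε (h _) hA hX ht (by omega)
  have hexp : ∑ n ∈ Wn A, Zs d φ s K n ^ 2 = ∑ t ∈ range K, ∑ t' ∈ range K, S t t' := by
    have h1 : ∀ n, Zs d φ s K n ^ 2 = ∑ t ∈ range K, ∑ t' ∈ range K,
        φ (s + t) ((Tz d)^[t] n) * φ (s + t') ((Tz d)^[t'] n) := by
      intro n; unfold Zs; rw [sq, sum_mul_sum]
    calc ∑ n ∈ Wn A, Zs d φ s K n ^ 2
        = ∑ n ∈ Wn A, ∑ t ∈ range K, ∑ t' ∈ range K,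
            φ (s + t) ((Tz d)^[t] n) * φ (s + t') ((Tz d)^[t'] n) :=
          sum_congr rfl fun n _ => h1 n
      _ = _ := by
          rw [sum_comm]
          apply sum_congr rfl
          intro t _
          rw [sum_comm]
  rw [hexp]
  have hpt : ∀ t ∈ range K, ∀ t' ∈ range K, S t t' ≤
      (if t' < t + k₀ ∧ t < t' + k₀ then 2 * A else 0) + E t + E t' := by
    intro t ht t' ht'
    rw [mem_range] at ht ht'
    have e1 := hEn t
    have e2 := hEn t'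
    have e3 := le_abs_self (S t t')
    split_ifs with hc
    · have := hStriv t t'; linarith
    · rcases le_or_gt (t + k₀) t' with h1 | h1
      · have := hfar t t' ht h1; linarith
      · have h2 : t' + k₀ ≤ t := by
          by_contra h3
          exact hc ⟨h1, by omega⟩
        have h4 := hfar t' t ht' h2
        rw [hSsym t' t] at h4
        linarith
  have hnear : ∀ t ∈ range K, ∑ t' ∈ range K, (if t' < t + k₀ ∧ t < t' + k₀ then 2 * A else 0)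
      ≤ 4 * k₀ * A := by
    intro t _
    rw [← sum_filter, sum_const, nsmul_eq_mul]
    have h1 : ((range K).filter (fun t' => t' < t + k₀ ∧ t < t' + k₀)).card ≤ 2 * k₀ := by
      calc ((range K).filter (fun t' => t' < t + k₀ ∧ t < t' + k₀)).card
          ≤ (Ico (t - k₀) (t + k₀)).card := by
            apply card_le_card
            intro u hu
            rw [mem_filter] at hu
            rw [mem_Ico]; omega
        _ ≤ 2 * k₀ := by rw [Nat.card_Ico]; omega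
    have h2 : (((range K).filter (fun t' => t' < t + k₀ ∧ t < t' + k₀)).card : ℝ) ≤ 2 * k₀ := by
      exact_mod_cast h1
    nlinarith
  have hEsum : ∑ t ∈ range K, E t ≤ A * (2 * ε * K + 2 * C * K / m + 4 * m + 4
      + 2 * (2 * |(d : ℝ)| + 3)) := by
    have h1 : ∑ t ∈ range K, Dh m t ≤ C * K / m + 2 * m + 2 := by
      refine le_trans ?_ (hDs m K hm)
      apply sum_le_sum_of_subset_of_nonneg (range_subset_range.2 (Nat.le_succ K))
      intro t _ _; exact Dh_nonneg m t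
    have h2 : ∑ t ∈ range K, (2 : ℝ) ^ (t + 1) ≤ 2 * 2 ^ K := by
      have : ∀ K : ℕ, ∑ t ∈ range K, (2 : ℝ) ^ (t + 1) ≤ 2 * 2 ^ K := by
        intro K
        induction K with
        | zero => simp
        | succ K ih => rw [sum_range_succ, pow_succ 2 K]; linarith
      exact this K
    have h2A : (2 : ℝ) ^ K ≤ A := (pow_le_pow_left₀ (by norm_num) (by norm_num) K).trans hA
    calc ∑ t ∈ range K, E t = 2 * ε * A * K + 2 * A * ∑ t ∈ range K, Dh m t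
          + (2 * |(d : ℝ)| + 3) * ∑ t ∈ range K, (2 : ℝ) ^ (t + 1) := by
          rw [hE]; simp only [sum_add_distrib, sum_const, card_range, nsmul_eq_mul, ← mul_sum]
          ring
      _ ≤ 2 * ε * A * K + 2 * A * (C * K / m + 2 * m + 2) + (2 * |(d : ℝ)| + 3) * (2 * A) := by
          have a1 : 2 * A * ∑ t ∈ range K, Dh m t ≤ 2 * A * (C * K / m + 2 * m + 2) :=
            mul_le_mul_of_nonneg_left h1 (by positivity)
          have a2 : (2 * |(d : ℝ)| + 3) * ∑ t ∈ range K, (2 : ℝ) ^ (t + 1)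
              ≤ (2 * |(d : ℝ)| + 3) * (2 * A) := by
            apply mul_le_mul_of_nonneg_left _ (by positivity)
            linarith
          linarith
      _ = _ := by ring
  calc ∑ t ∈ range K, ∑ t' ∈ range K, S t t'
      ≤ ∑ t ∈ range K, ∑ t' ∈ range K,
        ((if t' < t + k₀ ∧ t < t' + k₀ then 2 * A else 0) + E t + E t') :=
        sum_le_sum fun t ht => sum_le_sum fun t' ht' => hpt t ht t' ht'
    _ = ∑ t ∈ range K, (∑ t' ∈ range K, (if t' < t + k₀ ∧ t < t' + k₀ then 2 * A else 0))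
        + 2 * K * ∑ t ∈ range K, E t := by
        simp only [sum_add_distrib, sum_const, card_range, nsmul_eq_mul, ← mul_sum]
        ring
    _ ≤ ∑ _t ∈ range K, (4 * k₀ * A) + 2 * K * (A * (2 * ε * K + 2 * C * K / m + 4 * m + 4
      + 2 * (2 * |(d : ℝ)| + 3))) := by
        apply add_le_add (sum_le_sum hnear)
        exact mul_le_mul_of_nonneg_left hEsum (by positivity)
    _ = _ := by
        rw [sum_const, card_range, nsmul_eq_mul]
        ring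

/-- ONE STAGE -/
theorem one_stage {d : ℤ} (hd : d % 2 = 1) (hd3 : IsCoprime d 3) {δ η : ℝ} (hδ : 0 < δ) (hη : 0 < η) :
    ∃ ε : ℝ, 0 < ε ∧ ∃ m : ℕ, 1 ≤ m ∧ ∀ (k₀ : ℕ) (X₀ : ℝ), ∃ K₀ : ℕ, ∀ K ≥ K₀, ∀ φ : ℕ → ℤ → ℝ,
      (∀ s x, |φ s x| ≤ 1) → (∀ s, Orth d (φ s) ε m k₀ X₀) → ∀ (s : ℕ) (A : ℝ), 4 ^ K ≤ A →
      ct {n | δ * K < |Zs d φ s K n|} A ≤ η * A := by
  classical
  obtain ⟨C, hC, hsec⟩ := second hd hd3
  set κ : ℝ := η * δ ^ 2 with hκ
  have hκ0 : 0 < κ := by positivity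
  obtain ⟨m, hm⟩ := exists_nat_ge (4 * C / κ + 1)
  have hm1R : (1 : ℝ) ≤ m := by
    have : 0 ≤ 4 * C / κ := by positivity
    linarith
  have hm1 : 1 ≤ m := by exact_mod_cast hm1R
  have hm0 : (0 : ℝ) < m := by linarith
  refine ⟨κ / 16, by positivity, m, hm1, fun k₀ X₀ => ?_⟩
  set R : ℝ := 4 * k₀ + 8 * m + 8 + 4 * (2 * |(d : ℝ)| + 3) with hR
  obtain ⟨K₁, hK₁⟩ := exists_nat_ge (4 * R / κ + 1)
  obtain ⟨K₂, hK₂⟩ : ∃ K₂ : ℕ, ∀ K ≥ K₂, X₀ ≤ 2 ^ K := by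
    have h := tendsto_pow_atTop_atTop_of_one_lt (show (1 : ℝ) < 2 by norm_num)
    exact Filter.eventually_atTop.1 (h.eventually_ge_atTop X₀)
  refine ⟨max K₁ K₂, fun K hK φ hφ hO s A hA => ?_⟩
  have hK1 : K₁ ≤ K := le_trans (le_max_left _ _) hK
  have hK2 : K₂ ≤ K := le_trans (le_max_right _ _) hK
  have hKR : 4 * R / κ + 1 ≤ K := hK₁.trans (by exact_mod_cast hK1)
  have hR0 : 0 ≤ R := by rw [hR]; positivity
  have hKR1 : (1 : ℝ) ≤ K := by
    have : 0 ≤ 4 * R / κ := by positivity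
    linarith
  have hK1' : 1 ≤ K := by exact_mod_cast hKR1
  have hK0 : (0 : ℝ) < K := by linarith
  have hA0 : 0 < A := lt_of_lt_of_le (by positivity) hA
  have hX : X₀ * 2 ^ K ≤ A := by
    calc X₀ * 2 ^ K ≤ 2 ^ K * 2 ^ K := mul_le_mul_of_nonneg_right (hK₂ K hK2) (by positivity)
      _ = 4 ^ K := by rw [← mul_pow]; norm_num
      _ ≤ A := hA
  have h1 := hsec m hm1 hφ (by positivity : 0 ≤ κ / 16) hO s hK1' hA hX
  have h2 : 4 * (κ / 16) * K ^ 2 + C * K ^ 2 / m + R * K ≤ κ * K ^ 2 := by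
    have a1 : C / m ≤ κ / 4 := by
      rw [div_le_iff₀ hm0]
      have : 4 * C / κ ≤ m := by linarith
      rw [div_le_iff₀ hκ0] at this
      linarith
    have a2 : C * K ^ 2 / m ≤ κ / 4 * K ^ 2 := by
      rw [show C * (K : ℝ) ^ 2 / m = C / m * K ^ 2 by ring]
      exact mul_le_mul_of_nonneg_right a1 (by positivity)
    have a3 : R ≤ κ / 4 * K := by
      have : 4 * R / κ ≤ K := by linarith
      rw [div_le_iff₀ hκ0] at this
      linarith
    have a4 : R * K ≤ κ / 4 * K ^ 2 := by nlinarith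
    nlinarith [sq_nonneg (K : ℝ)]
  have h3 : ct {n | δ * K < |Zs d φ s K n|} A * (δ * K) ^ 2 ≤ ∑ n ∈ Wn A, Zs d φ s K n ^ 2 := by
    rw [ct_eq_sum, sum_mul]
    apply sum_le_sum
    intro n _
    split_ifs with hn
    · rw [one_mul, ← sq_abs (Zs d φ s K n)]
      exact pow_le_pow_left₀ (by positivity) (le_of_lt hn) 2
    · rw [zero_mul]; positivity
  have h4 : ct {n | δ * K < |Zs d φ s K n|} A * (δ * K) ^ 2 ≤ (η * A) * (δ * K) ^ 2 := by
    refine h3.trans (h1.trans ?_)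
    calc A * (4 * (κ / 16) * K ^ 2 + C * K ^ 2 / m + R * K) ≤ A * (κ * K ^ 2) :=
          mul_le_mul_of_nonneg_left h2 hA0.le
      _ = _ := by rw [hκ]; ring
  exact le_of_mul_le_mul_right h4 (by positivity)

end Pool.Agent.R344.SP
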