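import Pool.Agent.R344.SP.F

/-! Sampling principle, part G: assembly. -/

set_option autoImplicit false

namespace Pool.Agent.R344.SP

open Finset
open Pool.Agent.H499R2.CO (Tz)

theorem cover (N : ℝ) {x : ℝ} (hx : x < N) : ∀ I : ℕ, N / 2 ^ I ≤ x →
    ∃ i < I, N / 2 ^ (i + 1) ≤ x ∧ x < 2 * (N / 2 ^ (i + 1)) := by
  intro I
  induction I with
  | zero => intro h; simp at h; linarith
  | succ I ih =>
    intro h
    rcases le_or_gt (N / 2 ^ I) x with h1 | h1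
    · obtain ⟨i, hi, h2⟩ := ih h1
      exact ⟨i, by omega, h2⟩
    · refine ⟨I, by omega, h, ?_⟩
      have : 2 * (N / 2 ^ (I + 1)) = N / 2 ^ I := by rw [pow_succ]; field_simp
      rw [this]; exact h1

open scoped Classical in
/-- from windows to initial segments -/
theorem from_windows' (D : Set ℤ) {N : ℕ} {η : ℝ} (hη : 0 ≤ η) (I : ℕ)
    (h : ∀ i < I, ct D (((N : ℝ) + 1) / 2 ^ (i + 1)) ≤ η * (((N : ℝ) + 1) / 2 ^ (i + 1))) :
    (((Icc 1 N).filter (fun n : ℕ => (n : ℤ) ∈ D)).card : ℝ)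
      ≤ ((N : ℝ) + 1) / 2 ^ I + 1 + η * (N + 1) := by
  set M : ℝ := (N : ℝ) + 1 with hM
  have hM0 : 0 ≤ M := by positivity
  have hsub : ((Icc 1 N).filter (fun n : ℕ => (n : ℤ) ∈ D)).image (fun n : ℕ => (n : ℤ))
      ⊆ (Ico (1 : ℤ) ⌈M / 2 ^ I⌉) ∪ (range I).biUnion
        (fun i => (Wn (M / 2 ^ (i + 1))).filter (fun n => n ∈ D)) := by
    intro x hx
    rw [mem_image] at hx
    obtain ⟨n, hn, rfl⟩ := hx
    rw [mem_filter, mem_Icc] at hn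
    rw [mem_union, mem_biUnion]
    have hnN : ((n : ℤ) : ℝ) < M := by
      rw [hM]
      have : (n : ℝ) ≤ N := by exact_mod_cast hn.1.2
      push_cast; linarith
    rcases lt_or_ge ((n : ℤ) : ℝ) (M / 2 ^ I) with h1 | h1
    · left
      rw [mem_Ico, Int.lt_ceil]
      refine ⟨by omega, h1⟩
    · right
      obtain ⟨i, hi, h2⟩ := cover M hnN I h1
      refine ⟨i, mem_range.2 hi, ?_⟩
      rw [mem_filter, mem_Wn]
      exact ⟨h2, hn.2⟩
  have hcard : (((Icc 1 N).filter (fun n : ℕ => (n : ℤ) ∈ D)).card : ℝ)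
      = (((Icc 1 N).filter (fun n : ℕ => (n : ℤ) ∈ D)).image (fun n : ℕ => (n : ℤ))).card := by
    rw [card_image_of_injective _ Nat.cast_injective]
  rw [hcard]
  have h1 : ((((Icc 1 N).filter (fun n : ℕ => (n : ℤ) ∈ D)).image (fun n : ℕ => (n : ℤ))).card : ℝ)
      ≤ ((Ico (1 : ℤ) ⌈M / 2 ^ I⌉).card : ℝ)
        + ∑ i ∈ range I, (((Wn (M / 2 ^ (i + 1))).filter (fun n => n ∈ D)).card : ℝ) := by
    have := (card_le_card hsub).trans (card_union_le _ _)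
    have h2 := this.trans (Nat.add_le_add_left (card_biUnion_le) _)
    exact_mod_cast h2
  have h2 : ((Ico (1 : ℤ) ⌈M / 2 ^ I⌉).card : ℝ) ≤ M / 2 ^ I + 1 := by
    rw [Int.card_Ico]
    have h0 : 0 ≤ M / 2 ^ I := by positivity
    have h3 : (⌈M / 2 ^ I⌉ : ℝ) < M / 2 ^ I + 1 := Int.ceil_lt_add_one _
    rcases le_or_gt 0 (⌈M / 2 ^ I⌉ - 1) with h4 | h4
    · have : (((⌈M / 2 ^ I⌉ - 1).toNat : ℕ) : ℝ) = ((⌈M / 2 ^ I⌉ - 1 : ℤ) : ℝ) := by
        exact_mod_cast congrArg (Int.cast : ℤ → ℝ) (Int.toNat_of_nonneg h4)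
      rw [this]; push_cast; linarith
    · rw [Int.toNat_of_nonpos h4.le]; push_cast; linarith
  have h3 : ∑ i ∈ range I, (((Wn (M / 2 ^ (i + 1))).filter (fun n => n ∈ D)).card : ℝ)
      ≤ η * M := by
    have hgeo : ∀ I : ℕ, ∑ i ∈ range I, M / 2 ^ (i + 1) ≤ M - M / 2 ^ I := by
      intro I
      induction I with
      | zero => simp
      | succ I ih =>
        rw [sum_range_succ]
        have : M / 2 ^ I = 2 * (M / 2 ^ (I + 1)) := by rw [pow_succ]; field_simp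
        linarith
    calc ∑ i ∈ range I, (((Wn (M / 2 ^ (i + 1))).filter (fun n => n ∈ D)).card : ℝ)
        ≤ ∑ i ∈ range I, η * (M / 2 ^ (i + 1)) := by
          apply sum_le_sum
          intro i hi
          exact h i (mem_range.1 hi)
      _ = η * ∑ i ∈ range I, M / 2 ^ (i + 1) := by rw [mul_sum]
      _ ≤ η * M := by
          apply mul_le_mul_of_nonneg_left _ hη
          have := hgeo I
          have h5 : 0 ≤ M / 2 ^ I := by positivity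
          linarith
  linarith

theorem from_windows (D : Set ℤ) {N : ℕ} {η : ℝ} (hη : 0 ≤ η) (I : ℕ)
    (h : ∀ i < I, ct D (((N : ℝ) + 1) / 2 ^ (i + 1)) ≤ η * (((N : ℝ) + 1) / 2 ^ (i + 1)))
    (S : Finset ℕ) (hS : ∀ n ∈ S, 1 ≤ n ∧ n ≤ N ∧ (n : ℤ) ∈ D) :
    (S.card : ℝ) ≤ ((N : ℝ) + 1) / 2 ^ I + 1 + η * (N + 1) := by
  classical
  refine le_trans (Nat.cast_le.2 (card_le_card ?_)) (from_windows' D hη I h)
  intro n hn
  obtain ⟨h1, h2, h3⟩ := hS n hn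
  rw [mem_filter, mem_Icc]
  exact ⟨⟨h1, h2⟩, h3⟩

/-- the schedule of stages -/
theorem schedule {d : ℤ} (hd : d % 2 = 1) (hd3 : IsCoprime d 3) {β : ℝ}
    (hβ : Real.log 2 - Real.log 3 / 2 < β) (r : ℕ) {σ₁ : ℝ} (hσ₁ : 0 < σ₁)
    (hσ : σ₁ * (Real.log 4 + r * β) < 1) {ε : ℝ} (hε : 0 < ε) :
    ∃ ε₁ : ℝ, 0 < ε₁ ∧ ∀ K₀ : ℕ, ∃ N₀ : ℕ, ∀ N ≥ N₀, ∃ T : ℕ, K₀ ≤ T ∧ 1 ≤ T ∧
      σ₁ * Real.log N ≤ T ∧ T * (Real.log 4 + r * β) ≤ Real.log N ∧ ∀ B : ℕ → Set ℤ,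
      (∀ i, ∀ L, 4 ^ T ≤ L → ct (B i) L ≤ ε₁ * L) → ∀ S : Finset ℕ,
        (∀ n ∈ S, 1 ≤ n ∧ n ≤ N ∧ ∃ i ≤ r, (Tz d)^[i * T] n ∈ B i) → (S.card : ℝ) ≤ ε * N := by
  classical
  have hl2 : 0 < Real.log 2 := Real.log_pos (by norm_num)
  have hl3 : 0 < Real.log 3 := Real.log_pos (by norm_num)
  have hl4 : 0 < Real.log 4 := Real.log_pos (by norm_num)
  have hβ0 : 0 < β := by
    have : Real.log 3 ≤ 2 * Real.log 2 := by
      have h := Real.log_le_log (by norm_num) (by norm_num : (3 : ℝ) ≤ 2 ^ 2)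
      rw [Real.log_pow] at h
      push_cast at h
      exact h
    linarith
  set G : ℝ := Real.log 4 + r * β with hG
  have hG0 : 0 < G := by rw [hG]; positivity
  -- σ between σ₁ and 1/G
  obtain ⟨σ, hσ1, hσG⟩ : ∃ σ : ℝ, σ₁ < σ ∧ σ * G < 1 := by
    refine ⟨(σ₁ + 1 / G) / 2, ?_, ?_⟩
    · have : σ₁ < 1 / G := by rw [lt_div_iff₀ hG0]; exact hσ
      linarith
    · have : (σ₁ + 1 / G) / 2 * G = (σ₁ * G + 1) / 2 := by field_simp
      rw [this]; linarith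
  have hσ0 : 0 < σ := hσ₁.trans hσ1
  set θ : ℝ := (σ - σ₁) / (2 * σ) with hθ
  have hθ0 : 0 < θ := by rw [hθ]; apply div_pos <;> linarith
  obtain ⟨I, hI⟩ : ∃ I : ℕ, (1 / 2 : ℝ) ^ I ≤ ε / 8 := by
    have h := tendsto_pow_atTop_nhds_zero_of_lt_one (show (0 : ℝ) ≤ 1 / 2 by norm_num)
      (show (1 / 2 : ℝ) < 1 by norm_num)
    have h1 := h.eventually (gt_mem_nhds (show (0 : ℝ) < ε / 8 by positivity))
    obtain ⟨I, hI⟩ := Filter.eventually_atTop.1 h1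
    exact ⟨I, (hI I le_rfl).le⟩
  obtain ⟨ε₁, hε₁, U, hU, T₀, hT₀⟩ := stages hd hd3 hβ r (ε := ε / 4) (θ := θ) (by positivity) hθ0
  obtain ⟨K₁, hK₁⟩ := exists_good hU
  refine ⟨ε₁, hε₁, fun K₀ => ?_⟩
  -- N large
  have hlogtop : Filter.Tendsto (fun N : ℕ => Real.log N) Filter.atTop Filter.atTop :=
    Real.tendsto_log_atTop.comp tendsto_natCast_atTop_atTop
  have ev1 := hlogtop.eventually_ge_atTop (4 / (σ - σ₁) + (K₁ + 2) / σ + (K₀ + T₀ + 2) / σ₁ + 1)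
  have ev2 := hlogtop.eventually_ge_atTop ((I * Real.log 2) / (1 - σ * G))
  have ev3 := (tendsto_natCast_atTop_atTop (R := ℝ)).eventually_ge_atTop (8 / ε + 8 + 1)
  obtain ⟨N₁, hN₁⟩ := Filter.eventually_atTop.1 (ev1.and (ev2.and ev3))
  refine ⟨max N₁ 1, fun N hN => ?_⟩
  obtain ⟨e1, e2, e3⟩ := hN₁ N (le_trans (le_max_left _ _) hN)
  have hN1 : 1 ≤ N := le_trans (le_max_right _ _) hN
  have hN0 : (0 : ℝ) < N := by exact_mod_cast hN1
  set ℓ := Real.log N with hℓ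
  have hd1 : 0 < σ - σ₁ := by linarith
  have p1 : 0 ≤ 4 / (σ - σ₁) := by positivity
  have p2 : 0 ≤ ((K₁ : ℝ) + 2) / σ := by positivity
  have p3 : 0 ≤ ((K₀ : ℝ) + T₀ + 2) / σ₁ := by positivity
  have hℓ0 : 0 < ℓ := by linarith
  have q1 : 4 ≤ (σ - σ₁) * ℓ := by
    have : 4 / (σ - σ₁) ≤ ℓ := by linarith
    rw [div_le_iff₀ hd1] at this; linarith
  have q2 : (K₁ : ℝ) + 2 ≤ σ * ℓ := by
    have : ((K₁ : ℝ) + 2) / σ ≤ ℓ := by linarith
    rw [div_le_iff₀ hσ0] at this; linarith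
  have q3 : (K₀ : ℝ) + T₀ + 2 ≤ σ₁ * ℓ := by
    have : ((K₀ : ℝ) + T₀ + 2) / σ₁ ≤ ℓ := by linarith
    rw [div_le_iff₀ hσ₁] at this; linarith
  set a : ℕ := ⌈σ₁ * ℓ⌉₊ with ha
  set K : ℕ := ⌊σ * ℓ⌋₊ with hK
  have ha1 : σ₁ * ℓ ≤ a := Nat.le_ceil _
  have ha2 : (a : ℝ) < σ₁ * ℓ + 1 := Nat.ceil_lt_add_one (by positivity)
  have hK1 : (K : ℝ) ≤ σ * ℓ := Nat.floor_le (by positivity)
  have hK2 : σ * ℓ < K + 1 := Nat.lt_floor_add_one _
  have hKK₁ : K₁ ≤ K := by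
    have : (K₁ : ℝ) ≤ K := by linarith
    exact_mod_cast this
  obtain ⟨T, haT, hTK, hTU⟩ := hK₁ a K hKK₁ (by
    have h1 : θ * K ≤ θ * (σ * ℓ) := mul_le_mul_of_nonneg_left hK1 hθ0.le
    have h2 : θ * (σ * ℓ) = (σ - σ₁) * ℓ / 2 := by rw [hθ]; field_simp
    nlinarith)
  have haTR : (a : ℝ) + 1 ≤ T := by exact_mod_cast haT
  have hTKR : (T : ℝ) ≤ K := by exact_mod_cast hTK
  have hTσ : (T : ℝ) ≤ σ * ℓ := hTKR.trans hK1
  have hTT₀ : T₀ ≤ T := by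
    have : (T₀ : ℝ) ≤ T := by
      have : (0 : ℝ) ≤ K₀ := by positivity
      linarith
    exact_mod_cast this
  have hTK₀ : K₀ ≤ T := by
    have : (K₀ : ℝ) ≤ T := by
      have : (0 : ℝ) ≤ T₀ := by positivity
      linarith
    exact_mod_cast this
  have hTG : T * G ≤ σ * G * ℓ := by nlinarith
  refine ⟨T, hTK₀, by omega, by linarith, ?_, fun B hB S hS => ?_⟩
  · nlinarith
  set D : Set ℤ := {n | ∃ i ≤ r, (Tz d)^[i * T] n ∈ B i} with hD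
  have hwin : ∀ i < I, ct D (((N : ℝ) + 1) / 2 ^ (i + 1)) ≤ ε / 4 * (((N : ℝ) + 1) / 2 ^ (i + 1)) := by
    intro i hi
    apply hT₀ T hTU hTT₀ (4 ^ T) le_rfl B hB
    have h1 : (4 : ℝ) ^ T * Real.exp (r * β * T) = Real.exp (T * G) := by
      rw [hG, mul_add, Real.exp_add, Real.exp_nat_mul, Real.exp_log (by norm_num)]
      congr 2; ring
    rw [h1]
    have h2 : (N : ℝ) / 2 ^ I ≤ ((N : ℝ) + 1) / 2 ^ (i + 1) := by
      apply div_le_div₀ (by positivity) (by linarith) (by positivity)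
      exact pow_le_pow_right₀ (by norm_num) hi
    refine le_trans ?_ h2
    have h3 : (N : ℝ) / 2 ^ I = Real.exp (ℓ - I * Real.log 2) := by
      rw [Real.exp_sub, hℓ, Real.exp_log hN0, Real.exp_nat_mul, Real.exp_log (by norm_num)]
    rw [h3]
    apply Real.exp_le_exp.2
    have h4 : 0 < 1 - σ * G := by linarith
    rw [div_le_iff₀ h4] at e2
    linarith
  have hfin := from_windows D (N := N) (η := ε / 4) (by positivity) I hwin S hS
  have hIN : ((N : ℝ) + 1) / 2 ^ I ≤ ε / 8 * (N + 1) := by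
    have : ((N : ℝ) + 1) / 2 ^ I = (1 / 2 : ℝ) ^ I * (N + 1) := by
      rw [div_pow, one_pow]; ring
    rw [this]
    exact mul_le_mul_of_nonneg_right hI (by positivity)
  have h8 : 8 / ε ≤ N := by linarith
  rw [div_le_iff₀ hε] at h8
  have h9 : 8 * ε ≤ N * ε := by
    apply mul_le_mul_of_nonneg_right _ hε.le
    have : 0 ≤ 8 / ε := by positivity
    linarith
  have : (S.card : ℝ) ≤ ε / 8 * (N + 1) + 1 + ε / 4 * (N + 1) := by linarith
  nlinarith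

/-- splitting a partial sum into stages -/
theorem Zs_add (d : ℤ) (φ : ℕ → ℤ → ℝ) (s K L : ℕ) (n : ℤ) :
    Zs d φ s (K + L) n = Zs d φ s K n + Zs d φ (s + K) L ((Tz d)^[K] n) := by
  unfold Zs
  rw [sum_range_add]
  congr 1
  apply sum_congr rfl
  intro t _
  rw [← Function.iterate_add_apply, add_comm K t, add_assoc, add_comm K t]

theorem Zs_le (d : ℤ) {φ : ℕ → ℤ → ℝ} (hφ : ∀ s x, |φ s x| ≤ 1) (s K : ℕ) (n : ℤ) :
    |Zs d φ s K n| ≤ K := by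
  unfold Zs
  refine (abs_sum_le_sum_abs _ _).trans ?_
  calc ∑ t ∈ range K, |φ (s + t) ((Tz d)^[t] n)| ≤ ∑ _t ∈ range K, (1 : ℝ) :=
        sum_le_sum fun t _ => hφ _ _
    _ = K := by simp

theorem Zs_stages (d : ℤ) {φ : ℕ → ℤ → ℝ} {T : ℕ} {n : ℤ} {c : ℝ} : ∀ q : ℕ,
    (∀ i < q, |Zs d φ (i * T) T ((Tz d)^[i * T] n)| ≤ c) → |Zs d φ 0 (q * T) n| ≤ q * c
  | 0, _ => by simp [Zs]
  | q + 1, h => by
    have ih := Zs_stages d q (fun i hi => h i (by omega))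
    have h1 := h q (by omega)
    rw [show (q + 1) * T = q * T + T by ring, Zs_add, zero_add]
    refine (abs_add_le _ _).trans ?_
    push_cast
    linarith

theorem Zs_all (d : ℤ) {φ : ℕ → ℤ → ℝ} (hφ : ∀ s x, |φ s x| ≤ 1) {T : ℕ} (hT : 1 ≤ T) {n : ℤ} {c : ℝ}
    (hc : 0 ≤ c) {r t : ℕ} (ht : t ≤ (r + 1) * T)
    (h : ∀ i ≤ r, |Zs d φ (i * T) T ((Tz d)^[i * T] n)| ≤ c) : |Zs d φ 0 t n| ≤ (r + 1) * c + T := by
  set q := t / T with hq
  set s := t % T with hs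
  have ht' : t = q * T + s := by rw [hq, hs]; exact (Nat.div_add_mod' t T).symm
  have hsT : s < T := Nat.mod_lt _ (by omega)
  have hqr : q ≤ r + 1 := by
    by_contra hcon
    have : (r + 1 + 1) * T ≤ q * T := Nat.mul_le_mul_right T (by omega)
    have h2 : (r + 1 + 1) * T = (r + 1) * T + T := by ring
    omega
  have h1 := Zs_stages d (φ := φ) q (n := n) (T := T) (c := c) (fun i hi => h i (by omega))
  have h2 := Zs_le d hφ (0 + q * T) s ((Tz d)^[q * T] n)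
  rw [ht', Zs_add]
  refine (abs_add_le _ _).trans ?_
  have h3 : (q : ℝ) * c ≤ (r + 1) * c := by
    apply mul_le_mul_of_nonneg_right _ hc
    exact_mod_cast hqr
  have h4 : (s : ℝ) ≤ T := by exact_mod_cast hsT.le
  linarith

/-- THE CORE THEOREM -/
theorem core {d : ℤ} (hd : d % 2 = 1) (hd3 : IsCoprime d 3) {κ : ℝ} (hκ0 : 0 < κ)
    (hκ : κ * (Real.log 2 - Real.log 3 / 2) < 1) {ε : ℝ} (hε : 0 < ε) :
    ∃ ε₁ : ℝ, 0 < ε₁ ∧ ∃ m : ℕ, 1 ≤ m ∧ ∀ (k₀ : ℕ) (X₀ : ℝ), ∃ N₀ : ℕ, ∀ N ≥ N₀, ∀ φ : ℕ → ℤ → ℝ,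
      (∀ s x, |φ s x| ≤ 1) → (∀ s, Orth d (φ s) ε₁ m k₀ X₀) → ∀ S : Finset ℕ,
        (∀ n ∈ S, 1 ≤ n ∧ n ≤ N ∧ ∃ t : ℕ, (t : ℝ) ≤ κ * Real.log n ∧
          ε * Real.log N < |Zs d φ 0 t n|) → (S.card : ℝ) ≤ ε * N := by
  have hl2 : 0 < Real.log 2 := Real.log_pos (by norm_num)
  have hl3 : 0 < Real.log 3 := Real.log_pos (by norm_num)
  have hl4 : 0 < Real.log 4 := Real.log_pos (by norm_num)
  have hb0 : 0 < Real.log 2 - Real.log 3 / 2 := by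
    have : Real.log 3 < 2 * Real.log 2 := by
      have h := Real.log_lt_log (by norm_num) (by norm_num : (3 : ℝ) < 2 ^ 2)
      rw [Real.log_pow] at h
      push_cast at h
      exact h
    linarith
  obtain ⟨β, hβ, hκβ⟩ : ∃ β : ℝ, Real.log 2 - Real.log 3 / 2 < β ∧ κ * β < 1 := by
    refine ⟨((Real.log 2 - Real.log 3 / 2) + 1 / κ) / 2, ?_, ?_⟩
    · have : Real.log 2 - Real.log 3 / 2 < 1 / κ := by rw [lt_div_iff₀ hκ0]; linarith
      linarith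
    · have : κ * (((Real.log 2 - Real.log 3 / 2) + 1 / κ) / 2)
          = (κ * (Real.log 2 - Real.log 3 / 2) + 1) / 2 := by field_simp
      rw [this]; linarith
  have hβ0 : 0 < β := hb0.trans hβ
  -- the number of stages
  obtain ⟨r, hr⟩ := exists_nat_ge (κ * Real.log 4 / (1 - κ * β) + 4 / (ε * β) + 1)
  have h1κβ : 0 < 1 - κ * β := by linarith
  have p1 : 0 ≤ κ * Real.log 4 / (1 - κ * β) := by positivity
  have p2 : 0 ≤ 4 / (ε * β) := by positivity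
  have hr1 : (1 : ℝ) ≤ r := by linarith
  have hrκ : κ * Real.log 4 + κ * (r * β) < r + 1 := by
    have : κ * Real.log 4 / (1 - κ * β) ≤ r := by linarith
    rw [div_le_iff₀ h1κβ] at this
    nlinarith
  have hrε : 4 ≤ r * (ε * β) := by
    have : 4 / (ε * β) ≤ r := by linarith
    rwa [div_le_iff₀ (by positivity)] at this
  set σ₁ : ℝ := κ / (r + 1) with hσ₁
  have hσ₁0 : 0 < σ₁ := by rw [hσ₁]; positivity
  have hσ : σ₁ * (Real.log 4 + r * β) < 1 := by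
    rw [hσ₁, div_mul_eq_mul_div, div_lt_one (by positivity)]
    linarith
  obtain ⟨ε₂, hε₂, hsch⟩ := schedule hd hd3 hβ r hσ₁0 hσ hε
  set δ : ℝ := ε * β / 4 with hδ
  obtain ⟨ε₁, hε₁, m, hm, hone⟩ := one_stage hd hd3 (δ := δ) (η := ε₂) (by positivity) hε₂
  refine ⟨ε₁, hε₁, m, hm, fun k₀ X₀ => ?_⟩
  obtain ⟨K₀, hK₀⟩ := hone k₀ X₀
  obtain ⟨N₀, hN₀⟩ := hsch K₀
  refine ⟨N₀, fun N hN φ hφ hO S hS => ?_⟩
  obtain ⟨T, hTK, hT1, hTσ, hTG, hT⟩ := hN₀ N hN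
  apply hT (fun i => {n | δ * T < |Zs d φ (i * T) T n|})
    (fun i L hL => hK₀ T hTK φ hφ hO (i * T) L hL) S
  intro n hn
  obtain ⟨h1, h2, t, ht, hbig⟩ := hS n hn
  refine ⟨h1, h2, ?_⟩
  by_contra hcon
  push Not at hcon
  have hn0 : (0 : ℝ) < n := by exact_mod_cast h1
  have hlogn : Real.log n ≤ Real.log N := Real.log_le_log hn0 (by exact_mod_cast h2)
  have htT : t ≤ (r + 1) * T := by
    have h3 : (t : ℝ) ≤ (r + 1) * T := by
      calc (t : ℝ) ≤ κ * Real.log n := ht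
        _ ≤ κ * Real.log N := mul_le_mul_of_nonneg_left hlogn hκ0.le
        _ = (r + 1) * (σ₁ * Real.log N) := by rw [hσ₁]; field_simp
        _ ≤ (r + 1) * T := mul_le_mul_of_nonneg_left hTσ (by positivity)
    exact_mod_cast h3
  have hTpos : (0 : ℝ) < T := by exact_mod_cast hT1
  have h4 := Zs_all d hφ hT1 (n := (n : ℤ)) (c := δ * T) (by positivity) htT (by
    intro i hi
    have := hcon i hi
    exact not_lt.1 this)
  -- `(r+1) δ T + T ≤ ε log N`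
  have h5 : T * (r * β) ≤ Real.log N := by
    have : 0 ≤ T * Real.log 4 := by positivity
    nlinarith
  have h6 : (r + 1) * (δ * T) + T ≤ ε * Real.log N := by
    have a1 : (r + 1) * (δ * T) ≤ 2 * r * (δ * T) :=
      mul_le_mul_of_nonneg_right (by linarith) (by positivity)
    have a2 : 2 * r * (δ * T) = ε / 2 * (T * (r * β)) := by rw [hδ]; ring
    have a3 : (4 : ℝ) * T ≤ ε * (T * (r * β)) := by nlinarith
    have a4 : ε * (T * (r * β)) ≤ ε * Real.log N := mul_le_mul_of_nonneg_left h5 hε.le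
    linarith
  linarith

end Pool.Agent.R344.SP
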