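import Pool.Agent.R344.SP.F
import Pool.Agent.H499R2.CO.F

/-! Sampling principle, part H: coalescence; functions with small local sums. -/

set_option autoImplicit false

namespace Pool.Agent.R344.SP

open Finset
open Pool.Agent.H499R2.CO (Tz surv q step q_nonneg coal surv_periodic count_surv exists_k)
open Pool.Agent.H499R2.ND (crt ap mem_ap ap_card_le)

open scoped Classical in
/-- survivors in a class mod `3^m` -/
theorem surv_class {d : ℤ} (hd : d % 2 = 1) (k : ℕ) (s : ℕ × ℤ) (m : ℕ) (b : ℤ) {X : ℝ} (hX : 0 ≤ X) :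
    (((cl X (2 * X) m 1 b).filter (fun x => surv d k s x)).card : ℝ)
      ≤ (X / 3 ^ m + 2 ^ k) * q step (0, 0) k s := by
  have h2z : (0 : ℤ) < 2 ^ k := by positivity
  set g : ℤ → ℝ := fun x => if surv d k s x then 1 else 0 with hg
  have hgn : ∀ x, 0 ≤ g x := by intro x; rw [hg]; dsimp only; split_ifs <;> norm_num
  have hper : ∀ x n : ℤ, g (x + n * 2 ^ k) = g x := by
    intro x n
    rw [hg]; dsimp only
    simp only [surv_periodic hd]
  have hcard : (((cl X (2 * X) m 1 b).filter (fun x => surv d k s x)).card : ℝ)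
      = ∑ x ∈ cl X (2 * X) m 1 b, g x := by
    rw [card_filter]; push_cast; rfl
  rw [hcard]
  have hmap : ∀ n ∈ cl X (2 * X) m 1 b, (n % 2 ^ k).toNat ∈ range (2 ^ k) := by
    intro n _
    have h1 := Int.emod_nonneg n h2z.ne'
    have h2 := Int.emod_lt_of_pos n h2z
    rw [mem_range]
    have h3 : (((n % 2 ^ k).toNat : ℕ) : ℤ) < ((2 ^ k : ℕ) : ℤ) := by
      rw [Int.toNat_of_nonneg h1]; push_cast; exact h2
    exact_mod_cast h3
  rw [← sum_fiberwise_of_maps_to hmap]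
  have hfib : ∀ r ∈ range (2 ^ k), ∑ n ∈ (cl X (2 * X) m 1 b).filter (fun n => (n % 2 ^ k).toNat = r), g n
      ≤ (X / (2 ^ k * 3 ^ m) + 1) * g (r : ℤ) := by
    intro r _
    have h1 : ∀ n ∈ (cl X (2 * X) m 1 b).filter (fun n => (n % 2 ^ k).toNat = r), g n = g (r : ℤ) := by
      intro n hn
      rw [mem_filter] at hn
      have h4 := Int.emod_nonneg n h2z.ne'
      have h5 : (r : ℤ) = n % 2 ^ k := by rw [← hn.2, Int.toNat_of_nonneg h4]
      have h6 : n = r + (n / 2 ^ k) * 2 ^ k := by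
        rw [h5]; linarith [Int.emod_add_mul_ediv n (2 ^ k), mul_comm (2 ^ k) (n / 2 ^ k)]
      rw [h6, hper]
    rw [sum_congr rfl h1, sum_const, nsmul_eq_mul]
    apply mul_le_mul_of_nonneg_right _ (hgn _)
    obtain ⟨c, hc⟩ := crt k m (g := 1) odd_one isCoprime_one_left (r : ℤ) b
    have h2 : (cl X (2 * X) m 1 b).filter (fun n => (n % 2 ^ k).toNat = r)
        ⊆ ap X (2 * X) (2 ^ k * 3 ^ m) c := by
      intro n hn
      rw [mem_filter, mem_cl] at hn
      rw [mem_ap]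
      refine ⟨hn.1.1, (hc n).1 ⟨?_, hn.1.2⟩⟩
      have h4 := Int.emod_nonneg n h2z.ne'
      have h5 : (r : ℤ) = n % 2 ^ k := by rw [← hn.2, Int.toNat_of_nonneg h4]
      rw [h5, one_mul]
      exact Int.dvd_self_sub_emod
    have h3 := ap_card_le (by linarith : X ≤ 2 * X) (q := 2 ^ k * 3 ^ m) (by positivity) c
    rw [show 2 * X - X = X by ring] at h3
    push_cast at h3
    refine le_trans ?_ h3
    exact_mod_cast card_le_card h2
  calc ∑ r ∈ range (2 ^ k), ∑ n ∈ (cl X (2 * X) m 1 b).filter (fun n => (n % 2 ^ k).toNat = r), g n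
      ≤ ∑ r ∈ range (2 ^ k), (X / (2 ^ k * 3 ^ m) + 1) * g (r : ℤ) := sum_le_sum hfib
    _ = (X / (2 ^ k * 3 ^ m) + 1) * (2 ^ k * q step (0, 0) k s) := by
        rw [← mul_sum]
        congr 1
        exact count_surv hd k s
    _ = _ := by field_simp

open scoped Classical in
/-- functions that agree at coalescing integers rarely change under a shift -/
theorem shift_close {d : ℤ} (hd : d % 2 = 1) (h : ℤ) {η : ℝ} (hη : 0 < η) : ∃ k₁ : ℕ, ∀ k₀ ≥ k₁,
    ∀ f : ℤ → ℝ, (∀ x y, (Tz d)^[k₀] x = (Tz d)^[k₀] y → f x = f y) → ∀ (m : ℕ) (b : ℤ) {X : ℝ}, 0 ≤ X →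
      (((cl X (2 * X) m 1 b).filter (fun x => f (x + d * h) ≠ f x)).card : ℝ)
        ≤ η * (X / 3 ^ m + 2 ^ k₁) := by
  obtain ⟨k₁, hk₁⟩ := exists_k h hη
  refine ⟨k₁, fun k₀ hk₀ f hf m b X hX => ?_⟩
  have h1 := surv_class hd k₁ (0, h) m b hX
  have h2 := hk₁ k₁ le_rfl
  have hsub : (cl X (2 * X) m 1 b).filter (fun x => f (x + d * h) ≠ f x)
      ⊆ (cl X (2 * X) m 1 b).filter (fun x => surv d k₁ (0, h) x) := by
    intro x hx
    rw [mem_filter] at hx ⊢
    refine ⟨hx.1, ?_⟩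
    by_contra hcon
    apply hx.2
    obtain ⟨t, ht, he⟩ := coal hd k₁ 0 h x hcon
    simp only [pow_zero, one_mul] at he
    apply hf
    obtain ⟨s, rfl⟩ := Nat.exists_eq_add_of_le (ht.trans hk₀)
    rw [show t + s = s + t by ring, Function.iterate_add_apply, Function.iterate_add_apply, he]
  have h3 : (((cl X (2 * X) m 1 b).filter (fun x => f (x + d * h) ≠ f x)).card : ℝ)
      ≤ (((cl X (2 * X) m 1 b).filter (fun x => surv d k₁ (0, h) x)).card : ℝ) := by
    exact_mod_cast card_le_card hsub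
  have h4 : (X / 3 ^ m + 2 ^ k₁) * q step (0, 0) k₁ (0, h) ≤ (X / 3 ^ m + 2 ^ k₁) * η :=
    mul_le_mul_of_nonneg_left h2 (by positivity)
  linarith

/-- translating a class -/
theorem cl_shift (f : ℤ → ℝ) (a b : ℝ) (m : ℕ) (c s : ℤ) (hs : (3 : ℤ) ^ m ∣ s) :
    ∑ x ∈ cl a b m 1 c, f (x + s) = ∑ x ∈ cl (a + s) (b + s) m 1 c, f x := by
  apply sum_nbij' (fun x => x + s) (fun x => x - s)
  · intro x hx
    rw [mem_cl] at hx ⊢
    push_cast
    refine ⟨⟨by linarith [hx.1.1], by linarith [hx.1.2]⟩, ?_⟩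
    have := dvd_add hx.2 hs
    rwa [show 1 * x - c + s = 1 * (x + s) - c by ring] at this
  · intro x hx
    rw [mem_cl] at hx ⊢
    push_cast
    refine ⟨⟨by linarith [hx.1.1], by linarith [hx.1.2]⟩, ?_⟩
    have := dvd_sub hx.2 hs
    rwa [show 1 * x - c - s = 1 * (x - s) - c by ring] at this
  · intro x _; ring
  · intro x _; ring
  · intro x _; rfl

/-- FUNCTIONS WITH SMALL LOCAL SUMS ARE ORTHOGONAL TO CLOSED FUNCTIONS -/
theorem orth_of_local {d : ℤ} (hd : d % 2 = 1) {η : ℝ} (hη : 0 < η) (m H : ℕ) (hH : 1 ≤ H) (Q : ℤ) :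
    ∃ k₀ : ℕ, ∀ X₁ : ℝ, ∃ X₀ : ℝ, ∀ φ : ℤ → ℝ, (∀ x, |φ x| ≤ 1) →
      (∀ X, X₁ ≤ X → ∀ b : ℤ, ∑ x ∈ cl X (2 * X) m 1 b, |∑ i ∈ range H, φ (x + d * (3 ^ m * Q * i))|
        ≤ η * H * X / 3 ^ m) →
      Orth d φ (2 * η) m k₀ X₀ := by
  classical
  have hH0 : (0 : ℝ) < H := by exact_mod_cast hH
  choose k₁ hk₁ using fun i : ℕ => shift_close hd (3 ^ m * Q * (i : ℤ)) (η := η / 4) (by positivity)
  set k₀ : ℕ := (range H).sup k₁ with hk₀
  have hle : ∀ i ∈ range H, k₁ i ≤ k₀ := fun i hi => le_sup (f := k₁) hi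
  refine ⟨k₀, fun X₁ => ?_⟩
  -- X₀
  set R : ℝ := η / 2 * 2 ^ k₀ + 2 * (|(d : ℝ)| * |(Q : ℝ)| * H + 1) with hR
  have hR0 : 0 < R := by rw [hR]; positivity
  refine ⟨max X₁ (2 * R * 3 ^ m / η), fun φ hφ hloc f hf hcl X hX b => ?_⟩
  have hX1 : X₁ ≤ X := le_trans (le_max_left _ _) hX
  have hX2 : 2 * R * 3 ^ m / η ≤ X := le_trans (le_max_right _ _) hX
  have hX0 : 0 ≤ X := le_trans (by positivity) hX2
  set S := cl X (2 * X) m 1 b with hS
  have h3m : (0 : ℝ) < 3 ^ m := by positivity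
  -- one shift
  have hone : ∀ i ∈ range H, |∑ x ∈ S, φ x * f x - ∑ x ∈ S, φ (x + d * (3 ^ m * Q * i)) * f x|
      ≤ 2 * (|(d : ℝ)| * |(Q : ℝ)| * H + 1) + 2 * (η / 4 * (X / 3 ^ m + 2 ^ k₀)) := by
    intro i hi
    have hiH : (i : ℝ) ≤ H := by
      rw [mem_range] at hi
      exact_mod_cast hi.le
    set s : ℤ := d * (3 ^ m * Q * i) with hs
    have e1 : ∑ x ∈ S, φ (x + s) * f (x + s) = ∑ x ∈ cl (X + s) (2 * X + s) m 1 b, φ x * f x :=
      cl_shift (fun x => φ x * f x) X (2 * X) m b s ⟨d * Q * i, by rw [hs]; ring⟩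
    have hsabs : |(s : ℝ)| ≤ |(d : ℝ)| * |(Q : ℝ)| * H * 3 ^ m := by
      rw [hs]; push_cast
      rw [abs_mul, abs_mul, abs_mul, abs_of_pos h3m, abs_of_nonneg (by positivity : (0 : ℝ) ≤ (i : ℝ))]
      have : |(d : ℝ)| * (3 ^ m * |(Q : ℝ)| * (i : ℝ)) = |(d : ℝ)| * |(Q : ℝ)| * i * 3 ^ m := by ring
      rw [this]
      apply mul_le_mul_of_nonneg_right _ h3m.le
      exact mul_le_mul_of_nonneg_left hiH (by positivity)
    have hprod : ∀ x, |φ x * f x| ≤ 1 := by
      intro x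
      rw [abs_mul]
      calc |φ x| * |f x| ≤ 1 * 1 := mul_le_mul (hφ x) (hf x) (abs_nonneg _) (by norm_num)
        _ = 1 := one_mul 1
    have e2 := shift_sum hprod (a := X + s) (a' := X) (b := 2 * X + s) (b' := 2 * X)
      (K := |(d : ℝ)| * |(Q : ℝ)| * H * 3 ^ m) (by rw [add_sub_cancel_left]; exact hsabs)
      (by rw [add_sub_cancel_left]; exact hsabs) m isCoprime_one_left b
    have e3 : |(d : ℝ)| * |(Q : ℝ)| * H * 3 ^ m / 3 ^ m = |(d : ℝ)| * |(Q : ℝ)| * H := by field_simp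
    rw [e3, ← e1] at e2
    have e4 : |∑ x ∈ S, φ (x + s) * f (x + s) - ∑ x ∈ S, φ (x + s) * f x|
        ≤ 2 * (η / 4 * (X / 3 ^ m + 2 ^ k₀)) := by
      rw [← sum_sub_distrib]
      refine (abs_sum_le_sum_abs _ _).trans ?_
      calc ∑ x ∈ S, |φ (x + s) * f (x + s) - φ (x + s) * f x|
          ≤ ∑ x ∈ S, (if f (x + s) ≠ f x then (2 : ℝ) else 0) := by
            apply sum_le_sum
            intro x _
            split_ifs with h
            · rw [← mul_sub, abs_mul]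
              have a1 := hφ (x + s)
              have a2 : |f (x + s) - f x| ≤ 2 := by
                have a3 := hf (x + s)
                have a4 := hf x
                calc |f (x + s) - f x| ≤ |f (x + s)| + |f x| := abs_sub _ _
                  _ ≤ 2 := by linarith
              calc |φ (x + s)| * |f (x + s) - f x| ≤ 1 * 2 :=
                    mul_le_mul a1 a2 (abs_nonneg _) (by norm_num)
                _ = 2 := one_mul 2
            · push Not at h
              rw [h]; simp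
        _ = 2 * ((S.filter (fun x => f (x + s) ≠ f x)).card : ℝ) := by
            rw [← sum_filter, sum_const, nsmul_eq_mul]; ring
        _ ≤ 2 * (η / 4 * (X / 3 ^ m + 2 ^ k₁ i)) := by
            apply mul_le_mul_of_nonneg_left _ (by norm_num)
            have := hk₁ i k₀ (hle i hi) f hcl m b hX0
            rw [hs, hS]
            exact this
        _ ≤ _ := by
            have : (2 : ℝ) ^ k₁ i ≤ 2 ^ k₀ := pow_le_pow_right₀ (by norm_num) (hle i hi)
            have hη4 : 0 < η / 4 := by positivity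
            nlinarith
    have a1 := abs_le.1 e2
    have a2 := abs_le.1 e4
    rw [abs_le]
    constructor <;> linarith [a1.1, a1.2, a2.1, a2.2]
  -- average
  have havg : |H * ∑ x ∈ S, φ x * f x - ∑ x ∈ S, (∑ i ∈ range H, φ (x + d * (3 ^ m * Q * i))) * f x|
      ≤ H * (2 * (|(d : ℝ)| * |(Q : ℝ)| * H + 1) + 2 * (η / 4 * (X / 3 ^ m + 2 ^ k₀))) := by
    have e1 : (H : ℝ) * ∑ x ∈ S, φ x * f x - ∑ x ∈ S, (∑ i ∈ range H, φ (x + d * (3 ^ m * Q * i))) * f x
        = ∑ i ∈ range H, (∑ x ∈ S, φ x * f x - ∑ x ∈ S, φ (x + d * (3 ^ m * Q * i)) * f x) := by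
      rw [sum_sub_distrib, sum_const, card_range, nsmul_eq_mul]
      congr 1
      rw [sum_comm]
      apply sum_congr rfl
      intro x _
      rw [sum_mul]
    rw [e1]
    refine (abs_sum_le_sum_abs _ _).trans ((sum_le_sum hone).trans (le_of_eq ?_))
    rw [sum_const, card_range, nsmul_eq_mul]
  have hmain : |∑ x ∈ S, (∑ i ∈ range H, φ (x + d * (3 ^ m * Q * i))) * f x| ≤ η * H * X / 3 ^ m := by
    refine (abs_sum_le_sum_abs _ _).trans (le_trans ?_ (hloc X hX1 b))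
    apply sum_le_sum
    intro x _
    rw [abs_mul]
    calc |∑ i ∈ range H, φ (x + d * (3 ^ m * Q * i))| * |f x|
        ≤ |∑ i ∈ range H, φ (x + d * (3 ^ m * Q * i))| * 1 :=
          mul_le_mul_of_nonneg_left (hf x) (abs_nonneg _)
      _ = _ := mul_one _
  have hfin : (H : ℝ) * |∑ x ∈ S, φ x * f x| ≤ H * (2 * η * X / 3 ^ m) := by
    have b1 : (H : ℝ) * |∑ x ∈ S, φ x * f x| = |H * ∑ x ∈ S, φ x * f x| := by
      rw [abs_mul, abs_of_pos hH0]
    have b2 : 2 * R * 3 ^ m ≤ X * η := by rwa [div_le_iff₀ hη] at hX2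
    have b3 : R ≤ η / 2 * (X / 3 ^ m) := by
      have : R = R * 3 ^ m / 3 ^ m := by field_simp
      rw [this, ← mul_div_assoc]
      apply div_le_div_of_nonneg_right _ h3m.le
      linarith
    have b4 : 2 * (|(d : ℝ)| * |(Q : ℝ)| * H + 1) + 2 * (η / 4 * (X / 3 ^ m + 2 ^ k₀))
        = R + η / 2 * (X / 3 ^ m) := by rw [hR]; ring
    have b5 : η * H * X / 3 ^ m = H * (η * (X / 3 ^ m)) := by ring
    have b6 : (H : ℝ) * (2 * η * X / 3 ^ m) = H * (η * (X / 3 ^ m)) + H * (η * (X / 3 ^ m)) := by ring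
    rw [b1]
    calc |H * ∑ x ∈ S, φ x * f x|
        ≤ |H * ∑ x ∈ S, φ x * f x - ∑ x ∈ S, (∑ i ∈ range H, φ (x + d * (3 ^ m * Q * i))) * f x|
          + |∑ x ∈ S, (∑ i ∈ range H, φ (x + d * (3 ^ m * Q * i))) * f x| := by
          have := abs_add_le (H * ∑ x ∈ S, φ x * f x
            - ∑ x ∈ S, (∑ i ∈ range H, φ (x + d * (3 ^ m * Q * i))) * f x)
            (∑ x ∈ S, (∑ i ∈ range H, φ (x + d * (3 ^ m * Q * i))) * f x)
          rwa [sub_add_cancel] at this
      _ ≤ H * (R + η / 2 * (X / 3 ^ m)) + H * (η * (X / 3 ^ m)) := by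
          rw [← b4, ← b5]; exact add_le_add havg hmain
      _ ≤ H * (η * (X / 3 ^ m)) + H * (η * (X / 3 ^ m)) := by
          have : R + η / 2 * (X / 3 ^ m) ≤ η * (X / 3 ^ m) := by linarith
          have := mul_le_mul_of_nonneg_left this hH0.le
          linarith
      _ = _ := b6.symm
  exact le_of_mul_le_mul_left hfin hH0

end Pool.Agent.R344.SP
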