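import Pool.Agent.R344.SP.G
import Pool.Agent.R344.SP.H

/-! Sampling principle, part I: the sampling principle and the mean value theorem. -/

set_option autoImplicit false

namespace Pool.Agent.R344.SP

open Finset
open Pool.Agent.H499R2.CO (Tz)

/-- telescoping -/
theorem tele {G : ℕ → ℝ} (hG : ∀ i, |G i| ≤ 1) (K : ℕ) : ∀ v : ℕ,
    |∑ i ∈ range K, (G i - G (i + v))| ≤ 2 * v := by
  intro v
  have h1 : ∑ i ∈ range K, (G i - G (i + v)) = ∑ i ∈ range v, (G i - G (i + K)) := by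
    have e1 := sum_range_add G K v
    have e2 := sum_range_add G v K
    rw [add_comm v K] at e2
    have e3 : ∑ i ∈ range K, G (i + v) = ∑ x ∈ range K, G (v + x) :=
      sum_congr rfl fun i _ => by rw [add_comm]
    have e4 : ∑ i ∈ range v, G (i + K) = ∑ x ∈ range v, G (K + x) :=
      sum_congr rfl fun i _ => by rw [add_comm]
    rw [sum_sub_distrib, sum_sub_distrib, e3, e4]
    linarith
  rw [h1]
  refine (abs_sum_le_sum_abs _ _).trans ?_
  calc ∑ i ∈ range v, |G i - G (i + K)| ≤ ∑ _i ∈ range v, (2 : ℝ) := by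
        apply sum_le_sum
        intro i _
        have a1 := hG i
        have a2 := hG (i + K)
        exact (abs_sub _ _).trans (by linarith)
    _ = 2 * v := by rw [sum_const, card_range, nsmul_eq_mul]; ring

/-- THE SAMPLING PRINCIPLE -/
theorem sampling {d : ℤ} (hd : d % 2 = 1) (hd3 : IsCoprime d 3) {κ : ℝ} (hκ0 : 0 < κ)
    (hκ : κ * (Real.log 2 - Real.log 3 / 2) < 1) {ε : ℝ} (hε : 0 < ε) :
    ∃ m : ℕ, ∀ (q : ℤ) (H : ℕ), d * 3 ^ m ∣ q → 1 ≤ H → ∃ N₀ : ℕ, ∀ N ≥ N₀, ∀ g : ℕ → ℤ → ℝ,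
      (∀ s x, |g s x| ≤ 1) → ∀ S : Finset ℕ,
        (∀ n ∈ S, 1 ≤ n ∧ n ≤ N ∧ ∃ t : ℕ, (t : ℝ) ≤ κ * Real.log n ∧ ε * Real.log N <
          |∑ k ∈ range t, (g k ((Tz d)^[k] n) - (∑ h ∈ range H, g k ((Tz d)^[k] n + q * h)) / H)|) →
        (S.card : ℝ) ≤ ε * N := by
  obtain ⟨ε₁, hε₁, m, hm, hcore⟩ := core hd hd3 hκ0 hκ (ε := ε / 2) (by positivity)
  refine ⟨m, fun q H hq hH => ?_⟩
  obtain ⟨Q, rfl⟩ := hq
  have hH0 : (0 : ℝ) < H := by exact_mod_cast hH
  -- the length of the local averages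
  obtain ⟨K, hK⟩ := exists_nat_ge (4 * H / ε₁ + 1)
  have hK1 : 1 ≤ K := by
    have : (1 : ℝ) ≤ K := by
      have : 0 ≤ 4 * H / ε₁ := by positivity
      linarith
    exact_mod_cast this
  have hK0 : (0 : ℝ) < K := by exact_mod_cast hK1
  obtain ⟨k₀, hk₀⟩ := orth_of_local hd (η := ε₁ / 2) (by positivity) m K hK1 Q
  obtain ⟨X₀, hX₀⟩ := hk₀ (3 ^ m)
  obtain ⟨N₀, hN₀⟩ := hcore k₀ X₀
  refine ⟨N₀, fun N hN g hg S hS => ?_⟩
  set φ : ℕ → ℤ → ℝ := fun s x => (g s x - (∑ h ∈ range H, g s (x + d * 3 ^ m * Q * h)) / H) / 2 with hφd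
  have havg : ∀ s x, |(∑ h ∈ range H, g s (x + d * 3 ^ m * Q * h)) / H| ≤ 1 := by
    intro s x
    rw [abs_div, abs_of_pos hH0, div_le_one hH0]
    refine (abs_sum_le_sum_abs _ _).trans ?_
    calc ∑ h ∈ range H, |g s (x + d * 3 ^ m * Q * h)| ≤ ∑ _h ∈ range H, (1 : ℝ) :=
          sum_le_sum fun h _ => hg _ _
      _ = H := by simp
  have hφ : ∀ s x, |φ s x| ≤ 1 := by
    intro s x
    rw [hφd]; dsimp only
    rw [abs_div, abs_two, div_le_one (by norm_num)]
    exact (abs_sub _ _).trans (by linarith [hg s x, havg s x])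
  have hpt : ∀ s x, |∑ i ∈ range K, φ s (x + d * (3 ^ m * Q * i))| ≤ H := by
    intro s x
    have e1 : ∑ i ∈ range K, φ s (x + d * (3 ^ m * Q * i))
        = (∑ h ∈ range H, ∑ i ∈ range K, (g s (x + d * (3 ^ m * Q * (i : ℕ)))
            - g s (x + d * (3 ^ m * Q * ((i + h : ℕ) : ℤ))))) / (2 * H) := by
      rw [eq_div_iff (by positivity)]
      simp only [sum_sub_distrib, sum_const, card_range, nsmul_eq_mul]
      rw [sum_mul]
      have : ∀ i ∈ range K, φ s (x + d * (3 ^ m * Q * i)) * (2 * H)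
          = H * g s (x + d * (3 ^ m * Q * (i : ℕ)))
            - ∑ h ∈ range H, g s (x + d * (3 ^ m * Q * ((i + h : ℕ) : ℤ))) := by
        intro i _
        have e2 : ∑ h ∈ range H, g s (x + d * (3 ^ m * Q * i) + d * 3 ^ m * Q * h)
            = ∑ h ∈ range H, g s (x + d * (3 ^ m * Q * ((i + h : ℕ) : ℤ))) := by
          apply sum_congr rfl
          intro h _
          congr 1
          push_cast; ring
        rw [hφd]; dsimp only
        rw [e2]
        field_simp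
      rw [sum_congr rfl this, sum_sub_distrib, ← mul_sum, sum_comm]
    rw [e1, abs_div, abs_of_pos (by positivity : (0 : ℝ) < 2 * H), div_le_iff₀ (by positivity)]
    refine (abs_sum_le_sum_abs _ _).trans ?_
    calc ∑ h ∈ range H, |∑ i ∈ range K, (g s (x + d * (3 ^ m * Q * (i : ℕ)))
            - g s (x + d * (3 ^ m * Q * ((i + h : ℕ) : ℤ))))|
        ≤ ∑ _h ∈ range H, 2 * (H : ℝ) := by
          apply sum_le_sum
          intro h hh
          have h1 := tele (G := fun i => g s (x + d * (3 ^ m * Q * (i : ℕ)))) (fun i => hg _ _) K h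
          refine h1.trans ?_
          rw [mem_range] at hh
          have : (h : ℝ) ≤ H := by exact_mod_cast hh.le
          linarith
      _ = _ := by rw [sum_const, card_range, nsmul_eq_mul]
  have hO : ∀ s, Orth d (φ s) ε₁ m k₀ X₀ := by
    intro s
    have h1 := hX₀ (φ s) (hφ s) (by
      intro X hX b
      have hX0 : 0 ≤ X := le_trans (by positivity) hX
      have h3m : (0 : ℝ) < 3 ^ m := by positivity
      calc ∑ x ∈ cl X (2 * X) m 1 b, |∑ i ∈ range K, φ s (x + d * (3 ^ m * Q * i))|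
          ≤ ∑ _x ∈ cl X (2 * X) m 1 b, (H : ℝ) := sum_le_sum fun x _ => hpt s x
        _ = ((cl X (2 * X) m 1 b).card : ℝ) * H := by rw [sum_const, nsmul_eq_mul]
        _ ≤ (2 * (X / 3 ^ m)) * H := by
            apply mul_le_mul_of_nonneg_right _ hH0.le
            have := cl_card_le (by linarith : X ≤ 2 * X) m isCoprime_one_left b
            rw [show 2 * X - X = X by ring] at this
            have h2 : 1 ≤ X / 3 ^ m := by rw [le_div_iff₀ h3m]; linarith
            linarith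
        _ ≤ ε₁ / 2 * K * X / 3 ^ m := by
            have h2 : 4 * H / ε₁ ≤ K := by linarith
            rw [div_le_iff₀ hε₁] at h2
            have h3 : 0 ≤ X / 3 ^ m := by positivity
            have h4 : ε₁ / 2 * K * X / 3 ^ m = (ε₁ * K / 2) * (X / 3 ^ m) := by ring
            rw [h4]
            nlinarith)
    rwa [show 2 * (ε₁ / 2) = ε₁ by ring] at h1
  have hfin := hN₀ N hN φ hφ hO S (by
    intro n hn
    obtain ⟨h1, h2, t, ht, hbig⟩ := hS n hn
    refine ⟨h1, h2, t, ht, ?_⟩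
    have e1 : Zs d φ 0 t n = (∑ k ∈ range t, (g k ((Tz d)^[k] n)
        - (∑ h ∈ range H, g k ((Tz d)^[k] n + d * 3 ^ m * Q * h)) / H)) / 2 := by
      unfold Zs
      rw [sum_div]
      apply sum_congr rfl
      intro k _
      rw [hφd]; dsimp only
      rw [zero_add]
    rw [e1, abs_div, abs_two]
    linarith)
  have : (0 : ℝ) ≤ N := by positivity
  nlinarith

/-- along most short progressions with a difference which is a multiple of `3^m`, the mean of `g`
is close to `ρ` -/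
def LocMean (d : ℤ) (g : ℤ → ℝ) (ρ : ℝ) : Prop :=
  ∀ m : ℕ, ∃ Q : ℤ, ∀ η : ℝ, 0 < η → ∃ H : ℕ, 1 ≤ H ∧ ∃ X₁ : ℝ, ∀ X, X₁ ≤ X →
    ∑ x ∈ Wn X, |∑ i ∈ range H, (g (x + d * (3 ^ m * Q * i)) - ρ)| ≤ η * H * X

theorem mean {d : ℤ} (hd : d % 2 = 1) (hd3 : IsCoprime d 3) {κ : ℝ} (hκ0 : 0 < κ)
    (hκ : κ * (Real.log 2 - Real.log 3 / 2) < 1) {g : ℤ → ℝ} (hg : ∀ x, |g x| ≤ 1) {ρ : ℝ}
    (hρ : |ρ| ≤ 1) (hloc : LocMean d g ρ) {ε : ℝ} (hε : 0 < ε) :
    ∃ N₀ : ℕ, ∀ N ≥ N₀, ∀ w : ℕ → ℝ, (∀ k, |w k| ≤ 1) → ∀ S : Finset ℕ,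
        (∀ n ∈ S, 1 ≤ n ∧ n ≤ N ∧ ∃ t : ℕ, (t : ℝ) ≤ κ * Real.log n ∧ ε * Real.log N <
          |∑ k ∈ range t, w k * (g ((Tz d)^[k] n) - ρ)|) → (S.card : ℝ) ≤ ε * N := by
  obtain ⟨ε₁, hε₁, m, hm, hcore⟩ := core hd hd3 hκ0 hκ (ε := ε / 2) (by positivity)
  obtain ⟨Q, hQ⟩ := hloc m
  have h3m : (0 : ℝ) < 3 ^ m := by positivity
  obtain ⟨H, hH, X₁, hX₁⟩ := hQ (ε₁ / 3 ^ m) (by positivity)
  obtain ⟨k₀, hk₀⟩ := orth_of_local hd (η := ε₁ / 2) (by positivity) m H hH Q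
  obtain ⟨X₀, hX₀⟩ := hk₀ (max X₁ 0)
  obtain ⟨N₀, hN₀⟩ := hcore k₀ X₀
  refine ⟨N₀, fun N hN w hw S hS => ?_⟩
  set φ : ℕ → ℤ → ℝ := fun s x => w s * (g x - ρ) / 2 with hφd
  have hφ : ∀ s x, |φ s x| ≤ 1 := by
    intro s x
    rw [hφd]; dsimp only
    rw [abs_div, abs_two, div_le_one (by norm_num), abs_mul]
    have h1 : |g x - ρ| ≤ 2 := (abs_sub _ _).trans (by linarith [hg x])
    calc |w s| * |g x - ρ| ≤ 1 * 2 := mul_le_mul (hw s) h1 (abs_nonneg _) (by norm_num)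
      _ = 2 := one_mul 2
  have hO : ∀ s, Orth d (φ s) ε₁ m k₀ X₀ := by
    intro s
    have h1 := hX₀ (φ s) (hφ s) (by
      intro X hX b
      have hX1 : X₁ ≤ X := le_trans (le_max_left _ _) hX
      have hX0 : 0 ≤ X := le_trans (le_max_right _ _) hX
      calc ∑ x ∈ cl X (2 * X) m 1 b, |∑ i ∈ range H, φ s (x + d * (3 ^ m * Q * i))|
          ≤ ∑ x ∈ Wn X, |∑ i ∈ range H, φ s (x + d * (3 ^ m * Q * i))| := by
            apply sum_le_sum_of_subset_of_nonneg
            · intro x hx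
              rw [mem_cl] at hx
              rw [mem_Wn]; exact hx.1
            · intro x _ _; exact abs_nonneg _
        _ ≤ ∑ x ∈ Wn X, |∑ i ∈ range H, (g (x + d * (3 ^ m * Q * i)) - ρ)| / 2 := by
            apply sum_le_sum
            intro x _
            have e1 : ∑ i ∈ range H, φ s (x + d * (3 ^ m * Q * i))
                = w s * ((∑ i ∈ range H, (g (x + d * (3 ^ m * Q * i)) - ρ)) / 2) := by
              rw [sum_div, mul_sum]
              apply sum_congr rfl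
              intro i _
              rw [hφd]; dsimp only; ring
            rw [e1, abs_mul, abs_div, abs_two]
            calc |w s| * (|∑ i ∈ range H, (g (x + d * (3 ^ m * Q * i)) - ρ)| / 2)
                ≤ 1 * (|∑ i ∈ range H, (g (x + d * (3 ^ m * Q * i)) - ρ)| / 2) :=
                  mul_le_mul_of_nonneg_right (hw s) (by positivity)
              _ = _ := one_mul _
        _ = (∑ x ∈ Wn X, |∑ i ∈ range H, (g (x + d * (3 ^ m * Q * i)) - ρ)|) / 2 := by rw [sum_div]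
        _ ≤ (ε₁ / 3 ^ m * H * X) / 2 := by
            have := hX₁ X hX1
            linarith
        _ = _ := by ring)
    rwa [show 2 * (ε₁ / 2) = ε₁ by ring] at h1
  have hfin := hN₀ N hN φ hφ hO S (by
    intro n hn
    obtain ⟨h1, h2, t, ht, hbig⟩ := hS n hn
    refine ⟨h1, h2, t, ht, ?_⟩
    have e1 : Zs d φ 0 t n = (∑ k ∈ range t, w k * (g ((Tz d)^[k] n) - ρ)) / 2 := by
      unfold Zs
      rw [sum_div]
      apply sum_congr rfl
      intro k _
      rw [hφd]; dsimp only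
      rw [zero_add]
    rw [e1, abs_div, abs_two]
    linarith)
  have : (0 : ℝ) ≤ N := by positivity
  nlinarith

end Pool.Agent.R344.SP
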