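import Pool.Agent.R344.SP.G
import Pool.Agent.R344.SP.H

/-! Sampling principle, part J: complex functions with mean zero on short progressions, with weights
which depend on the time and on the residue class. -/

set_option autoImplicit false

namespace Pool.Agent.R344.SP

open Finset
open Pool.Agent.H499R2.CO (Tz)

/-- `g` has mean zero on most short progressions, the differences being multiples of `M` and `3^m` -/
def LocC (d : ℤ) (M : ℕ) (g : ℤ → ℂ) : Prop :=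
  ∀ m : ℕ, ∃ Q : ℤ, (M : ℤ) ∣ Q ∧ ∀ η : ℝ, 0 < η → ∃ H : ℕ, 1 ≤ H ∧ ∃ X₁ : ℝ, ∀ X, X₁ ≤ X →
    ∑ x ∈ Wn X, ‖∑ i ∈ range H, g (x + d * (3 ^ m * Q * i))‖ ≤ η * H * X

theorem per_mulC {w : ℤ → ℂ} {M : ℕ} (hper : ∀ x, w (x + M) = w x) (x : ℤ) : ∀ k : ℤ, w (x + M * k) = w x := by
  have h1 : ∀ k : ℕ, ∀ x, w (x + M * k) = w x := by
    intro k
    induction k with
    | zero => intro x; simp
    | succ k ih =>
      intro x
      rw [show x + M * ((k + 1 : ℕ) : ℤ) = x + M * k + M by push_cast; ring, hper, ih]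
  intro k
  rcases le_total 0 k with h | h
  · obtain ⟨k', rfl⟩ := Int.eq_ofNat_of_zero_le h
    exact h1 k' x
  · obtain ⟨k', hk'⟩ := Int.eq_ofNat_of_zero_le (neg_nonneg.2 h)
    have := h1 k' (x + M * k)
    rw [← this, ← hk']
    congr 1; ring

theorem mean_cplx {d : ℤ} (hd : d % 2 = 1) (hd3 : IsCoprime d 3) {κ : ℝ} (hκ0 : 0 < κ)
    (hκ : κ * (Real.log 2 - Real.log 3 / 2) < 1) {g : ℤ → ℂ} (hg : ∀ x, ‖g x‖ ≤ 1) {M : ℕ}
    (hloc : LocC d M g) {ε : ℝ} (hε : 0 < ε) :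
    ∃ N₀ : ℕ, ∀ N ≥ N₀, ∀ w : ℕ → ℤ → ℂ, (∀ k x, ‖w k x‖ ≤ 1) → (∀ k x, w k (x + M) = w k x) →
      ∀ S : Finset ℕ,
        (∀ n ∈ S, 1 ≤ n ∧ n ≤ N ∧ ∃ t : ℕ, (t : ℝ) ≤ κ * Real.log n ∧ ε * Real.log N <
          ‖∑ k ∈ range t, w k ((Tz d)^[k] n) * g ((Tz d)^[k] n)‖) → (S.card : ℝ) ≤ ε * N := by
  classical
  obtain ⟨ε₁, hε₁, m, hm, hcore⟩ := core hd hd3 hκ0 hκ (ε := ε / 2) (by positivity)
  obtain ⟨Q, ⟨c, hc⟩, hQ⟩ := hloc m
  have h3m : (0 : ℝ) < 3 ^ m := by positivity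
  obtain ⟨H, hH, X₁, hX₁⟩ := hQ (ε₁ / 2 / 3 ^ m) (by positivity)
  obtain ⟨k₀, hk₀⟩ := orth_of_local hd (η := ε₁ / 2) (by positivity) m H hH Q
  obtain ⟨X₀, hX₀⟩ := hk₀ (max X₁ 0)
  obtain ⟨N₀, hN₀⟩ := hcore k₀ X₀
  refine ⟨N₀, fun N hN w hw hper S hS => ?_⟩
  -- a real part
  have key : ∀ L : ℂ →ₗ[ℝ] ℝ, (∀ z, |L z| ≤ ‖z‖) → ∀ S' : Finset ℕ,
      (∀ n ∈ S', 1 ≤ n ∧ n ≤ N ∧ ∃ t : ℕ, (t : ℝ) ≤ κ * Real.log n ∧ ε / 2 * Real.log N <
          |L (∑ k ∈ range t, w k ((Tz d)^[k] n) * g ((Tz d)^[k] n))|) → (S'.card : ℝ) ≤ ε / 2 * N := by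
    intro L hL S' hS'
    set φ : ℕ → ℤ → ℝ := fun s x => L (w s x * g x) with hφd
    have hφ : ∀ s x, |φ s x| ≤ 1 := by
      intro s x
      refine (hL _).trans ?_
      rw [norm_mul]
      calc ‖w s x‖ * ‖g x‖ ≤ 1 * 1 := mul_le_mul (hw s x) (hg x) (norm_nonneg _) (by norm_num)
        _ = 1 := one_mul 1
    have hO : ∀ s, Orth d (φ s) ε₁ m k₀ X₀ := by
      intro s
      have h1 := hX₀ (φ s) (hφ s) (by
        intro X hX b
        have hX1 : X₁ ≤ X := le_trans (le_max_left _ _) hX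
        have hX0 : 0 ≤ X := le_trans (le_max_right _ _) hX
        calc ∑ x ∈ cl X (2 * X) m 1 b, |∑ i ∈ range H, φ s (x + d * (3 ^ m * Q * i))|
            ≤ ∑ x ∈ Wn X, |∑ i ∈ range H, φ s (x + d * (3 ^ m * Q * i))| := by
              apply sum_le_sum_of_subset_of_nonneg
              · intro x hx
                rw [mem_cl] at hx
                rw [mem_Wn]; exact hx.1
              · intro x _ _; exact abs_nonneg _
          _ ≤ ∑ x ∈ Wn X, ‖∑ i ∈ range H, g (x + d * (3 ^ m * Q * i))‖ := by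
              apply sum_le_sum
              intro x _
              have e1 : ∑ i ∈ range H, φ s (x + d * (3 ^ m * Q * i))
                  = L (w s x * ∑ i ∈ range H, g (x + d * (3 ^ m * Q * i))) := by
                rw [mul_sum, map_sum]
                apply sum_congr rfl
                intro i _
                rw [hφd]; dsimp only
                rw [show x + d * (3 ^ m * Q * i) = x + M * (d * (3 ^ m * c * i)) by rw [hc]; ring,
                  per_mulC (hper s) x]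
              rw [e1]
              refine (hL _).trans ?_
              rw [norm_mul]
              calc ‖w s x‖ * _ ≤ 1 * _ := mul_le_mul_of_nonneg_right (hw s x) (norm_nonneg _)
                _ = _ := one_mul _
          _ ≤ ε₁ / 2 / 3 ^ m * H * X := hX₁ X hX1
          _ = _ := by ring)
      rwa [show 2 * (ε₁ / 2) = ε₁ by ring] at h1
    apply hN₀ N hN φ hφ hO S'
    intro n hn
    obtain ⟨h1, h2, t, ht, hbig⟩ := hS' n hn
    refine ⟨h1, h2, t, ht, hbig.trans_eq ?_⟩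
    unfold Zs
    rw [map_sum]
    simp only [zero_add]
    rfl
  set S₁ := S.filter (fun n : ℕ => ∃ t : ℕ, (t : ℝ) ≤ κ * Real.log n ∧ ε / 2 * Real.log N <
      |(∑ k ∈ range t, w k ((Tz d)^[k] n) * g ((Tz d)^[k] n)).re|) with hS₁
  set S₂ := S.filter (fun n : ℕ => ∃ t : ℕ, (t : ℝ) ≤ κ * Real.log n ∧ ε / 2 * Real.log N <
      |(∑ k ∈ range t, w k ((Tz d)^[k] n) * g ((Tz d)^[k] n)).im|) with hS₂
  have hcov : S ⊆ S₁ ∪ S₂ := by
    intro n hn
    obtain ⟨h1, h2, t, ht, hbig⟩ := hS n hn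
    rw [mem_union, hS₁, hS₂, mem_filter, mem_filter]
    by_contra hcon
    push Not at hcon
    have a1 := hcon.1 hn t ht
    have a2 := hcon.2 hn t ht
    have a3 := Complex.norm_le_abs_re_add_abs_im (∑ k ∈ range t, w k ((Tz d)^[k] n) * g ((Tz d)^[k] n))
    linarith
  have b1 : (S₁.card : ℝ) ≤ ε / 2 * N := by
    apply key Complex.reLm Complex.abs_re_le_norm
    intro n hn
    rw [hS₁, mem_filter] at hn
    obtain ⟨h1, h2, _⟩ := hS n hn.1
    exact ⟨h1, h2, hn.2⟩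
  have b2 : (S₂.card : ℝ) ≤ ε / 2 * N := by
    apply key Complex.imLm Complex.abs_im_le_norm
    intro n hn
    rw [hS₂, mem_filter] at hn
    obtain ⟨h1, h2, _⟩ := hS n hn.1
    exact ⟨h1, h2, hn.2⟩
  have b3 : (S.card : ℝ) ≤ S₁.card + S₂.card := by
    exact_mod_cast (card_le_card hcov).trans (card_union_le _ _)
  linarith

end Pool.Agent.R344.SP
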