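import Pool.Agent.R344.SP.J
import Pool.Agent.R344.SP.Q

/-! Sampling principle, part K: both signs. -/

set_option autoImplicit false

namespace Pool.Agent.R344.SP

open Finset
open Pool.Agent.H499R2.CO (Tz)

theorem Tneg {T : ℤ → ℤ} (hT : ∀ x, T x = if x % 2 = 0 then x / 2 else (3 * x + 1) / 2) (x : ℤ) :
    T (-x) = -Tz (-1) x := by
  rw [hT]
  unfold Tz
  split_ifs <;> omega

theorem iterneg {T : ℤ → ℤ} (hT : ∀ x, T x = if x % 2 = 0 then x / 2 else (3 * x + 1) / 2) (x : ℤ) :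
    ∀ k : ℕ, T^[k] (-x) = -(Tz (-1))^[k] x
  | 0 => rfl
  | k + 1 => by
    rw [Function.iterate_succ_apply', iterneg hT x k, Tneg hT, Function.iterate_succ_apply']

/-- complex functions with small short sums along the trajectories of almost all integers -/
theorem both_signs {T : ℤ → ℤ} (hT : ∀ x, T x = if x % 2 = 0 then x / 2 else (3 * x + 1) / 2)
    {κ : ℝ} (hκ : κ < 2 / Real.log (4 / 3)) {g : ℤ → ℂ} (hg : ∀ x, ‖g x‖ ≤ 1) {M : ℕ}
    (hloc : ∀ d : ℤ, (d = 1 ∨ d = -1) → LocC d M (fun x => g (d * x))) {ε : ℝ} (hε : 0 < ε) :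
    ∃ N₀ : ℕ, ∀ N ≥ N₀, ∀ w : ℕ → ℤ → ℂ, (∀ k x, ‖w k x‖ ≤ 1) → (∀ k x, w k (x + M) = w k x) →
      (Set.ncard {n : ℤ | n ≠ 0 ∧ |n| ≤ N ∧ ∃ t : ℕ, (t : ℝ) ≤ κ * Real.log |(n : ℝ)| ∧
        ε * Real.log |(n : ℝ)| < ‖∑ k ∈ Finset.range t, w k (T^[k] n) * g (T^[k] n)‖} : ℝ) ≤ ε * N := by
  obtain ⟨κ', hκ0, hκκ, hκ1⟩ := kappa_bridge hκ
  have hT1 : T = Tz 1 := by
    funext x; rw [hT]; rfl
  set α := {w : ℕ → ℤ → ℂ // (∀ k x, ‖w k x‖ ≤ 1) ∧ ∀ k x, w k (x + M) = w k x} with hα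
  have hpos : ∀ d : ℤ, (d = 1 ∨ d = -1) → ∃ N₀ : ℕ, ∀ N ≥ N₀, ∀ w : α,
      (Set.ncard {n : ℕ | 1 ≤ n ∧ n ≤ N ∧ ∃ t : ℕ, (t : ℝ) ≤ κ * Real.log n ∧ ε / 2 * Real.log n <
        ‖∑ k ∈ Finset.range t, w.1 k (d * (Tz d)^[k] n) * g (d * (Tz d)^[k] n)‖} : ℝ) ≤ ε / 2 * N := by
    intro d hd
    have hodd : d % 2 = 1 := by rcases hd with h | h <;> rw [h] <;> norm_num
    have hcop : IsCoprime d 3 := by
      rcases hd with h | h <;> rw [h]
      · exact isCoprime_one_left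
      · exact (isCoprime_one_left).neg_left
    obtain ⟨N₀, hN₀⟩ := mean_cplx hodd hcop hκ0 hκ1 (g := fun x => g (d * x)) (fun x => hg _) (hloc d hd)
      (ε := ε / 2 / 2) (by positivity)
    refine finish (α := α) hκκ (fun w n t => ‖∑ k ∈ Finset.range t,
      w.1 k (d * (Tz d)^[k] n) * g (d * (Tz d)^[k] n)‖) (by positivity)
      ⟨N₀, fun N hN w S hS => ?_⟩
    refine hN₀ N hN (fun k x => w.1 k (d * x)) (fun k x => w.2.1 _ _) (fun k x => ?_) S hS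
    rcases hd with h | h <;> subst h
    · simp only [one_mul]; exact w.2.2 k x
    · have h1 := w.2.2 k (-1 * (x + M))
      rw [← h1]
      ring_nf
  obtain ⟨N₁, hN₁⟩ := hpos 1 (Or.inl rfl)
  obtain ⟨N₂, hN₂⟩ := hpos (-1) (Or.inr rfl)
  refine ⟨max N₁ N₂, fun N hN w hw hper => ?_⟩
  have h1 := hN₁ N (le_trans (le_max_left _ _) hN) ⟨w, hw, hper⟩
  have h2 := hN₂ N (le_trans (le_max_right _ _) hN) ⟨w, hw, hper⟩
  dsimp only at h1 h2
  set B₁ : Set ℕ := {n : ℕ | 1 ≤ n ∧ n ≤ N ∧ ∃ t : ℕ, (t : ℝ) ≤ κ * Real.log n ∧ ε / 2 * Real.log n <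
        ‖∑ k ∈ Finset.range t, w k (1 * (Tz 1)^[k] n) * g (1 * (Tz 1)^[k] n)‖} with hB₁
  set B₂ : Set ℕ := {n : ℕ | 1 ≤ n ∧ n ≤ N ∧ ∃ t : ℕ, (t : ℝ) ≤ κ * Real.log n ∧ ε / 2 * Real.log n <
        ‖∑ k ∈ Finset.range t, w k (-1 * (Tz (-1))^[k] n) * g (-1 * (Tz (-1))^[k] n)‖} with hB₂
  have hf₁ : B₁.Finite := (Set.finite_Iic N).subset (fun n hn => hn.2.1)
  have hf₂ : B₂.Finite := (Set.finite_Iic N).subset (fun n hn => hn.2.1)
  have hsub : {n : ℤ | n ≠ 0 ∧ |n| ≤ N ∧ ∃ t : ℕ, (t : ℝ) ≤ κ * Real.log |(n : ℝ)| ∧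
        ε * Real.log |(n : ℝ)| < ‖∑ k ∈ Finset.range t, w k (T^[k] n) * g (T^[k] n)‖}
      ⊆ (fun n : ℕ => (n : ℤ)) '' B₁ ∪ (fun n : ℕ => -(n : ℤ)) '' B₂ := by
    rintro n ⟨hn0, hnN, t, ht, hbig⟩
    obtain ⟨m, rfl | rfl⟩ := n.eq_nat_or_neg
    · left
      have hm : 1 ≤ m := by
        rcases Nat.eq_zero_or_pos m with h | h
        · subst h; exact absurd rfl hn0
        · exact h
      have hmR : (1 : ℝ) ≤ m := by exact_mod_cast hm
      have habs : |((m : ℤ) : ℝ)| = (m : ℝ) := by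
        rw [Int.cast_natCast, abs_of_nonneg (by positivity)]
      rw [habs] at ht hbig
      refine ⟨m, ⟨hm, ?_, t, ht, ?_⟩, rfl⟩
      · rw [Nat.abs_cast] at hnN; exact_mod_cast hnN
      · have hlog : 0 ≤ Real.log m := Real.log_nonneg hmR
        refine lt_of_le_of_lt (by nlinarith) (hbig.trans_eq ?_)
        congr 1
        apply Finset.sum_congr rfl
        intro k _
        rw [one_mul, hT1]
    · right
      have hm : 1 ≤ m := by
        rcases Nat.eq_zero_or_pos m with h | h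
        · subst h; exact absurd rfl hn0
        · exact h
      have hmR : (1 : ℝ) ≤ m := by exact_mod_cast hm
      have habs : |((-(m : ℤ) : ℤ) : ℝ)| = (m : ℝ) := by
        rw [Int.cast_neg, abs_neg, Int.cast_natCast, abs_of_nonneg (by positivity)]
      rw [habs] at ht hbig
      refine ⟨m, ⟨hm, ?_, t, ht, ?_⟩, rfl⟩
      · rw [abs_neg, Nat.abs_cast] at hnN; exact_mod_cast hnN
      · have hlog : 0 ≤ Real.log m := Real.log_nonneg hmR
        refine lt_of_le_of_lt (by nlinarith) (hbig.trans_eq ?_)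
        congr 1
        apply Finset.sum_congr rfl
        intro k _
        rw [iterneg hT, neg_one_mul]
  calc (Set.ncard {n : ℤ | n ≠ 0 ∧ |n| ≤ N ∧ ∃ t : ℕ, (t : ℝ) ≤ κ * Real.log |(n : ℝ)| ∧
        ε * Real.log |(n : ℝ)| < ‖∑ k ∈ Finset.range t, w k (T^[k] n) * g (T^[k] n)‖} : ℝ)
      ≤ (((fun n : ℕ => (n : ℤ)) '' B₁ ∪ (fun n : ℕ => -(n : ℤ)) '' B₂).ncard : ℝ) := by
        exact_mod_cast Set.ncard_le_ncard hsub ((hf₁.image _).union (hf₂.image _))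
    _ ≤ (((fun n : ℕ => (n : ℤ)) '' B₁).ncard : ℝ) + (((fun n : ℕ => -(n : ℤ)) '' B₂).ncard : ℝ) := by
        exact_mod_cast Set.ncard_union_le _ _
    _ ≤ (B₁.ncard : ℝ) + (B₂.ncard : ℝ) := by
        have e1 := Set.ncard_image_le (f := fun n : ℕ => (n : ℤ)) hf₁
        have e2 := Set.ncard_image_le (f := fun n : ℕ => -(n : ℤ)) hf₂
        exact_mod_cast Nat.add_le_add e1 e2
    _ ≤ ε * N := by linarith

/-- a function of `|x|` with small sums on all progressions of natural numbers -/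
theorem locC_of_nat {d : ℤ} (hd : d = 1 ∨ d = -1) {M : ℕ} (hM : 1 ≤ M) {f : ℕ → ℂ} (hf : ∀ n, ‖f n‖ ≤ 1)
    (h : ∀ q : ℕ, 1 ≤ q → ∀ η : ℝ, 0 < η → ∃ H : ℕ, 1 ≤ H ∧ ∀ x : ℕ,
      ‖∑ i ∈ range H, f (x + q * i)‖ ≤ η * H) :
    LocC d M (fun x => f (d * x).natAbs) := by
  intro m
  refine ⟨M, dvd_rfl, fun η hη => ?_⟩
  obtain ⟨H, hH, hb⟩ := h (3 ^ m * M) (by
    have : 0 < 3 ^ m * M := by positivity
    exact this) (η / 2) (by positivity)
  refine ⟨H, hH, (3 ^ m * M * H : ℕ) + 1, fun X hX => ?_⟩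
  have hX1 : 1 ≤ X := by
    have : (0 : ℝ) ≤ ((3 ^ m * M * H : ℕ) : ℝ) := by positivity
    linarith
  have hone : ∀ x ∈ Wn X, ‖∑ i ∈ range H, (fun x => f (d * x).natAbs) (x + d * (3 ^ m * M * i))‖
      ≤ η / 2 * H := by
    intro x hx
    rw [mem_Wn] at hx
    have hx0 : 0 < x := by
      have : (0 : ℝ) < x := by linarith [hx.1]
      exact_mod_cast this
    have hxq : (3 ^ m * M * H : ℕ) ≤ x.toNat := by
      have h1 : ((3 ^ m * M * H : ℕ) : ℝ) ≤ (x : ℝ) := by linarith [hx.1]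
      have h2 : ((3 ^ m * M * H : ℕ) : ℤ) ≤ x := by exact_mod_cast h1
      omega
    dsimp only
    rcases hd with h1 | h1 <;> subst h1
    · have e1 : ∀ i ∈ range H, f (1 * (x + 1 * (3 ^ m * M * i))).natAbs = f (x.toNat + 3 ^ m * M * i) := by
        intro i _
        congr 1
        have h3 : (1 * (x + 1 * (3 ^ m * M * i))) = ((x.toNat + 3 ^ m * M * i : ℕ) : ℤ) := by
          push_cast
          rw [Int.toNat_of_nonneg hx0.le]; ring
        rw [h3, Int.natAbs_natCast]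
      rw [sum_congr rfl e1]
      exact hb _
    · rw [← sum_range_reflect]
      have hle : 3 ^ m * M * (H - 1) ≤ x.toNat :=
        (Nat.mul_le_mul_left _ (Nat.sub_le _ _)).trans hxq
      have e1 : ∀ i ∈ range H, f (-1 * (x + -1 * (3 ^ m * M * ((H - 1 - i : ℕ) : ℤ)))).natAbs
          = f ((x.toNat - 3 ^ m * M * (H - 1)) + 3 ^ m * M * i) := by
        intro i hi
        rw [mem_range] at hi
        congr 1
        have h3 : (-1 * (x + -1 * (3 ^ m * M * ((H - 1 - i : ℕ) : ℤ))))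
            = -(((x.toNat - 3 ^ m * M * (H - 1)) + 3 ^ m * M * i : ℕ) : ℤ) := by
          push_cast [Nat.cast_sub hle, Nat.cast_sub (by omega : i ≤ H - 1), Nat.cast_sub hH]
          rw [Int.toNat_of_nonneg hx0.le]; ring
        rw [h3, Int.natAbs_neg, Int.natAbs_natCast]
      rw [sum_congr rfl e1]
      exact hb _
  calc ∑ x ∈ Wn X, ‖∑ i ∈ range H, (fun x => f (d * x).natAbs) (x + d * (3 ^ m * M * i))‖
      ≤ ∑ _x ∈ Wn X, η / 2 * H := sum_le_sum hone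
    _ = ((Wn X).card : ℝ) * (η / 2 * H) := by rw [sum_const, nsmul_eq_mul]
    _ ≤ (2 * X) * (η / 2 * H) := by
        apply mul_le_mul_of_nonneg_right _ (by positivity)
        have := Wn_card (by linarith : 0 ≤ X)
        linarith
    _ = _ := by ring

end Pool.Agent.R344.SP
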