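import Pool.Agent.H426R3.CL.Lam
import Pool.Agent.R344.SP.G
import Pool.Agent.R344.SP.H
import Pool.Agent.R344.SP.Q

/-! Sampling principle, part L: the Liouville and the Moebius function. -/

set_option autoImplicit false

namespace Pool.Agent.R344.SP

open Finset Pool.Agent.H376R2.MR Pool.Agent.H970R2.X Pool.Agent.H426R3.CL
open Pool.Agent.H499R2.CO (Tz)

set_option maxHeartbeats 2000000 in
open scoped Classical in
/-- the block theorem, uniformly over the almost locally constant functions -/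
theorem block_unif {g : ℕ → ℤ} (hg : SmallAvg g) {ε : ℝ} (hε : 0 < ε) : ∃ δ₀ : ℝ, 0 < δ₀ ∧ ∀ N₀ : ℕ,
    ∃ N₁ : ℕ, ∀ N : ℕ, N₁ ≤ N → ∀ f : ℕ → ℝ, (∀ n, |f n| ≤ 1) →
    (∀ N' : ℕ, N₀ ≤ N' → (((Icc 1 N').filter (fun i => f i ≠ f (i + 1))).card : ℝ) ≤ δ₀ * N') →
    |∑ m ∈ Ioc (N / 2) N, (g m : ℝ) * f m| ≤ ε * N := by
  obtain ⟨hgb, hgs⟩ := hg
  set η : ℝ := ε / 4 with hη
  have hη0 : 0 < η := by positivity
  obtain ⟨h, hh, Y₀, hY₀⟩ := hgs ((η / 8) ^ 2) (by positivity)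
  set D : ℕ := ⌈128000 * h / η⌉₊ + 2 with hDd
  have hD2 : 2 ≤ D := by omega
  have hDr : 128000 * h / η ≤ D := by
    refine (Nat.le_ceil _).trans ?_
    rw [hDd]
    push_cast
    linarith
  have hD0 : (0 : ℝ) < D := by
    have : 0 < D := by omega
    exact_mod_cast this
  obtain ⟨δ, hδ, huc⟩ := phi_uc (ε := η / 128) (by positivity)
  refine ⟨η / (1000 * (2 * D + 1)), by positivity, fun N₀ => ?_⟩
  set T : ℝ := max (max Y₀ (2 * h)) (max (max (D / δ) D) (max N₀ (48 * (5 * D + 3) / η + 1)))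
    with hT
  refine ⟨⌈T⌉₊ + 1, fun N hN f hf hN₀ => ?_⟩
  have hNT : T ≤ N := by
    refine (Nat.le_ceil _).trans ?_
    have : ⌈T⌉₊ ≤ N := by omega
    exact_mod_cast this
  have t1 : Y₀ ≤ N := ((le_max_left _ _).trans (le_max_left _ _)).trans hNT
  have t2 : 2 * h ≤ N := ((le_max_right _ _).trans (le_max_left _ _)).trans hNT
  have t3 : D / δ ≤ N :=
    (((le_max_left _ _).trans (le_max_left _ _)).trans (le_max_right _ _)).trans hNT
  have t4 : (D : ℝ) ≤ N :=
    (((le_max_right _ _).trans (le_max_left _ _)).trans (le_max_right _ _)).trans hNT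
  have t5 : (N₀ : ℝ) ≤ N :=
    (((le_max_left _ _).trans (le_max_right _ _)).trans (le_max_right _ _)).trans hNT
  have t6 : 48 * (5 * D + 3) / η + 1 ≤ N :=
    (((le_max_right _ _).trans (le_max_right _ _)).trans (le_max_right _ _)).trans hNT
  have hN0 : (0 : ℝ) < N := by linarith
  have hNpos : 0 < N := by exact_mod_cast hN0
  have hDN : D ≤ N := by exact_mod_cast t4
  have hh0 : 0 < h := by linarith
  -- the number `K`
  set K : ℕ := ⌊(N : ℝ) / h⌋₊ with hKd
  have hK2 : (N : ℝ) / (2 * h) ≤ K := by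
    have h1 : (N : ℝ) / h < K + 1 := Nat.lt_floor_add_one _
    have h2 : 1 ≤ (N : ℝ) / (2 * h) := by
      rw [le_div_iff₀ (by positivity)]
      linarith
    have h3 : (N : ℝ) / h = 2 * ((N : ℝ) / (2 * h)) := by field_simp
    linarith
  have hK1 : 1 ≤ K := by
    have h2 : 1 ≤ (N : ℝ) / (2 * h) := by
      rw [le_div_iff₀ (by positivity)]
      linarith
    have : (1 : ℝ) ≤ K := h2.trans hK2
    exact_mod_cast this
  have hK0 : (0 : ℝ) < K := by exact_mod_cast hK1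
  -- the exceptional set
  set E : Finset ℕ := (Icc 1 (3 * N)).filter (fun m : ℕ => ∃ j : ℕ, |(j : ℝ) - m| ≤ D ∧ f j ≠ f m)
    ∪ (Icc (N / 2 - D) (N / 2 + D + 1) ∪ Icc (N - D) (N + D)) with hE
  have hEcard : (E.card : ℝ) ≤ (5 * D + 3) + η / 250 * N := by
    have h1 : E.card ≤ (D + (2 * D + 1) *
        ((Icc 1 (3 * N + D)).filter (fun i => f i ≠ f (i + 1))).card) +
        ((2 * D + 2) + (2 * D + 1)) := by
      refine (card_union_le _ _).trans (Nat.add_le_add (exc_card f (3 * N) D) ?_)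
      refine (card_union_le _ _).trans (Nat.add_le_add ?_ ?_)
      · rw [Nat.card_Icc]; omega
      · rw [Nat.card_Icc]; omega
    have h2 := hN₀ (3 * N + D) (by
      have : N₀ ≤ N := by exact_mod_cast t5
      omega)
    have h3 : (E.card : ℝ) ≤ (D + (2 * D + 1) *
        (((Icc 1 (3 * N + D)).filter (fun i => f i ≠ f (i + 1))).card : ℝ)) +
        ((2 * D + 2) + (2 * D + 1)) := by exact_mod_cast h1
    have h4 : (2 * (D : ℝ) + 1) *
        (((Icc 1 (3 * N + D)).filter (fun i => f i ≠ f (i + 1))).card : ℝ) ≤ η / 250 * N := by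
      calc (2 * (D : ℝ) + 1) *
        (((Icc 1 (3 * N + D)).filter (fun i => f i ≠ f (i + 1))).card : ℝ)
          ≤ (2 * (D : ℝ) + 1) * (η / (1000 * (2 * D + 1)) * ((3 * N + D : ℕ) : ℝ)) := by gcongr
        _ = η / 1000 * ((3 * N + D : ℕ) : ℝ) := by field_simp
        _ ≤ η / 1000 * (4 * N) := by
            gcongr
            push_cast
            linarith
        _ = η / 250 * N := by ring
    linarith
  set β : ℕ → ℝ := fun m => if m ∈ Ioc (N / 2) N then f m * phi ((m : ℝ) / N) else 0 with hβd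
  have hrange : ∀ m ∈ Ioc (N / 2) N, 1 / 2 ≤ (m : ℝ) / N ∧ (m : ℝ) / N ≤ 1 := by
    intro m hm
    rw [mem_Ioc] at hm
    constructor
    · rw [div_le_div_iff₀ (by norm_num) hN0]
      have : N ≤ m * 2 := by omega
      have h1 : (N : ℝ) ≤ m * 2 := by exact_mod_cast this
      linarith
    · rw [div_le_one hN0]
      exact_mod_cast hm.2
  have hβ1 : ∀ m, |β m| ≤ 1 := by
    intro m
    simp only [hβd]
    split_ifs with hm
    · obtain ⟨r1, r2⟩ := hrange m hm
      rw [abs_mul]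
      calc |f m| * |phi ((m : ℝ) / N)| ≤ 1 * 1 :=
            mul_le_mul (hf m) (phi_abs r1 r2) (abs_nonneg _) (by norm_num)
        _ = 1 := one_mul 1
    · simp
  have he : Real.exp 1 < 3 := by
    have := Real.exp_one_lt_d9
    linarith
  have he1 : 1 < Real.exp 1 := by
    have := Real.exp_one_gt_d9
    linarith
  have hkey := key g hgb hK1 (Y := (N : ℝ)) (lam := η / 8) (by exact_mod_cast hNpos)
    (by positivity) (hY₀ N t1) β hβ1 hD2 t4 (ε := η / 128) (by positivity) E (by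
      intro m hm hmE j hj
      rw [WN, mem_Icc] at hm
      have hm3 : m ≤ 3 * N := by
        have h1 : (m : ℝ) ≤ Real.exp 1 * N := (Nat.le_floor_iff (by positivity)).1 hm.2
        have h2 : (m : ℝ) ≤ ((3 * N : ℕ) : ℝ) := by
          push_cast
          nlinarith
        exact_mod_cast h2
      rw [hE, mem_union, mem_union, not_or, not_or, mem_filter, mem_Icc, mem_Icc, mem_Icc] at hmE
      obtain ⟨e1, e2, e3⟩ := hmE
      have hfj : f j = f m := by
        by_contra hne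
        exact e1 ⟨⟨hm.1, hm3⟩, j, hj, hne⟩
      have hj1 : j ≤ m + D := by
        have := (abs_le.1 hj).2
        have h3 : (j : ℝ) ≤ ((m + D : ℕ) : ℝ) := by push_cast; linarith
        exact_mod_cast h3
      have hj2 : m ≤ j + D := by
        have := (abs_le.1 hj).1
        have h3 : (m : ℝ) ≤ ((j + D : ℕ) : ℝ) := by push_cast; linarith
        exact_mod_cast h3
      have hiff : m ∈ Ioc (N / 2) N ↔ j ∈ Ioc (N / 2) N := by
        rw [mem_Ioc, mem_Ioc]
        omega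
      simp only [hβd]
      by_cases hm4 : m ∈ Ioc (N / 2) N
      · have hj4 := hiff.1 hm4
        rw [if_pos hm4, if_pos hj4, hfj, ← mul_sub, abs_mul]
        obtain ⟨r1, r2⟩ := hrange m hm4
        obtain ⟨r3, r4⟩ := hrange j hj4
        have h5 : |(j : ℝ) / N - (m : ℝ) / N| ≤ δ := by
          rw [← sub_div, abs_div, abs_of_pos hN0, div_le_iff₀ hN0]
          refine hj.trans ?_
          rw [div_le_iff₀ hδ] at t3
          linarith
        have h6 := huc _ _ r3 r4 r1 r2 h5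
        calc |f m| * |phi ((j : ℝ) / N) - phi ((m : ℝ) / N)|
            ≤ 1 * |phi ((j : ℝ) / N) - phi ((m : ℝ) / N)| := by gcongr; exact hf m
          _ ≤ η / 128 := by rw [one_mul]; exact h6
      · have hj4 : j ∉ Ioc (N / 2) N := fun h => hm4 (hiff.2 h)
        rw [if_neg hm4, if_neg hj4]
        simp only [sub_zero, abs_zero]
        positivity)
  -- the identity
  have hid : ∑ m ∈ WN (N : ℝ), (g m : ℝ) * bw (N : ℝ) m * β m =
      (∑ m ∈ Ioc (N / 2) N, (g m : ℝ) * f m) / (4 * N) := by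
    have hsub : Ioc (N / 2) N ⊆ WN (N : ℝ) := by
      intro m hm
      rw [mem_Ioc] at hm
      rw [WN, mem_Icc]
      refine ⟨by omega, Nat.le_floor ?_⟩
      have h1 : (m : ℝ) ≤ N := by exact_mod_cast hm.2
      nlinarith
    rw [← sum_subset hsub (f := fun m => (g m : ℝ) * bw (N : ℝ) m * β m)]
    · rw [sum_div]
      refine sum_congr rfl fun m hm => ?_
      obtain ⟨r1, r2⟩ := hrange m hm
      have hm' := hm
      rw [mem_Ioc] at hm'
      have hm0 : (0 : ℝ) < m := by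
        have : 0 < m := by omega
        exact_mod_cast this
      simp only [hβd, if_pos hm]
      have hl1 := log_half r1
      have hl2 : Real.log ((m : ℝ) / N) ≤ 0 := Real.log_nonpos (by positivity) r2
      have hlog : Real.log m - Real.log N = Real.log ((m : ℝ) / N) :=
        (Real.log_div hm0.ne' hN0.ne').symm
      unfold bw w phi
      rw [hlog, abs_of_nonpos hl2, max_eq_right (by linarith)]
      have h7 : 1 + Real.log ((m : ℝ) / N) ≠ 0 := by
        have : 0 < 1 + Real.log ((m : ℝ) / N) := by linarith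
        exact this.ne'
      have h8 : 1 - -Real.log ((m : ℝ) / N) = 1 + Real.log ((m : ℝ) / N) := by ring
      rw [h8]
      generalize 1 + Real.log ((m : ℝ) / N) = q at h7
      field_simp
    · intro m _ hm
      simp only [hβd, if_neg hm, mul_zero]
  rw [hid, abs_div, abs_of_pos (by positivity : (0 : ℝ) < 4 * N), div_le_iff₀ (by positivity)]
    at hkey
  have hb1 : 8000 * (N : ℝ) / (K * D) ≤ η / 8 := by
    rw [div_le_iff₀ (by positivity)]
    have h1 : 128000 * h ≤ D * η := by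
      rw [div_le_iff₀ hη0] at hDr
      exact hDr
    have h2 : (N : ℝ) ≤ 2 * h * K := by
      rw [div_le_iff₀ (by positivity)] at hK2
      linarith
    calc 8000 * (N : ℝ) ≤ 8000 * (2 * h * K) := by gcongr
      _ = (1 / 8) * (128000 * h) * K := by ring
      _ ≤ (1 / 8) * (D * η) * K := by gcongr
      _ = η / 8 * (K * D) := by ring
  have hb2 : 6 * (E.card : ℝ) / N ≤ η / 4 := by
    rw [div_le_iff₀ hN0]
    have h1 : 48 * (5 * (D : ℝ) + 3) ≤ η * N := by
      have h2 : 48 * (5 * (D : ℝ) + 3) / η ≤ N := by linarith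
      rw [div_le_iff₀ hη0] at h2
      linarith
    nlinarith
  have hb3 : η / 8 + 8 * (η / 128) + 8000 * (N : ℝ) / (K * D) + 6 * (E.card : ℝ) / N ≤ η := by
    linarith
  calc |∑ m ∈ Ioc (N / 2) N, (g m : ℝ) * f m|
      ≤ (η / 8 + 8 * (η / 128) + 8000 * (N : ℝ) / (K * D) + 6 * (E.card : ℝ) / N) * (4 * N) :=
        hkey
    _ ≤ η * (4 * N) := by gcongr
    _ = ε * N := by rw [hη]; ring


open scoped Classical in
theorem rare_shift {d : ℤ} (hd : d = 1 ∨ d = -1) {δ : ℝ} (hδ : 0 < δ) : ∃ k₁ N₀ : ℕ, ∀ f : ℤ → ℝ,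
    (∀ x y, (Tz d)^[k₁] x = (Tz d)^[k₁] y → f x = f y) → ∀ N : ℕ, N₀ ≤ N →
      (((Icc 1 N).filter (fun i : ℕ => f i ≠ f ((i + 1 : ℕ) : ℤ))).card : ℝ) ≤ δ * N := by
  have hodd : d % 2 = 1 := by rcases hd with h | h <;> rw [h] <;> norm_num
  have hdd : d * d = 1 := by rcases hd with h | h <;> rw [h] <;> norm_num
  obtain ⟨k₁, hk₁⟩ := shift_close hodd d (η := δ / 2) (by positivity)
  set B : ℕ := 2 ^ k₁ with hB
  set N₂ : ℕ := 4 * B + 2 with hN₂
  obtain ⟨N₀, hN₀⟩ := exists_nat_ge (4 * N₂ / δ)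
  refine ⟨k₁, N₀, fun f hf N hN => ?_⟩
  set A : ℕ → ℝ := fun N => (((Icc 1 N).filter (fun i : ℕ => f i ≠ f ((i + 1 : ℕ) : ℤ))).card : ℝ) with hA
  have hAle : ∀ N, A N ≤ N := by
    intro N
    rw [hA]; dsimp only
    have := card_filter_le (Icc 1 N) (fun i : ℕ => f i ≠ f ((i + 1 : ℕ) : ℤ))
    rw [Nat.card_Icc, Nat.add_sub_cancel] at this
    exact_mod_cast this
  have hstep : ∀ N, A N ≤ A (N / 2) + δ / 2 * ((N + 1) / 2 + B) := by
    intro N
    obtain ⟨X, hX⟩ : ∃ X : ℝ, X = ((N : ℝ) + 1) / 2 := ⟨_, rfl⟩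
    have hX0 : 0 ≤ X := by rw [hX]; positivity
    have h1 := hk₁ k₁ le_rfl f hf 0 0 hX0
    rw [pow_zero, div_one] at h1
    have h2 : (Icc 1 N).filter (fun i : ℕ => f i ≠ f ((i + 1 : ℕ) : ℤ))
        ⊆ (Icc 1 (N / 2)).filter (fun i : ℕ => f i ≠ f ((i + 1 : ℕ) : ℤ))
          ∪ ((cl X (2 * X) 0 1 0).filter (fun x => f (x + d * d) ≠ f x)).image Int.toNat := by
      intro i hi
      rw [mem_filter, mem_Icc] at hi
      rw [mem_union, mem_filter, mem_Icc, mem_image]
      by_cases h : i ≤ N / 2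
      · exact Or.inl ⟨⟨hi.1.1, h⟩, hi.2⟩
      · right
        refine ⟨(i : ℤ), ?_, Int.toNat_natCast i⟩
        rw [mem_filter, mem_cl, hdd]
        refine ⟨⟨⟨?_, ?_⟩, by simp⟩, ?_⟩
        · rw [hX, div_le_iff₀ (by norm_num)]
          have : N + 1 ≤ i * 2 := by omega
          have h3 : ((N + 1 : ℕ) : ℝ) ≤ ((i * 2 : ℕ) : ℝ) := by exact_mod_cast this
          push_cast at h3
          push_cast
          exact h3
        · have : i < N + 1 := by omega
          have h3 : (i : ℝ) < ((N + 1 : ℕ) : ℝ) := by exact_mod_cast this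
          push_cast at h3
          push_cast
          rw [hX]
          linarith
        · intro h4
          apply hi.2
          rw [← h4]
          push_cast
          rfl
    have h3 := card_le_card h2
    have h4 := card_union_le ((Icc 1 (N / 2)).filter (fun i : ℕ => f i ≠ f ((i + 1 : ℕ) : ℤ)))
      (((cl X (2 * X) 0 1 0).filter (fun x => f (x + d * d) ≠ f x)).image Int.toNat)
    have h5 := card_image_le (s := (cl X (2 * X) 0 1 0).filter (fun x => f (x + d * d) ≠ f x))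
      (f := Int.toNat)
    have h6 : A N ≤ A (N / 2) + (((cl X (2 * X) 0 1 0).filter
            (fun x => f (x + d * d) ≠ f x)).card : ℝ) := by
      rw [hA]; dsimp only
      exact_mod_cast (h3.trans h4).trans (Nat.add_le_add_left h5 _)
    have h7 : ((B : ℕ) : ℝ) = 2 ^ k₁ := by rw [hB]; push_cast; rfl
    rw [h7, ← hX]
    linarith
  have hind : ∀ N : ℕ, A N ≤ 3 / 4 * δ * N + N₂ := by
    intro N
    induction N using Nat.strong_induction_on with
    | _ N ih =>
      by_cases hN2 : N < N₂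
      · have h1 := hAle N
        have h2 : (N : ℝ) ≤ N₂ := by exact_mod_cast hN2.le
        have h3 : 0 ≤ 3 / 4 * δ * N := by positivity
        linarith
      · push Not at hN2
        have h1 := ih (N / 2) (by omega)
        have h2 := hstep N
        have h3 : ((N / 2 : ℕ) : ℝ) ≤ N / 2 := by
          have := @Nat.cast_div_le ℝ _ _ _ N 2
          simpa using this
        have h4 : (4 : ℝ) * B + 2 ≤ N := by exact_mod_cast hN2
        have h5 : ((N : ℝ) + 1) / 2 + B ≤ 3 / 4 * N := by linarith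
        have h6 : δ / 2 * (((N : ℝ) + 1) / 2 + B) ≤ δ / 2 * (3 / 4 * N) :=
          mul_le_mul_of_nonneg_left h5 (by positivity)
        have h7 : 3 / 4 * δ * ((N / 2 : ℕ) : ℝ) ≤ 3 / 4 * δ * (N / 2) :=
          mul_le_mul_of_nonneg_left h3 (by positivity)
        linarith
  have h1 := hind N
  have h2 : 4 * N₂ / δ ≤ N := hN₀.trans (by exact_mod_cast hN)
  rw [div_le_iff₀ hδ] at h2
  have h3 : A N ≤ δ * N := by linarith
  exact h3

theorem min_pos (δ : ℕ → ℝ) (hδ : ∀ a, 0 < δ a) : ∀ q : ℕ, ∃ δ' : ℝ, 0 < δ' ∧ ∀ a < q, δ' ≤ δ a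
  | 0 => ⟨1, one_pos, fun a ha => absurd ha (Nat.not_lt_zero a)⟩
  | q + 1 => by
    obtain ⟨δ', h1, h2⟩ := min_pos δ hδ q
    refine ⟨min δ' (δ q), lt_min h1 (hδ q), fun a ha => ?_⟩
    rcases Nat.lt_succ_iff_lt_or_eq.1 ha with h | h
    · exact (min_le_left _ _).trans (h2 a h)
    · rw [h]; exact min_le_right _ _

theorem per_mul {w : ℤ → ℝ} {M : ℕ} (hper : ∀ x, w (x + M) = w x) (x : ℤ) : ∀ k : ℕ, w (x + M * k) = w x
  | 0 => by simp
  | k + 1 => by
    have := hper (x + M * k)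
    rw [show x + M * ((k + 1 : ℕ) : ℤ) = x + M * k + M by push_cast; ring, this, per_mul hper x k]

theorem orth_mult {d : ℤ} (hd : d = 1 ∨ d = -1) {G : ℕ → ℤ}
    (hG : ∀ q : ℕ, 0 < q → ∀ a, SmallAvg (fun n => if n % q = a % q then G n else 0))
    (M : ℕ) (hM : 1 ≤ M) (m : ℕ) {ε : ℝ} (hε : 0 < ε) : ∃ (k₀ : ℕ) (X₀ : ℝ), ∀ w : ℤ → ℝ,
      (∀ x, |w x| ≤ 1) → (∀ x, w (x + M) = w x) → Orth d (fun x => w x * G x.natAbs) ε m k₀ X₀ := by
  classical
  set q : ℕ := M * 3 ^ m with hq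
  have hq0 : 0 < q := by positivity
  have hqR : (0 : ℝ) < q := by exact_mod_cast hq0
  have h3m : (0 : ℝ) < 3 ^ m := by positivity
  set ε₂ : ℝ := ε / (3 * q * 3 ^ m) with hε₂
  have hε₂0 : 0 < ε₂ := by positivity
  choose δ hδ hblk using fun a : ℕ => block_unif (hG q hq0 a) hε₂0
  obtain ⟨δ', hδ'0, hδ'⟩ := min_pos δ hδ q
  obtain ⟨k₁, N₀, hrare⟩ := rare_shift hd hδ'0
  choose N₁ hN₁ using fun a : ℕ => hblk a N₀
  set N₂ : ℕ := ∑ a ∈ range q, N₁ a with hN₂
  have hN₁₂ : ∀ a < q, N₁ a ≤ N₂ := fun a ha =>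
    single_le_sum (f := N₁) (fun _ _ => Nat.zero_le _) (mem_range.2 ha)
  refine ⟨k₁, N₂ + 1, fun w hw hper f hf hcl X hX b => ?_⟩
  have hX1 : 1 ≤ X := by
    have : (0 : ℝ) ≤ N₂ := by positivity
    linarith
  set N : ℕ := ⌈2 * X⌉₊ - 1 with hN
  have hc1 : 1 ≤ ⌈2 * X⌉₊ := Nat.one_le_iff_ne_zero.2 (Nat.ceil_pos.2 (by linarith)).ne'
  have hNX : (N : ℝ) ≤ 2 * X := by
    have h1 := Nat.ceil_lt_add_one (by linarith : 0 ≤ 2 * X)
    have h2 : ((N + 1 : ℕ) : ℝ) = (⌈2 * X⌉₊ : ℕ) := by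
      rw [hN, Nat.sub_add_cancel hc1]
    push_cast at h2
    linarith
  have hNN : N₂ ≤ N := by
    have h1 : 2 * X ≤ ⌈2 * X⌉₊ := Nat.le_ceil _
    have h2 : ((N₂ + 1 : ℕ) : ℝ) ≤ (⌈2 * X⌉₊ : ℕ) := by push_cast; linarith
    have h3 : N₂ + 1 ≤ ⌈2 * X⌉₊ := by exact_mod_cast h2
    omega
  set c : ℕ → ℝ := fun a => if (3 : ℤ) ^ m ∣ 1 * (a : ℤ) - b then w a else 0 with hc
  have hc1 : ∀ a, |c a| ≤ 1 := by
    intro a
    rw [hc]; dsimp only
    split_ifs
    · exact hw _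
    · simp
  have hcper : ∀ n : ℕ, c n = c (n % q) := by
    intro n
    have h1 : (n : ℤ) = ((n % q : ℕ) : ℤ) + M * ((3 ^ m * (n / q) : ℕ) : ℤ) := by
      have h2 : n = n % q + M * (3 ^ m * (n / q)) := by
        rw [← mul_assoc, ← hq]; exact (Nat.mod_add_div n q).symm
      exact_mod_cast h2
    rw [hc]; dsimp only
    have h2 : w (n : ℤ) = w ((n % q : ℕ) : ℤ) := by
      rw [h1]; exact per_mul hper _ _
    have h3 : (3 : ℤ) ^ m ∣ 1 * (n : ℤ) - b ↔ (3 : ℤ) ^ m ∣ 1 * ((n % q : ℕ) : ℤ) - b := by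
      have h4 : 1 * (n : ℤ) - b = (1 * ((n % q : ℕ) : ℤ) - b) + 3 ^ m * (M * ((n / q : ℕ) : ℤ)) := by
        have := h1
        push_cast at this ⊢
        linarith
      rw [h4]
      exact (dvd_add_left (Dvd.intro _ rfl))
    simp only [h2, h3]
  -- reduction to the natural numbers
  have e1 : ∑ x ∈ cl X (2 * X) m 1 b, (w x * G x.natAbs) * f x
      = ∑ n ∈ Ioc (N / 2) N, c n * (G n : ℝ) * f (n : ℤ) := by
    have h1 : ∑ n ∈ Ioc (N / 2) N, c n * (G n : ℝ) * f (n : ℤ)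
        = ∑ n ∈ (Ioc (N / 2) N).filter (fun n : ℕ => (3 : ℤ) ^ m ∣ 1 * (n : ℤ) - b),
          w n * (G n : ℝ) * f (n : ℤ) := by
      rw [sum_filter]
      apply sum_congr rfl
      intro n _
      rw [hc]; dsimp only
      split_ifs <;> ring
    rw [h1]
    apply sum_nbij' (fun x : ℤ => x.toNat) (fun n : ℕ => (n : ℤ))
    · intro x hx
      rw [mem_cl] at hx
      obtain ⟨⟨h2, h3⟩, h4⟩ := hx
      have h5 : 0 < x := by
        have : (0 : ℝ) < x := by linarith
        exact_mod_cast this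
      have h6 : (x.toNat : ℤ) = x := Int.toNat_of_nonneg h5.le
      rw [mem_filter, mem_Ioc, h6]
      have h7 : (x.toNat : ℝ) = (x : ℝ) := by exact_mod_cast h6
      have h8 : x.toNat < ⌈2 * X⌉₊ := Nat.lt_ceil.2 (by rw [h7]; exact h3)
      have h9 : ⌈2 * X⌉₊ ≤ 2 * x.toNat := by
        apply Nat.ceil_le.2
        push_cast; rw [h7]; linarith
      exact ⟨by omega, h4⟩
    · intro n hn
      rw [mem_filter, mem_Ioc] at hn
      rw [mem_cl]
      have h2 : n < ⌈2 * X⌉₊ := by omega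
      have h3 : ⌈2 * X⌉₊ ≤ 2 * n := by omega
      have h4 := Nat.lt_ceil.1 h2
      have h5 := Nat.ceil_le.1 h3
      push_cast at h5 ⊢
      exact ⟨⟨by linarith, by linarith⟩, hn.2⟩
    · intro x hx
      rw [mem_cl] at hx
      apply Int.toNat_of_nonneg
      have : (0 : ℝ) < x := by linarith [hx.1.1]
      have : 0 < x := by exact_mod_cast this
      exact this.le
    · intro n _; exact Int.toNat_natCast n
    · intro x hx
      rw [mem_cl] at hx
      have h5 : 0 < x := by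
        have : (0 : ℝ) < x := by linarith [hx.1.1]
        exact_mod_cast this
      have h6 : (x.toNat : ℤ) = x := Int.toNat_of_nonneg h5.le
      have h7 : x.natAbs = x.toNat := by omega
      rw [h6, h7]
  -- decomposition into classes
  have e2 : ∑ n ∈ Ioc (N / 2) N, c n * (G n : ℝ) * f (n : ℤ) = ∑ a ∈ range q, c a *
      ∑ n ∈ Ioc (N / 2) N, (((if n % q = a % q then G n else 0 : ℤ)) : ℝ) * f (n : ℤ) := by
    simp_rw [mul_sum]
    rw [sum_comm]
    apply sum_congr rfl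
    intro n _
    rw [sum_eq_single (n % q)]
    · rw [Nat.mod_mod, if_pos rfl, ← hcper]; ring
    · intro a ha hne
      rw [mem_range] at ha
      rw [Nat.mod_eq_of_lt ha, if_neg (fun h => hne h.symm)]; simp
    · intro h
      exact absurd (mem_range.2 (Nat.mod_lt n hq0)) h
  have e3 : ∀ a ∈ range q, |∑ n ∈ Ioc (N / 2) N, (((if n % q = a % q then G n else 0 : ℤ)) : ℝ) * f (n : ℤ)|
      ≤ ε₂ * N := by
    intro a ha
    rw [mem_range] at ha
    apply hN₁ a N ((hN₁₂ a ha).trans hNN) (fun n => f (n : ℤ)) (fun n => hf _)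
    intro N' hN'
    refine (hrare f hcl N' hN').trans ?_
    exact mul_le_mul_of_nonneg_right (hδ' a ha) (by positivity)
  rw [e1, e2]
  refine (abs_sum_le_sum_abs _ _).trans ?_
  calc ∑ a ∈ range q, |c a * ∑ n ∈ Ioc (N / 2) N, (((if n % q = a % q then G n else 0 : ℤ)) : ℝ) * f (n : ℤ)|
      ≤ ∑ _a ∈ range q, ε₂ * N := by
        apply sum_le_sum
        intro a ha
        rw [abs_mul]
        calc |c a| * _ ≤ 1 * (ε₂ * N) := mul_le_mul (hc1 a) (e3 a ha) (abs_nonneg _) (by norm_num)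
          _ = _ := one_mul _
    _ = q * (ε₂ * N) := by rw [sum_const, card_range, nsmul_eq_mul]
    _ ≤ q * (ε₂ * (2 * X)) := by
        apply mul_le_mul_of_nonneg_left _ hqR.le
        exact mul_le_mul_of_nonneg_left hNX hε₂0.le
    _ = 2 / 3 * (ε * X / 3 ^ m) := by rw [hε₂]; field_simp
    _ ≤ ε * X / 3 ^ m := by
        have : 0 ≤ ε * X / 3 ^ m := by positivity
        linarith

/-- MULTIPLICATIVE FUNCTIONS ALONG TRAJECTORIES -/
theorem mult_core {d : ℤ} (hd : d = 1 ∨ d = -1) {κ : ℝ} (hκ0 : 0 < κ)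
    (hκ : κ * (Real.log 2 - Real.log 3 / 2) < 1) {G : ℕ → ℤ} (hGb : ∀ n, |G n| ≤ 1)
    (hG : ∀ q : ℕ, 0 < q → ∀ a, SmallAvg (fun n => if n % q = a % q then G n else 0))
    (M : ℕ) (hM : 1 ≤ M) {ε : ℝ} (hε : 0 < ε) :
    ∃ N₀ : ℕ, ∀ N ≥ N₀, ∀ w : ℕ → ℤ → ℝ, (∀ k x, |w k x| ≤ 1) → (∀ k x, w k (x + M) = w k x) →
      ∀ S : Finset ℕ,
        (∀ n ∈ S, 1 ≤ n ∧ n ≤ N ∧ ∃ t : ℕ, (t : ℝ) ≤ κ * Real.log n ∧ ε * Real.log N <
          |∑ k ∈ range t, w k ((Tz d)^[k] n) * G ((Tz d)^[k] n).natAbs|) → (S.card : ℝ) ≤ ε * N := by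
  have hodd : d % 2 = 1 := by rcases hd with h | h <;> rw [h] <;> norm_num
  have hcop : IsCoprime d 3 := by
    rcases hd with h | h <;> rw [h]
    · exact isCoprime_one_left
    · exact (isCoprime_one_left).neg_left
  obtain ⟨ε₁, hε₁, m, hm, hcore⟩ := core hodd hcop hκ0 hκ hε
  obtain ⟨k₀, X₀, hO⟩ := orth_mult hd hG M hM m hε₁
  obtain ⟨N₀, hN₀⟩ := hcore k₀ X₀
  refine ⟨N₀, fun N hN w hw hper S hS => ?_⟩
  apply hN₀ N hN (fun s x => w s x * G x.natAbs)
  · intro s x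
    rw [abs_mul]
    have h1 : |(G x.natAbs : ℝ)| ≤ 1 := by exact_mod_cast hGb x.natAbs
    calc |w s x| * |(G x.natAbs : ℝ)| ≤ 1 * 1 := mul_le_mul (hw s x) h1 (abs_nonneg _) (by norm_num)
      _ = 1 := one_mul 1
  · intro s
    exact hO (w s) (hw s) (hper s)
  · intro n hn
    obtain ⟨h1, h2, t, ht, hbig⟩ := hS n hn
    refine ⟨h1, h2, t, ht, hbig.trans_eq ?_⟩
    unfold Zs
    simp only [zero_add]

theorem lam_classes (q : ℕ) (hq : 0 < q) (a : ℕ) :
    SmallAvg (fun n => if n % q = a % q then lam n else 0) := gl_small hq a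

theorem mu_classes (q : ℕ) (hq : 0 < q) (a : ℕ) :
    SmallAvg (fun n => if n % q = a % q then ArithmeticFunction.moebius n else 0) := gm_small hq a

end Pool.Agent.R344.SP
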