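import Pool.Agent.R344.SP.G

/-! Sets of small density along trajectories. -/

set_option autoImplicit false

namespace Pool.Agent.R344.SP

open Finset
open Pool.Agent.H499R2.CO (Tz)

open scoped Classical in
/-- indicator functions -/
noncomputable def ind (𝓐 : ℕ → Set ℤ) (s : ℕ) (x : ℤ) : ℝ := if x ∈ 𝓐 s then 1 else 0

theorem ind_nonneg (𝓐 : ℕ → Set ℤ) (s : ℕ) (x : ℤ) : 0 ≤ ind 𝓐 s x := by
  unfold ind; split_ifs <;> norm_num

theorem ind_abs (𝓐 : ℕ → Set ℤ) (s : ℕ) (x : ℤ) : |ind 𝓐 s x| ≤ 1 := by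
  unfold ind; split_ifs <;> simp

theorem sum_geom_le {ρ : ℝ} (h0 : 0 < ρ) (h1 : ρ < 1) (K : ℕ) : ∑ t ∈ range K, ρ ^ t ≤ 1 / (1 - ρ) := by
  have h := Summable.sum_le_tsum (f := fun t : ℕ => ρ ^ t) (range K) (fun _ _ => by positivity)
    (summable_geometric_of_lt_one h0.le h1)
  rw [tsum_geometric_of_lt_one h0.le h1] at h
  rw [one_div]; exact h

theorem sum_two_pow_le (K : ℕ) : ∑ t ∈ range K, (2 : ℝ) ^ (t + 1) ≤ 2 * 2 ^ K := by
  induction K with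
  | zero => simp
  | succ K ih =>
    rw [sum_range_succ, pow_succ 2 K]
    linarith

/-- one stage, for sets -/
theorem one_stage_sets {d : ℤ} (hd : d % 2 = 1) (hd3 : IsCoprime d 3) {δ η : ℝ} (hδ : 0 < δ)
    (hη : 0 < η) :
    ∃ ε : ℝ, 0 < ε ∧ ∀ X₀ : ℝ, ∃ K₀ : ℕ, ∀ K ≥ K₀, ∀ 𝓐 : ℕ → Set ℤ,
      (∀ s L, X₀ ≤ L → ct (𝓐 s) L ≤ ε * L) → ∀ (s : ℕ) (A : ℝ), 4 ^ K ≤ A →
      ct {n | δ * K < |Zs d (ind 𝓐) s K n|} A ≤ η * A := by
  classical
  obtain ⟨C, hC, hDh⟩ := Dh_sum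
  set κ : ℝ := η * δ with hκ
  have hκ0 : 0 < κ := by positivity
  obtain ⟨m, hm⟩ := exists_nat_ge (8 * C / κ + 1)
  have hm1R : (1 : ℝ) ≤ m := by
    have : 0 ≤ 8 * C / κ := by positivity
    linarith
  have hm1 : 1 ≤ m := by exact_mod_cast hm1R
  have hm0 : (0 : ℝ) < m := by linarith
  obtain ⟨ρ, hρ0, hρ1, hres⟩ := restart hd hd3 (c₀ := 0) (by norm_num) m
  have h1ρ : 0 < 1 - ρ := by linarith
  refine ⟨κ / (8 * 3 ^ m), by positivity, fun X₀ => ?_⟩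
  set R : ℝ := 2 * (2 * m + 2) + 2 * (1 / (1 - ρ)) + (2 * |(d : ℝ)| + 3) * 2 with hR
  have hR0 : 0 < R := by rw [hR]; positivity
  obtain ⟨K₁, hK₁⟩ := exists_nat_ge (4 * R / κ + 1)
  obtain ⟨K₂, hK₂⟩ : ∃ K₂ : ℕ, ∀ K ≥ K₂, X₀ ≤ 2 ^ K := by
    have h := tendsto_pow_atTop_atTop_of_one_lt (show (1 : ℝ) < 2 by norm_num)
    exact Filter.eventually_atTop.1 (h.eventually_ge_atTop X₀)
  refine ⟨max K₁ K₂, fun K hK 𝓐 h𝓐 s A hA => ?_⟩
  have hK1 : K₁ ≤ K := le_trans (le_max_left _ _) hK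
  have hK2 : K₂ ≤ K := le_trans (le_max_right _ _) hK
  have hKR : 4 * R / κ + 1 ≤ K := hK₁.trans (by exact_mod_cast hK1)
  have hKR1 : (1 : ℝ) ≤ K := by
    have : 0 ≤ 4 * R / κ := by positivity
    linarith
  have hK0 : (0 : ℝ) < K := by linarith
  have hA0 : 0 < A := lt_of_lt_of_le (by positivity) hA
  have hterm : ∀ t ∈ range K, ct {n | (Tz d)^[t] n ∈ 𝓐 (s + t)} A
      ≤ (κ / 4 + 2 * Dh m t + 2 * ρ ^ t) * A + (2 * |(d : ℝ)| + 3) * 2 ^ (t + 1) := by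
    intro t ht
    rw [mem_range] at ht
    have h2t : (2 : ℝ) ^ t ≤ 2 ^ K := pow_le_pow_right₀ (by norm_num) ht.le
    have h4K : (4 : ℝ) ^ K = 2 ^ K * 2 ^ K := by rw [← mul_pow]; norm_num
    have h1K : (1 : ℝ) ≤ 2 ^ K := one_le_pow₀ (by norm_num)
    have h := hres t A (κ / (8 * 3 ^ m)) (max X₀ 1) (by nlinarith) (by positivity) (by
      intro j _
      apply max_le
      · refine (hK₂ K hK2).trans ?_
        rw [le_div_iff₀ (by positivity)]
        have h3j : (1 : ℝ) ≤ 3 ^ j := one_le_pow₀ (by norm_num)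
        calc (2 : ℝ) ^ K * 2 ^ t ≤ 2 ^ K * 2 ^ K := mul_le_mul_of_nonneg_left h2t (by positivity)
          _ = 4 ^ K := h4K.symm
          _ ≤ A := hA
          _ ≤ A * 3 ^ j := le_mul_of_one_le_right hA0.le h3j
      · rw [le_div_iff₀ (by positivity), one_mul]
        have h3j : (1 : ℝ) ≤ 3 ^ j := one_le_pow₀ (by norm_num)
        calc (2 : ℝ) ^ t ≤ 2 ^ K := h2t
          _ ≤ 2 ^ K * 2 ^ K := le_mul_of_one_le_right (by positivity) h1K
          _ = 4 ^ K := h4K.symm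
          _ ≤ A := hA
          _ ≤ A * 3 ^ j := le_mul_of_one_le_right hA0.le h3j) (𝓐 (s + t)) (fun L hL =>
        h𝓐 (s + t) L ((le_max_left _ _).trans hL))
    refine h.trans (le_of_eq ?_)
    have : 2 * 3 ^ m * (κ / (8 * 3 ^ m)) = κ / 4 := by field_simp; norm_num
    rw [this]
  -- the first moment
  have hmom : ∑ n ∈ Wn A, Zs d (ind 𝓐) s K n = ∑ t ∈ range K, ct {n | (Tz d)^[t] n ∈ 𝓐 (s + t)} A := by
    unfold Zs
    rw [sum_comm]
    apply sum_congr rfl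
    intro t _
    rw [ct_eq_sum]
    apply sum_congr rfl
    intro n _
    unfold ind
    simp only [Set.mem_ofPred_eq]
  have hnn : ∀ n, 0 ≤ Zs d (ind 𝓐) s K n := fun n => sum_nonneg fun t _ => ind_nonneg _ _ _
  have hmk : ct {n | δ * K < |Zs d (ind 𝓐) s K n|} A * (δ * K) ≤ ∑ n ∈ Wn A, Zs d (ind 𝓐) s K n := by
    rw [ct_eq_sum, sum_mul]
    apply sum_le_sum
    intro n _
    split_ifs with hn
    · rw [one_mul]
      have : δ * K < |Zs d (ind 𝓐) s K n| := hn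
      rw [abs_of_nonneg (hnn n)] at this
      exact this.le
    · rw [zero_mul]; exact hnn n
  have hsum : ∑ t ∈ range K, ct {n | (Tz d)^[t] n ∈ 𝓐 (s + t)} A
      ≤ (κ / 4 * K + 2 * (C * K / m + 2 * m + 2) + 2 * (1 / (1 - ρ)) + (2 * |(d : ℝ)| + 3) * 2) * A := by
    refine (sum_le_sum hterm).trans ?_
    rw [sum_add_distrib, ← sum_mul, ← mul_sum, sum_add_distrib, sum_add_distrib, sum_const, card_range,
      nsmul_eq_mul, ← mul_sum, ← mul_sum]
    have a1 : ∑ t ∈ range K, Dh m t ≤ C * K / m + 2 * m + 2 := by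
      refine le_trans ?_ (hDh m K hm1)
      apply sum_le_sum_of_subset_of_nonneg
      · intro t ht; rw [mem_range] at ht ⊢; omega
      · intro t _ _; exact Dh_nonneg m t
    have a2 := sum_geom_le hρ0 hρ1 K
    have a3 := sum_two_pow_le K
    have a4 : (2 : ℝ) ^ K ≤ A := by
      have h1K : (1 : ℝ) ≤ 2 ^ K := one_le_pow₀ (by norm_num)
      calc (2 : ℝ) ^ K ≤ 2 ^ K * 2 ^ K := le_mul_of_one_le_right (by positivity) h1K
        _ = 4 ^ K := by rw [← mul_pow]; norm_num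
        _ ≤ A := hA
    have a5 : (2 * |(d : ℝ)| + 3) * ∑ t ∈ range K, (2 : ℝ) ^ (t + 1) ≤ (2 * |(d : ℝ)| + 3) * 2 * A := by
      calc (2 * |(d : ℝ)| + 3) * ∑ t ∈ range K, (2 : ℝ) ^ (t + 1)
          ≤ (2 * |(d : ℝ)| + 3) * (2 * 2 ^ K) := mul_le_mul_of_nonneg_left a3 (by positivity)
        _ ≤ (2 * |(d : ℝ)| + 3) * (2 * A) := by
            apply mul_le_mul_of_nonneg_left _ (by positivity); linarith
        _ = _ := by ring
    have a6 : (K * (κ / 4) + 2 * ∑ t ∈ range K, Dh m t + 2 * ∑ t ∈ range K, ρ ^ t) * A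
        ≤ (K * (κ / 4) + 2 * (C * K / m + 2 * m + 2) + 2 * (1 / (1 - ρ))) * A := by
      apply mul_le_mul_of_nonneg_right _ hA0.le
      linarith
    linarith
  have hfin : κ / 4 * K + 2 * (C * K / m + 2 * m + 2) + 2 * (1 / (1 - ρ)) + (2 * |(d : ℝ)| + 3) * 2
      ≤ κ * K := by
    have b1 : C / m ≤ κ / 8 := by
      rw [div_le_iff₀ hm0]
      have : 8 * C / κ ≤ m := by linarith
      rw [div_le_iff₀ hκ0] at this
      linarith
    have b2 : C * K / m ≤ κ / 8 * K := by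
      rw [show C * (K : ℝ) / m = C / m * K by ring]
      exact mul_le_mul_of_nonneg_right b1 hK0.le
    have b3 : R ≤ κ / 4 * K := by
      have : 4 * R / κ ≤ K := by linarith
      rw [div_le_iff₀ hκ0] at this
      linarith
    rw [hR] at b3
    nlinarith
  have : ct {n | δ * K < |Zs d (ind 𝓐) s K n|} A * (δ * K) ≤ (η * A) * (δ * K) := by
    refine hmk.trans ?_
    rw [hmom]
    refine hsum.trans ?_
    calc _ ≤ (κ * K) * A := mul_le_mul_of_nonneg_right hfin hA0.le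
      _ = _ := by rw [hκ]; ring
  exact le_of_mul_le_mul_right this (by positivity)

/-- visits to sets of small density -/
theorem core_sets {d : ℤ} (hd : d % 2 = 1) (hd3 : IsCoprime d 3) {κ : ℝ} (hκ0 : 0 < κ)
    (hκ : κ * (Real.log 2 - Real.log 3 / 2) < 1) {ε : ℝ} (hε : 0 < ε) :
    ∃ ε₁ : ℝ, 0 < ε₁ ∧ ∀ X₀ : ℝ, ∃ N₀ : ℕ, ∀ N ≥ N₀, ∀ 𝓐 : ℕ → Set ℤ,
      (∀ s L, X₀ ≤ L → ct (𝓐 s) L ≤ ε₁ * L) → ∀ S : Finset ℕ,
        (∀ n ∈ S, 1 ≤ n ∧ n ≤ N ∧ ∃ t : ℕ, (t : ℝ) ≤ κ * Real.log n ∧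
          ε * Real.log N < |Zs d (ind 𝓐) 0 t n|) → (S.card : ℝ) ≤ ε * N := by
  have hl2 : 0 < Real.log 2 := Real.log_pos (by norm_num)
  have hl3 : 0 < Real.log 3 := Real.log_pos (by norm_num)
  have hl4 : 0 < Real.log 4 := Real.log_pos (by norm_num)
  have hb0 : 0 < Real.log 2 - Real.log 3 / 2 := by
    have : Real.log 3 < 2 * Real.log 2 := by
      have h := Real.log_lt_log (by norm_num) (by norm_num : (3 : ℝ) < 2 ^ 2)
      rw [Real.log_pow] at h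
      push_cast at h
      exact h
    linarith
  obtain ⟨β, hβ, hκβ⟩ : ∃ β : ℝ, Real.log 2 - Real.log 3 / 2 < β ∧ κ * β < 1 := by
    refine ⟨((Real.log 2 - Real.log 3 / 2) + 1 / κ) / 2, ?_, ?_⟩
    · have : Real.log 2 - Real.log 3 / 2 < 1 / κ := by rw [lt_div_iff₀ hκ0]; linarith
      linarith
    · have : κ * (((Real.log 2 - Real.log 3 / 2) + 1 / κ) / 2)
          = (κ * (Real.log 2 - Real.log 3 / 2) + 1) / 2 := by field_simp
      rw [this]; linarith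
  have hβ0 : 0 < β := hb0.trans hβ
  obtain ⟨r, hr⟩ := exists_nat_ge (κ * Real.log 4 / (1 - κ * β) + 4 / (ε * β) + 1)
  have h1κβ : 0 < 1 - κ * β := by linarith
  have p1 : 0 ≤ κ * Real.log 4 / (1 - κ * β) := by positivity
  have p2 : 0 ≤ 4 / (ε * β) := by positivity
  have hr1 : (1 : ℝ) ≤ r := by linarith
  have hrκ : κ * Real.log 4 + κ * (r * β) < r + 1 := by
    have : κ * Real.log 4 / (1 - κ * β) ≤ r := by linarith
    rw [div_le_iff₀ h1κβ] at this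
    nlinarith
  have hrε : 4 ≤ r * (ε * β) := by
    have : 4 / (ε * β) ≤ r := by linarith
    rwa [div_le_iff₀ (by positivity)] at this
  set σ₁ : ℝ := κ / (r + 1) with hσ₁
  have hσ₁0 : 0 < σ₁ := by rw [hσ₁]; positivity
  have hσ : σ₁ * (Real.log 4 + r * β) < 1 := by
    rw [hσ₁, div_mul_eq_mul_div, div_lt_one (by positivity)]
    linarith
  obtain ⟨ε₂, hε₂, hsch⟩ := schedule hd hd3 hβ r hσ₁0 hσ hε
  set δ : ℝ := ε * β / 4 with hδ
  obtain ⟨ε₁, hε₁, hone⟩ := one_stage_sets hd hd3 (δ := δ) (η := ε₂) (by positivity) hε₂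
  refine ⟨ε₁, hε₁, fun X₀ => ?_⟩
  obtain ⟨K₀, hK₀⟩ := hone X₀
  obtain ⟨N₀, hN₀⟩ := hsch K₀
  refine ⟨N₀, fun N hN 𝓐 h𝓐 S hS => ?_⟩
  obtain ⟨T, hTK, hT1, hTσ, hTG, hT⟩ := hN₀ N hN
  apply hT (fun i => {n | δ * T < |Zs d (ind 𝓐) (i * T) T n|})
    (fun i L hL => hK₀ T hTK 𝓐 h𝓐 (i * T) L hL) S
  intro n hn
  obtain ⟨h1, h2, t, ht, hbig⟩ := hS n hn
  refine ⟨h1, h2, ?_⟩
  by_contra hcon
  push Not at hcon
  have hn0 : (0 : ℝ) < n := by exact_mod_cast h1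
  have hlogn : Real.log n ≤ Real.log N := Real.log_le_log hn0 (by exact_mod_cast h2)
  have htT : t ≤ (r + 1) * T := by
    have h3 : (t : ℝ) ≤ (r + 1) * T := by
      calc (t : ℝ) ≤ κ * Real.log n := ht
        _ ≤ κ * Real.log N := mul_le_mul_of_nonneg_left hlogn hκ0.le
        _ = (r + 1) * (σ₁ * Real.log N) := by rw [hσ₁]; field_simp
        _ ≤ (r + 1) * T := mul_le_mul_of_nonneg_left hTσ (by positivity)
    exact_mod_cast h3
  have hTpos : (0 : ℝ) < T := by exact_mod_cast hT1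
  have h4 := Zs_all d (φ := ind 𝓐) (ind_abs 𝓐) hT1 (n := (n : ℤ)) (c := δ * T) (by positivity) htT (by
    intro i hi
    have := hcon i hi
    exact not_lt.1 this)
  have h5 : T * (r * β) ≤ Real.log N := by
    have : 0 ≤ T * Real.log 4 := by positivity
    nlinarith
  have h6 : (r + 1) * (δ * T) + T ≤ ε * Real.log N := by
    have a1 : (r + 1) * (δ * T) ≤ 2 * r * (δ * T) :=
      mul_le_mul_of_nonneg_right (by linarith) (by positivity)
    have a2 : 2 * r * (δ * T) = ε / 2 * (T * (r * β)) := by rw [hδ]; ring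
    have a3 : (4 : ℝ) * T ≤ ε * (T * (r * β)) := by nlinarith
    have a4 : ε * (T * (r * β)) ≤ ε * Real.log N := mul_le_mul_of_nonneg_left h5 hε.le
    linarith
  linarith

end Pool.Agent.R344.SP
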