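import Pool.Agent.R344.SP.I
import Pool.Agent.R344.SP.K
import Pool.Agent.R344.SP.S

/-! Mean values along trajectories, part A: exceptional sets of integers of both signs, the sampling
principle and sets of small density for both signs. -/

set_option autoImplicit false

namespace Pool.Agent.R344.SP

open Finset
open Pool.Agent.H499R2.CO (Tz)

/-- few exceptions, uniformly in a parameter -/
def Few {α : Type} (c : ℝ) (B : α → ℤ → Prop) : Prop :=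
  ∃ N₀ : ℕ, ∀ N ≥ N₀, ∀ w : α, (Set.ncard {n : ℤ | n ≠ 0 ∧ |n| ≤ N ∧ B w n} : ℝ) ≤ c * N

theorem fin_box (N : ℕ) (P : ℤ → Prop) : {n : ℤ | n ≠ 0 ∧ |n| ≤ N ∧ P n}.Finite := by
  apply (Set.finite_Icc (-(N : ℤ)) N).subset
  rintro n ⟨_, h, _⟩
  rw [abs_le] at h
  exact h

theorem Few.union {α β γ : Type} {c c' : ℝ} {B : α → ℤ → Prop} {B' : β → ℤ → Prop} {B'' : γ → ℤ → Prop}
    (h : Few c B) (h' : Few c' B') (f : γ → α) (g : γ → β)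
    (hs : ∀ w n, n ≠ 0 → B'' w n → B (f w) n ∨ B' (g w) n) : Few (c + c') B'' := by
  obtain ⟨N₁, h1⟩ := h
  obtain ⟨N₂, h2⟩ := h'
  refine ⟨max N₁ N₂, fun N hN w => ?_⟩
  have e1 := h1 N (le_trans (le_max_left _ _) hN) (f w)
  have e2 := h2 N (le_trans (le_max_right _ _) hN) (g w)
  have hsub : {n : ℤ | n ≠ 0 ∧ |n| ≤ N ∧ B'' w n} ⊆ {n : ℤ | n ≠ 0 ∧ |n| ≤ N ∧ B (f w) n} ∪
      {n : ℤ | n ≠ 0 ∧ |n| ≤ N ∧ B' (g w) n} := by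
    rintro n ⟨a, b, c⟩
    rcases hs w n a c with h | h
    · exact Or.inl ⟨a, b, h⟩
    · exact Or.inr ⟨a, b, h⟩
  calc (Set.ncard {n : ℤ | n ≠ 0 ∧ |n| ≤ N ∧ B'' w n} : ℝ)
      ≤ (Set.ncard ({n : ℤ | n ≠ 0 ∧ |n| ≤ N ∧ B (f w) n} ∪ {n : ℤ | n ≠ 0 ∧ |n| ≤ N ∧ B' (g w) n}) : ℝ) := by
        exact_mod_cast Set.ncard_le_ncard hsub ((fin_box _ _).union (fin_box _ _))
    _ ≤ (Set.ncard {n : ℤ | n ≠ 0 ∧ |n| ≤ N ∧ B (f w) n} : ℝ)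
        + (Set.ncard {n : ℤ | n ≠ 0 ∧ |n| ≤ N ∧ B' (g w) n} : ℝ) := by
        exact_mod_cast Set.ncard_union_le _ _
    _ ≤ (c + c') * N := by linarith

theorem Few.mono {α β : Type} {c c' : ℝ} {B : α → ℤ → Prop} {B' : β → ℤ → Prop} (h : Few c B)
    (hc : c ≤ c') (f : β → α) (hs : ∀ w n, n ≠ 0 → B' w n → B (f w) n) : Few c' B' := by
  obtain ⟨N₁, h1⟩ := h
  refine ⟨N₁, fun N hN w => ?_⟩
  have hsub : {n : ℤ | n ≠ 0 ∧ |n| ≤ N ∧ B' w n} ⊆ {n : ℤ | n ≠ 0 ∧ |n| ≤ N ∧ B (f w) n} := by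
    rintro n ⟨a, b, c⟩
    exact ⟨a, b, hs w n a c⟩
  calc (Set.ncard {n : ℤ | n ≠ 0 ∧ |n| ≤ N ∧ B' w n} : ℝ)
      ≤ (Set.ncard {n : ℤ | n ≠ 0 ∧ |n| ≤ N ∧ B (f w) n} : ℝ) := by
        exact_mod_cast Set.ncard_le_ncard hsub (fin_box _ _)
    _ ≤ c * N := h1 N hN (f w)
    _ ≤ c' * N := mul_le_mul_of_nonneg_right hc (by positivity)

theorem few_small {α : Type} (R : ℝ) {c : ℝ} (hc : 0 < c) :
    Few c (fun (_ : α) (n : ℤ) => Real.log |(n : ℝ)| ≤ R) := by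
  obtain ⟨A, hA⟩ := exists_nat_ge (Real.exp R)
  obtain ⟨N₀, hN₀⟩ := exists_nat_ge ((2 * A + 1) / c)
  refine ⟨N₀, fun N hN w => ?_⟩
  have hsub : {n : ℤ | n ≠ 0 ∧ |n| ≤ N ∧ Real.log |(n : ℝ)| ≤ R} ⊆ ((Icc (-(A : ℤ)) A : Finset ℤ) : Set ℤ) := by
    rintro n ⟨h0, _, h⟩
    rw [coe_Icc, Set.mem_Icc, ← abs_le]
    have hn : 0 < |(n : ℝ)| := abs_pos.2 (by exact_mod_cast h0)
    have h1 : |(n : ℝ)| ≤ A := by
      rw [Real.log_le_iff_le_exp hn] at h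
      exact h.trans hA
    exact_mod_cast h1
  calc (Set.ncard {n : ℤ | n ≠ 0 ∧ |n| ≤ N ∧ Real.log |(n : ℝ)| ≤ R} : ℝ)
      ≤ (Set.ncard ((Icc (-(A : ℤ)) A : Finset ℤ) : Set ℤ) : ℝ) := by
        exact_mod_cast Set.ncard_le_ncard hsub (Finset.finite_toSet _)
    _ = 2 * A + 1 := by
        rw [Set.ncard_coe_finset, Int.card_Icc]
        have : ((A : ℤ) + 1 - -(A : ℤ)).toNat = 2 * A + 1 := by omega
        rw [this]; push_cast; ring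
    _ ≤ c * N := by
        have h1 : (2 * A + 1) / c ≤ N := hN₀.trans (by exact_mod_cast hN)
        rw [div_le_iff₀ hc] at h1
        linarith

/-- from the two signs to all integers -/
theorem few_of_signs {α : Type} {c : ℝ} {B : α → ℤ → Prop}
    (h : ∀ d : ℤ, (d = 1 ∨ d = -1) → ∃ N₀ : ℕ, ∀ N ≥ N₀, ∀ w : α,
      (Set.ncard {n : ℕ | 1 ≤ n ∧ n ≤ N ∧ B w (d * n)} : ℝ) ≤ c / 2 * N) : Few c B := by
  obtain ⟨N₁, hN₁⟩ := h 1 (Or.inl rfl)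
  obtain ⟨N₂, hN₂⟩ := h (-1) (Or.inr rfl)
  refine ⟨max N₁ N₂, fun N hN w => ?_⟩
  have h1 := hN₁ N (le_trans (le_max_left _ _) hN) w
  have h2 := hN₂ N (le_trans (le_max_right _ _) hN) w
  set B₁ : Set ℕ := {n : ℕ | 1 ≤ n ∧ n ≤ N ∧ B w (1 * n)} with hB₁
  set B₂ : Set ℕ := {n : ℕ | 1 ≤ n ∧ n ≤ N ∧ B w (-1 * n)} with hB₂
  have hf₁ : B₁.Finite := (Set.finite_Iic N).subset (fun n hn => hn.2.1)
  have hf₂ : B₂.Finite := (Set.finite_Iic N).subset (fun n hn => hn.2.1)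
  have hsub : {n : ℤ | n ≠ 0 ∧ |n| ≤ N ∧ B w n}
      ⊆ (fun n : ℕ => (n : ℤ)) '' B₁ ∪ (fun n : ℕ => -(n : ℤ)) '' B₂ := by
    rintro n ⟨hn0, hnN, hb⟩
    obtain ⟨m, rfl | rfl⟩ := n.eq_nat_or_neg
    · left
      refine ⟨m, ⟨by omega, ?_, ?_⟩, rfl⟩
      · rw [Nat.abs_cast] at hnN; exact_mod_cast hnN
      · rw [one_mul]; exact hb
    · right
      refine ⟨m, ⟨by omega, ?_, ?_⟩, rfl⟩
      · rw [abs_neg, Nat.abs_cast] at hnN; exact_mod_cast hnN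
      · rw [neg_one_mul]; exact hb
  calc (Set.ncard {n : ℤ | n ≠ 0 ∧ |n| ≤ N ∧ B w n} : ℝ)
      ≤ (((fun n : ℕ => (n : ℤ)) '' B₁ ∪ (fun n : ℕ => -(n : ℤ)) '' B₂).ncard : ℝ) := by
        exact_mod_cast Set.ncard_le_ncard hsub ((hf₁.image _).union (hf₂.image _))
    _ ≤ (((fun n : ℕ => (n : ℤ)) '' B₁).ncard : ℝ) + (((fun n : ℕ => -(n : ℤ)) '' B₂).ncard : ℝ) := by
        exact_mod_cast Set.ncard_union_le _ _
    _ ≤ (B₁.ncard : ℝ) + (B₂.ncard : ℝ) := by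
        have e1 := Set.ncard_image_le (f := fun n : ℕ => (n : ℤ)) hf₁
        have e2 := Set.ncard_image_le (f := fun n : ℕ => -(n : ℤ)) hf₂
        exact_mod_cast Nat.add_le_add e1 e2
    _ ≤ c * N := by linarith

theorem iter_d {T : ℤ → ℤ} (hT : ∀ x, T x = if x % 2 = 0 then x / 2 else (3 * x + 1) / 2) {d : ℤ}
    (hd : d = 1 ∨ d = -1) (x : ℤ) (k : ℕ) : T^[k] (d * x) = d * (Tz d)^[k] x := by
  have hT1 : T = Tz 1 := by funext x; rw [hT]; rfl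
  rcases hd with rfl | rfl
  · rw [one_mul, one_mul, hT1]
  · rw [neg_one_mul, neg_one_mul, iterneg hT]

theorem abs_d {d : ℤ} (hd : d = 1 ∨ d = -1) (n : ℕ) : |((d * n : ℤ) : ℝ)| = n := by
  rcases hd with rfl | rfl
  · rw [one_mul, Int.cast_natCast, abs_of_nonneg (by positivity)]
  · rw [neg_one_mul, Int.cast_neg, abs_neg, Int.cast_natCast, abs_of_nonneg (by positivity)]

/-- the sampling principle for integers of both signs -/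
theorem sampling_both {T : ℤ → ℤ} (hT : ∀ x, T x = if x % 2 = 0 then x / 2 else (3 * x + 1) / 2)
    {κ : ℝ} (hκ : κ < 2 / Real.log (4 / 3)) {ε : ℝ} (hε : 0 < ε) :
    ∃ m : ℕ, ∀ H : ℕ, 1 ≤ H →
      Few (α := {g : ℕ → ℤ → ℝ // ∀ s x, |g s x| ≤ 1}) ε (fun g n => ∃ t : ℕ, (t : ℝ) ≤ κ * Real.log |(n : ℝ)| ∧
        ε * Real.log |(n : ℝ)| < |∑ k ∈ range t, (g.1 k (T^[k] n)
          - (∑ h ∈ range H, g.1 k (T^[k] n + 3 ^ m * h)) / H)|) := by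
  obtain ⟨κ', hκ0, hκκ, hκ1⟩ := kappa_bridge hκ
  have hsp : ∀ d : ℤ, (d = 1 ∨ d = -1) → ∃ m : ℕ, ∀ (q : ℤ) (H : ℕ), d * 3 ^ m ∣ q → 1 ≤ H →
      ∃ N₀ : ℕ, ∀ N ≥ N₀, ∀ g : ℕ → ℤ → ℝ, (∀ s x, |g s x| ≤ 1) → ∀ S : Finset ℕ,
        (∀ n ∈ S, 1 ≤ n ∧ n ≤ N ∧ ∃ t : ℕ, (t : ℝ) ≤ κ' * Real.log n ∧ ε / 2 / 2 * Real.log N <
          |∑ k ∈ range t, (g k ((Tz d)^[k] n) - (∑ h ∈ range H, g k ((Tz d)^[k] n + q * h)) / H)|) →
        (S.card : ℝ) ≤ ε / 2 / 2 * N := by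
    intro d hd
    apply sampling _ _ hκ0 hκ1 (by positivity)
    · rcases hd with h | h <;> rw [h] <;> norm_num
    · rcases hd with h | h <;> rw [h]
      · exact isCoprime_one_left
      · exact (isCoprime_one_left).neg_left
  obtain ⟨m₁, hm₁⟩ := hsp 1 (Or.inl rfl)
  obtain ⟨m₂, hm₂⟩ := hsp (-1) (Or.inr rfl)
  refine ⟨m₁ + m₂, fun H hH => few_of_signs fun d hd => ?_⟩
  have hq : ∃ N₀ : ℕ, ∀ N ≥ N₀, ∀ g : ℕ → ℤ → ℝ, (∀ s x, |g s x| ≤ 1) → ∀ S : Finset ℕ,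
        (∀ n ∈ S, 1 ≤ n ∧ n ≤ N ∧ ∃ t : ℕ, (t : ℝ) ≤ κ' * Real.log n ∧ ε / 2 / 2 * Real.log N <
          |∑ k ∈ range t, (g k ((Tz d)^[k] n)
            - (∑ h ∈ range H, g k ((Tz d)^[k] n + (d * 3 ^ (m₁ + m₂)) * h)) / H)|) →
        (S.card : ℝ) ≤ ε / 2 / 2 * N := by
    rcases hd with rfl | rfl
    · exact hm₁ _ H ⟨3 ^ m₂, by rw [pow_add]; ring⟩ hH
    · exact hm₂ _ H ⟨3 ^ m₁, by rw [pow_add]; ring⟩ hH
  obtain ⟨N₀, hN₀⟩ := hq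
  set α := {g : ℕ → ℤ → ℝ // ∀ s x, |g s x| ≤ 1} with hα
  have hfin := finish (α := α) hκκ (fun g n t => |∑ k ∈ range t, (g.1 k (d * (Tz d)^[k] n)
      - (∑ h ∈ range H, g.1 k (d * ((Tz d)^[k] n + (d * 3 ^ (m₁ + m₂)) * h))) / H)|)
      (ε := ε / 2) (by positivity)
      ⟨N₀, fun N hN g S hS => hN₀ N hN (fun k x => g.1 k (d * x)) (fun k x => g.2 _ _) S hS⟩
  obtain ⟨N₁, hN₁⟩ := hfin
  refine ⟨N₁, fun N hN g => le_trans ?_ (hN₁ N hN g)⟩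
  have hdd : d * d = 1 := by rcases hd with rfl | rfl <;> norm_num
  have e1 : ∀ n t : ℕ, (∑ k ∈ range t, (g.1 k (T^[k] (d * n)) - (∑ h ∈ range H,
      g.1 k (T^[k] (d * n) + 3 ^ (m₁ + m₂) * h)) / H)) = ∑ k ∈ range t, (g.1 k (d * (Tz d)^[k] n)
      - (∑ h ∈ range H, g.1 k (d * ((Tz d)^[k] n + (d * 3 ^ (m₁ + m₂)) * h))) / H) := by
    intro n t
    apply sum_congr rfl
    intro k _
    rw [iter_d hT hd]
    congr 2
    apply sum_congr rfl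
    intro h _
    congr 1
    rw [mul_add, mul_assoc d, ← mul_assoc d d, hdd, one_mul]
  have hsub : {n : ℕ | 1 ≤ n ∧ n ≤ N ∧ ∃ t : ℕ, (t : ℝ) ≤ κ * Real.log |((d * n : ℤ) : ℝ)| ∧
        ε * Real.log |((d * n : ℤ) : ℝ)| < |∑ k ∈ range t, (g.1 k (T^[k] (d * n))
          - (∑ h ∈ range H, g.1 k (T^[k] (d * n) + 3 ^ (m₁ + m₂) * h)) / H)|}
      ⊆ {n : ℕ | 1 ≤ n ∧ n ≤ N ∧ ∃ t : ℕ, (t : ℝ) ≤ κ * Real.log n ∧ ε / 2 * Real.log n <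
        |∑ k ∈ range t, (g.1 k (d * (Tz d)^[k] n)
      - (∑ h ∈ range H, g.1 k (d * ((Tz d)^[k] n + (d * 3 ^ (m₁ + m₂)) * h))) / H)|} := by
    rintro n ⟨h1, h2, t, ht, hb⟩
    rw [abs_d hd] at ht hb
    rw [e1] at hb
    have hlog : 0 ≤ Real.log n := Real.log_nonneg (by exact_mod_cast h1)
    exact ⟨h1, h2, t, ht, lt_of_le_of_lt (by nlinarith) hb⟩
  exact_mod_cast Set.ncard_le_ncard hsub ((Set.finite_Iic N).subset (fun n hn => hn.2.1))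

/-- sets of small density for integers of both signs -/
theorem sets_both {T : ℤ → ℤ} (hT : ∀ x, T x = if x % 2 = 0 then x / 2 else (3 * x + 1) / 2)
    {κ : ℝ} (hκ : κ < 2 / Real.log (4 / 3)) {ε : ℝ} (hε : 0 < ε) :
    ∃ ε₁ : ℝ, 0 < ε₁ ∧ ∀ (B : Set ℤ) (X₀ : ℝ), (∀ X : ℕ, X₀ ≤ X →
        (Set.ncard {x : ℤ | |x| ≤ X ∧ x ∈ B} : ℝ) ≤ ε₁ * X) →
      Few (α := Unit) ε (fun _ n => ∃ t : ℕ, (t : ℝ) ≤ κ * Real.log |(n : ℝ)| ∧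
        ε * Real.log |(n : ℝ)| < (Set.ncard {k : ℕ | k < t ∧ T^[k] n ∈ B} : ℝ)) := by
  classical
  obtain ⟨κ', hκ0, hκκ, hκ1⟩ := kappa_bridge hκ
  have hsp : ∀ d : ℤ, (d = 1 ∨ d = -1) → ∃ ε₁ : ℝ, 0 < ε₁ ∧ ∀ X₀ : ℝ, ∃ N₀ : ℕ, ∀ N ≥ N₀, ∀ 𝓐 : ℕ → Set ℤ,
      (∀ s L, X₀ ≤ L → ct (𝓐 s) L ≤ ε₁ * L) → ∀ S : Finset ℕ,
        (∀ n ∈ S, 1 ≤ n ∧ n ≤ N ∧ ∃ t : ℕ, (t : ℝ) ≤ κ' * Real.log n ∧
          ε / 2 / 2 * Real.log N < |Zs d (ind 𝓐) 0 t n|) → (S.card : ℝ) ≤ ε / 2 / 2 * N := by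
    intro d hd
    apply core_sets _ _ hκ0 hκ1 (by positivity)
    · rcases hd with h | h <;> rw [h] <;> norm_num
    · rcases hd with h | h <;> rw [h]
      · exact isCoprime_one_left
      · exact (isCoprime_one_left).neg_left
  obtain ⟨e₁, he₁, h₁⟩ := hsp 1 (Or.inl rfl)
  obtain ⟨e₂, he₂, h₂⟩ := hsp (-1) (Or.inr rfl)
  refine ⟨min e₁ e₂ / 4, by positivity, fun B X₀ hB => few_of_signs fun d hd => ?_⟩
  -- the density in windows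
  have hct : ∀ L : ℝ, max X₀ 1 ≤ L → ct {x | d * x ∈ B} L ≤ min e₁ e₂ * L := by
    intro L hL
    have hL1 : 1 ≤ L := le_trans (le_max_right _ _) hL
    have hLX : X₀ ≤ L := le_trans (le_max_left _ _) hL
    have h1 := hB ⌈2 * L⌉₊ (by
      have := Nat.le_ceil (2 * L)
      linarith)
    have h2 : (⌈2 * L⌉₊ : ℝ) ≤ 4 * L := by
      have := Nat.ceil_lt_add_one (by linarith : 0 ≤ 2 * L)
      linarith
    have h3 : ct {x | d * x ∈ B} L ≤ (Set.ncard {x : ℤ | |x| ≤ (⌈2 * L⌉₊ : ℕ) ∧ x ∈ B} : ℝ) := by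
      unfold ct
      rw [← Set.ncard_coe_finset]
      have hf : {x : ℤ | |x| ≤ (⌈2 * L⌉₊ : ℕ) ∧ x ∈ B}.Finite := by
        apply (Set.finite_Icc (-(⌈2 * L⌉₊ : ℤ)) ⌈2 * L⌉₊).subset
        rintro n ⟨h, _⟩
        rw [abs_le] at h
        exact h
      have hle := Set.ncard_le_ncard_of_injOn (s := (((Wn L).filter (fun n => n ∈ {x | d * x ∈ B}) : Finset ℤ) : Set ℤ))
        (t := {x : ℤ | |x| ≤ (⌈2 * L⌉₊ : ℕ) ∧ x ∈ B}) (fun x => d * x) (by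
          intro x hx
          simp only [coe_filter, Set.mem_ofPred_eq] at hx ⊢
          obtain ⟨hx1, hx2⟩ := hx
          rw [mem_Wn] at hx1
          refine ⟨?_, hx2⟩
          have hx0 : 0 < x := by
            have : (0 : ℝ) < x := by linarith [hx1.1]
            exact_mod_cast this
          have h4 : (x : ℝ) ≤ (⌈2 * L⌉₊ : ℕ) := hx1.2.le.trans (Nat.le_ceil _)
          have h5 : x ≤ ((⌈2 * L⌉₊ : ℕ) : ℤ) := by exact_mod_cast h4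
          rcases hd with rfl | rfl
          · rw [one_mul, abs_of_pos hx0]; exact h5
          · rw [neg_one_mul, abs_neg, abs_of_pos hx0]; exact h5) (by
          intro x _ y _ hxy
          dsimp only at hxy
          rcases hd with rfl | rfl <;> omega) hf
      exact_mod_cast hle
    have hm0 : 0 < min e₁ e₂ := lt_min he₁ he₂
    calc ct {x | d * x ∈ B} L ≤ min e₁ e₂ / 4 * (⌈2 * L⌉₊ : ℕ) := h3.trans h1
      _ ≤ min e₁ e₂ / 4 * (4 * L) := mul_le_mul_of_nonneg_left h2 (by positivity)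
      _ = _ := by ring
  have hq : ∃ N₀ : ℕ, ∀ N ≥ N₀, ∀ S : Finset ℕ,
        (∀ n ∈ S, 1 ≤ n ∧ n ≤ N ∧ ∃ t : ℕ, (t : ℝ) ≤ κ' * Real.log n ∧
          ε / 2 / 2 * Real.log N < |Zs d (ind fun _ => {x | d * x ∈ B}) 0 t n|) → (S.card : ℝ) ≤ ε / 2 / 2 * N := by
    rcases hd with rfl | rfl
    · obtain ⟨N₀, hN₀⟩ := h₁ (max X₀ 1)
      refine ⟨N₀, fun N hN S hS => hN₀ N hN _ (fun s L hL => (hct L hL).trans ?_) S hS⟩
      exact mul_le_mul_of_nonneg_right (min_le_left _ _) (by linarith [le_max_right X₀ 1])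
    · obtain ⟨N₀, hN₀⟩ := h₂ (max X₀ 1)
      refine ⟨N₀, fun N hN S hS => hN₀ N hN _ (fun s L hL => (hct L hL).trans ?_) S hS⟩
      exact mul_le_mul_of_nonneg_right (min_le_right _ _) (by linarith [le_max_right X₀ 1])
  obtain ⟨N₀, hN₀⟩ := hq
  have hfin := finish (α := Unit) hκκ (fun _ n t => |Zs d (ind fun _ => {x | d * x ∈ B}) 0 t n|)
      (ε := ε / 2) (by positivity) ⟨N₀, fun N hN _ S hS => hN₀ N hN S hS⟩
  obtain ⟨N₁, hN₁⟩ := hfin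
  refine ⟨N₁, fun N hN g => le_trans ?_ (hN₁ N hN g)⟩
  have e1 : ∀ n t : ℕ, (Set.ncard {k : ℕ | k < t ∧ T^[k] (d * n) ∈ B} : ℝ)
      = |Zs d (ind fun _ => {x | d * x ∈ B}) 0 t n| := by
    intro n t
    rw [abs_of_nonneg (by unfold Zs; exact sum_nonneg fun k _ => ind_nonneg _ _ _)]
    unfold Zs ind
    rw [← sum_filter, sum_const, nsmul_eq_mul, mul_one]
    have : {k : ℕ | k < t ∧ T^[k] (d * n) ∈ B}
        = ((range t).filter (fun k => (Tz d)^[k] (n : ℤ) ∈ {x : ℤ | d * x ∈ B}) : Finset ℕ) := by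
      ext k
      simp only [Set.mem_ofPred_eq, coe_filter, mem_range]
      rw [iter_d hT hd]
    rw [this, Set.ncard_coe_finset]
  have hsub : {n : ℕ | 1 ≤ n ∧ n ≤ N ∧ ∃ t : ℕ, (t : ℝ) ≤ κ * Real.log |((d * n : ℤ) : ℝ)| ∧
        ε * Real.log |((d * n : ℤ) : ℝ)| < (Set.ncard {k : ℕ | k < t ∧ T^[k] (d * n) ∈ B} : ℝ)}
      ⊆ {n : ℕ | 1 ≤ n ∧ n ≤ N ∧ ∃ t : ℕ, (t : ℝ) ≤ κ * Real.log n ∧ ε / 2 * Real.log n <
        |Zs d (ind fun _ => {x | d * x ∈ B}) 0 t n|} := by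
    rintro n ⟨h1, h2, t, ht, hb⟩
    rw [abs_d hd] at ht hb
    rw [e1] at hb
    have hlog : 0 ≤ Real.log n := Real.log_nonneg (by exact_mod_cast h1)
    exact ⟨h1, h2, t, ht, lt_of_le_of_lt (by nlinarith) hb⟩
  exact_mod_cast Set.ncard_le_ncard hsub ((Set.finite_Iic N).subset (fun n hn => hn.2.1))

end Pool.Agent.R344.SP
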