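import Pool.Agent.R344.SP.MA

/-! Mean values along trajectories, part B: periodic functions. -/

set_option autoImplicit false

namespace Pool.Agent.R344.SP

open Finset
open Pool.Agent.H499R2.CO (Tz)

/-- weights -/
abbrev Wt : Type := {w : ℕ → ℝ // ∀ k, |w k| ≤ 1}

/-- an approximate law -/
def Ap (T : ℤ → ℤ) (g : ℤ → ℝ) (κ L c : ℝ) : Prop :=
  Few c (fun (w : Wt) n => ∃ t : ℕ, (t : ℝ) ≤ κ * Real.log |(n : ℝ)| ∧
    c * Real.log |(n : ℝ)| < |∑ k ∈ range t, w.1 k * (g (T^[k] n) - L)|)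

theorem Tshift (x z : ℤ) : Tz 1 (x + 2 * z) = Tz 1 x + 3 ^ (x % 2).toNat * z := by
  unfold Tz
  rcases Int.emod_two_eq_zero_or_one x with h | h
  · rw [if_pos h, if_pos (by omega), h]
    simp only [Int.toNat_zero, pow_zero, one_mul]
    omega
  · rw [if_neg (by omega), if_neg (by omega), h]
    simp only [Int.toNat_one, pow_one]
    omega

theorem iter_shift : ∀ (j : ℕ) (x z : ℤ),
    (Tz 1)^[j] (x + 2 ^ j * z) = (Tz 1)^[j] x + 3 ^ od 1 j x * z
  | 0, x, z => by simp [od]
  | j + 1, x, z => by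
    rw [Function.iterate_succ_apply, Function.iterate_succ_apply, od_succ']
    have h1 : x + 2 ^ (j + 1) * z = x + 2 * (2 ^ j * z) := by ring
    rw [h1, Tshift]
    have h2 : Tz 1 x + 3 ^ (x % 2).toNat * (2 ^ j * z) = Tz 1 x + 2 ^ j * (3 ^ (x % 2).toNat * z) := by ring
    rw [h2, iter_shift j, pow_add]
    ring

theorem od_shift (j : ℕ) (x z : ℤ) : od 1 j (x + 2 ^ j * z) = od 1 j x := by
  have := od_periodic (d := 1) (by norm_num) j x z
  rwa [mul_comm z] at this

/-- a periodic function on a progression with difference prime to the period -/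
theorem cover_sum {F : ℤ → ℝ} {H : ℕ} (hH : 1 ≤ H) (hF : ∀ x z, F (x + H * z) = F x) {q : ℤ}
    (hq : IsCoprime q (H : ℤ)) (x : ℤ) :
    ∑ i ∈ range H, F (x + q * i) = ∑ i ∈ range H, F i := by
  have hH0 : (0 : ℤ) < H := by exact_mod_cast hH
  have hmod : ∀ y : ℤ, F (y % H) = F y := by
    intro y
    have h := hF (y % H) (y / H)
    rw [Int.emod_add_mul_ediv] at h
    exact h.symm
  set φ : ℕ → ℕ := fun i => ((x + q * i) % H).toNat with hφ
  have hφR : ∀ i ∈ range H, φ i ∈ range H := by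
    intro i _
    rw [mem_range]
    have h1 := Int.emod_nonneg (x + q * i) hH0.ne'
    have h2 := Int.emod_lt_of_pos (x + q * i) hH0
    rw [hφ]; dsimp only; omega
  have hinj : Set.InjOn φ (range H : Finset ℕ) := by
    intro i hi j hj hij
    rw [mem_coe, mem_range] at hi hj
    have h1 := Int.emod_nonneg (x + q * i) hH0.ne'
    have h2 := Int.emod_nonneg (x + q * j) hH0.ne'
    have h3 : (x + q * i) % H = (x + q * j) % H := by
      rw [hφ] at hij; dsimp only at hij; omega
    have h4 : (H : ℤ) ∣ q * ((i : ℤ) - j) := by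
      have h5 : (x + q * i) ≡ (x + q * j) [ZMOD H] := h3
      have h6 := h5.symm.dvd
      have h7 : (x + q * i) - (x + q * j) = q * ((i : ℤ) - j) := by ring
      rwa [h7] at h6
    have h5 : (H : ℤ) ∣ (i : ℤ) - j := hq.symm.dvd_of_dvd_mul_left h4
    have h6 : |(i : ℤ) - j| < H := by rw [abs_lt]; constructor <;> omega
    have h7 := Int.eq_zero_of_abs_lt_dvd h5 h6
    omega
  have himg : (range H).image φ = range H := by
    apply eq_of_subset_of_card_le
    · intro y hy
      rw [mem_image] at hy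
      obtain ⟨i, hi, rfl⟩ := hy
      exact hφR i hi
    · rw [card_image_of_injOn hinj]
  calc ∑ i ∈ range H, F (x + q * i) = ∑ i ∈ range H, F ((φ i : ℕ) : ℤ) := by
        apply sum_congr rfl
        intro i _
        have h1 := Int.emod_nonneg (x + q * i) hH0.ne'
        rw [hφ]; dsimp only
        rw [Int.toNat_of_nonneg h1, hmod]
    _ = ∑ y ∈ (range H).image φ, F (y : ℤ) := by rw [sum_image hinj]
    _ = _ := by rw [himg]

/-- the mean over a period -/
noncomputable def mn (F : ℤ → ℝ) (H : ℕ) : ℝ := (∑ i ∈ range H, F i) / H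

theorem cop3 {m H : ℕ} (h : Nat.Coprime 3 H) : IsCoprime ((3 : ℤ) ^ m) (H : ℤ) := by
  apply IsCoprime.pow_left
  exact_mod_cast (Nat.isCoprime_iff_coprime.2 h)

/-- a law for functions with a period prime to three -/
theorem law_prime {T : ℤ → ℤ} (hT : ∀ x, T x = if x % 2 = 0 then x / 2 else (3 * x + 1) / 2)
    {κ : ℝ} (hκ : κ < 2 / Real.log (4 / 3)) {F : ℤ → ℝ} (hF1 : ∀ x, |F x| ≤ 1) {H : ℕ} (hH : 1 ≤ H)
    (hc3 : Nat.Coprime 3 H) (hF : ∀ x z, F (x + H * z) = F x) {c : ℝ} (hc : 0 < c) :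
    Ap T F κ (mn F H) c := by
  obtain ⟨m, hm⟩ := sampling_both hT hκ hc
  refine (hm H hH).mono le_rfl (fun w => ⟨fun k x => w.1 k * F x, fun k x => ?_⟩) ?_
  · rw [abs_mul]
    calc |w.1 k| * |F x| ≤ 1 * 1 := mul_le_mul (w.2 k) (hF1 x) (abs_nonneg _) zero_le_one
      _ = 1 := one_mul 1
  · rintro w n _ ⟨t, ht, hb⟩
    refine ⟨t, ht, hb.trans_eq ?_⟩
    congr 1
    apply sum_congr rfl
    intro k _
    dsimp only
    rw [← mul_sum, cover_sum hH hF (cop3 hc3), mn]
    ring

/-- the proportion of the residues modulo `2^j` with fewer than `a` odd terms among the first `j` -/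
noncomputable def dl (a j : ℕ) : ℝ := mn (fun y => if od 1 j y < a then 1 else 0) (2 ^ j)

/-- the function which controls `h (T^j y)` -/
noncomputable def Fj (h : ℤ → ℝ) (a j : ℕ) (y : ℤ) : ℝ := if a ≤ od 1 j y then h ((Tz 1)^[j] y) else 0

theorem Fj_per {h : ℤ → ℝ} {a j M : ℕ} (hh : ∀ x z, h (x + (3 ^ a * M : ℕ) * z) = h x) (x z : ℤ) :
    Fj h a j (x + (2 ^ j * M : ℕ) * z) = Fj h a j x := by
  unfold Fj
  have h1 : x + (2 ^ j * M : ℕ) * z = x + 2 ^ j * (M * z) := by push_cast; ring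
  rw [h1, od_shift, iter_shift]
  split_ifs with h2
  · obtain ⟨e, he⟩ := Nat.exists_eq_add_of_le h2
    rw [he, pow_add]
    have h3 : (Tz 1)^[j] x + 3 ^ a * 3 ^ e * (M * z) = (Tz 1)^[j] x + (3 ^ a * M : ℕ) * (3 ^ e * z) := by
      push_cast; ring
    rw [h3, hh]
  · rfl

theorem dl_nonneg (a j : ℕ) : 0 ≤ dl a j := by
  unfold dl mn
  apply div_nonneg _ (by positivity)
  apply sum_nonneg
  intro i _
  dsimp only
  split_ifs <;> norm_num

theorem dl_tendsto (a : ℕ) : Filter.Tendsto (dl a) Filter.atTop (nhds 0) := by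
  have hb : ∀ j, dl a j ≤ 2 ^ a * (3 / 4 : ℝ) ^ j := by
    intro j
    unfold dl mn
    have h1 := od_gen (d := 1) (by norm_num) (1 / 2) j
    rw [div_le_iff₀ (by positivity)]
    calc ∑ i ∈ range (2 ^ j), (if od 1 j (i : ℤ) < a then (1 : ℝ) else 0)
        ≤ ∑ i ∈ range (2 ^ j), 2 ^ a * (1 / 2 : ℝ) ^ od 1 j (i : ℤ) := by
          apply sum_le_sum
          intro i _
          split_ifs with h
          · have h2 : (1 / 2 : ℝ) ^ a ≤ (1 / 2 : ℝ) ^ od 1 j (i : ℤ) :=
              pow_le_pow_of_le_one (by norm_num) (by norm_num) h.le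
            calc (1 : ℝ) = 2 ^ a * (1 / 2 : ℝ) ^ a := by rw [← mul_pow]; norm_num
              _ ≤ _ := mul_le_mul_of_nonneg_left h2 (by positivity)
          · positivity
      _ = 2 ^ a * (1 + 1 / 2) ^ j := by rw [← mul_sum, h1]
      _ = 2 ^ a * (3 / 4) ^ j * ((2 ^ j : ℕ) : ℝ) := by
          push_cast
          rw [mul_assoc, ← mul_pow]; norm_num
  have h0 : ∀ j, 0 ≤ dl a j := dl_nonneg a
  have ht : Filter.Tendsto (fun j : ℕ => (2 : ℝ) ^ a * (3 / 4 : ℝ) ^ j) Filter.atTop (nhds 0) := by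
    have := (tendsto_pow_atTop_nhds_zero_of_lt_one (by norm_num : (0 : ℝ) ≤ 3 / 4) (by norm_num)).const_mul
      ((2 : ℝ) ^ a)
    rwa [mul_zero] at this
  exact squeeze_zero h0 hb ht

theorem kappa8 {κ : ℝ} (hκ : κ < 2 / Real.log (4 / 3)) : κ ≤ 8 := by
  have h0 : 1 / 4 ≤ Real.log (4 / 3) := by
    have := Real.one_sub_inv_le_log_of_pos (by norm_num : (0 : ℝ) < 4 / 3)
    norm_num at this
    linarith
  have h1 : 2 / Real.log (4 / 3) ≤ 8 := by
    rw [div_le_iff₀ (by linarith)]; linarith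
  linarith

theorem cop2 {j M : ℕ} (h : Nat.Coprime 3 M) : Nat.Coprime 3 (2 ^ j * M) := by
  apply Nat.Coprime.mul_right _ h
  apply Nat.Coprime.pow_right
  norm_num

/-- a law for periodic functions -/
theorem law_per {T : ℤ → ℤ} (hT : ∀ x, T x = if x % 2 = 0 then x / 2 else (3 * x + 1) / 2)
    {κ : ℝ} (hκ : κ < 2 / Real.log (4 / 3)) {h : ℤ → ℝ} (h1 : ∀ x, |h x| ≤ 1) {a j M : ℕ} (hM : 1 ≤ M)
    (hc3 : Nat.Coprime 3 M) (hh : ∀ x z, h (x + (3 ^ a * M : ℕ) * z) = h x) {c : ℝ} (hc : 0 < c)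
    (hj : 8 * dl a j ≤ c / 4) :
    Ap T h κ (mn (Fj h a j) (2 ^ j * M)) c := by
  have hT1 : T = Tz 1 := by funext x; rw [hT]; rfl
  set F := Fj h a j with hFd
  set L := mn F (2 ^ j * M) with hL
  have hF1 : ∀ x, |F x| ≤ 1 := by
    intro x; rw [hFd]; unfold Fj; split_ifs
    · exact h1 _
    · simp
  have hL1 : |L| ≤ 1 := by
    rw [hL]; unfold mn
    rw [abs_div, abs_of_nonneg (by positivity : (0 : ℝ) ≤ ((2 ^ j * M : ℕ) : ℝ)),
      div_le_one (by
        have : 0 < 2 ^ j * M := Nat.mul_pos (by positivity) hM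
        exact_mod_cast this)]
    refine (abs_sum_le_sum_abs _ _).trans ?_
    calc ∑ i ∈ range (2 ^ j * M), |F i| ≤ ∑ _i ∈ range (2 ^ j * M), (1 : ℝ) := sum_le_sum fun i _ => hF1 _
      _ = _ := by simp
  have hHM : 1 ≤ 2 ^ j * M := Nat.succ_le_of_lt (Nat.mul_pos (by positivity) hM)
  have hA := law_prime hT hκ hF1 (H := 2 ^ j * M) hHM (cop2 hc3) (Fj_per hh) (c := c / 4) (by positivity)
  set G : ℤ → ℝ := fun y => if od 1 j y < a then 1 else 0 with hG
  have hG1 : ∀ x, |G x| ≤ 1 := by intro x; rw [hG]; dsimp only; split_ifs <;> simp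
  have hB := law_prime hT hκ hG1 (H := 2 ^ j) Nat.one_le_two_pow (by
    have := cop2 (j := j) (M := 1) (by norm_num)
    rwa [mul_one] at this) (fun x z => by
      rw [hG]; dsimp only
      have : x + ((2 ^ j : ℕ) : ℤ) * z = x + 2 ^ j * z := by push_cast; ring
      rw [this, od_shift]) (c := c / 4) (by positivity)
  have hS := few_small (α := Wt) (8 * j / c) (c := c / 4) (by positivity)
  have hAB := hA.union hB (B'' := fun (w : Wt) n => (∃ t : ℕ, (t : ℝ) ≤ κ * Real.log |(n : ℝ)| ∧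
      c / 4 * Real.log |(n : ℝ)| < |∑ k ∈ range t, w.1 (k + j) * (F (T^[k] n) - L)|) ∨
      (∃ t : ℕ, (t : ℝ) ≤ κ * Real.log |(n : ℝ)| ∧
      c / 4 * Real.log |(n : ℝ)| < |∑ k ∈ range t, 1 * (G (T^[k] n) - mn G (2 ^ j))|))
      (fun w => ⟨fun k => w.1 (k + j), fun k => w.2 _⟩) (fun _ => ⟨fun _ => 1, fun _ => by simp⟩)
      (fun w n _ hb => hb)
  have hABS := hAB.union hS (B'' := fun (w : Wt) n => ∃ t : ℕ, (t : ℝ) ≤ κ * Real.log |(n : ℝ)| ∧
    c * Real.log |(n : ℝ)| < |∑ k ∈ range t, w.1 k * (h (T^[k] n) - L)|) id id ?_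
  · exact hABS.mono (by linarith) id (fun _ _ _ hb => hb)
  · rintro w n hn0 ⟨t, ht, hb⟩
    by_contra hcon
    rw [not_or, not_or] at hcon
    obtain ⟨⟨hc1, hc2⟩, hc3⟩ := hcon
    push Not at hc1 hc2 hc3
    simp only [id] at hc1 hc2 hc3
    have hlog : 0 < Real.log |(n : ℝ)| := lt_of_le_of_lt (by positivity) hc3
    have hjl : 2 * j ≤ c / 4 * Real.log |(n : ℝ)| := by
      rw [div_lt_iff₀ hc] at hc3
      linarith
    -- a trivial bound for a single term
    have hterm : ∀ (k : ℕ) (x : ℤ), |w.1 k * (h x - L)| ≤ 2 := by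
      intro k x
      rw [abs_mul]
      calc |w.1 k| * |h x - L| ≤ 1 * 2 := by
            apply mul_le_mul (w.2 k) _ (abs_nonneg _) zero_le_one
            exact (abs_sub _ _).trans (by linarith [h1 x])
        _ = 2 := one_mul 2
    rcases le_or_gt t j with htj | htj
    · have : |∑ k ∈ range t, w.1 k * (h (T^[k] n) - L)| ≤ 2 * j := by
        refine (abs_sum_le_sum_abs _ _).trans ?_
        calc ∑ k ∈ range t, |w.1 k * (h (T^[k] n) - L)| ≤ ∑ _k ∈ range t, (2 : ℝ) :=
              sum_le_sum fun k _ => hterm _ _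
          _ = 2 * t := by rw [sum_const, card_range, nsmul_eq_mul]; ring
          _ ≤ 2 * j := by
              have : (t : ℝ) ≤ j := by exact_mod_cast htj
              linarith
      have h3 : 0 < c * Real.log |(n : ℝ)| := by positivity
      linarith
    · obtain ⟨s, rfl⟩ := Nat.exists_eq_add_of_lt htj
      set u := s + 1 with hu
      have hsplit : j + s + 1 = j + u := by omega
      rw [hsplit] at hb ht
      have htu : (u : ℝ) ≤ κ * Real.log |(n : ℝ)| := by
        push_cast at ht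
        have : (0 : ℝ) ≤ j := by positivity
        linarith
      have e1 := hc1 u htu
      have e2 := hc2 u htu
      have hd0 : mn G (2 ^ j) = dl a j := rfl
      have e3 : ∑ k ∈ range u, G (T^[k] n) ≤ c / 4 * Real.log |(n : ℝ)| + c / 4 * Real.log |(n : ℝ)| := by
        rw [abs_le] at e2
        have e4 : ∑ k ∈ range u, 1 * (G (T^[k] n) - mn G (2 ^ j)) = ∑ k ∈ range u, G (T^[k] n) - u * dl a j := by
          rw [hd0]
          simp only [one_mul]
          rw [sum_sub_distrib, sum_const, card_range, nsmul_eq_mul]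
        rw [e4] at e2
        have e5 : (u : ℝ) * dl a j ≤ c / 4 * Real.log |(n : ℝ)| := by
          have h0 : 0 ≤ dl a j := dl_nonneg a j
          calc (u : ℝ) * dl a j ≤ (8 * Real.log |(n : ℝ)|) * dl a j := by
                apply mul_le_mul_of_nonneg_right _ h0
                exact htu.trans (mul_le_mul_of_nonneg_right (kappa8 hκ) hlog.le)
            _ = (8 * dl a j) * Real.log |(n : ℝ)| := by ring
            _ ≤ _ := mul_le_mul_of_nonneg_right hj hlog.le
        linarith [e2.2]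
      have e6 : |∑ k ∈ range (j + u), w.1 k * (h (T^[k] n) - L)|
          ≤ 2 * j + (|∑ k ∈ range u, w.1 (k + j) * (F (T^[k] n) - L)| + ∑ k ∈ range u, G (T^[k] n)) := by
        rw [sum_range_add]
        refine (abs_add_le _ _).trans (add_le_add ?_ ?_)
        · refine (abs_sum_le_sum_abs _ _).trans ?_
          calc ∑ k ∈ range j, |w.1 k * (h (T^[k] n) - L)| ≤ ∑ _k ∈ range j, (2 : ℝ) :=
                sum_le_sum fun k _ => hterm _ _
            _ = 2 * j := by rw [sum_const, card_range, nsmul_eq_mul]; ring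
        · have e7 : ∑ x ∈ range u, w.1 (j + x) * (h (T^[j + x] n) - L)
              = ∑ k ∈ range u, w.1 (k + j) * (F (T^[k] n) - L)
                + ∑ k ∈ range u, w.1 (k + j) * (h (T^[j + k] n) - F (T^[k] n)) := by
            rw [← sum_add_distrib]
            apply sum_congr rfl
            intro k _
            rw [add_comm j k]; ring
          rw [e7]
          refine (abs_add_le _ _).trans (add_le_add le_rfl ?_)
          refine (abs_sum_le_sum_abs _ _).trans (sum_le_sum fun k _ => ?_)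
          rw [abs_mul]
          have e8 : |h (T^[j + k] n) - F (T^[k] n)| ≤ G (T^[k] n) := by
            rw [Function.iterate_add_apply, hFd, hG, hT1]
            unfold Fj
            dsimp only
            by_cases h9 : a ≤ od 1 j ((Tz 1)^[k] n)
            · rw [if_pos h9, if_neg (by omega), sub_self, abs_zero]
            · rw [if_neg h9, if_pos (by omega), sub_zero]
              exact h1 _
          calc |w.1 (k + j)| * |h (T^[j + k] n) - F (T^[k] n)| ≤ 1 * G (T^[k] n) :=
                mul_le_mul (w.2 _) e8 (abs_nonneg _) zero_le_one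
            _ = _ := one_mul _
      have h3 : 0 < c * Real.log |(n : ℝ)| := by positivity
      linarith

/-- multiples of three are visited rarely -/
theorem three_rare {T : ℤ → ℤ} (hT : ∀ x, T x = if x % 2 = 0 then x / 2 else (3 * x + 1) / 2)
    {κ : ℝ} (hκ : κ < 2 / Real.log (4 / 3)) {c : ℝ} (hc : 0 < c) :
    Ap T (fun x => if x % 3 = 0 then 1 else 0) κ 0 c := by
  obtain ⟨j, hj⟩ : ∃ j, dl 1 j < c / 32 := by
    have := (dl_tendsto 1).eventually (gt_mem_nhds (by positivity : (0 : ℝ) < c / 32))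
    exact this.exists
  have hper : ∀ x z : ℤ, (fun x : ℤ => if x % 3 = 0 then (1 : ℝ) else 0) (x + (3 ^ 1 * 1 : ℕ) * z)
      = (fun x : ℤ => if x % 3 = 0 then (1 : ℝ) else 0) x := by
    intro x z
    have h3 : (x + (3 ^ 1 * 1 : ℕ) * z) % 3 = x % 3 := by push_cast; omega
    beta_reduce
    rw [h3]
  have h := law_per hT hκ (h := fun x => if x % 3 = 0 then (1 : ℝ) else 0) (by
    intro x; split_ifs <;> simp) (a := 1) (j := j) (M := 1) le_rfl (by norm_num) hper hc (by linarith)
  have h0 : mn (Fj (fun x => if x % 3 = 0 then (1 : ℝ) else 0) 1 j) (2 ^ j * 1) = 0 := by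
    have hz : ∀ (j : ℕ) (y : ℤ), 1 ≤ od 1 j y → (Tz 1)^[j] y % 3 ≠ 0 := by
      intro j
      induction j with
      | zero => intro y hy; simp [od] at hy
      | succ j ih =>
        intro y hy
        rw [od_succ] at hy
        rw [Function.iterate_succ_apply']
        rcases Nat.eq_zero_or_pos (od 1 j y) with h2 | h2
        · have h3 : (Tz 1)^[j] y % 2 = 1 := by omega
          unfold Tz at *
          rw [if_neg (by omega)]
          omega
        · have h3 := ih y h2
          set x := (Tz 1)^[j] y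
          unfold Tz
          split_ifs <;> omega
    unfold mn
    rw [sum_eq_zero, zero_div]
    intro i _
    unfold Fj
    by_cases h2 : 1 ≤ od 1 j (i : ℤ)
    · rw [if_pos h2]
      beta_reduce
      rw [if_neg (hz j _ h2)]
    · rw [if_neg h2]
  rwa [h0] at h

end Pool.Agent.R344.SP
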