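import Pool.Agent.R344.SP.MB

/-! Mean values along trajectories, part C: functions which are limits of periodic functions. -/

set_option autoImplicit false

namespace Pool.Agent.R344.SP

open Finset Filter Topology
open Pool.Agent.H499R2.CO (Tz)

/-- closeness in the mean -/
def Near (g h : ℤ → ℝ) (η : ℝ) : Prop :=
  ∃ X₀ : ℕ, ∀ X : ℕ, X₀ ≤ X → ∑ x ∈ Icc (-(X : ℤ)) X, |g x - h x| ≤ η * X

theorem log_abs_nonneg (n : ℤ) : 0 ≤ Real.log |(n : ℝ)| := by
  rcases eq_or_ne n 0 with rfl | h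
  · simp
  · apply Real.log_nonneg
    have : 1 ≤ |n| := Int.one_le_abs h
    exact_mod_cast this

theorem Ap.mono {T : ℤ → ℤ} {g : ℤ → ℝ} {κ κ' L c c' : ℝ} (h : Ap T g κ L c) (hκ : κ' ≤ κ) (hc : c ≤ c') :
    Ap T g κ' L c' := by
  refine Few.mono h hc id ?_
  rintro w n _ ⟨t, ht, hb⟩
  have := log_abs_nonneg n
  exact ⟨t, ht.trans (mul_le_mul_of_nonneg_right hκ this),
    lt_of_le_of_lt (mul_le_mul_of_nonneg_right hc this) hb⟩

/-- change of the limit -/
theorem Ap.shift {T : ℤ → ℤ} {g : ℤ → ℝ} {κ L L' c : ℝ} (h : Ap T g κ L c) (hκ : κ ≤ 8) (hc : 0 ≤ c)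
    (hL : |L - L'| ≤ c) : Ap T g κ L' (9 * c) := by
  refine Few.mono h (by linarith) id ?_
  rintro w n _ ⟨t, ht, hb⟩
  have hlog := log_abs_nonneg n
  refine ⟨t, ht, ?_⟩
  have e1 : ∑ k ∈ range t, w.1 k * (g (T^[k] n) - L')
      = ∑ k ∈ range t, w.1 k * (g (T^[k] n) - L) + ∑ k ∈ range t, w.1 k * (L - L') := by
    rw [← sum_add_distrib]
    apply sum_congr rfl
    intro k _
    ring
  have e2 : |∑ k ∈ range t, w.1 k * (L - L')| ≤ 8 * c * Real.log |(n : ℝ)| := by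
    refine (abs_sum_le_sum_abs _ _).trans ?_
    calc ∑ k ∈ range t, |w.1 k * (L - L')| ≤ ∑ _k ∈ range t, c := by
          apply sum_le_sum
          intro k _
          rw [abs_mul]
          calc |w.1 k| * |L - L'| ≤ 1 * c := mul_le_mul (w.2 k) hL (abs_nonneg _) zero_le_one
            _ = c := one_mul c
      _ = t * c := by rw [sum_const, card_range, nsmul_eq_mul]
      _ ≤ (8 * Real.log |(n : ℝ)|) * c := by
          apply mul_le_mul_of_nonneg_right _ hc
          exact ht.trans (mul_le_mul_of_nonneg_right hκ hlog)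
      _ = _ := by ring
  rw [e1] at hb
  have e3 := abs_add_le (∑ k ∈ range t, w.1 k * (g (T^[k] n) - L)) (∑ k ∈ range t, w.1 k * (L - L'))
  simp only [id]
  linarith

theorem few_false {α : Type} [Inhabited α] {c : ℝ} (hc : c < 1) (h : Few (α := α) c (fun _ _ => True)) : False := by
  obtain ⟨N₀, h⟩ := h
  have h1 := h (max N₀ 1) (le_max_left _ _) default
  set N := max N₀ 1 with hN
  have hN1 : 1 ≤ N := le_max_right _ _
  have hle : N ≤ Set.ncard {n : ℤ | n ≠ 0 ∧ |n| ≤ N ∧ True} := by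
    have h2 : (Set.Icc 1 N).ncard = N := by
      rw [← Finset.coe_Icc, Set.ncard_coe_finset, Nat.card_Icc]; omega
    have h5 := Set.ncard_le_ncard_of_injOn (s := Set.Icc 1 N) (t := {n : ℤ | n ≠ 0 ∧ |n| ≤ N ∧ True})
      (fun n : ℕ => (n : ℤ)) (by
        intro n hn
        rw [Set.mem_Icc] at hn
        refine ⟨by omega, ?_, trivial⟩
        rw [Nat.abs_cast]; exact_mod_cast hn.2) (by
        intro x _ y _ h
        simpa using h) (fin_box _ _)
    omega
  have h3 : (N : ℝ) ≤ c * N := by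
    refine le_trans ?_ h1
    exact_mod_cast hle
  have h4 : (0 : ℝ) < N := by exact_mod_cast hN1
  nlinarith

instance : Inhabited Wt := ⟨⟨fun _ => 1, fun _ => by simp⟩⟩

/-- two approximate laws -/
theorem Ap.close {T : ℤ → ℤ} {g : ℤ → ℝ} {κ κ' L L' c c' : ℝ} (h : Ap T g κ L c) (h' : Ap T g κ' L' c')
    (hκ : 1 ≤ κ) (hκ' : 1 ≤ κ') (hc : c + c' ≤ 1 / 2) : |L - L'| ≤ 2 * (c + c') := by
  by_contra hcon
  push Not at hcon
  have h1 := h.mono hκ le_rfl
  have h2 := h'.mono hκ' le_rfl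
  have h3 := few_small (α := Wt) 4 (c := 1 / 4) (by norm_num)
  have h12 := Few.union h1 h2 (B'' := fun (w : Wt) n => (∃ t : ℕ, (t : ℝ) ≤ 1 * Real.log |(n : ℝ)| ∧
      c * Real.log |(n : ℝ)| < |∑ k ∈ range t, w.1 k * (g (T^[k] n) - L)|) ∨
      (∃ t : ℕ, (t : ℝ) ≤ 1 * Real.log |(n : ℝ)| ∧
      c' * Real.log |(n : ℝ)| < |∑ k ∈ range t, w.1 k * (g (T^[k] n) - L')|)) id id (fun _ _ _ hb => hb)
  have h123 := Few.union h12 h3 (B'' := fun (_ : Wt) _ => True) (fun _ => default) id ?_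
  · exact few_false (by linarith) h123
  · intro w n _ _
    by_contra hbad
    rw [not_or, not_or] at hbad
    obtain ⟨⟨b1, b2⟩, b3⟩ := hbad
    push Not at b1 b2 b3
    set ℓ := Real.log |(n : ℝ)| with hℓ
    have hℓ4 : 4 < ℓ := b3
    have ht1 : (⌊ℓ⌋₊ : ℝ) ≤ 1 * ℓ := by rw [one_mul]; exact Nat.floor_le (by linarith)
    have ht2 : ℓ < (⌊ℓ⌋₊ : ℝ) + 1 := Nat.lt_floor_add_one _
    have c1 := b1 _ ht1
    have c2 := b2 _ ht1
    have hw : ∀ k, (default : Wt).1 k = 1 := fun _ => rfl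
    simp only [hw, one_mul] at c1 c2
    have c3 : ∑ k ∈ range ⌊ℓ⌋₊, (g (T^[k] n) - L') - ∑ k ∈ range ⌊ℓ⌋₊, (g (T^[k] n) - L)
        = ⌊ℓ⌋₊ * (L - L') := by
      rw [← sum_sub_distrib]
      simp only [sub_sub_sub_cancel_left]
      rw [sum_const, card_range, nsmul_eq_mul]
    have c4 : |(⌊ℓ⌋₊ : ℝ) * (L - L')| ≤ c' * ℓ + c * ℓ := by
      rw [← c3]
      exact (abs_sub _ _).trans (add_le_add c2 c1)
    rw [abs_mul, abs_of_nonneg (by positivity : (0 : ℝ) ≤ (⌊ℓ⌋₊ : ℝ))] at c4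
    have hcc : 0 ≤ c + c' ∨ c + c' < 0 := le_or_gt _ _
    have hD : 0 ≤ |L - L'| := abs_nonneg _
    rcases hcc with hcc | hcc
    · have c5 : ℓ / 2 ≤ (⌊ℓ⌋₊ : ℝ) := by linarith
      have c6 : ℓ / 2 * (2 * (c + c')) < (⌊ℓ⌋₊ : ℝ) * |L - L'| := by
        have hfl : (0 : ℝ) < (⌊ℓ⌋₊ : ℝ) := by linarith
        calc ℓ / 2 * (2 * (c + c')) ≤ (⌊ℓ⌋₊ : ℝ) * (2 * (c + c')) :=
              mul_le_mul_of_nonneg_right c5 (by linarith)
          _ < _ := mul_lt_mul_of_pos_left hcon hfl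
      nlinarith
    · have c5 : c' * ℓ + c * ℓ < 0 := by nlinarith
      have c6 : 0 ≤ (⌊ℓ⌋₊ : ℝ) * |L - L'| := by positivity
      linarith

/-- from a function to one which is close in the mean -/
theorem near_law {T : ℤ → ℤ} (hT : ∀ x, T x = if x % 2 = 0 then x / 2 else (3 * x + 1) / 2)
    {κ : ℝ} (hκ : κ < 2 / Real.log (4 / 3)) {c : ℝ} (hc : 0 < c) :
    ∃ η : ℝ, 0 < η ∧ ∀ (g h : ℤ → ℝ) (L : ℝ), (∀ x, |g x| ≤ 1) → (∀ x, |h x| ≤ 1) → Near g h η →
      Ap T h κ L (c / 2) → Ap T g κ L c := by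
  obtain ⟨ε₁, hε₁, hsets⟩ := sets_both hT hκ (ε := c / 16) (by positivity)
  set θ : ℝ := c / 32 with hθ
  have hθ0 : 0 < θ := by rw [hθ]; positivity
  refine ⟨ε₁ * θ, by positivity, fun g h L hg hh hnear hlaw => ?_⟩
  obtain ⟨X₀, hX₀⟩ := hnear
  have hB := hsets {x | θ < |g x - h x|} X₀ (by
    intro X hX
    have h1 := hX₀ X (by exact_mod_cast hX)
    have h2 : {x : ℤ | |x| ≤ X ∧ x ∈ {x | θ < |g x - h x|}}
        = ((Icc (-(X : ℤ)) X).filter (fun x => θ < |g x - h x|) : Finset ℤ) := by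
      ext x
      simp only [Set.mem_ofPred_eq, coe_filter, mem_Icc, abs_le]
    rw [h2, Set.ncard_coe_finset]
    have h3 : (((Icc (-(X : ℤ)) X).filter (fun x => θ < |g x - h x|)).card : ℝ) * θ
        ≤ ∑ x ∈ Icc (-(X : ℤ)) X, |g x - h x| := by
      rw [← nsmul_eq_mul, ← sum_const]
      refine le_trans (sum_le_sum (g := fun x => |g x - h x|) fun x hx => ?_)
        (sum_le_sum_of_subset_of_nonneg (filter_subset _ _) fun _ _ _ => abs_nonneg _)
      rw [mem_filter] at hx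
      exact hx.2.le
    have h4 : (((Icc (-(X : ℤ)) X).filter (fun x => θ < |g x - h x|)).card : ℝ) * θ ≤ (ε₁ * X) * θ := by
      refine h3.trans (h1.trans (le_of_eq (by ring)))
    exact le_of_mul_le_mul_right h4 hθ0)
  have hU := Few.union hlaw hB (B'' := fun (w : Wt) n => ∃ t : ℕ, (t : ℝ) ≤ κ * Real.log |(n : ℝ)| ∧
    c * Real.log |(n : ℝ)| < |∑ k ∈ range t, w.1 k * (g (T^[k] n) - L)|) id (fun _ => ()) ?_
  · exact Few.mono hU (by linarith) id (fun _ _ _ hb => hb)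
  · rintro w n hn0 ⟨t, ht, hb⟩
    by_contra hcon
    rw [not_or] at hcon
    obtain ⟨b1, b2⟩ := hcon
    push Not at b1 b2
    have c1 := b1 t ht
    have c2 := b2 t ht
    simp only [id] at c1
    have hlog := log_abs_nonneg n
    have e1 : ∑ k ∈ range t, w.1 k * (g (T^[k] n) - L)
        = ∑ k ∈ range t, w.1 k * (h (T^[k] n) - L) + ∑ k ∈ range t, w.1 k * (g (T^[k] n) - h (T^[k] n)) := by
      rw [← sum_add_distrib]
      apply sum_congr rfl
      intro k _
      ring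
    have e2 : |∑ k ∈ range t, w.1 k * (g (T^[k] n) - h (T^[k] n))|
        ≤ t * θ + 2 * (Set.ncard {k : ℕ | k < t ∧ T^[k] n ∈ {x | θ < |g x - h x|}} : ℝ) := by
      have h2 : {k : ℕ | k < t ∧ T^[k] n ∈ {x | θ < |g x - h x|}}
          = ((range t).filter (fun k => θ < |g (T^[k] n) - h (T^[k] n)|) : Finset ℕ) := by
        ext x
        simp only [Set.mem_ofPred_eq, coe_filter, mem_range]
      rw [h2, Set.ncard_coe_finset]
      refine (abs_sum_le_sum_abs _ _).trans ?_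
      calc ∑ k ∈ range t, |w.1 k * (g (T^[k] n) - h (T^[k] n))|
          ≤ ∑ k ∈ range t, (θ + 2 * (if θ < |g (T^[k] n) - h (T^[k] n)| then 1 else 0)) := by
            apply sum_le_sum
            intro k _
            rw [abs_mul]
            have h3 : |w.1 k| * |g (T^[k] n) - h (T^[k] n)| ≤ |g (T^[k] n) - h (T^[k] n)| := by
              calc |w.1 k| * |g (T^[k] n) - h (T^[k] n)| ≤ 1 * |g (T^[k] n) - h (T^[k] n)| :=
                    mul_le_mul_of_nonneg_right (w.2 k) (abs_nonneg _)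
                _ = _ := one_mul _
            refine h3.trans ?_
            split_ifs with h4
            · have : |g (T^[k] n) - h (T^[k] n)| ≤ 2 :=
                (abs_sub _ _).trans (by linarith [hg (T^[k] n), hh (T^[k] n)])
              linarith
            · linarith [not_lt.1 h4]
        _ = _ := by
            rw [sum_add_distrib, sum_const, card_range, nsmul_eq_mul, ← mul_sum, ← sum_filter, sum_const,
              nsmul_eq_mul, mul_one]
    have e3 : t * θ ≤ c / 4 * Real.log |(n : ℝ)| := by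
      calc t * θ ≤ (8 * Real.log |(n : ℝ)|) * θ := by
            apply mul_le_mul_of_nonneg_right _ hθ0.le
            exact ht.trans (mul_le_mul_of_nonneg_right (kappa8 hκ) hlog)
        _ = _ := by rw [hθ]; ring
    rw [e1] at hb
    have e4 := abs_add_le (∑ k ∈ range t, w.1 k * (h (T^[k] n) - L))
      (∑ k ∈ range t, w.1 k * (g (T^[k] n) - h (T^[k] n)))
    have e5 : 0 ≤ c * Real.log |(n : ℝ)| := by positivity
    have e6 : c / 2 * Real.log |(n : ℝ)| + (c / 4 * Real.log |(n : ℝ)| + 2 * (c / 16 * Real.log |(n : ℝ)|))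
        ≤ c * Real.log |(n : ℝ)| := by nlinarith
    linarith

theorem one_lt_crit : (1 : ℝ) < 2 / Real.log (4 / 3) := by
  have h0 : 0 < Real.log (4 / 3) := Real.log_pos (by norm_num)
  have h1 : Real.log (4 / 3) < 1 := by
    have h2 : Real.log (4 / 3 : ℝ) < 4 / 3 - 1 := Real.log_lt_sub_one_of_pos (by norm_num) (by norm_num)
    linarith
  rw [lt_div_iff₀ h0]
  linarith

/-- approximate laws imply a law -/
theorem exists_law {T : ℤ → ℤ} {g : ℤ → ℝ}
    (h : ∀ κ c : ℝ, κ < 2 / Real.log (4 / 3) → 0 < c → ∃ L, Ap T g κ L c) :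
    ∃ L, ∀ κ c : ℝ, κ < 2 / Real.log (4 / 3) → 0 < c → Ap T g κ L c := by
  have h1 : ∀ i : ℕ, ∃ L, Ap T g 1 L (1 / (i + 8)) := fun i => h 1 _ one_lt_crit (by positivity)
  choose L hL using h1
  have hsmall : ∀ i : ℕ, (1 : ℝ) / (i + 8) ≤ 1 / 8 := by
    intro i
    apply one_div_le_one_div_of_le (by norm_num)
    have : (0 : ℝ) ≤ i := by positivity
    linarith
  have hcau : CauchySeq L := by
    apply cauchySeq_of_le_tendsto_0 (fun N : ℕ => 4 * (1 / ((N : ℝ) + 8)))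
    · intro n m N hn hm
      rw [Real.dist_eq]
      have h1 := (hL n).close (hL m) le_rfl le_rfl (by linarith [hsmall n, hsmall m])
      have h2 : (1 : ℝ) / (n + 8) ≤ 1 / (N + 8) := by
        apply one_div_le_one_div_of_le (by positivity)
        have : (N : ℝ) ≤ n := by exact_mod_cast hn
        linarith
      have h3 : (1 : ℝ) / (m + 8) ≤ 1 / (N + 8) := by
        apply one_div_le_one_div_of_le (by positivity)
        have : (N : ℝ) ≤ m := by exact_mod_cast hm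
        linarith
      linarith
    · have h1 : Tendsto (fun N : ℕ => (1 : ℝ) / ((N : ℝ) + 8)) atTop (𝓝 0) := by
        have := (tendsto_const_div_atTop_nhds_zero_nat (1 : ℝ)).comp (tendsto_add_atTop_nat 8)
        refine this.congr fun N => ?_
        simp
      have := h1.const_mul 4
      rwa [mul_zero] at this
  obtain ⟨L', hL'⟩ := cauchySeq_tendsto_of_complete hcau
  refine ⟨L', fun κ c hκ hc => ?_⟩
  set κ' := max κ 1 with hκ'
  have hκ'1 : 1 ≤ κ' := le_max_right _ _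
  have hκ'2 : κ' < 2 / Real.log (4 / 3) := max_lt hκ one_lt_crit
  set c' := min (c / 18) (1 / 8) with hc'
  have hc'0 : 0 < c' := by rw [hc']; positivity
  have hc'8 : c' ≤ 1 / 8 := min_le_right _ _
  have hc'c : 18 * c' ≤ c := by
    have := min_le_left (c / 18) (1 / 8 : ℝ)
    rw [← hc'] at this
    linarith
  obtain ⟨L₁, hL₁⟩ := h κ' c' hκ'2 hc'0
  have h1 : |L₁ - L'| ≤ 2 * c' := by
    have h2 : Tendsto (fun i : ℕ => |L₁ - L i|) atTop (𝓝 |L₁ - L'|) := (hL'.const_sub L₁).abs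
    have h3 : Tendsto (fun i : ℕ => 2 * (c' + (1 : ℝ) / ((i : ℝ) + 8))) atTop (𝓝 (2 * (c' + 0))) := by
      have h1 : Tendsto (fun N : ℕ => (1 : ℝ) / ((N : ℝ) + 8)) atTop (𝓝 0) := by
        have := (tendsto_const_div_atTop_nhds_zero_nat (1 : ℝ)).comp (tendsto_add_atTop_nat 8)
        refine this.congr fun N => ?_
        simp
      exact (h1.const_add c').const_mul 2
    rw [add_zero] at h3
    refine le_of_tendsto_of_tendsto' h2 h3 fun i => ?_
    exact hL₁.close (hL i) hκ'1 le_rfl (by linarith [hsmall i])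
  have h2 := (hL₁.mono le_rfl (by linarith : c' ≤ 2 * c')).shift (kappa8 hκ'2) (by positivity) h1
  exact h2.mono (le_max_left _ _) (by linarith)

/-- functions close in the mean to periodic functions have a mean along trajectories -/
theorem limit_periodic_law {T : ℤ → ℤ} (hT : ∀ x, T x = if x % 2 = 0 then x / 2 else (3 * x + 1) / 2)
    {g : ℤ → ℝ} (hg : ∀ x, |g x| ≤ 1)
    (h : ∀ η : ℝ, 0 < η → ∃ M : ℕ, 1 ≤ M ∧ ∃ h : ℤ → ℝ, (∀ x, |h x| ≤ 1) ∧ (∀ x, h (x + M) = h x) ∧ Near g h η) :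
    ∃ L, ∀ κ c : ℝ, κ < 2 / Real.log (4 / 3) → 0 < c → Ap T g κ L c := by
  apply exists_law
  intro κ c hκ hc
  obtain ⟨η, hη, hnl⟩ := near_law hT hκ hc
  obtain ⟨M, hM, f, hf1, hfp, hnear⟩ := h η hη
  have hfp' : ∀ (x z : ℤ), f (x + M * z) = f x := by
    intro x z
    have hp : Function.Periodic f (M : ℤ) := hfp
    have := (hp.int_mul z) x
    rwa [mul_comm] at this
  obtain ⟨a, M', hM3, rfl⟩ := Nat.exists_eq_pow_mul_and_not_dvd (by omega : M ≠ 0) 3 (by norm_num)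
  have hM' : 1 ≤ M' := by
    rcases Nat.eq_zero_or_pos M' with h | h
    · subst h; simp at hM
    · exact h
  have hcop : Nat.Coprime 3 M' := (Nat.Prime.coprime_iff_not_dvd (by norm_num)).2 hM3
  obtain ⟨j, hj⟩ : ∃ j, dl a j < c / 64 := by
    have := (dl_tendsto a).eventually (gt_mem_nhds (by positivity : (0 : ℝ) < c / 64))
    exact this.exists
  have hlaw := law_per hT hκ hf1 (a := a) (j := j) hM' hcop hfp' (c := c / 2) (by positivity) (by linarith)
  exact ⟨_, hnl g f _ hg hf1 hnear hlaw⟩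

theorem mn_abs {F : ℤ → ℝ} (hF : ∀ x, |F x| ≤ 1) {H : ℕ} (hH : 1 ≤ H) : |mn F H| ≤ 1 := by
  unfold mn
  have hH0 : (0 : ℝ) < H := by exact_mod_cast hH
  rw [abs_div, abs_of_pos hH0, div_le_one hH0]
  refine (abs_sum_le_sum_abs _ _).trans ?_
  calc ∑ i ∈ range H, |F i| ≤ ∑ _i ∈ range H, (1 : ℝ) := sum_le_sum fun i _ => hF _
    _ = _ := by simp

/-- sums of a periodic function over intervals -/
theorem per_interval {F : ℤ → ℝ} (hF1 : ∀ x, |F x| ≤ 1) {H : ℕ} (hH : 1 ≤ H)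
    (hF : ∀ x z, F (x + H * z) = F x) (X : ℕ) :
    |∑ x ∈ Icc (-(X : ℤ)) X, F x - mn F H * (2 * X + 1)| ≤ 2 * H := by
  have hH0 : (0 : ℝ) < H := by exact_mod_cast hH
  have h1 : ∑ x ∈ Icc (-(X : ℤ)) X, F x = ∑ i ∈ range (2 * X + 1), F (-(X : ℤ) + i) := by
    symm
    apply sum_nbij' (fun i : ℕ => -(X : ℤ) + i) (fun x => (x + X).toNat)
    · intro i hi
      rw [mem_range] at hi
      rw [mem_Icc]; constructor <;> omega
    · intro x hx
      rw [mem_Icc] at hx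
      rw [mem_range]; omega
    · intro i _
      omega
    · intro x hx
      rw [mem_Icc] at hx
      omega
    · intro i _; rfl
  have h2 : ∀ (q : ℕ) (x : ℤ), ∑ i ∈ range (H * q), (F (x + i) - mn F H) = 0 := by
    intro q
    induction q with
    | zero => intro x; simp
    | succ q ih =>
      intro x
      rw [mul_add, mul_one, sum_range_add, ih x, zero_add]
      have h3 := cover_sum hH hF (q := 1) isCoprime_one_left (x + (H * q : ℕ))
      have h4 : ∑ i ∈ range H, F (x + (H * q : ℕ) + 1 * i) = ∑ i ∈ range H, F (x + ((H * q + i : ℕ) : ℤ)) := by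
        apply sum_congr rfl
        intro i _
        congr 1
        push_cast; ring
      rw [sum_sub_distrib, ← h4, h3, sum_const, card_range, nsmul_eq_mul, mn]
      field_simp
      ring
  set n := 2 * X + 1 with hn
  have h5 : ∑ i ∈ range n, F (-(X : ℤ) + i) - mn F H * (2 * X + 1)
      = ∑ i ∈ range (n % H), (F (-(X : ℤ) + ((H * (n / H) + i : ℕ) : ℤ)) - mn F H) := by
    have h6 : ∑ i ∈ range n, F (-(X : ℤ) + i) - mn F H * (2 * X + 1)
        = ∑ i ∈ range n, (F (-(X : ℤ) + i) - mn F H) := by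
      rw [sum_sub_distrib, sum_const, card_range, nsmul_eq_mul, hn]
      push_cast; ring
    rw [h6]
    conv_lhs => rw [← Nat.div_add_mod n H]
    rw [sum_range_add, h2, zero_add]
  rw [h1, h5]
  refine (abs_sum_le_sum_abs _ _).trans ?_
  calc ∑ i ∈ range (n % H), |F (-(X : ℤ) + ((H * (n / H) + i : ℕ) : ℤ)) - mn F H|
      ≤ ∑ _i ∈ range (n % H), (2 : ℝ) := by
        apply sum_le_sum
        intro i _
        exact (abs_sub _ _).trans (by linarith [hF1 (-(X : ℤ) + ((H * (n / H) + i : ℕ) : ℤ)), mn_abs hF1 hH])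
    _ = (n % H : ℕ) * 2 := by rw [sum_const, card_range, nsmul_eq_mul]
    _ ≤ 2 * H := by
        have : ((n % H : ℕ) : ℝ) ≤ H := by exact_mod_cast (Nat.mod_lt n (by omega)).le
        linarith

/-- periods prime to three -/
theorem prime_law {T : ℤ → ℤ} (hT : ∀ x, T x = if x % 2 = 0 then x / 2 else (3 * x + 1) / 2)
    {g : ℤ → ℝ} (hg : ∀ x, |g x| ≤ 1) {κ : ℝ} (hκ : κ < 2 / Real.log (4 / 3)) {c : ℝ} (hc : 0 < c) :
    ∃ η : ℝ, 0 < η ∧ ∀ (M : ℕ) (h : ℤ → ℝ), 1 ≤ M → Nat.Coprime 3 M → (∀ x, |h x| ≤ 1) →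
      (∀ x, h (x + M) = h x) → Near g h η → Ap T g κ (mn h M) c := by
  obtain ⟨η, hη, hnl⟩ := near_law hT hκ hc
  refine ⟨η, hη, fun M f hM hcop hf1 hfp hnear => ?_⟩
  have hfp' : ∀ (x z : ℤ), f (x + M * z) = f x := by
    intro x z
    have hp : Function.Periodic f (M : ℤ) := hfp
    have := (hp.int_mul z) x
    rwa [mul_comm] at this
  exact hnl g f _ hg hf1 hnear (law_prime hT hκ hf1 hM hcop hfp' (by positivity))

theorem near_mean {g h : ℤ → ℝ} {η : ℝ} (hη : 0 < η) {M : ℕ} (hM : 1 ≤ M) (hf1 : ∀ x, |h x| ≤ 1)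
      (hfp : ∀ x, h (x + M) = h x) (hnear : Near g h η) :
    ∀ᶠ X : ℕ in atTop, |(∑ x ∈ Icc (-(X : ℤ)) X, g x) / (2 * X + 1) - mn h M| ≤ 2 * η := by
  have hfp' : ∀ (x z : ℤ), h (x + M * z) = h x := by
    intro x z
    have hp : Function.Periodic h (M : ℤ) := hfp
    have := (hp.int_mul z) x
    rwa [mul_comm] at this
  obtain ⟨X₀, hX₀⟩ := hnear
  obtain ⟨X₁, hX₁⟩ := exists_nat_ge (M / η)
  filter_upwards [eventually_ge_atTop (max X₀ X₁)] with X hX
  have h1 := hX₀ X (le_trans (le_max_left _ _) hX)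
  have h2 := per_interval hf1 hM hfp' X
  have h3 : M ≤ η * X := by
    have h4 : M / η ≤ X := hX₁.trans (by exact_mod_cast le_trans (le_max_right _ _) hX)
    rw [div_le_iff₀ hη] at h4
    linarith
  have hX0 : (0 : ℝ) ≤ X := by positivity
  have h5 : (0 : ℝ) < 2 * X + 1 := by positivity
  have h6 : (∑ x ∈ Icc (-(X : ℤ)) X, g x) / (2 * X + 1) - mn h M
      = ((∑ x ∈ Icc (-(X : ℤ)) X, (g x - h x)) + (∑ x ∈ Icc (-(X : ℤ)) X, h x - mn h M * (2 * X + 1)))
        / (2 * X + 1) := by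
    rw [sum_sub_distrib]
    field_simp
    ring
  rw [h6, abs_div, abs_of_pos h5, div_le_iff₀ h5]
  have h7 := abs_add_le (∑ x ∈ Icc (-(X : ℤ)) X, (g x - h x))
    (∑ x ∈ Icc (-(X : ℤ)) X, h x - mn h M * (2 * X + 1))
  have h8 : |∑ x ∈ Icc (-(X : ℤ)) X, (g x - h x)| ≤ η * X := (abs_sum_le_sum_abs _ _).trans h1
  nlinarith

/-- periods prime to three: the mean along trajectories is the ordinary mean -/
theorem limit_prime_law {T : ℤ → ℤ} (hT : ∀ x, T x = if x % 2 = 0 then x / 2 else (3 * x + 1) / 2)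
    {g : ℤ → ℝ} (hg : ∀ x, |g x| ≤ 1)
    (h : ∀ η : ℝ, 0 < η → ∃ M : ℕ, 1 ≤ M ∧ Nat.Coprime 3 M ∧ ∃ h : ℤ → ℝ, (∀ x, |h x| ≤ 1) ∧
      (∀ x, h (x + M) = h x) ∧ Near g h η) :
    ∃ L, Tendsto (fun X : ℕ => (∑ x ∈ Icc (-(X : ℤ)) X, g x) / (2 * X + 1)) atTop (𝓝 L) ∧
      ∀ κ c : ℝ, κ < 2 / Real.log (4 / 3) → 0 < c → Ap T g κ L c := by
  obtain ⟨L, hL⟩ := limit_periodic_law hT hg (fun η hη => by
    obtain ⟨M, hM, _, f, hf⟩ := h η hη
    exact ⟨M, hM, f, hf⟩)
  refine ⟨L, ?_, hL⟩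
  rw [Metric.tendsto_atTop]
  intro ε hε
  set c : ℝ := min (ε / 8) (1 / 4) with hc
  have hc0 : 0 < c := by rw [hc]; positivity
  have hcε : c ≤ ε / 8 := min_le_left _ _
  have hc4 : c ≤ 1 / 4 := min_le_right _ _
  obtain ⟨η, hη, hpl⟩ := prime_law hT hg one_lt_crit hc0
  set η' := min η c with hη'
  have hη'0 : 0 < η' := lt_min hη hc0
  obtain ⟨M, hM, hcop, f, hf1, hfp, X₀, hnear⟩ := h η' hη'0
  have h1 := hpl M f hM hcop hf1 hfp ⟨X₀, fun X hX => (hnear X hX).trans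
    (mul_le_mul_of_nonneg_right (min_le_left _ _) (by positivity))⟩
  have h2 := h1.close (hL 1 c one_lt_crit hc0) le_rfl le_rfl (by linarith)
  have h3 := near_mean hη'0 hM hf1 hfp ⟨X₀, hnear⟩
  obtain ⟨X₁, hX₁⟩ := eventually_atTop.1 h3
  refine ⟨X₁, fun X hX => ?_⟩
  have h4 := hX₁ X hX
  have h5 : η' ≤ c := min_le_right _ _
  rw [Real.dist_eq]
  have h6 := abs_sub_le ((∑ x ∈ Icc (-(X : ℤ)) X, g x) / (2 * X + 1)) (mn f M) L
  have h7 : c < ε := by linarith
  linarith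

end Pool.Agent.R344.SP
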