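import Pool.Agent.R344.SP.MC

/-! Mean values along trajectories, part D: squarefree terms. -/

set_option autoImplicit false

namespace Pool.Agent.R344.SP

open Finset Filter Topology
open Pool.Agent.H499R2.CO (Tz)

theorem sum_blocks (F : ℤ → ℝ) (a : ℕ) : ∀ b : ℕ,
    ∑ y ∈ range (a * b), F y = ∑ i ∈ range b, ∑ r ∈ range a, F ((r : ℤ) + a * i)
  | 0 => by simp
  | b + 1 => by
    rw [mul_add, mul_one, sum_range_add, sum_blocks F a b, sum_range_succ]
    congr 1
    apply sum_congr rfl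
    intro r _
    congr 1
    push_cast; ring

theorem mn_mul {f g : ℤ → ℝ} {a b : ℕ} (ha : 1 ≤ a) (hb : 1 ≤ b) (hab : Nat.Coprime a b)
    (hf : ∀ x z, f (x + a * z) = f x) (hg : ∀ x z, g (x + b * z) = g x) :
    mn (fun x => f x * g x) (a * b) = mn f a * mn g b := by
  have ha0 : (a : ℝ) ≠ 0 := by
    have : a ≠ 0 := by omega
    exact_mod_cast this
  have hb0 : (b : ℝ) ≠ 0 := by
    have : b ≠ 0 := by omega
    exact_mod_cast this
  unfold mn
  rw [sum_blocks (fun x => f x * g x), sum_comm]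
  have h1 : ∀ r ∈ range a, ∑ i ∈ range b, f ((r : ℤ) + a * i) * g ((r : ℤ) + a * i)
      = f r * ∑ i ∈ range b, g i := by
    intro r _
    have h2 := cover_sum hb hg (q := (a : ℤ)) (Nat.isCoprime_iff_coprime.2 hab) (r : ℤ)
    rw [← h2, mul_sum]
    apply sum_congr rfl
    intro i _
    rw [hf]
  rw [sum_congr rfl h1, ← sum_mul]
  push_cast
  field_simp

/-- no square of a prime in `S` divides `x` -/
noncomputable def nsq (S : Finset ℕ) (x : ℤ) : ℝ := if ∀ p ∈ S, ¬ ((p : ℤ) ^ 2 ∣ x) then 1 else 0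

theorem nsq_abs (S : Finset ℕ) (x : ℤ) : |nsq S x| ≤ 1 := by
  unfold nsq; split_ifs <;> simp

theorem nsq_one {p : ℕ} (hp : 1 ≤ p) : mn (nsq {p}) (p ^ 2) = 1 - 1 / (p : ℝ) ^ 2 := by
  have hp0 : (0 : ℝ) < p := by exact_mod_cast hp
  have h1 : ∑ i ∈ range (p ^ 2), nsq {p} i = (p : ℝ) ^ 2 - 1 := by
    have h2 : 0 < p ^ 2 := by positivity
    obtain ⟨m, hm⟩ : ∃ m, p ^ 2 = m + 1 := ⟨p ^ 2 - 1, by omega⟩
    rw [hm, sum_range_succ']
    have h3 : ∀ i ∈ range m, nsq {p} ((i + 1 : ℕ) : ℤ) = 1 := by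
      intro i hi
      rw [mem_range] at hi
      unfold nsq
      rw [if_pos]
      intro q hq
      rw [mem_singleton] at hq
      subst hq
      intro hd
      have h4 : q ^ 2 ∣ i + 1 := by exact_mod_cast hd
      have h5 := Nat.le_of_dvd (by omega) h4
      omega
    rw [sum_congr rfl h3]
    have h6 : nsq {p} ((0 : ℕ) : ℤ) = 0 := by
      unfold nsq
      rw [if_neg]
      push Not
      exact ⟨p, mem_singleton_self _, by simp⟩
    rw [h6]
    have h7 : (p : ℝ) ^ 2 = m + 1 := by exact_mod_cast hm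
    rw [h7]; simp
  unfold mn
  rw [h1]
  push_cast
  field_simp

theorem nsq_insert {S : Finset ℕ} {p : ℕ} (x : ℤ) : nsq (insert p S) x = nsq S x * nsq {p} x := by
  unfold nsq
  by_cases h1 : ∀ q ∈ S, ¬ ((q : ℤ) ^ 2 ∣ x)
  · by_cases h2 : (p : ℤ) ^ 2 ∣ x
    · rw [if_neg, if_pos h1, if_neg]
      · simp
      · push Not; exact ⟨p, mem_singleton_self _, h2⟩
      · push Not; exact ⟨p, mem_insert_self _ _, h2⟩
    · rw [if_pos, if_pos h1, if_pos]
      · simp
      · intro q hq; rw [mem_singleton] at hq; subst hq; exact h2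
      · intro q hq
        rw [mem_insert] at hq
        rcases hq with rfl | hq
        · exact h2
        · exact h1 q hq
  · rw [if_neg, if_neg h1, zero_mul]
    intro h3
    exact h1 fun q hq => h3 q (mem_insert_of_mem hq)

theorem nsq_per (S : Finset ℕ) (x z : ℤ) : nsq S (x + (∏ p ∈ S, p ^ 2 : ℕ) * z) = nsq S x := by
  unfold nsq
  have : (∀ p ∈ S, ¬ ((p : ℤ) ^ 2 ∣ x + (∏ p ∈ S, p ^ 2 : ℕ) * z)) ↔ ∀ p ∈ S, ¬ ((p : ℤ) ^ 2 ∣ x) := by
    apply forall₂_congr
    intro p hp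
    rw [not_iff_not]
    have h1 : ((p : ℤ) ^ 2) ∣ (∏ p ∈ S, p ^ 2 : ℕ) * z := by
      apply Dvd.dvd.mul_right
      have : p ^ 2 ∣ ∏ p ∈ S, p ^ 2 := dvd_prod_of_mem (fun p => p ^ 2) hp
      exact_mod_cast this
    constructor
    · intro h; exact (dvd_add_left h1).1 h
    · intro h; exact dvd_add h h1
  simp only [this]

theorem nsq_mean (S : Finset ℕ) (hS : ∀ p ∈ S, p.Prime) :
    mn (nsq S) (∏ p ∈ S, p ^ 2) = ∏ p ∈ S, (1 - 1 / (p : ℝ) ^ 2) := by
  induction S using Finset.induction_on with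
  | empty =>
    unfold mn nsq
    simp
  | insert p S hp ih =>
    have h1 : ∀ q ∈ S, q.Prime := fun q hq => hS q (mem_insert_of_mem hq)
    have hpp : p.Prime := hS p (mem_insert_self _ _)
    rw [prod_insert hp, prod_insert hp, ← ih h1, ← nsq_one hpp.one_lt.le, mul_comm (p ^ 2),
      mul_comm (mn (nsq {p}) (p ^ 2))]
    have h2 : mn (nsq (insert p S)) ((∏ q ∈ S, q ^ 2) * p ^ 2)
        = mn (fun x => nsq S x * nsq {p} x) ((∏ q ∈ S, q ^ 2) * p ^ 2) := by
      congr 1
      funext x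
      exact nsq_insert x
    rw [h2]
    apply mn_mul
    · apply Nat.succ_le_of_lt
      apply prod_pos
      intro q hq
      have := (h1 q hq).pos
      positivity
    · have := hpp.pos
      exact Nat.succ_le_of_lt (by positivity)
    · apply Nat.Coprime.prod_left
      intro q hq
      apply Nat.Coprime.pow
      rw [Nat.coprime_primes (h1 q hq) hpp]
      rintro rfl
      exact hp hq
    · exact nsq_per S
    · intro x z
      have := nsq_per {p} x z
      rwa [prod_singleton] at this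

/-- the primes below `n` other than three -/
def Pn (n : ℕ) : Finset ℕ := (Nat.primesBelow n).erase 3

theorem Pn_tendsto : Tendsto (fun n : ℕ => ∏ p ∈ Pn n, (1 - 1 / (p : ℝ) ^ 2)) atTop
    (𝓝 (27 / (4 * Real.pi ^ 2))) := by
  have h1 := riemannZeta_eulerProduct (s := 2) (by norm_num)
  rw [riemannZeta_two] at h1
  have h2 : Tendsto (fun n : ℕ => ∏ p ∈ Nat.primesBelow n, (1 - 1 / (p : ℝ) ^ 2)⁻¹) atTop
      (𝓝 (Real.pi ^ 2 / 6)) := by
    have h3 := (Complex.continuous_re.tendsto _).comp h1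
    have h4 : ((Real.pi : ℂ) ^ 2 / 6).re = Real.pi ^ 2 / 6 := by
      have : (Real.pi : ℂ) ^ 2 / 6 = ((Real.pi ^ 2 / 6 : ℝ) : ℂ) := by push_cast; rfl
      rw [this, Complex.ofReal_re]
    rw [h4] at h3
    refine h3.congr fun n => ?_
    have h5 : ∏ p ∈ Nat.primesBelow n, (1 - (p : ℂ) ^ (-(2 : ℂ)))⁻¹
        = ((∏ p ∈ Nat.primesBelow n, (1 - 1 / (p : ℝ) ^ 2)⁻¹ : ℝ) : ℂ) := by
      push_cast
      apply prod_congr rfl
      intro p _
      rw [Complex.cpow_neg, show (2 : ℂ) = ((2 : ℕ) : ℂ) by norm_num, Complex.cpow_natCast, one_div]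
    simp only [Function.comp]
    rw [h5, Complex.ofReal_re]
  have h3 : Tendsto (fun n : ℕ => (9 / 8 : ℝ) * (∏ p ∈ Nat.primesBelow n, (1 - 1 / (p : ℝ) ^ 2)⁻¹)⁻¹) atTop
      (𝓝 (9 / 8 * (Real.pi ^ 2 / 6)⁻¹)) := (h2.inv₀ (by positivity)).const_mul _
  have h4 : 9 / 8 * (Real.pi ^ 2 / 6)⁻¹ = 27 / (4 * Real.pi ^ 2) := by
    have := Real.pi_pos
    field_simp
    ring
  rw [h4] at h3
  refine h3.congr' ?_
  filter_upwards [eventually_gt_atTop 3] with n hn
  have h5 : 3 ∈ Nat.primesBelow n := by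
    rw [Nat.mem_primesBelow]; exact ⟨hn, by norm_num⟩
  unfold Pn
  rw [← mul_prod_erase _ _ h5, mul_inv, prod_inv_distrib, inv_inv, inv_inv, ← mul_assoc]
  norm_num

open scoped Classical in
/-- the indicator function of the integers not divisible by squares of primes other than three -/
noncomputable def S3 (x : ℤ) : ℝ := if ∀ p : ℕ, p.Prime → p ≠ 3 → ¬ ((p : ℤ) ^ 2 ∣ x) then 1 else 0

theorem S3_abs (x : ℤ) : |S3 x| ≤ 1 := by unfold S3; split_ifs <;> simp

theorem mult_count (X m : ℕ) (hm : 1 ≤ m) :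
    (((Icc (-(X : ℤ)) X).filter (fun x => x ≠ 0 ∧ (m : ℤ) ∣ x)).card : ℝ) ≤ 2 * X / m := by
  have hm0 : (0 : ℝ) < m := by exact_mod_cast hm
  have hsub : (Icc (-(X : ℤ)) X).filter (fun x => x ≠ 0 ∧ (m : ℤ) ∣ x)
      ⊆ (Icc 1 (X / m)).image (fun i : ℕ => (m : ℤ) * i) ∪ (Icc 1 (X / m)).image (fun i : ℕ => -((m : ℤ) * i)) := by
    intro x hx
    rw [mem_filter, mem_Icc] at hx
    obtain ⟨⟨h1, h2⟩, h3, y, rfl⟩ := hx
    have hmz : (0 : ℤ) < m := by exact_mod_cast hm
    have hy0 : y ≠ 0 := by rintro rfl; simp at h3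
    have hyle : y.natAbs ≤ X / m := by
      rw [Nat.le_div_iff_mul_le (by omega)]
      have : |(m : ℤ) * y| ≤ X := by rw [abs_le]; exact ⟨h1, h2⟩
      rw [abs_mul, Nat.abs_cast] at this
      have h4 : ((y.natAbs * m : ℕ) : ℤ) ≤ (X : ℤ) := by
        push_cast
        rw [mul_comm]
        exact this
      exact_mod_cast h4
    have hy1 : 1 ≤ y.natAbs := by omega
    rw [mem_union, mem_image, mem_image]
    rcases lt_or_gt_of_ne hy0 with h | h
    · right
      refine ⟨y.natAbs, mem_Icc.2 ⟨hy1, hyle⟩, ?_⟩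
      have : (y.natAbs : ℤ) = -y := by
        rw [Int.natCast_natAbs, abs_of_neg h]
      rw [this]; ring
    · left
      refine ⟨y.natAbs, mem_Icc.2 ⟨hy1, hyle⟩, ?_⟩
      have : (y.natAbs : ℤ) = y := by
        rw [Int.natCast_natAbs, abs_of_pos h]
      rw [this]
  have h1 : ((Icc (-(X : ℤ)) X).filter (fun x => x ≠ 0 ∧ (m : ℤ) ∣ x)).card ≤ X / m + X / m := by
    refine (card_le_card hsub).trans ((card_union_le _ _).trans (Nat.add_le_add ?_ ?_))
    · refine card_image_le.trans ?_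
      rw [Nat.card_Icc, Nat.add_sub_cancel]
    · refine card_image_le.trans ?_
      rw [Nat.card_Icc, Nat.add_sub_cancel]
  have h2 : ((X / m : ℕ) : ℝ) ≤ (X : ℝ) / m := Nat.cast_div_le
  calc (((Icc (-(X : ℤ)) X).filter (fun x => x ≠ 0 ∧ (m : ℤ) ∣ x)).card : ℝ) ≤ ((X / m + X / m : ℕ) : ℝ) := by
        exact_mod_cast h1
    _ ≤ (X : ℝ) / m + X / m := by push_cast; linarith
    _ = _ := by ring

theorem S3_near {η : ℝ} (hη : 0 < η) : ∃ n₀ : ℕ, ∀ n ≥ n₀, Near S3 (nsq (Pn n)) η := by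
  obtain ⟨n₀, hn₀⟩ := exists_nat_ge (4 / η + 3)
  refine ⟨n₀, fun n hn => ?_⟩
  have hnn : 4 / η + 3 ≤ n := hn₀.trans (by exact_mod_cast hn)
  have hn3 : (3 : ℝ) ≤ n := by
    have : 0 ≤ 4 / η := by positivity
    linarith
  have hn1 : 3 ≤ n := by exact_mod_cast hn3
  obtain ⟨X₀, hX₀⟩ := exists_nat_ge (2 / η)
  refine ⟨X₀, fun X hX => ?_⟩
  have hXη : 1 ≤ η / 2 * X := by
    have : 2 / η ≤ X := hX₀.trans (by exact_mod_cast hX)
    rw [div_le_iff₀ hη] at this
    linarith
  have hpt : ∀ x ∈ Icc (-(X : ℤ)) X, |S3 x - nsq (Pn n) x|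
      ≤ (if x = 0 then 1 else 0) + ∑ m ∈ Ioc (n - 1) (max (n - 1) X), if x ≠ 0 ∧ ((m ^ 2 : ℕ) : ℤ) ∣ x then 1 else 0 := by
    intro x hx
    have hnn : 0 ≤ ∑ m ∈ Ioc (n - 1) (max (n - 1) X), (if x ≠ 0 ∧ ((m ^ 2 : ℕ) : ℤ) ∣ x then (1 : ℝ) else 0) :=
      sum_nonneg fun m _ => by split_ifs <;> norm_num
    have hd1 : |S3 x - nsq (Pn n) x| ≤ 1 := by
      unfold S3 nsq
      split_ifs <;> simp
    rcases eq_or_ne x 0 with h0 | h0
    · rw [if_pos h0]; linarith
    · rw [if_neg h0, zero_add]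
      by_cases heq : S3 x = nsq (Pn n) x
      · rw [heq, sub_self, abs_zero]; exact hnn
      · -- a large prime
        have hex : ∃ p : ℕ, p.Prime ∧ p ≠ 3 ∧ n ≤ p ∧ (p : ℤ) ^ 2 ∣ x := by
          by_contra hcon
          push Not at hcon
          apply heq
          unfold S3 nsq
          have : (∀ p : ℕ, p.Prime → p ≠ 3 → ¬ ((p : ℤ) ^ 2 ∣ x)) ↔ ∀ p ∈ Pn n, ¬ ((p : ℤ) ^ 2 ∣ x) := by
            constructor
            · intro h p hp
              unfold Pn at hp
              rw [mem_erase, Nat.mem_primesBelow] at hp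
              exact h p hp.2.2 hp.1
            · intro h p hp hp3
              rcases lt_or_ge p n with hlt | hge
              · apply h p
                unfold Pn
                rw [mem_erase, Nat.mem_primesBelow]
                exact ⟨hp3, hlt, hp⟩
              · exact hcon p hp hp3 hge
          simp only [this]
        obtain ⟨p, hp, hp3, hpn, hpd⟩ := hex
        rw [mem_Icc, ← abs_le] at hx
        have hpX : p ≤ X := by
          have h1 : (p : ℤ) ^ 2 ≤ |x| := Int.le_of_dvd (abs_pos.2 h0) ((dvd_abs _ _).2 hpd)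
          have h2 : p ^ 2 ≤ X := by
            have : ((p ^ 2 : ℕ) : ℤ) ≤ X := by push_cast; linarith
            exact_mod_cast this
          nlinarith [hp.pos]
        have hmem : p ∈ Ioc (n - 1) (max (n - 1) X) := by
          rw [mem_Ioc]
          exact ⟨by omega, le_trans hpX (le_max_right _ _)⟩
        calc |S3 x - nsq (Pn n) x| ≤ 1 := hd1
          _ = if x ≠ 0 ∧ ((p ^ 2 : ℕ) : ℤ) ∣ x then (1 : ℝ) else 0 := by
              rw [if_pos ⟨h0, by push_cast; exact hpd⟩]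
          _ ≤ _ := single_le_sum (f := fun m : ℕ => if x ≠ 0 ∧ ((m ^ 2 : ℕ) : ℤ) ∣ x then (1 : ℝ) else 0)
              (fun m _ => by split_ifs <;> norm_num) hmem
  have hX0 : (0 : ℝ) ≤ X := by positivity
  calc ∑ x ∈ Icc (-(X : ℤ)) X, |S3 x - nsq (Pn n) x|
      ≤ ∑ x ∈ Icc (-(X : ℤ)) X, ((if x = 0 then 1 else 0)
        + ∑ m ∈ Ioc (n - 1) (max (n - 1) X), if x ≠ 0 ∧ ((m ^ 2 : ℕ) : ℤ) ∣ x then (1 : ℝ) else 0) :=
        sum_le_sum hpt
    _ = (∑ x ∈ Icc (-(X : ℤ)) X, (if x = 0 then (1 : ℝ) else 0))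
        + ∑ m ∈ Ioc (n - 1) (max (n - 1) X),
          (((Icc (-(X : ℤ)) X).filter (fun x => x ≠ 0 ∧ ((m ^ 2 : ℕ) : ℤ) ∣ x)).card : ℝ) := by
        rw [sum_add_distrib, sum_comm]
        congr 1
        apply sum_congr rfl
        intro m _
        rw [← sum_filter, sum_const, nsmul_eq_mul, mul_one]
    _ ≤ 1 + ∑ m ∈ Ioc (n - 1) (max (n - 1) X), 2 * X * ((m : ℝ) ^ 2)⁻¹ := by
        apply add_le_add
        · rw [sum_ite_eq']
          split_ifs <;> norm_num
        · apply sum_le_sum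
          intro m hm
          rw [mem_Ioc] at hm
          have := mult_count X (m ^ 2) (by
            have : 0 < m := by omega
            exact Nat.succ_le_of_lt (by positivity))
          rw [div_eq_mul_inv] at this
          push_cast at this ⊢
          exact this
    _ ≤ 1 + 2 * X * ((n - 1 : ℕ) : ℝ)⁻¹ := by
        rw [← mul_sum]
        have h1 := sum_Ioc_inv_sq_le_sub (α := ℝ) (k := n - 1) (n := max (n - 1) X) (by omega) (le_max_left _ _)
        have h2 : (0 : ℝ) ≤ ((max (n - 1) X : ℕ) : ℝ)⁻¹ := by positivity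
        have h3 : ∑ i ∈ Ioc (n - 1) (max (n - 1) X), ((i : ℝ) ^ 2)⁻¹ ≤ ((n - 1 : ℕ) : ℝ)⁻¹ := by linarith
        have := mul_le_mul_of_nonneg_left h3 (by positivity : (0 : ℝ) ≤ 2 * X)
        linarith
    _ ≤ η * X := by
        have h1 : ((n - 1 : ℕ) : ℝ) = n - 1 := by push_cast [Nat.cast_sub (by omega : 1 ≤ n)]; ring
        have h2 : 4 / η ≤ ((n - 1 : ℕ) : ℝ) := by rw [h1]; linarith
        have h3 : ((n - 1 : ℕ) : ℝ)⁻¹ ≤ η / 4 := by
          rw [inv_le_comm₀ (by rw [h1]; linarith) (by positivity), inv_div]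
          exact h2
        have h4 := mul_le_mul_of_nonneg_left h3 (by positivity : (0 : ℝ) ≤ 2 * X)
        linarith

/-- the law for the squarefree terms -/
theorem squarefree_law {T : ℤ → ℤ} (hT : ∀ x, T x = if x % 2 = 0 then x / 2 else (3 * x + 1) / 2)
    {κ : ℝ} (hκ : κ < 2 / Real.log (4 / 3)) {c : ℝ} (hc : 0 < c) :
    Ap T (fun x => if Squarefree x.natAbs then 1 else 0) κ (27 / (4 * Real.pi ^ 2)) c := by
  set ρ : ℝ := 27 / (4 * Real.pi ^ 2) with hρ
  obtain ⟨η, hη, hpl⟩ := prime_law hT S3_abs hκ (c := c / 18) (by positivity)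
  obtain ⟨n₀, hn₀⟩ := S3_near hη
  have hlim := (Metric.tendsto_atTop.1 Pn_tendsto) (c / 18) (by positivity)
  obtain ⟨n₁, hn₁⟩ := hlim
  set n := max n₀ n₁ with hn
  have hprime : ∀ p ∈ Pn n, p.Prime := by
    intro p hp
    unfold Pn at hp
    rw [mem_erase, Nat.mem_primesBelow] at hp
    exact hp.2.2
  have hne3 : ∀ p ∈ Pn n, p ≠ 3 := by
    intro p hp
    unfold Pn at hp
    rw [mem_erase] at hp
    exact hp.1
  have h1 := hpl (∏ p ∈ Pn n, p ^ 2) (nsq (Pn n)) (by
      apply Nat.succ_le_of_lt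
      apply prod_pos
      intro q hq
      have := (hprime q hq).pos
      positivity) (by
      apply Nat.Coprime.prod_right
      intro q hq
      apply Nat.Coprime.pow_right
      rw [Nat.coprime_primes (by norm_num) (hprime q hq)]
      exact (hne3 q hq).symm) (nsq_abs _) (fun x => by
      have := nsq_per (Pn n) x 1
      rwa [mul_one] at this) (hn₀ n (le_max_left _ _))
  rw [nsq_mean _ hprime] at h1
  have h2 := hn₁ n (le_max_right _ _)
  rw [Real.dist_eq] at h2
  have h3 := h1.shift (kappa8 hκ) (by positivity) h2.le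
  have h4 := three_rare hT hκ (c := c / 4) (by positivity)
  have hU := Few.union h3 h4 (B'' := fun (w : Wt) n => ∃ t : ℕ, (t : ℝ) ≤ κ * Real.log |(n : ℝ)| ∧
    c * Real.log |(n : ℝ)| < |∑ k ∈ range t, w.1 k * ((fun x : ℤ => if Squarefree x.natAbs then (1 : ℝ) else 0)
      (T^[k] n) - ρ)|) id (fun _ => default) ?_
  · exact Few.mono hU (by linarith) id (fun _ _ _ hb => hb)
  · rintro w m hm0 ⟨t, ht, hb⟩
    by_contra hcon
    rw [not_or] at hcon
    obtain ⟨b1, b2⟩ := hcon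
    push Not at b1 b2
    have c1 := b1 t ht
    have c2 := b2 t ht
    simp only [id] at c1
    have hw : ∀ k, (default : Wt).1 k = 1 := fun _ => rfl
    simp only [hw, one_mul, sub_zero] at c2
    have hlog := log_abs_nonneg m
    have e1 : ∑ k ∈ range t, w.1 k * ((fun x : ℤ => if Squarefree x.natAbs then (1 : ℝ) else 0) (T^[k] m) - ρ)
        = ∑ k ∈ range t, w.1 k * (S3 (T^[k] m) - ρ)
          + ∑ k ∈ range t, w.1 k * ((if Squarefree (T^[k] m).natAbs then (1 : ℝ) else 0) - S3 (T^[k] m)) := by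
      rw [← sum_add_distrib]
      apply sum_congr rfl
      intro k _
      beta_reduce
      ring
    have e2 : ∀ x : ℤ, |(if Squarefree x.natAbs then (1 : ℝ) else 0) - S3 x| ≤ if x % 3 = 0 then 1 else 0 := by
      intro x
      unfold S3
      by_cases hs : Squarefree x.natAbs
      · have h5 : ∀ p : ℕ, p.Prime → p ≠ 3 → ¬ ((p : ℤ) ^ 2 ∣ x) := by
          intro p hp _ hd
          rw [Nat.squarefree_iff_prime_squarefree] at hs
          apply hs p hp
          have : ((p ^ 2 : ℕ) : ℤ) ∣ x := by push_cast; exact hd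
          have := Int.natCast_dvd.1 this
          rwa [sq] at this
        rw [if_pos hs, if_pos h5, sub_self, abs_zero]
        split_ifs <;> norm_num
      · rw [if_neg hs, zero_sub, abs_neg]
        by_cases h5 : ∀ p : ℕ, p.Prime → p ≠ 3 → ¬ ((p : ℤ) ^ 2 ∣ x)
        · rw [if_pos h5, abs_one]
          rw [Nat.squarefree_iff_prime_squarefree] at hs
          push Not at hs
          obtain ⟨p, hp, hd⟩ := hs
          have h6 : (p : ℤ) ^ 2 ∣ x := by
            rw [← sq] at hd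
            have := Int.natCast_dvd.2 hd
            push_cast at this
            exact this
          have hp3 : p = 3 := by
            by_contra h7
            exact h5 p hp h7 h6
          subst hp3
          have h7 : (3 : ℤ) ∣ x := dvd_trans (by norm_num) h6
          rw [if_pos (by omega)]
        · rw [if_neg h5, abs_zero]
          split_ifs <;> norm_num
    have e3 : |∑ k ∈ range t, w.1 k * ((if Squarefree (T^[k] m).natAbs then (1 : ℝ) else 0) - S3 (T^[k] m))|
        ≤ c / 4 * Real.log |(m : ℝ)| := by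
      refine (abs_sum_le_sum_abs _ _).trans (le_trans ?_ ((le_abs_self _).trans c2))
      apply sum_le_sum
      intro k _
      rw [abs_mul]
      calc |w.1 k| * |(if Squarefree (T^[k] m).natAbs then (1 : ℝ) else 0) - S3 (T^[k] m)|
          ≤ 1 * (if T^[k] m % 3 = 0 then 1 else 0) := mul_le_mul (w.2 k) (e2 _) (abs_nonneg _) zero_le_one
        _ = _ := one_mul _
    rw [e1] at hb
    have e4 := abs_add_le (∑ k ∈ range t, w.1 k * (S3 (T^[k] m) - ρ))
      (∑ k ∈ range t, w.1 k * ((if Squarefree (T^[k] m).natAbs then (1 : ℝ) else 0) - S3 (T^[k] m)))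
    have e5 : 0 ≤ c * Real.log |(m : ℝ)| := by positivity
    linarith

end Pool.Agent.R344.SP
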